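import Pool.Agent.Lib.MP_fd77c3_pr.SkeletonLaw

/-!
The expected volume of the Wiener sausage as a limit of the expected volumes of skeleton sausages.
-/

open MeasureTheory ProbabilityTheory Filter Topology
open scoped ENNReal NNReal

namespace Pool.Agent.Lib.MP_fd77c3_pr

/-- skeleton sausage: points within distance `< a` of the path at one of the times `jδ`, `j ≤ n`. -/
def skel {Ω : Type*} {d : ℕ} (B : ℝ≥0 → Ω → Eu d) (a : ℝ) (δ : ℝ≥0) (n : ℕ) (ω : Ω) : Set (Eu d) :=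
  {y | ∃ j ≤ n, dist y (B (j * δ) ω) < a}

/-- closed version -/
def cskel {Ω : Type*} {d : ℕ} (B : ℝ≥0 → Ω → Eu d) (a : ℝ) (δ : ℝ≥0) (n : ℕ) (ω : Ω) : Set (Eu d) :=
  {y | ∃ j ≤ n, dist y (B (j * δ) ω) ≤ a}

lemma measurableSet_cskel_prod {Ω : Type*} [MeasurableSpace Ω] {d : ℕ} {B : ℝ≥0 → Ω → Eu d}
    (hB : ∀ t, Measurable (B t)) (a : ℝ) (δ : ℝ≥0) (n : ℕ) :
    MeasurableSet {p : Ω × Eu d | p.2 ∈ cskel B a δ n p.1} := by
  have : {p : Ω × Eu d | p.2 ∈ cskel B a δ n p.1}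
      = ⋃ j ∈ Finset.range (n + 1), {p : Ω × Eu d | dist p.2 (B (j * δ) p.1) ≤ a} := by
    ext p
    simp [cskel]
  rw [this]
  refine Finset.measurableSet_biUnion _ fun j _ => ?_
  exact measurableSet_le (measurable_snd.dist ((hB _).comp measurable_fst)) measurable_const

lemma measurableSet_skel_prod {Ω : Type*} [MeasurableSpace Ω] {d : ℕ} {B : ℝ≥0 → Ω → Eu d}
    (hB : ∀ t, Measurable (B t)) (a : ℝ) (δ : ℝ≥0) (n : ℕ) :
    MeasurableSet {p : Ω × Eu d | p.2 ∈ skel B a δ n p.1} := by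
  have : {p : Ω × Eu d | p.2 ∈ skel B a δ n p.1}
      = ⋃ j ∈ Finset.range (n + 1), {p : Ω × Eu d | dist p.2 (B (j * δ) p.1) < a} := by
    ext p
    simp [skel]
  rw [this]
  refine Finset.measurableSet_biUnion _ fun j _ => ?_
  exact measurableSet_lt (measurable_snd.dist ((hB _).comp measurable_fst)) measurable_const

lemma vol_cskel_eq {Ω : Type*} {d : ℕ} (B : ℝ≥0 → Ω → Eu d) {a : ℝ} (ha : 0 < a) (δ : ℝ≥0) (n : ℕ)
    (ω : Ω) : volume (cskel B a δ n ω) = volume (skel B a δ n ω) := by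
  apply le_antisymm
  · have hsub : cskel B a δ n ω ⊆ skel B a δ n ω ∪ ⋃ j ∈ Finset.range (n + 1), Metric.sphere (B (j * δ) ω) a := by
      rintro y ⟨j, hj, hy⟩
      rcases lt_or_eq_of_le hy with h | h
      · exact Or.inl ⟨j, hj, h⟩
      · refine Or.inr ?_
        simp only [Set.mem_iUnion]
        exact ⟨j, Finset.mem_range.2 (by omega), h⟩
    refine (measure_mono hsub).trans ((measure_union_le _ _).trans ?_)
    have h0 : volume (⋃ j ∈ Finset.range (n + 1), Metric.sphere (B (j * δ) ω) a) = 0 := by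
      refine le_antisymm ((measure_biUnion_finset_le _ _).trans (le_of_eq ?_)) bot_le
      exact Finset.sum_eq_zero fun j _ => Measure.addHaar_sphere_of_ne_zero _ _ ha.ne'
    rw [h0, add_zero]
  · exact measure_mono fun y ⟨j, hj, hy⟩ => ⟨j, hj, hy.le⟩

lemma measurableSet_bl (d : ℕ) (a : ℝ) : MeasurableSet (bl d a) := by
  have h : Measurable fun x : Fin d → ℝ => ∑ i, x i ^ 2 :=
    Finset.measurable_sum _ fun i _ => (measurable_pi_apply i).pow_const 2
  exact measurableSet_le h measurable_const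

lemma bl_neg {d : ℕ} {a : ℝ} {x : Fin d → ℝ} : -x ∈ bl d a ↔ x ∈ bl d a := by
  simp [bl]

lemma dist_le_iff {d : ℕ} {a : ℝ} (ha : 0 < a) (y z : Eu d) :
    dist y z ≤ a ↔ (fun i => y i - z i) ∈ bl d a := by
  rw [EuclideanSpace.dist_eq, Real.sqrt_le_left ha.le]
  simp [bl, Real.dist_eq, sq_abs]

/-- telescoping -/
lemma sum_incr {Ω : Type*} {d : ℕ} (B : ℝ≥0 → Ω → Eu d) (δ : ℝ≥0) (n : ℕ) (ω : Ω) (i : Fin d) (j : ℕ)
    (hj : j ≤ n) :
    ∑ k ∈ Finset.univ.filter (fun k : Fin n => (k : ℕ) < j),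
      (B (((k : ℕ) + 1 : ℝ≥0) * δ) ω i - B ((k : ℕ) * δ) ω i) = B (j * δ) ω i - B 0 ω i := by
  have h1 : ∑ k ∈ Finset.univ.filter (fun k : Fin n => (k : ℕ) < j),
      (B (((k : ℕ) + 1 : ℝ≥0) * δ) ω i - B ((k : ℕ) * δ) ω i)
      = ∑ k ∈ Finset.range j, (B (((k : ℕ) + 1 : ℝ≥0) * δ) ω i - B ((k : ℕ) * δ) ω i) := by
    rw [Finset.sum_filter, Fin.sum_univ_eq_sum_range (fun k => if k < j then
      (B (((k : ℕ) + 1 : ℝ≥0) * δ) ω i - B ((k : ℕ) * δ) ω i) else 0) n, ← Finset.sum_filter]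
    refine Finset.sum_congr ?_ fun _ _ => rfl
    ext k
    simp
    omega
  rw [h1]
  have h2 := Finset.sum_range_sub (fun k : ℕ => B ((k : ℝ≥0) * δ) ω i) j
  simp only [Nat.cast_add, Nat.cast_one, Nat.cast_zero, zero_mul] at h2
  exact h2

lemma ae_zero {Ω : Type*} [MeasurableSpace Ω] {P : Measure Ω} {d : ℕ} {B : ℝ≥0 → Ω → Eu d}
    (hB : IsBM P B) : ∀ᵐ ω ∂P, ∀ i, B 0 ω i = 0 := by
  rw [ae_all_iff]
  intro i
  exact (hB.coord i).toIsPreBrownianReal.eval_zero_ae_eq_zero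

lemma prob_cskel {Ω : Type*} [MeasurableSpace Ω] {P : Measure Ω} [IsProbabilityMeasure P]
    {d : ℕ} {B : ℝ≥0 → Ω → Eu d} (hB : IsBM P B) {a : ℝ} (ha : 0 < a) (δ : ℝ≥0) (n : ℕ)
    (x : Fin d → ℝ) :
    P {ω | WithLp.toLp 2 (-x) ∈ cskel B a δ n ω} = ENNReal.ofReal (1 - surv (bl d a) (gs d δ) n 0 x) := by
  have hmB : ∀ t i, Measurable fun ω => B t ω i := by
    intro t i
    exact (EuclideanSpace.proj (𝕜 := ℝ) i).continuous.measurable.comp (hB.meas t)
  let η : Ω → Fin n → Fin d → ℝ := fun ω (j : Fin n) (i : Fin d) =>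
    B (((j : ℕ) + 1 : ℝ≥0) * δ) ω i - B ((j : ℕ) * δ) ω i
  have hη : Measurable η := by
    refine measurable_pi_iff.2 fun j => measurable_pi_iff.2 fun i => ?_
    exact (hmB _ i).sub (hmB _ i)
  have h1 : P {ω | WithLp.toLp 2 (-x) ∈ cskel B a δ n ω} = P {ω | miss (bl d a) n (η ω) x}ᶜ := by
    apply measure_congr
    filter_upwards [ae_zero hB] with ω h0
    apply propext
    change (∃ j ≤ n, dist (WithLp.toLp 2 (-x)) (B (j * δ) ω) ≤ a) ↔ ¬ miss (bl d a) n (η ω) x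
    rw [miss_iff]
    push Not
    refine exists_congr fun j => and_congr_right fun hj => ?_
    rw [dist_le_iff ha, ← bl_neg]
    have : (-fun i => (WithLp.toLp 2 (-x) : Eu d) i - B (j * δ) ω i)
        = x + ∑ k ∈ Finset.univ.filter (fun k : Fin n => (k : ℕ) < j), η ω k := by
      funext i
      have h2 := sum_incr B δ n ω i j hj
      rw [h0 i, sub_zero] at h2
      simp only [Pi.neg_apply, Pi.add_apply, Finset.sum_apply]
      rw [← h2]
      simp [η]
      ring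
    rw [this]
  have hms : MeasurableSet {ω | miss (bl d a) n (η ω) x} := by
    have : Measurable fun ω => (η ω, x) := hη.prodMk measurable_const
    exact this (measurableSet_miss (measurableSet_bl d a) n)
  rw [h1, prob_compl_eq_one_sub hms, surv_eq (measurableSet_bl d a)]
  have h2 : P {ω | miss (bl d a) n (η ω) x}
      = (Measure.pi fun _ : Fin n => gs d δ) {ζ | miss (bl d a) n (fun i => ζ i + -(0 : Fin n → Fin d → ℝ) i) x} := by
    have h3 : MeasurableSet {ζ : Fin n → Fin d → ℝ | miss (bl d a) n ζ x} := by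
      have : Measurable fun ζ : Fin n → Fin d → ℝ => (ζ, x) := measurable_id.prodMk measurable_const
      exact this (measurableSet_miss (measurableSet_bl d a) n)
    have h4 := incr_law hB δ n
    rw [← h4]
    simp only [Pi.zero_apply, neg_zero, add_zero]
    rw [Measure.map_apply hη h3]
    rfl
  rw [h2, ENNReal.ofReal_sub _ measureReal_nonneg, ENNReal.ofReal_one, Measure.real, ENNReal.ofReal_toReal]
  exact measure_ne_top _ _

lemma lint_cskel {Ω : Type*} [MeasurableSpace Ω] {P : Measure Ω} [IsProbabilityMeasure P]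
    {d : ℕ} {B : ℝ≥0 → Ω → Eu d} (hB : IsBM P B) {a : ℝ} (ha : 0 < a) (δ : ℝ≥0) (n : ℕ) :
    ∫⁻ ω, volume (cskel B a δ n ω) ∂P
      = ∫⁻ x, ENNReal.ofReal (1 - surv (bl d a) (gs d δ) n 0 x) := by
  have hm := measurableSet_cskel_prod hB.meas a δ n
  have h1 : ∫⁻ ω, volume (cskel B a δ n ω) ∂P = (P.prod volume) {p : Ω × Eu d | p.2 ∈ cskel B a δ n p.1} := by
    rw [Measure.prod_apply hm]
    rfl
  have h2 : (P.prod volume) {p : Ω × Eu d | p.2 ∈ cskel B a δ n p.1}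
      = ∫⁻ y : Eu d, P {ω | y ∈ cskel B a δ n ω} := by
    rw [Measure.prod_apply_symm hm]
    rfl
  have hmy : Measurable fun y : Eu d => P {ω | y ∈ cskel B a δ n ω} := measurable_measure_prodMk_right hm
  have h3 : ∫⁻ y : Eu d, P {ω | y ∈ cskel B a δ n ω}
      = ∫⁻ x : Fin d → ℝ, P {ω | WithLp.toLp 2 x ∈ cskel B a δ n ω} := by
    have h := (PiLp.volume_preserving_toLp (Fin d)).lintegral_comp hmy
    exact h.symm
  have h4 : ∫⁻ x : Fin d → ℝ, P {ω | WithLp.toLp 2 x ∈ cskel B a δ n ω}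
      = ∫⁻ x : Fin d → ℝ, P {ω | WithLp.toLp 2 (-x) ∈ cskel B a δ n ω} := by
    have hmx : Measurable fun x : Fin d → ℝ => P {ω | WithLp.toLp 2 x ∈ cskel B a δ n ω} :=
      hmy.comp (PiLp.volume_preserving_toLp (Fin d)).measurable
    have h := (Measure.measurePreserving_neg (volume : Measure (Fin d → ℝ))).lintegral_comp hmx
    exact h.symm
  rw [h1, h2, h3, h4]
  exact lintegral_congr fun x => prob_cskel hB ha δ n x

lemma vol_cskel_le {Ω : Type*} {d : ℕ} (B : ℝ≥0 → Ω → Eu d) (a : ℝ) (δ : ℝ≥0) (n : ℕ) (ω : Ω) :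
    volume (cskel B a δ n ω) ≤ (n + 1 : ℕ) * volume (Metric.closedBall (0 : Eu d) a) := by
  have hsub : cskel B a δ n ω ⊆ ⋃ j ∈ Finset.range (n + 1), Metric.closedBall (B (j * δ) ω) a := by
    rintro y ⟨j, hj, hy⟩
    simp only [Set.mem_iUnion]
    exact ⟨j, Finset.mem_range.2 (by omega), hy⟩
  refine (measure_mono hsub).trans ((measure_biUnion_finset_le _ _).trans ?_)
  have : ∀ j ∈ Finset.range (n + 1), volume (Metric.closedBall (B (j * δ) ω) a)
      = volume (Metric.closedBall (0 : Eu d) a) := fun j _ => Measure.addHaar_closedBall_center _ _ _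
  rw [Finset.sum_congr rfl this]
  simp

lemma ofReal_int_eq {Ω : Type*} [MeasurableSpace Ω] {P : Measure Ω} [IsProbabilityMeasure P]
    {d : ℕ} {B : ℝ≥0 → Ω → Eu d} (hB : IsBM P B) {a : ℝ} (ha : 0 < a) (δ : ℝ≥0) (n : ℕ) :
    ENNReal.ofReal (∫ x, (1 - surv (bl d a) (gs d δ) n 0 x)) = ∫⁻ ω, volume (skel B a δ n ω) ∂P := by
  have h1 : ∫⁻ ω, volume (skel B a δ n ω) ∂P = ∫⁻ x, ENNReal.ofReal (1 - surv (bl d a) (gs d δ) n 0 x) := by
    rw [← lint_cskel hB ha δ n]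
    exact lintegral_congr fun ω => (vol_cskel_eq B ha δ n ω).symm
  rw [h1]
  have hms : Measurable fun x : Fin d → ℝ => surv (bl d a) (gs d δ) n 0 x := by
    have h := measurable_surv (γ := gs d δ) (measurableSet_bl d a) n
    exact h.comp (measurable_const.prodMk measurable_id)
  refine ofReal_integral_eq_lintegral_ofReal ?_ (ae_of_all _ fun x => ?_)
  · refine ⟨(measurable_const.sub hms).aestronglyMeasurable, ?_⟩
    rw [hasFiniteIntegral_iff_ofReal (ae_of_all _ fun x => sub_nonneg.2 (surv_le_one (measurableSet_bl d a) _ _ _)),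
      ← lint_cskel hB ha δ n]
    calc ∫⁻ ω, volume (cskel B a δ n ω) ∂P
        ≤ ∫⁻ _, (n + 1 : ℕ) * volume (Metric.closedBall (0 : Eu d) a) ∂P :=
          lintegral_mono fun ω => vol_cskel_le B a δ n ω
      _ = (n + 1 : ℕ) * volume (Metric.closedBall (0 : Eu d) a) := by simp
      _ < ∞ := ENNReal.mul_lt_top (ENNReal.natCast_lt_top _) measure_closedBall_lt_top
  · exact sub_nonneg.2 (surv_le_one (measurableSet_bl d a) _ _ _)

theorem sausage_le {Ω : Type*} [MeasurableSpace Ω] {P : Measure Ω} [IsProbabilityMeasure P]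
    {d : ℕ} (hd : 1 ≤ d) {B : ℝ≥0 → Ω → Eu d} (hB : IsBM P B) {a : ℝ} (ha : 0 < a) (t r : ℕ) :
    ENNReal.ofReal (∫ x, (1 - surv (bl d a) (gs d ((2:ℝ≥0) ^ r)⁻¹) (t * 2 ^ r) 0 x))
      ≤ ∫⁻ ω, volume (⋃ s ∈ Set.Iic (t : ℝ≥0), Metric.ball (B s ω) a) ∂P := by
  rw [ofReal_int_eq hB ha]
  refine lintegral_mono fun ω => measure_mono ?_
  rintro y ⟨j, hj, hy⟩
  simp only [Set.mem_iUnion]
  refine ⟨j * ((2:ℝ≥0) ^ r)⁻¹, ?_, hy⟩
  rw [Set.mem_Iic, ← div_eq_mul_inv, div_le_iff₀ (by positivity)]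
  exact_mod_cast hj

theorem sausage_tendsto {Ω : Type*} [MeasurableSpace Ω] {P : Measure Ω} [IsProbabilityMeasure P]
    {d : ℕ} (hd : 1 ≤ d) {B : ℝ≥0 → Ω → Eu d} (hB : IsBM P B) {a : ℝ} (ha : 0 < a) (t : ℕ) :
    Tendsto (fun r : ℕ => ENNReal.ofReal
        (∫ x, (1 - surv (bl d a) (gs d ((2:ℝ≥0) ^ r)⁻¹) (t * 2 ^ r) 0 x))) atTop
      (𝓝 (∫⁻ ω, volume (⋃ s ∈ Set.Iic (t : ℝ≥0), Metric.ball (B s ω) a) ∂P)) := by
  have h1 : (fun r : ℕ => ENNReal.ofReal
        (∫ x, (1 - surv (bl d a) (gs d ((2:ℝ≥0) ^ r)⁻¹) (t * 2 ^ r) 0 x)))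
      = fun r : ℕ => ∫⁻ ω, volume (skel B a ((2:ℝ≥0) ^ r)⁻¹ (t * 2 ^ r) ω) ∂P := by
    funext r
    exact ofReal_int_eq hB ha _ _
  rw [h1]
  -- monotonicity of the skeleton sausages
  have hmono : ∀ ω, Monotone fun r : ℕ => skel B a ((2:ℝ≥0) ^ r)⁻¹ (t * 2 ^ r) ω := by
    intro ω
    refine monotone_nat_of_le_succ fun r => ?_
    rintro y ⟨j, hj, hy⟩
    refine ⟨2 * j, ?_, ?_⟩
    · rw [pow_succ]; nlinarith
    · have : ((2 * j : ℕ) : ℝ≥0) * ((2:ℝ≥0) ^ (r + 1))⁻¹ = (j : ℝ≥0) * ((2:ℝ≥0) ^ r)⁻¹ := by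
        push_cast
        rw [pow_succ]
        field_simp
      rw [this]
      exact hy
  apply lintegral_tendsto_of_tendsto_of_monotone
  · intro r
    exact (measurable_measure_prodMk_left (measurableSet_skel_prod hB.meas a _ _)).aemeasurable
  · exact ae_of_all _ fun ω r s hrs => measure_mono (hmono ω hrs)
  · have hc : ∀ᵐ ω ∂P, ∀ i, Continuous fun s => B s ω i := by
      rw [ae_all_iff]
      exact fun i => (hB.coord i).cont
    filter_upwards [hc] with ω hω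
    have hcont : Continuous fun s => B s ω := by
      have : Continuous fun s => (WithLp.ofLp (B s ω) : Fin d → ℝ) := continuous_pi hω
      exact (PiLp.continuous_toLp 2 _).comp this
    have hU : (⋃ s ∈ Set.Iic (t : ℝ≥0), Metric.ball (B s ω) a)
        = ⋃ r : ℕ, skel B a ((2:ℝ≥0) ^ r)⁻¹ (t * 2 ^ r) ω := by
      apply Set.Subset.antisymm
      · intro y hy
        simp only [Set.mem_iUnion] at hy
        obtain ⟨s, hs, hy⟩ := hy
        rw [Set.mem_Iic] at hs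
        -- dyadic approximations of s
        have hlim : Tendsto (fun r : ℕ => ((⌊s * 2 ^ r⌋₊ : ℕ) : ℝ≥0) * ((2:ℝ≥0) ^ r)⁻¹) atTop (𝓝 s) := by
          have h2 : Tendsto (fun r : ℕ => (2:ℝ≥0) ^ r) atTop atTop :=
            tendsto_pow_atTop_atTop_of_one_lt (by norm_num)
          have h3 := (tendsto_nat_floor_mul_div_atTop (R := ℝ) (a := (s : ℝ)) s.coe_nonneg).comp
            (tendsto_pow_atTop_atTop_of_one_lt (r := (2 : ℝ)) (by norm_num))
          rw [← NNReal.tendsto_coe]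
          refine h3.congr fun r => ?_
          have h4 : ⌊(s : ℝ) * 2 ^ r⌋₊ = ⌊s * 2 ^ r⌋₊ := by
            have : ((s * 2 ^ r : ℝ≥0) : ℝ) = (s : ℝ) * 2 ^ r := by push_cast; ring
            rw [← this]
            refine (Nat.floor_eq_iff (NNReal.coe_nonneg _)).2 ⟨?_, ?_⟩
            · exact_mod_cast Nat.floor_le (show (0 : ℝ≥0) ≤ s * 2 ^ r by positivity)
            · exact_mod_cast Nat.lt_floor_add_one (s * 2 ^ r)
          simp only [Function.comp]
          rw [h4]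
          push_cast
          rw [div_eq_mul_inv]
        have hB' := (hcont.tendsto s).comp hlim
        have hd' : Tendsto (fun r : ℕ => dist y (B (((⌊s * 2 ^ r⌋₊ : ℕ) : ℝ≥0) * ((2:ℝ≥0) ^ r)⁻¹) ω)) atTop
            (𝓝 (dist y (B s ω))) := tendsto_const_nhds.dist hB'
        obtain ⟨r, hr⟩ := (hd'.eventually (gt_mem_nhds (show dist y (B s ω) < a from hy))).exists
        simp only [Set.mem_iUnion]
        refine ⟨r, ⌊s * 2 ^ r⌋₊, ?_, hr⟩
        have : s * 2 ^ r ≤ ((t * 2 ^ r : ℕ) : ℝ≥0) := by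
          push_cast
          exact mul_le_mul_left hs _
        exact Nat.floor_le_of_le this
      · intro y hy
        simp only [Set.mem_iUnion] at hy
        obtain ⟨r, j, hj, hy⟩ := hy
        simp only [Set.mem_iUnion]
        refine ⟨j * ((2:ℝ≥0) ^ r)⁻¹, ?_, hy⟩
        rw [Set.mem_Iic, ← div_eq_mul_inv, div_le_iff₀ (by positivity)]
        exact_mod_cast hj
    rw [hU]
    exact tendsto_measure_iUnion_atTop (hmono ω)

end Pool.Agent.Lib.MP_fd77c3_pr
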