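import Pool.Agent.Lib.MP_fd77c3_pr.Finite
import Pool.Agent.Lib.MP_fd77c3_pr.Skeleton

/-!
Existence and finiteness of the limit of the expected volume of the Wiener sausage divided by
the time.
-/

open MeasureTheory Set Filter Topology ProbabilityTheory
open scoped ENNReal NNReal

set_option linter.unusedSectionVars false
set_option linter.unusedTactic false
set_option linter.unusedSimpArgs false
set_option linter.unusedVariables false

namespace Pool.Agent.Lib.MP_fd77c3_pr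

lemma bl_subset_cube {d : ℕ} {a : ℝ} (ha : 0 < a) : bl d a ⊆ cube d a := by
  intro x hx i
  have hx' : ∑ i, x i ^ 2 ≤ a ^ 2 := hx
  have h1 : x i ^ 2 ≤ ∑ i, x i ^ 2 :=
    Finset.single_le_sum (f := fun i => x i ^ 2) (fun i _ => sq_nonneg _) (Finset.mem_univ i)
  exact abs_le_of_sq_le_sq (h1.trans hx') ha.le

lemma cube_subset_bl {d : ℕ} {a : ℝ} (ha : 0 < a) : cube d (a / (d + 1)) ⊆ bl d a := by
  intro x hx
  change ∑ i, x i ^ 2 ≤ a ^ 2
  have hd : (0:ℝ) < d + 1 := by positivity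
  have h2 : ∀ i, x i ^ 2 ≤ (a / (d + 1)) ^ 2 := fun i => by
    rw [← sq_abs]
    exact pow_le_pow_left₀ (abs_nonneg _) (hx i) 2
  calc ∑ i, x i ^ 2 ≤ ∑ _i : Fin d, (a / (d + 1)) ^ 2 := Finset.sum_le_sum fun i _ => h2 i
    _ = d * (a / (d + 1)) ^ 2 := by simp
    _ ≤ (d + 1) ^ 2 * (a / (d + 1)) ^ 2 := by
        apply mul_le_mul_of_nonneg_right _ (sq_nonneg _)
        nlinarith [(Nat.cast_nonneg d : (0:ℝ) ≤ d)]
    _ = a ^ 2 := by field_simp

lemma volume_bl_lt_top {d : ℕ} {a : ℝ} (ha : 0 < a) : volume (bl d a) < ∞ :=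
  (measure_mono (bl_subset_cube ha)).trans_lt (volume_cube_lt_top d a)

lemma volume_bl_pos {d : ℕ} {a : ℝ} (ha : 0 < a) : 0 < volume.real (bl d a) := by
  have h4 : volume.real (cube d (a / (d + 1))) ≤ volume.real (bl d a) :=
    measureReal_mono (cube_subset_bl ha) (volume_bl_lt_top ha).ne
  rw [volume_cube d (by positivity)] at h4
  exact lt_of_lt_of_le (by positivity) h4

lemma tendsto_of_subadditive {W : ℝ≥0 → ℝ≥0∞} (hmono : Monotone W)
    (hsub : ∀ m n : ℕ, W ((m + n : ℕ) : ℝ≥0) ≤ W m + W n) (h1 : W 1 < ∞) :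
    ∃ κ : ℝ≥0, Tendsto (fun t : ℝ≥0 => W t / t) atTop (𝓝 (κ : ℝ≥0∞)) := by
  have hfinN : ∀ n : ℕ, W (n + 1 : ℕ) < ∞ := by
    intro n
    induction n with
    | zero => simpa using h1
    | succ n ih =>
      refine (hsub (n + 1) 1).trans_lt ?_
      exact ENNReal.add_lt_top.2 ⟨ih, by simpa using h1⟩
  have hfin : ∀ t : ℝ≥0, W t < ∞ := by
    intro t
    refine (hmono ?_).trans_lt (hfinN ⌊t⌋₊)
    push_cast
    exact (Nat.lt_floor_add_one t).le
  set u : ℕ → ℝ := fun n => (W n).toReal with hu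
  have husub : Subadditive u := by
    intro m n
    change (W ((m + n : ℕ) : ℝ≥0)).toReal ≤ (W m).toReal + (W n).toReal
    rw [← ENNReal.toReal_add (hfin _).ne (hfin _).ne]
    exact ENNReal.toReal_mono (ENNReal.add_lt_top.2 ⟨hfin _, hfin _⟩).ne (hsub m n)
  have hu0 : ∀ n, 0 ≤ u n := fun n => ENNReal.toReal_nonneg
  have hbdd : BddBelow (range fun n => u n / n) :=
    ⟨0, by rintro _ ⟨n, rfl⟩; exact div_nonneg (hu0 n) (Nat.cast_nonneg n)⟩
  have hlim := husub.tendsto_lim hbdd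
  set l := husub.lim with hl
  have hl0 : 0 ≤ l := ge_of_tendsto' hlim fun n => div_nonneg (hu0 n) (Nat.cast_nonneg n)
  obtain ⟨κ, hκl⟩ : ∃ κ : ℝ≥0, (κ : ℝ) = l := ⟨⟨l, hl0⟩, rfl⟩
  refine ⟨κ, ?_⟩
  -- real times
  have hfl : Tendsto (fun t : ℝ≥0 => ⌊t⌋₊) atTop atTop := tendsto_nat_floor_atTop
  have hr1 : Tendsto (fun n : ℕ => (n:ℝ) / (n + 1)) atTop (𝓝 1) := tendsto_natCast_div_add_atTop 1
  have hlow : Tendsto (fun n : ℕ => u n / (n + 1)) atTop (𝓝 l) := by
    have h2 := hlim.mul hr1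
    rw [mul_one] at h2
    refine h2.congr' ?_
    filter_upwards [eventually_gt_atTop 0] with n hn
    have : (0:ℝ) < n := by exact_mod_cast hn
    field_simp
  have hup : Tendsto (fun n : ℕ => u (n + 1) / n) atTop (𝓝 l) := by
    have h2 : Tendsto (fun n : ℕ => u (n + 1) / ((n + 1 : ℕ) : ℝ)) atTop (𝓝 l) :=
      hlim.comp (tendsto_add_atTop_nat 1)
    have h3 : Tendsto (fun n : ℕ => ((n:ℝ) / (n + 1))⁻¹) atTop (𝓝 1) := by
      simpa using hr1.inv₀ one_ne_zero
    have h4 := h2.mul h3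
    rw [mul_one] at h4
    refine h4.congr' ?_
    filter_upwards [eventually_gt_atTop 0] with n hn
    have : (0:ℝ) < n := by exact_mod_cast hn
    push_cast
    field_simp
  have hreal : Tendsto (fun t : ℝ≥0 => (W t).toReal / t) atTop (𝓝 l) := by
    refine tendsto_of_tendsto_of_tendsto_of_le_of_le' (hlow.comp hfl) (hup.comp hfl) ?_ ?_
    · filter_upwards [eventually_gt_atTop 0] with t ht
      have htR : (0:ℝ) < t := by exact_mod_cast ht
      have e1 : (t:ℝ) ≤ ⌊t⌋₊ + 1 := by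
        have := (Nat.lt_floor_add_one t).le
        exact_mod_cast this
      have e2 : u ⌊t⌋₊ ≤ (W t).toReal :=
        ENNReal.toReal_mono (hfin t).ne (hmono (Nat.floor_le (zero_le)))
      simp only [Function.comp]
      exact div_le_div₀ ENNReal.toReal_nonneg e2 htR e1
    · filter_upwards [eventually_ge_atTop 1] with t ht
      have h5 : 0 < ⌊t⌋₊ := Nat.floor_pos.2 ht
      have h6 : (0:ℝ) < ⌊t⌋₊ := by exact_mod_cast h5
      have e1 : (⌊t⌋₊ : ℝ) ≤ t := by
        have := Nat.floor_le (zero_le (a := t))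
        exact_mod_cast this
      have e2 : (W t).toReal ≤ u (⌊t⌋₊ + 1) := by
        refine ENNReal.toReal_mono (hfin _).ne (hmono ?_)
        push_cast
        exact (Nat.lt_floor_add_one t).le
      simp only [Function.comp]
      exact div_le_div₀ (hu0 _) e2 h6 e1
  have h7 : Tendsto (fun t : ℝ≥0 => ENNReal.ofReal ((W t).toReal / t)) atTop
      (𝓝 (ENNReal.ofReal l)) := (ENNReal.continuous_ofReal.tendsto l).comp hreal
  have h8 : ENNReal.ofReal l = (κ : ℝ≥0∞) := by rw [← hκl, ENNReal.ofReal_coe_nnreal]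
  rw [h8] at h7
  refine h7.congr' ?_
  filter_upwards [eventually_gt_atTop 0] with t ht
  have htR : (0:ℝ) < t := by exact_mod_cast ht
  rw [ENNReal.ofReal_div_of_pos htR, ENNReal.ofReal_toReal (hfin t).ne]
  simp

theorem sausage_limit {Ω : Type*} [MeasurableSpace Ω] {P : Measure Ω} [IsProbabilityMeasure P]
    {d : ℕ} (hd : 1 ≤ d) {B : ℝ≥0 → Ω → Eu d} (hB : IsBM P B) {a : ℝ} (ha : 0 < a) :
    ∃ κ : ℝ≥0, Tendsto (fun t : ℝ≥0 =>
      (∫⁻ ω, volume (⋃ s ∈ Set.Iic t, Metric.ball (B s ω) a) ∂P) / t) atTop (𝓝 (κ : ℝ≥0∞)) := by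
  have hK := measurableSet_bl d a
  have hvK := volume_bl_lt_top (d := d) ha
  set W : ℝ≥0 → ℝ≥0∞ := fun t => ∫⁻ ω, volume (⋃ s ∈ Set.Iic t, Metric.ball (B s ω) a) ∂P with hW
  have hmono : Monotone W := by
    intro s t hst
    refine lintegral_mono fun ω => measure_mono ?_
    exact biUnion_subset_biUnion_left (Iic_subset_Iic.2 hst)
  have hlim : ∀ t : ℕ, Tendsto (fun r : ℕ =>
      ∫⁻ x, hz (bl d a) (gs d ((2:ℝ≥0) ^ r)⁻¹) (t * 2 ^ r) x) atTop (𝓝 (W t)) := by
    intro t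
    refine (sausage_tendsto hd hB ha t).congr fun r => ?_
    exact ofReal_wv hK hvK ((2:ℝ≥0) ^ r)⁻¹ (t * 2 ^ r) 0
  refine tendsto_of_subadditive hmono ?_ ?_
  · intro m n
    refine le_of_tendsto_of_tendsto' (hlim (m + n)) ((hlim m).add (hlim n)) fun r => ?_
    rw [add_mul]
    exact lintegral_hz_add_le hK (n * 2 ^ r) (m * 2 ^ r)
  · obtain ⟨C, hC, hbd⟩ := lintegral_hz_bounded hK (ρ := a / (d + 1)) (by positivity) ha
      (bl_subset_cube ha) (cube_subset_bl ha)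
    have h1 := (hlim 1).comp (tendsto_add_atTop_nat 1)
    have h2 : W ((1 : ℕ) : ℝ≥0) ≤ C := by
      refine le_of_tendsto' h1 fun r => ?_
      simp only [Function.comp, one_mul]
      exact hbd r
    rw [Nat.cast_one] at h2
    exact h2.trans_lt hC

end Pool.Agent.Lib.MP_fd77c3_pr
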