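import Pool.Agent.Lib.MP_fd77c3_pr.PoissonVoid
import Pool.Agent.Lib.MP_fd77c3_pr.SausageLimit

/-!
The annealed survival probability is bounded by the expected void probability.
-/

open MeasureTheory Set Filter Topology ProbabilityTheory
open scoped ENNReal NNReal

namespace Pool.Agent.Lib.MP_fd77c3_pr

/-- The increments of a path. -/
def incr {d : ℕ} (δ : ℝ≥0) (n : ℕ) (f : ℝ≥0 → Eu d) (j : Fin n) (i : Fin d) : ℝ :=
  f (((j : ℕ) + 1 : ℝ≥0) * δ) i - f ((j : ℕ) * δ) i

lemma measurable_incr {d : ℕ} (δ : ℝ≥0) (n : ℕ) :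
    Measurable (incr δ n : (ℝ≥0 → Eu d) → Fin n → Fin d → ℝ) := by
  refine measurable_pi_iff.2 fun j => measurable_pi_iff.2 fun i => ?_
  have h : ∀ t : ℝ≥0, Measurable (fun f : ℝ≥0 → Eu d => f t i) := fun t =>
    (by fun_prop : Measurable (fun v : Eu d => v i)).comp (measurable_pi_apply t)
  exact (h _).sub (h _)

lemma sum_incr' {d : ℕ} (δ : ℝ≥0) (n : ℕ) (f : ℝ≥0 → Eu d) (hf : ∀ i, f 0 i = 0) (j : ℕ)
    (hj : j ≤ n) (i : Fin d) :
    ∑ l ∈ Finset.univ.filter (fun l : Fin n => (l : ℕ) < j), incr δ n f l i = f (j * δ) i := by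
  induction j with
  | zero => simp [hf]
  | succ j ih =>
    have h1 : Finset.univ.filter (fun l : Fin n => (l : ℕ) < j + 1)
        = insert (⟨j, by omega⟩ : Fin n) (Finset.univ.filter (fun l : Fin n => (l : ℕ) < j)) := by
      ext l
      simp only [Finset.mem_filter, Finset.mem_univ, true_and, Finset.mem_insert, Fin.ext_iff]
      omega
    rw [h1, Finset.sum_insert (by simp), ih (by omega)]
    simp [incr]

lemma mem_closedBall_iff_bl {d : ℕ} {a : ℝ} (ha : 0 < a) (u v : Eu d) :
    u ∈ Metric.closedBall v a ↔ (fun i => v i - u i) ∈ bl d a := by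
  rw [Metric.mem_closedBall, dist_comm, EuclideanSpace.dist_eq]
  rw [Real.sqrt_le_left ha.le]
  unfold bl
  rw [mem_ofPred_eq]
  simp only [Real.dist_eq, sq_abs]

/-- The event that the particle avoids the traps at the times `j δ` in terms of increments. -/
lemma event_iff {d : ℕ} {a : ℝ} (ha : 0 < a) (δ : ℝ≥0) (n : ℕ) (f g : ℝ≥0 → Eu d)
    (hf : ∀ i, f 0 i = 0) (hg : ∀ i, g 0 i = 0) (y : Eu d) :
    (∀ j ≤ n, f (j * δ) ∉ Metric.closedBall (y + g (j * δ)) a)
      ↔ miss (bl d a) n (fun j => incr δ n g j + -incr δ n f j) (WithLp.ofLp y) := by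
  rw [miss_iff]
  refine forall_congr' fun j => forall_congr' fun hj => ?_
  rw [mem_closedBall_iff_bl ha]
  have h1 : (fun i => (y + g (j * δ)) i - f (j * δ) i)
      = WithLp.ofLp y + ∑ l ∈ Finset.univ.filter (fun l : Fin n => (l : ℕ) < j),
        (incr δ n g l + -incr δ n f l) := by
    funext i
    rw [Pi.add_apply, Finset.sum_apply]
    simp only [Pi.add_apply, Pi.neg_apply]
    rw [Finset.sum_add_distrib, Finset.sum_neg_distrib, sum_incr' δ n g hg j hj i,
      sum_incr' δ n f hf j hj i]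
    simp
    ring
  rw [h1]

theorem annealed_le {Ω : Type*} [MeasurableSpace Ω] {P : Measure Ω} [IsProbabilityMeasure P]
    {d : ℕ} {lam a : ℝ} (hlam : 0 < lam) (ha : 0 < a)
    {X : ℝ≥0 → Ω → Eu d} {x : ℕ → Ω → Eu d} {Y : ℕ → ℝ≥0 → Ω → Eu d}
    (h : IsTrapModel P lam X x Y) (δ : ℝ≥0) (n : ℕ) :
    P {ω | ∀ j ≤ n, ∀ i, X (j * δ) ω ∉ Metric.closedBall (x i ω + Y i (j * δ) ω) a}
      ≤ ENNReal.ofReal (∫ ξ, Real.exp (-(lam * wv (bl d a) δ n ξ))
          ∂(Measure.pi fun _ : Fin n => gs d δ)) := by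
  have hK := measurableSet_bl d a
  have hvK : volume (bl d a) < ∞ := volume_bl_lt_top ha
  set ν := Measure.pi (fun _ : Fin n => gs d δ) with hν
  set Ξ : Ω → Fin n → Fin d → ℝ := fun ω => incr δ n (fun t => X t ω) with hΞ
  set η : ℕ → Ω → Fin n → Fin d → ℝ := fun k ω => incr δ n (fun t => Y k t ω) with hη
  have hXm : Measurable (fun ω t => X t ω) := measurable_pi_iff.2 fun t => h.particle.meas t
  have hYm : ∀ k, Measurable (fun ω t => Y k t ω) := fun k =>
    measurable_pi_iff.2 fun t => (h.traps k).meas t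
  have hΞm : Measurable Ξ := (measurable_incr δ n).comp hXm
  have hηm : ∀ k, Measurable (η k) := fun k => (measurable_incr δ n).comp (hYm k)
  have hΞlaw : P.map Ξ = ν := incr_law h.particle δ n
  have hηlaw : ∀ k, P.map (η k) = ν := fun k => incr_law (h.traps k) δ n
  have hηind : iIndepFun η P := h.indep_traps.comp (fun _ => incr δ n) fun _ => measurable_incr δ n
  have hmY : Measurable (fun (F : ℕ → ℝ≥0 → Eu d) (k : ℕ) => incr δ n (F k)) :=
    measurable_pi_iff.2 fun k => (measurable_incr δ n).comp (measurable_pi_apply k)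
  have hxη : IndepFun (fun ω i => x i ω) (fun ω i => η i ω) P :=
    h.indep_points.comp measurable_id hmY
  set T : Ω → (ℕ → Eu d) × (ℕ → Fin n → Fin d → ℝ) :=
    fun ω => (fun i => x i ω, fun i => η i ω) with hT
  have hTm : Measurable T := (measurable_pi_iff.2 fun i => h.points.meas i).prodMk
    (measurable_pi_iff.2 fun i => hηm i)
  have hΞT : IndepFun Ξ T P := by
    have hm : Measurable (fun p : (ℕ → Eu d) × (ℕ → ℝ≥0 → Eu d) =>
        (p.1, fun k => incr δ n (p.2 k))) :=
      measurable_fst.prodMk (hmY.comp measurable_snd)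
    exact h.indep_particle.comp (measurable_incr δ n) hm
  -- the starting points
  have hd0 : ∀ᵐ ω ∂P, (∀ i : Fin d, X 0 ω i = 0) ∧ ∀ k, ∀ i : Fin d, Y k 0 ω i = 0 := by
    have h1 : ∀ᵐ ω ∂P, ∀ i : Fin d, X 0 ω i = 0 :=
      ae_all_iff.2 fun i => (h.particle.coord i).eval_zero_ae_eq_zero
    have h2 : ∀ᵐ ω ∂P, ∀ k, ∀ i : Fin d, Y k 0 ω i = 0 :=
      ae_all_iff.2 fun k => ae_all_iff.2 fun i => ((h.traps k).coord i).eval_zero_ae_eq_zero
    filter_upwards [h1, h2] with ω a b using ⟨a, b⟩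
  set S : Set ((Fin n → Fin d → ℝ) × ((ℕ → Eu d) × (ℕ → Fin n → Fin d → ℝ))) :=
    {p | ∀ k, miss (bl d a) n (fun j => p.2.2 k j + -p.1 j) (WithLp.ofLp (p.2.1 k))} with hS
  have hSm : MeasurableSet S := by
    have h1 : S = ⋂ k, {p | miss (bl d a) n (fun j => p.2.2 k j + -p.1 j)
        (WithLp.ofLp (p.2.1 k))} := by
      ext p; simp [hS]
    rw [h1]
    refine MeasurableSet.iInter fun k => ?_
    have h2 : Measurable (fun p : (Fin n → Fin d → ℝ) × ((ℕ → Eu d) × (ℕ → Fin n → Fin d → ℝ)) =>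
        ((fun j => p.2.2 k j + -p.1 j : Fin n → Fin d → ℝ), (WithLp.ofLp (p.2.1 k) : Fin d → ℝ))) := by
      refine Measurable.prodMk ?_ ?_
      · refine measurable_pi_iff.2 fun j => ?_
        have e1 : Measurable (fun p : (Fin n → Fin d → ℝ) × ((ℕ → Eu d) × (ℕ → Fin n → Fin d → ℝ))
            => p.2.2 k j) :=
          (measurable_pi_apply j).comp ((measurable_pi_apply k).comp
            (measurable_snd.comp measurable_snd))
        have e2 : Measurable (fun p : (Fin n → Fin d → ℝ) × ((ℕ → Eu d) × (ℕ → Fin n → Fin d → ℝ))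
            => p.1 j) := (measurable_pi_apply j).comp measurable_fst
        exact e1.add e2.neg
      · exact (WithLp.measurable_ofLp 2 _).comp ((measurable_pi_apply k).comp
          (measurable_fst.comp measurable_snd))
    exact h2 (measurableSet_miss hK n)
  have hE : P {ω | ∀ j ≤ n, ∀ i, X (j * δ) ω ∉ Metric.closedBall (x i ω + Y i (j * δ) ω) a}
      ≤ P {ω | (Ξ ω, T ω) ∈ S} := by
    apply measure_mono_ae
    filter_upwards [hd0] with ω h0 hω k
    exact (event_iff ha δ n (fun t => X t ω) (fun t => Y k t ω) h0.1 (h0.2 k) (x k ω)).1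
      fun j hj => hω j hj k
  refine hE.trans ?_
  -- condition on the particle
  have h3 : P {ω | (Ξ ω, T ω) ∈ S} = ∫⁻ ξ, (P.map T) (Prod.mk ξ ⁻¹' S) ∂ν := by
    have h4 : P {ω | (Ξ ω, T ω) ∈ S} = (P.map fun ω => (Ξ ω, T ω)) S := by
      rw [Measure.map_apply (hΞm.prodMk hTm) hSm]; rfl
    rw [h4, hΞT.map_prod_eq_prod_map_map hΞm.aemeasurable hTm.aemeasurable, hΞlaw,
      Measure.prod_apply hSm]
  rw [h3]
  have h5 : ∀ ξ : Fin n → Fin d → ℝ, (P.map T) (Prod.mk ξ ⁻¹' S)
      ≤ ENNReal.ofReal (Real.exp (-(lam * wv (bl d a) δ n ξ))) := by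
    intro ξ
    rw [Measure.map_apply hTm (measurable_prodMk_left hSm)]
    set D : Set (Eu d × (Fin n → Fin d → ℝ)) :=
      {p | ¬ miss (bl d a) n (fun j => p.2 j + -ξ j) (WithLp.ofLp p.1)} with hD
    have hDm : MeasurableSet D := by
      have h2 : Measurable (fun p : Eu d × (Fin n → Fin d → ℝ) =>
          ((fun j => p.2 j + -ξ j : Fin n → Fin d → ℝ), (WithLp.ofLp p.1 : Fin d → ℝ))) := by
        refine Measurable.prodMk ?_ ?_
        · refine measurable_pi_iff.2 fun j => ?_
          exact ((measurable_pi_apply j).comp measurable_snd).add_const _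
        · exact (WithLp.measurable_ofLp 2 _).comp measurable_fst
      exact (h2 (measurableSet_miss hK n)).compl
    have hsec : ∀ y : Eu d, ν {s | (y, s) ∈ D} = hitE (bl d a) (gs d δ) n ξ (WithLp.ofLp y) := by
      intro y
      have hms : MeasurableSet {η : Fin n → Fin d → ℝ |
          miss (bl d a) n (fun i => η i + -ξ i) (WithLp.ofLp y)} := by
        have h1 : Measurable (fun η : Fin n → Fin d → ℝ =>
            ((fun i => η i + -ξ i), (WithLp.ofLp y : Fin d → ℝ))) :=
          (measurable_pi_iff.2 fun i => (measurable_pi_apply i).add_const _).prodMk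
            measurable_const
        exact h1 (measurableSet_miss hK n)
      unfold hitE
      rw [surv_eq hK]
      have h7 : {s | (y, s) ∈ D} = {η : Fin n → Fin d → ℝ |
          miss (bl d a) n (fun i => η i + -ξ i) (WithLp.ofLp y)}ᶜ := rfl
      have h8 := probReal_compl_eq_one_sub (μ := ν) hms
      rw [h7, ← h8, Measure.real, ENNReal.ofReal_toReal (measure_ne_top _ _)]
    have hmp := PiLp.volume_preserving_ofLp (Fin d)
    have hhm := measurable_hitE_right (γ := gs d δ) hK n ξ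
    have hlin : ∫⁻ y, ν {s | (y, s) ∈ D} = ∫⁻ y, hitE (bl d a) (gs d δ) n ξ y := by
      simp only [hsec]
      exact hmp.lintegral_comp hhm
    have hfin : ∫⁻ y, ν {s | (y, s) ∈ D} < ∞ := by
      rw [hlin]; exact lintegral_hitE_lt_top hK hvK δ n ξ
    have h6 := poisson_void_le hlam h.points hηm hηlaw hηind hxη hDm hfin
    have h9 : {ω | ∀ i, (x i ω, η i ω) ∉ D} = T ⁻¹' (Prod.mk ξ ⁻¹' S) := by
      ext ω
      simp [hD, hS, hT]
    rw [← h9]
    refine h6.trans (le_of_eq ?_)
    congr 3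
    have h10 : ∫ y, ν.real {s | (y, s) ∈ D} = (∫⁻ y, ν {s | (y, s) ∈ D}).toReal := by
      rw [integral_eq_lintegral_of_nonneg_ae]
      · congr 1
        refine lintegral_congr fun y => ?_
        rw [Measure.real, ENNReal.ofReal_toReal (measure_ne_top _ _)]
      · exact ae_of_all _ fun y => measureReal_nonneg
      · have h11 : Measurable (fun y => ν {s | (y, s) ∈ D}) :=
          measurable_measure_prodMk_left hDm
        exact h11.ennreal_toReal.aestronglyMeasurable
    rw [h10, hlin, wv_eq hK hvK]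
  refine (lintegral_mono h5).trans (le_of_eq ?_)
  rw [ofReal_integral_eq_lintegral_ofReal]
  · refine BdM.integrable ⟨(((measurable_wv hK hvK δ n).const_mul lam).neg).exp, 1,
        fun ξ => ?_⟩ _
    change |Real.exp (-(lam * wv (bl d a) δ n ξ))| ≤ 1
    rw [abs_of_pos (Real.exp_pos _), Real.exp_le_one_iff]
    have := wv_nonneg hK hvK δ n ξ
    have : 0 ≤ lam * wv (bl d a) δ n ξ := by positivity
    linarith
  · exact ae_of_all _ fun ξ => (Real.exp_pos _).le

end Pool.Agent.Lib.MP_fd77c3_pr
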