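import Mathlib

/-!
Bounded measurable functions on a measurable abelian group, averaging operators
`cv ν f x = ∫ z, f (x + z) ∂ν` and the associated Dirichlet forms.
-/

open MeasureTheory Set Filter Topology
open scoped ENNReal NNReal

set_option linter.unusedSectionVars false
set_option linter.unusedTactic false

namespace Pool.Agent.Lib.MP_fd77c3_pr

/-- Bounded measurable real functions. -/
structure BdM {α : Type*} [MeasurableSpace α] (f : α → ℝ) : Prop where
  meas : Measurable f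
  bdd : ∃ C : ℝ, ∀ x, |f x| ≤ C

namespace BdM

variable {α β : Type*} [MeasurableSpace α] [MeasurableSpace β]

lemma const (c : ℝ) : BdM (fun _ : α => c) := ⟨measurable_const, |c|, fun _ => le_rfl⟩

lemma add {f g : α → ℝ} (hf : BdM f) (hg : BdM g) : BdM (fun x => f x + g x) := by
  obtain ⟨C, hC⟩ := hf.bdd
  obtain ⟨D, hD⟩ := hg.bdd
  exact ⟨hf.meas.add hg.meas, C + D, fun x => (abs_add_le _ _).trans (add_le_add (hC x) (hD x))⟩

lemma neg {f : α → ℝ} (hf : BdM f) : BdM (fun x => - f x) := by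
  obtain ⟨C, hC⟩ := hf.bdd
  exact ⟨hf.meas.neg, C, fun x => by rw [abs_neg]; exact hC x⟩

lemma sub {f g : α → ℝ} (hf : BdM f) (hg : BdM g) : BdM (fun x => f x - g x) := by
  simpa [sub_eq_add_neg] using hf.add hg.neg

lemma mul {f g : α → ℝ} (hf : BdM f) (hg : BdM g) : BdM (fun x => f x * g x) := by
  obtain ⟨C, hC⟩ := hf.bdd
  obtain ⟨D, hD⟩ := hg.bdd
  refine ⟨hf.meas.mul hg.meas, |C| * |D|, fun x => ?_⟩
  rw [abs_mul]
  exact mul_le_mul ((hC x).trans (le_abs_self _)) ((hD x).trans (le_abs_self _)) (abs_nonneg _)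
    (abs_nonneg _)

lemma const_mul {f : α → ℝ} (c : ℝ) (hf : BdM f) : BdM (fun x => c * f x) := (const c).mul hf

lemma sq {f : α → ℝ} (hf : BdM f) : BdM (fun x => f x ^ 2) := by
  simpa [pow_two] using hf.mul hf

lemma comp {f : α → ℝ} (hf : BdM f) {φ : β → α} (hφ : Measurable φ) : BdM (fun x => f (φ x)) := by
  obtain ⟨C, hC⟩ := hf.bdd
  exact ⟨hf.meas.comp hφ, C, fun x => hC _⟩

lemma indicator_one {s : Set α} (hs : MeasurableSet s) : BdM (s.indicator (fun _ => (1:ℝ))) := by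
  refine ⟨measurable_const.indicator hs, 1, fun x => ?_⟩
  by_cases h : x ∈ s <;> simp [h]

lemma finset_sum {ι : Type*} (s : Finset ι) {f : ι → α → ℝ} (hf : ∀ i ∈ s, BdM (f i)) :
    BdM (fun x => ∑ i ∈ s, f i x) := by
  classical
  induction s using Finset.induction_on with
  | empty => simpa using const (α := α) 0
  | insert a s ha ih =>
    simp only [Finset.sum_insert ha]
    exact (hf a (by simp)).add (ih fun i hi => hf i (by simp [hi]))

lemma integrable {f : α → ℝ} (hf : BdM f) (μ : Measure α) [IsFiniteMeasure μ] :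
    Integrable f μ := by
  obtain ⟨C, hC⟩ := hf.bdd
  exact Integrable.of_bound hf.meas.aestronglyMeasurable C (ae_of_all _ hC)

lemma integral_prod_right {f : α × β → ℝ} (hf : BdM f) (ν : Measure β) [IsProbabilityMeasure ν] :
    BdM (fun x => ∫ y, f (x, y) ∂ν) := by
  obtain ⟨C, hC⟩ := hf.bdd
  refine ⟨(hf.meas.stronglyMeasurable.integral_prod_right' (ν := ν)).measurable, C, fun x => ?_⟩
  have := norm_integral_le_of_norm_le_const (μ := ν) (f := fun y => f (x, y)) (C := C)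
    (ae_of_all _ fun y => hC _)
  simpa using this

lemma integral_prod_left {f : α × β → ℝ} (hf : BdM f) (μ : Measure α) [IsProbabilityMeasure μ] :
    BdM (fun y => ∫ x, f (x, y) ∂μ) :=
  (hf.comp measurable_swap).integral_prod_right μ

lemma swap {f : α × β → ℝ} (hf : BdM f) (μ : Measure α) (ν : Measure β)
    [IsFiniteMeasure μ] [IsFiniteMeasure ν] :
    ∫ x, ∫ y, f (x, y) ∂ν ∂μ = ∫ y, ∫ x, f (x, y) ∂μ ∂ν := by
  refine integral_integral_swap (f := fun x y => f (x, y)) ?_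
  exact hf.integrable (μ.prod ν)

end BdM

/-- Cauchy-Schwarz for bounded measurable functions. -/
lemma cauchy_schwarz {α : Type*} [MeasurableSpace α] (μ : Measure α) [IsFiniteMeasure μ]
    {f g : α → ℝ} (hf : BdM f) (hg : BdM g) :
    (∫ x, f x * g x ∂μ) ^ 2 ≤ (∫ x, f x ^ 2 ∂μ) * (∫ x, g x ^ 2 ∂μ) := by
  have key : ∀ t : ℝ, 0 ≤ (∫ x, g x ^ 2 ∂μ) * (t * t) + (2 * ∫ x, f x * g x ∂μ) * t
      + (∫ x, f x ^ 2 ∂μ) := by
    intro t
    have h0 : 0 ≤ ∫ x, (f x + t * g x) ^ 2 ∂μ := integral_nonneg fun x => sq_nonneg _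
    have h1 : ∫ x, (f x + t * g x) ^ 2 ∂μ
        = (∫ x, g x ^ 2 ∂μ) * (t * t) + (2 * ∫ x, f x * g x ∂μ) * t + (∫ x, f x ^ 2 ∂μ) := by
      have e1 : (fun x => (f x + t * g x) ^ 2)
          = fun x => ((t * t) * g x ^ 2 + (2 * t) * (f x * g x)) + f x ^ 2 := by
        funext x; ring
      rw [e1, integral_add, integral_add, integral_const_mul, integral_const_mul]
      · ring
      · exact ((hg.sq).const_mul _).integrable μ
      · exact ((hf.mul hg).const_mul _).integrable μ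
      · exact (((hg.sq).const_mul _).add ((hf.mul hg).const_mul _)).integrable μ
      · exact hf.sq.integrable μ
    rw [h1] at h0
    exact h0
  have := discrim_le_zero key
  unfold discrim at this
  nlinarith

lemma abs_integral_mul_le {α : Type*} [MeasurableSpace α] (μ : Measure α) [IsFiniteMeasure μ]
    {f g : α → ℝ} (hf : BdM f) (hg : BdM g) :
    |∫ x, f x * g x ∂μ| ≤ √(∫ x, f x ^ 2 ∂μ) * √(∫ x, g x ^ 2 ∂μ) := by
  rw [← Real.sqrt_mul (integral_nonneg fun x => sq_nonneg _)]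
  exact Real.abs_le_sqrt (cauchy_schwarz μ hf hg)

/-- Jensen's inequality for the square. -/
lemma sq_integral_le {α : Type*} [MeasurableSpace α] (μ : Measure α) [IsProbabilityMeasure μ]
    {f : α → ℝ} (hf : BdM f) : (∫ x, f x ∂μ) ^ 2 ≤ ∫ x, f x ^ 2 ∂μ := by
  have := cauchy_schwarz μ hf (BdM.const (α := α) 1)
  simpa using this

section Group

variable {H : Type*} [AddCommGroup H] [MeasurableSpace H] [MeasurableAdd₂ H] [MeasurableNeg H]

/-- Averaging operator. -/
noncomputable def cv (ν : Measure H) (f : H → ℝ) (x : H) : ℝ := ∫ z, f (x + z) ∂ν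

/-- Symmetric measures. -/
def Symm (ν : Measure H) : Prop := ν.map (fun x => -x) = ν

/-- Dirichlet form. -/
noncomputable def Dm (μ ν : Measure H) (f : H → ℝ) : ℝ :=
  (1/2) * ∫ z, ∫ x, (f (x + z) - f x) ^ 2 ∂μ ∂ν

variable {μ ν ρ : Measure H} [IsProbabilityMeasure μ] [μ.IsAddRightInvariant]
  [IsProbabilityMeasure ν] [IsProbabilityMeasure ρ]

lemma BdM.shift {f : H → ℝ} (hf : BdM f) (z : H) : BdM (fun x => f (x + z)) :=
  hf.comp (measurable_add_const z)

lemma BdM.add₂ {f : H → ℝ} (hf : BdM f) : BdM (fun p : H × H => f (p.1 + p.2)) :=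
  hf.comp (measurable_fst.add measurable_snd)

lemma BdM.cv {f : H → ℝ} (hf : BdM f) : BdM (cv ν f) := hf.add₂.integral_prod_right ν

lemma cv_add_const (f : H → ℝ) (x z : H) : cv ν (fun y => f (y + z)) x = cv ν f (x + z) := by
  unfold Pool.Agent.Lib.MP_fd77c3_pr.cv
  refine integral_congr_ae (ae_of_all _ fun w => ?_)
  simp only [add_right_comm]

lemma cv_add {f g : H → ℝ} (hf : BdM f) (hg : BdM g) (x : H) :
    cv ν (fun y => f y + g y) x = cv ν f x + cv ν g x := by
  unfold Pool.Agent.Lib.MP_fd77c3_pr.cv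
  exact integral_add ((hf.comp (measurable_const_add x)).integrable ν)
    ((hg.comp (measurable_const_add x)).integrable ν)

lemma cv_sub {f g : H → ℝ} (hf : BdM f) (hg : BdM g) (x : H) :
    cv ν (fun y => f y - g y) x = cv ν f x - cv ν g x := by
  unfold Pool.Agent.Lib.MP_fd77c3_pr.cv
  exact integral_sub ((hf.comp (measurable_const_add x)).integrable ν)
    ((hg.comp (measurable_const_add x)).integrable ν)

omit [MeasurableNeg H] [MeasurableAdd₂ H] [IsProbabilityMeasure ν] in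
lemma cv_const_mul (c : ℝ) (f : H → ℝ) (x : H) :
    cv ν (fun y => c * f y) x = c * cv ν f x := by
  unfold Pool.Agent.Lib.MP_fd77c3_pr.cv
  exact integral_const_mul _ _

omit [MeasurableNeg H] [MeasurableAdd₂ H] in
lemma cv_const (c : ℝ) (x : H) : cv ν (fun _ => c) x = c := by
  unfold Pool.Agent.Lib.MP_fd77c3_pr.cv
  simp

/-- Averaging operators commute. -/
lemma cv_comm {f : H → ℝ} (hf : BdM f) : cv ν (cv ρ f) = cv ρ (cv ν f) := by
  funext x
  unfold Pool.Agent.Lib.MP_fd77c3_pr.cv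
  have h : BdM (fun p : H × H => f (x + p.1 + p.2)) :=
    hf.comp (((measurable_const_add x).comp measurable_fst).add measurable_snd)
  rw [h.swap ν ρ]
  congr 1; funext w; congr 1; funext z; congr 1; abel

omit [MeasurableNeg H] [IsProbabilityMeasure ν] [IsProbabilityMeasure ρ] in
lemma cv_conv [IsFiniteMeasure ν] [IsFiniteMeasure ρ] {f : H → ℝ} (hf : BdM f) :
    cv (ν ∗ ρ) f = cv ν (cv ρ f) := by
  funext x
  unfold Pool.Agent.Lib.MP_fd77c3_pr.cv
  rw [Measure.conv, integral_map (by fun_prop)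
    (hf.comp (measurable_const_add x)).meas.aestronglyMeasurable, integral_prod]
  · simp only [add_assoc]
  · exact (hf.comp ((measurable_const_add x).comp
      (measurable_fst.add measurable_snd))).integrable (ν.prod ρ)

omit [MeasurableNeg H] [MeasurableAdd₂ H] in
lemma integral_shift [MeasurableAdd H] (f : H → ℝ) (z : H) : ∫ x, f (x + z) ∂μ = ∫ x, f x ∂μ :=
  integral_add_right_eq_self f z

lemma integral_cv {f : H → ℝ} (hf : BdM f) : ∫ x, cv ν f x ∂μ = ∫ x, f x ∂μ := by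
  unfold Pool.Agent.Lib.MP_fd77c3_pr.cv
  rw [hf.add₂.swap μ ν]
  simp [integral_shift (μ := μ) f]

lemma integral_mul_cv {f g : H → ℝ} (hf : BdM f) (hg : BdM g) (hν : Symm ν) :
    ∫ x, f x * cv ν g x ∂μ = ∫ x, cv ν f x * g x ∂μ := by
  have h1 : ∫ x, f x * cv ν g x ∂μ = ∫ z, ∫ x, f x * g (x + z) ∂μ ∂ν := by
    have hF : BdM (fun p : H × H => f p.1 * g (p.1 + p.2)) := (hf.comp measurable_fst).mul hg.add₂
    rw [← hF.swap μ ν]
    congr 1; funext x
    unfold Pool.Agent.Lib.MP_fd77c3_pr.cv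
    exact (integral_const_mul _ _).symm
  have h2 : ∫ x, cv ν f x * g x ∂μ = ∫ z, ∫ x, f (x + z) * g x ∂μ ∂ν := by
    have hF : BdM (fun p : H × H => f (p.1 + p.2) * g p.1) := hf.add₂.mul (hg.comp measurable_fst)
    rw [← hF.swap μ ν]
    congr 1; funext x
    unfold Pool.Agent.Lib.MP_fd77c3_pr.cv
    exact (integral_mul_const _ _).symm
  rw [h1, h2]
  have h3 : ∀ z : H, ∫ x, f x * g (x + z) ∂μ = ∫ x, f (x + -z) * g x ∂μ := by
    intro z
    rw [← integral_shift (μ := μ) (fun x => f (x + -z) * g x) z]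
    congr 1; funext x
    simp
  simp only [h3]
  have h4 : BdM (fun z : H => ∫ x, f (x + z) * g x ∂μ) := by
    have hF : BdM (fun p : H × H => f (p.1 + p.2) * g p.1) := hf.add₂.mul (hg.comp measurable_fst)
    exact hF.integral_prod_left μ
  have h5 := integral_map (μ := ν) (φ := fun x : H => -x) measurable_neg.aemeasurable
    (f := fun z : H => ∫ x, f (x + z) * g x ∂μ) h4.meas.aestronglyMeasurable
  rw [← h5]
  unfold Symm at hν
  rw [hν]

lemma sq_cv_le {f : H → ℝ} (hf : BdM f) : ∫ x, cv ν f x ^ 2 ∂μ ≤ ∫ x, f x ^ 2 ∂μ := by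
  rw [← integral_cv (ν := ν) (μ := μ) hf.sq]
  refine integral_mono (hf.cv.sq.integrable μ) (hf.sq.cv.integrable μ) fun x => ?_
  exact sq_integral_le ν (hf.comp (measurable_const_add x))

lemma Dm_nonneg (f : H → ℝ) : 0 ≤ Dm μ ν f := by
  unfold Dm
  have : 0 ≤ ∫ z, ∫ x, (f (x + z) - f x) ^ 2 ∂μ ∂ν :=
    integral_nonneg fun z => integral_nonneg fun x => sq_nonneg _
  positivity

lemma BdM.diff₂ {f : H → ℝ} (hf : BdM f) : BdM (fun p : H × H => f (p.1 + p.2) - f p.1) :=
  hf.add₂.sub (hf.comp measurable_fst)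

lemma BdM.dsq {f : H → ℝ} (hf : BdM f) : BdM (fun z : H => ∫ x, (f (x + z) - f x) ^ 2 ∂μ) :=
  hf.diff₂.sq.integral_prod_left μ

/-- The Dirichlet form as `‖f‖² - ⟨f, P f⟩`. -/
lemma Dm_eq {f : H → ℝ} (hf : BdM f) :
    Dm μ ν f = ∫ x, f x ^ 2 ∂μ - ∫ x, f x * cv ν f x ∂μ := by
  have h1 : ∫ x, f x * cv ν f x ∂μ = ∫ z, ∫ x, f x * f (x + z) ∂μ ∂ν := by
    have hF : BdM (fun p : H × H => f p.1 * f (p.1 + p.2)) := (hf.comp measurable_fst).mul hf.add₂
    rw [← hF.swap μ ν]
    congr 1; funext x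
    unfold Pool.Agent.Lib.MP_fd77c3_pr.cv
    exact (integral_const_mul _ _).symm
  have h2 : ∀ z : H, ∫ x, (f (x + z) - f x) ^ 2 ∂μ
      = 2 * ∫ x, f x ^ 2 ∂μ - 2 * ∫ x, f x * f (x + z) ∂μ := by
    intro z
    have e1 : (fun x => (f (x + z) - f x) ^ 2)
        = fun x => (f (x + z) ^ 2 + f x ^ 2) - 2 * (f x * f (x + z)) := by
      funext x; ring
    rw [e1, integral_sub, integral_add, integral_const_mul,
      integral_shift (μ := μ) (fun x => f x ^ 2) z]
    · ring
    · exact (hf.shift z).sq.integrable μ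
    · exact hf.sq.integrable μ
    · exact ((hf.shift z).sq.add hf.sq).integrable μ
    · exact ((hf.mul (hf.shift z)).const_mul 2).integrable μ
  unfold Dm
  simp only [h2]
  have hF : BdM (fun z : H => ∫ x, f x * f (x + z) ∂μ) := by
    have hF : BdM (fun p : H × H => f p.1 * f (p.1 + p.2)) := (hf.comp measurable_fst).mul hf.add₂
    exact hF.integral_prod_left μ
  have h3 : ∫ z, (2 * ∫ x, f x * f (x + z) ∂μ) ∂ν = 2 * ∫ z, ∫ x, f x * f (x + z) ∂μ ∂ν :=
    integral_const_mul _ _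
  rw [integral_sub, h3, h1]
  · simp
    ring
  · exact integrable_const _
  · exact (hF.const_mul 2).integrable ν

/-- Polarised form: expansion of `Dm (f + g)`. -/
lemma Dm_add {f g : H → ℝ} (hf : BdM f) (hg : BdM g) (hν : Symm ν) :
    Dm μ ν (fun x => f x + g x)
      = Dm μ ν f + 2 * (∫ x, f x * (g x - cv ν g x) ∂μ) + Dm μ ν g := by
  rw [Dm_eq (hf.add hg), Dm_eq hf, Dm_eq hg]
  have e0 : ∀ x, cv ν (fun y => f y + g y) x = cv ν f x + cv ν g x := fun x => cv_add hf hg x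
  have i1 : ∫ x, (f x + g x) ^ 2 ∂μ
      = ∫ x, f x ^ 2 ∂μ + 2 * ∫ x, f x * g x ∂μ + ∫ x, g x ^ 2 ∂μ := by
    have e1 : (fun x => (f x + g x) ^ 2) = fun x => (f x ^ 2 + 2 * (f x * g x)) + g x ^ 2 := by
      funext x; ring
    rw [e1, integral_add, integral_add, integral_const_mul]
    · exact hf.sq.integrable μ
    · exact ((hf.mul hg).const_mul 2).integrable μ
    · exact (hf.sq.add ((hf.mul hg).const_mul 2)).integrable μ
    · exact hg.sq.integrable μ
  have i2 : ∫ x, (f x + g x) * cv ν (fun y => f y + g y) x ∂μ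
      = ∫ x, f x * cv ν f x ∂μ + 2 * ∫ x, f x * cv ν g x ∂μ + ∫ x, g x * cv ν g x ∂μ := by
    have e1 : (fun x => (f x + g x) * cv ν (fun y => f y + g y) x)
        = fun x => ((f x * cv ν f x + f x * cv ν g x) + cv ν f x * g x) + g x * cv ν g x := by
      funext x; rw [e0]; ring
    rw [e1, integral_add, integral_add, integral_add, ← integral_mul_cv (μ := μ) hf hg hν]
    · ring
    · exact (hf.mul hf.cv).integrable μ
    · exact (hf.mul hg.cv).integrable μ
    · exact ((hf.mul hf.cv).add (hf.mul hg.cv)).integrable μ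
    · exact (hf.cv.mul hg).integrable μ
    · exact (((hf.mul hf.cv).add (hf.mul hg.cv)).add (hf.cv.mul hg)).integrable μ
    · exact (hg.mul hg.cv).integrable μ
  have i3 : ∫ x, f x * (g x - cv ν g x) ∂μ = ∫ x, f x * g x ∂μ - ∫ x, f x * cv ν g x ∂μ := by
    have e1 : (fun x => f x * (g x - cv ν g x)) = fun x => f x * g x - f x * cv ν g x := by
      funext x; ring
    rw [e1, integral_sub]
    · exact (hf.mul hg).integrable μ
    · exact (hf.mul hg.cv).integrable μ
  rw [i1, i2, i3]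
  ring

/-- Averaging decreases Dirichlet forms. -/
lemma Dm_cv_le {f : H → ℝ} (hf : BdM f) : Dm μ ν (cv ρ f) ≤ Dm μ ν f := by
  unfold Dm
  have : ∫ z, ∫ x, (cv ρ f (x + z) - cv ρ f x) ^ 2 ∂μ ∂ν
      ≤ ∫ z, ∫ x, (f (x + z) - f x) ^ 2 ∂μ ∂ν := by
    refine integral_mono (hf.cv.dsq.integrable ν) (hf.dsq.integrable ν) fun z => ?_
    have h := sq_cv_le (μ := μ) (ν := ρ) ((hf.shift z).sub hf)
    refine le_trans (le_of_eq ?_) h
    congr 1; funext x
    rw [cv_sub (hf.shift z) hf, cv_add_const]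
  linarith

/-- `‖f‖² - ‖P' f‖² = Dm_{P'P'} f`. -/
lemma Dm_conv_self {f : H → ℝ} (hf : BdM f) (hν : Symm ν) :
    Dm μ (ν ∗ ν) f = ∫ x, f x ^ 2 ∂μ - ∫ x, cv ν f x ^ 2 ∂μ := by
  rw [Dm_eq hf, cv_conv hf, integral_mul_cv hf hf.cv hν]
  simp [pow_two]

end Group

end Pool.Agent.Lib.MP_fd77c3_pr
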