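import Pool.Agent.Lib.MP_fd77c3_pr.NBody

/-!
The core inequalities for functions of `N` particles vanishing when a particle is in the trap set.
-/

open MeasureTheory Set Filter Topology
open scoped ENNReal NNReal

set_option linter.unusedSectionVars false
set_option linter.unusedTactic false
set_option linter.unusedSimpArgs false

namespace Pool.Agent.Lib.MP_fd77c3_pr

section Norm

variable {H : Type*} [AddCommGroup H] [MeasurableSpace H] [MeasurableAdd₂ H] [MeasurableNeg H]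
variable {μ : Measure H} [IsProbabilityMeasure μ] [μ.IsAddRightInvariant]

/-- The `L²` norm. -/
noncomputable def nrm {α : Type*} [MeasurableSpace α] (μ : Measure α) (f : α → ℝ) : ℝ :=
  √(∫ x, f x ^ 2 ∂μ)

lemma BdM.abs {α : Type*} [MeasurableSpace α] {f : α → ℝ} (hf : BdM f) :
    BdM (fun x => |f x|) := by
  obtain ⟨C, hC⟩ := hf.bdd
  exact ⟨hf.meas.norm, C, fun x => by simpa using hC x⟩

lemma BdM.sqrt {α : Type*} [MeasurableSpace α] {f : α → ℝ} (hf : BdM f) :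
    BdM (fun x => √(f x)) := by
  obtain ⟨C, hC⟩ := hf.bdd
  refine ⟨hf.meas.sqrt, √C, fun x => ?_⟩
  rw [abs_of_nonneg (Real.sqrt_nonneg _)]
  exact Real.sqrt_le_sqrt ((le_abs_self _).trans (hC x))

section general
variable {α : Type*} [MeasurableSpace α] {P : Measure α} [IsProbabilityMeasure P]

lemma nrm_nonneg (f : α → ℝ) : 0 ≤ nrm P f := Real.sqrt_nonneg _

lemma nrm_sq (f : α → ℝ) : nrm P f ^ 2 = ∫ x, f x ^ 2 ∂P :=
  Real.sq_sqrt (integral_nonneg fun x => sq_nonneg _)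

lemma abs_ip_le {f g : α → ℝ} (hf : BdM f) (hg : BdM g) :
    |∫ x, f x * g x ∂P| ≤ nrm P f * nrm P g := abs_integral_mul_le P hf hg

lemma nrm_add_le {f g : α → ℝ} (hf : BdM f) (hg : BdM g) :
    nrm P (fun x => f x + g x) ≤ nrm P f + nrm P g := by
  have h0 : 0 ≤ nrm P f + nrm P g := add_nonneg (nrm_nonneg _) (nrm_nonneg _)
  apply Real.sqrt_le_iff.2 ⟨h0, ?_⟩
  have e1 : (fun x => (f x + g x) ^ 2) = fun x => (f x ^ 2 + 2 * (f x * g x)) + g x ^ 2 := by
    funext x; ring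
  have i1 : ∫ x, (f x + g x) ^ 2 ∂P
      = ∫ x, f x ^ 2 ∂P + 2 * ∫ x, f x * g x ∂P + ∫ x, g x ^ 2 ∂P := by
    rw [e1, integral_add, integral_add, integral_const_mul]
    · exact hf.sq.integrable P
    · exact ((hf.mul hg).const_mul 2).integrable P
    · exact (hf.sq.add ((hf.mul hg).const_mul 2)).integrable P
    · exact hg.sq.integrable P
  rw [i1, ← nrm_sq, ← nrm_sq]
  have := (le_abs_self _).trans (abs_ip_le (P := P) hf hg)
  nlinarith

lemma nrm_neg (f : α → ℝ) : nrm P (fun x => - f x) = nrm P f := by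
  unfold nrm; simp

lemma nrm_sub_comm (f g : α → ℝ) : nrm P (fun x => f x - g x) = nrm P (fun x => g x - f x) := by
  rw [← nrm_neg]; congr 1; funext x; ring

lemma nrm_sub_le {f g : α → ℝ} (hf : BdM f) (hg : BdM g) :
    nrm P (fun x => f x - g x) ≤ nrm P f + nrm P g := by
  have := nrm_add_le (P := P) hf hg.neg
  rw [nrm_neg] at this
  simpa [sub_eq_add_neg] using this

lemma nrm_triangle {f g h : α → ℝ} (hf : BdM f) (hg : BdM g) (hh : BdM h) :
    nrm P (fun x => f x - h x) ≤ nrm P (fun x => f x - g x) + nrm P (fun x => g x - h x) := by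
  have := nrm_add_le (P := P) (hf.sub hg) (hg.sub hh)
  simpa using this

end general

lemma nrm_shift (f : H → ℝ) (z : H) : nrm μ (fun x => f (x + z)) = nrm μ f := by
  unfold nrm
  rw [integral_shift (μ := μ) (fun x => f x ^ 2) z]

lemma nrm_cv_le {ρ : Measure H} [IsProbabilityMeasure ρ] {f : H → ℝ} (hf : BdM f) :
    nrm μ (cv ρ f) ≤ nrm μ f := Real.sqrt_le_sqrt (sq_cv_le hf)

end Norm

section Core

variable {G : Type*} [AddCommGroup G] [MeasurableSpace G] [MeasurableAdd₂ G] [MeasurableNeg G]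
variable {N : ℕ}

/-- One time step: common displacement and individual displacements with law `ν`. -/
noncomputable def stepL (N : ℕ) (ν : Measure G) : List (Measure (Fin N → G)) :=
  dg N ν :: List.ofFn (fun i : Fin N => cm ν i)

lemma good_stepL {ν : Measure G} [IsProbabilityMeasure ν] (hν : Symm ν) : Good (stepL N ν) := by
  intro ρ hρ
  unfold stepL at hρ
  rw [List.mem_cons, List.mem_ofFn] at hρ
  rcases hρ with rfl | ⟨i, rfl⟩
  · exact ⟨inferInstance, dg_symm hν⟩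
  · exact ⟨inferInstance, cm_symm hν i⟩

lemma stepL_sq (ν : Measure G) [IsProbabilityMeasure ν] :
    (stepL N ν).map (fun ρ => ρ ∗ ρ) = stepL N (ν ∗ ν) := by
  unfold stepL
  rw [List.map_cons, dg_conv, List.map_ofFn]
  congr 2
  funext i
  simp only [Function.comp, cm_conv]

variable {m : Measure G} [IsProbabilityMeasure m] [m.IsAddRightInvariant]
variable {μ : Measure (Fin N → G)} [IsProbabilityMeasure μ] [μ.IsAddRightInvariant]

lemma tele_stepL {ν : Measure G} [IsProbabilityMeasure ν] (hν : Symm ν)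
    {f : (Fin N → G) → ℝ} (hf : BdM f) :
    Dm μ (dg N (ν ∗ ν)) (cvl (stepL N ν) f) + ∑ i, Dm μ (cm (ν ∗ ν) i) (cvl (stepL N ν) f)
      ≤ ∫ x, f x ^ 2 ∂μ - ∫ x, cvl (stepL N ν) f x ^ 2 ∂μ := by
  have h := tele (μ := μ) (good_stepL (N := N) hν) hf
  refine le_trans (le_of_eq ?_) h
  set g := cvl (stepL N ν) f
  unfold stepL
  rw [List.map_cons, List.sum_cons, dg_conv, List.map_ofFn, List.sum_ofFn]
  simp only [Function.comp, cm_conv]

variable {ν : Measure G} [IsProbabilityMeasure ν]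

/-- Energy decomposition with respect to the potential `h`. -/
lemma energy_decomp (hν : Symm ν) {f g : (Fin N → G) → ℝ} (hf : BdM f) (hg : BdM g)
    {e eJ h : G → ℝ} (he : BdM e) (heJ : BdM eJ) (hh : BdM h)
    (hpo : ∀ y, h y - cv ν h y = e y - eJ y) (i : Fin N) :
    Dm μ (cm ν i) g = Dm μ (cm ν i) (fun x => g x + h (x i) * cv (cm m i) f x)
      - 2 * ∫ x, g x * ((e (x i) - eJ (x i)) * cv (cm m i) f x) ∂μ
      - (∫ y, h y * (e y - eJ y) ∂m) * ∫ x, cv (cm m i) f x ^ 2 ∂μ := by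
  set Pf := cv (cm m i) f with hPf
  have hPfB : BdM Pf := hf.cv
  have hinv : Inv i Pf := inv_cv hf i
  have hw : BdM (fun x : Fin N → G => h (x i) * Pf x) := (hh.eval i).mul hPfB
  have hcv : ∀ x, cv (cm ν i) (fun x => h (x i) * Pf x) x = cv ν h (x i) * Pf x := by
    intro x
    rw [cv_cm hw]
    simp only [single_apply_self', hinv x]
    rw [integral_mul_const]
    rfl
  have h1 := Dm_add (μ := μ) hg hw (cm_symm hν i)
  have h2 : ∀ x, h (x i) * Pf x - cv (cm ν i) (fun x => h (x i) * Pf x) x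
      = (e (x i) - eJ (x i)) * Pf x := by
    intro x
    rw [hcv, ← hpo]; ring
  simp only [h2] at h1
  have h3 : Dm μ (cm ν i) (fun x => h (x i) * Pf x)
      = (∫ y, h y * (e y - eJ y) ∂m) * ∫ x, Pf x ^ 2 ∂μ := by
    rw [Dm_eq hw]
    have a1 : ∫ x, (h (x i) * Pf x) ^ 2 ∂μ
        - ∫ x, h (x i) * Pf x * cv (cm ν i) (fun x => h (x i) * Pf x) x ∂μ
        = ∫ x, (fun y => h y * (e y - eJ y)) (x i) * Pf x ^ 2 ∂μ := by
      rw [← integral_sub]
      · congr 1; funext x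
        have := h2 x
        simp only
        calc (h (x i) * Pf x) ^ 2 - h (x i) * Pf x * cv (cm ν i) (fun x => h (x i) * Pf x) x
            = h (x i) * Pf x * (h (x i) * Pf x - cv (cm ν i) (fun x => h (x i) * Pf x) x) := by
              ring
          _ = _ := by rw [this]; ring
      · exact hw.sq.integrable μ
      · exact (hw.mul hw.cv).integrable μ
    rw [a1]
    exact integral_eval_mul (hh.mul (he.sub heJ)) hPfB.sq hinv.sq
  rw [h3] at h1
  linarith

/-- If one coordinate is in `A` then the other projections vanish. -/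
lemma proj_zero {A : Set G} {f : (Fin N → G) → ℝ} (hf : BdM f)
    (hA : ∀ x : Fin N → G, (∃ i, x i ∈ A) → f x = 0) {i j : Fin N} (hij : i ≠ j) {x : Fin N → G}
    (hx : x j ∈ A) : cv (cm m i) f x = 0 := by
  rw [cv_cm hf]
  have : ∀ z : G, f (x + Pi.single i z) = 0 := by
    intro z
    apply hA
    refine ⟨j, ?_⟩
    have : (x + (Pi.single i z : Fin N → G)) j = x j := by
      simp [Pi.single_apply, hij.symm]
    rw [this]; exact hx
  simp [this]

lemma sum_sq_of_disjoint {ι : Type*} (s : Finset ι) (a : ι → ℝ)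
    (h : ∀ i ∈ s, ∀ j ∈ s, i ≠ j → a i * a j = 0) : (∑ i ∈ s, a i) ^ 2 = ∑ i ∈ s, a i ^ 2 := by
  classical
  induction s using Finset.induction_on with
  | empty => simp
  | insert b s hb ih =>
    rw [Finset.sum_insert hb, Finset.sum_insert hb, add_sq, ih]
    · have : a b * ∑ i ∈ s, a i = 0 := by
        rw [Finset.mul_sum]
        refine Finset.sum_eq_zero fun j hj => h b (by simp) j (by simp [hj]) ?_
        rintro rfl; exact hb hj
      rw [mul_assoc, this]; ring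
    · intro i hi j hj hij
      exact h i (by simp [hi]) j (by simp [hj]) hij

/-- The function `Ψ = ∑ e(x_i) P_i f`. -/
lemma psi_sq {A : Set G} {f : (Fin N → G) → ℝ} (hf : BdM f)
    (hA : ∀ x : Fin N → G, (∃ i, x i ∈ A) → f x = 0)
    {e : G → ℝ} (he : BdM e) (heA : ∀ y, y ∉ A → e y = 0) :
    ∫ x, (∑ i, e (x i) * cv (cm m i) f x) ^ 2 ∂μ
      = (∫ y, e y ^ 2 ∂m) * ∑ i, ∫ x, cv (cm m i) f x ^ 2 ∂μ := by
  have h1 : ∀ x : Fin N → G, (∑ i, e (x i) * cv (cm m i) f x) ^ 2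
      = ∑ i, (fun y => e y ^ 2) (x i) * cv (cm m i) f x ^ 2 := by
    intro x
    rw [sum_sq_of_disjoint]
    · refine Finset.sum_congr rfl fun i _ => by ring
    · intro i _ j _ hij
      by_cases hx : x j ∈ A
      · rw [proj_zero hf hA hij hx]; ring
      · rw [heA _ hx]; ring
  simp only [h1]
  rw [integral_finsetSum]
  · rw [Finset.mul_sum]
    refine Finset.sum_congr rfl fun i _ => ?_
    exact integral_eval_mul he.sq hf.cv.sq (inv_cv hf i).sq
  · intro i _
    exact ((he.sq.eval i).mul hf.cv.sq).integrable μ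

lemma BdM.psi {f : (Fin N → G) → ℝ} (hf : BdM f) {e : G → ℝ} (he : BdM e) :
    BdM (fun x : Fin N → G => ∑ i, e (x i) * Pool.Agent.Lib.MP_fd77c3_pr.cv (cm m i) f x) :=
  BdM.finset_sum _ fun i _ => (he.eval i).mul hf.cv

/-- `ρ_i ≤ 1`. -/
lemma rho_le {f : (Fin N → G) → ℝ} (hf : BdM f) (hf1 : ∫ x, f x ^ 2 ∂μ = 1) (i : Fin N) :
    ∫ x, cv (cm m i) f x ^ 2 ∂μ ≤ 1 := hf1 ▸ sq_cv_le hf

lemma psi_nrm_le {A : Set G} {f : (Fin N → G) → ℝ} (hf : BdM f) (hf1 : ∫ x, f x ^ 2 ∂μ = 1)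
    (hA : ∀ x : Fin N → G, (∃ i, x i ∈ A) → f x = 0)
    {e : G → ℝ} (he : BdM e) (heA : ∀ y, y ∉ A → e y = 0) :
    nrm μ (fun x => ∑ i, e (x i) * cv (cm m i) f x) ≤ √(N * ∫ y, e y ^ 2 ∂m) := by
  unfold nrm
  rw [psi_sq hf hA he heA]
  apply Real.sqrt_le_sqrt
  have h1 : ∑ i : Fin N, ∫ x, cv (cm m i) f x ^ 2 ∂μ ≤ N := by
    calc ∑ i : Fin N, ∫ x, cv (cm m i) f x ^ 2 ∂μ ≤ ∑ _i : Fin N, (1:ℝ) :=
          Finset.sum_le_sum fun i _ => rho_le hf hf1 i
      _ = N := by simp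
  have h2 : 0 ≤ ∫ y, e y ^ 2 ∂m := integral_nonneg fun _ => sq_nonneg _
  nlinarith

/-- `⟨g, P_i f⟩ ≥ ρ_i - ‖g - f‖`. -/
lemma ip_proj_ge {f g : (Fin N → G) → ℝ} (hf : BdM f) (hg : BdM g)
    (hf1 : ∫ x, f x ^ 2 ∂μ = 1) (i : Fin N) :
    ∫ x, cv (cm m i) f x ^ 2 ∂μ - nrm μ (fun x => g x - f x)
      ≤ ∫ x, g x * cv (cm m i) f x ∂μ := by
  have hP : BdM (cv (cm m i) f) := hf.cv
  have h1 : ∫ x, g x * cv (cm m i) f x ∂μ
      = ∫ x, f x * cv (cm m i) f x ∂μ + ∫ x, (g x - f x) * cv (cm m i) f x ∂μ := by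
    rw [← integral_add ((hf.mul hP).integrable μ) (((hg.sub hf).mul hP).integrable μ)]
    congr 1; funext x; ring
  have h2 : ∫ x, f x * cv (cm m i) f x ∂μ = ∫ x, cv (cm m i) f x ^ 2 ∂μ := by
    rw [integral_mul_inv (ν := m) hf hP (inv_cv hf i)]
    congr 1; funext x; ring
  have h3 := abs_ip_le (P := μ) (hg.sub hf) hP
  have h4 : nrm μ (cv (cm m i) f) ≤ 1 := by
    have := Real.sqrt_le_sqrt (rho_le (m := m) hf hf1 i)
    simpa [nrm] using this
  have h5 : nrm μ (fun x => g x - f x) * nrm μ (cv (cm m i) f)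
      ≤ nrm μ (fun x => g x - f x) := mul_le_of_le_one_right (nrm_nonneg _) h4
  have h6 := neg_abs_le (∫ x, (g x - f x) * cv (cm m i) f x ∂μ)
  rw [h1, h2]
  linarith

/-- Lower bound on the trap energy. -/
lemma energy_lower (hν : Symm ν) {A : Set G} {f g : (Fin N → G) → ℝ} (hf : BdM f) (hg : BdM g)
    (hf1 : ∫ x, f x ^ 2 ∂μ = 1) (hg1 : ∫ x, g x ^ 2 ∂μ ≤ 1)
    (hA : ∀ x : Fin N → G, (∃ i, x i ∈ A) → f x = 0)
    {e eJ h : G → ℝ} (he : BdM e) (heJ : BdM eJ) (hh : BdM h) (heA : ∀ y, y ∉ A → e y = 0)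
    (hpo : ∀ y, h y - cv ν h y = e y - eJ y) {k k' : ℝ} (hk : 0 ≤ k)
    (hJ : ∀ y, |eJ y - k| ≤ k') :
    ∑ i, Dm μ (cm ν i) (fun x => g x + h (x i) * cv (cm m i) f x)
      - 2 * nrm μ (fun x => g x - f x) * √(N * ∫ y, e y ^ 2 ∂m)
      - 2 * k * N * nrm μ (fun x => g x - f x) - 2 * N * k'
      + (2 * k - ∫ y, h y * (e y - eJ y) ∂m) * ∑ i, ∫ x, cv (cm m i) f x ^ 2 ∂μ
      ≤ ∑ i, Dm μ (cm ν i) g := by
  set s := nrm μ (fun x => g x - f x) with hs
  have hdec : ∀ i, Dm μ (cm ν i) g = Dm μ (cm ν i) (fun x => g x + h (x i) * cv (cm m i) f x)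
      - 2 * ∫ x, g x * ((e (x i) - eJ (x i)) * cv (cm m i) f x) ∂μ
      - (∫ y, h y * (e y - eJ y) ∂m) * ∫ x, cv (cm m i) f x ^ 2 ∂μ :=
    fun i => energy_decomp (m := m) hν hf hg he heJ hh hpo i
  have hsum : ∑ i, Dm μ (cm ν i) g
      = ∑ i, Dm μ (cm ν i) (fun x => g x + h (x i) * cv (cm m i) f x)
      - 2 * ∑ i, ∫ x, g x * ((e (x i) - eJ (x i)) * cv (cm m i) f x) ∂μ
      - (∫ y, h y * (e y - eJ y) ∂m) * ∑ i, ∫ x, cv (cm m i) f x ^ 2 ∂μ := by
    rw [Finset.mul_sum, Finset.mul_sum, ← Finset.sum_sub_distrib, ← Finset.sum_sub_distrib]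
    exact Finset.sum_congr rfl fun i _ => hdec i
  -- split the cross term
  have hsplit : ∀ i : Fin N, ∫ x, g x * ((e (x i) - eJ (x i)) * cv (cm m i) f x) ∂μ
      = ∫ x, (g x - f x) * (e (x i) * cv (cm m i) f x) ∂μ
        - (∫ x, g x * ((eJ (x i) - k) * cv (cm m i) f x) ∂μ
            + k * ∫ x, g x * cv (cm m i) f x ∂μ) := by
    intro i
    have hP : BdM (cv (cm m i) f) := hf.cv
    rw [← integral_const_mul, ← integral_add, ← integral_sub]
    · refine integral_congr_ae (ae_of_all _ fun x => ?_)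
      have hfe : f x * e (x i) = 0 := by
        by_cases hx : x i ∈ A
        · rw [hA x ⟨i, hx⟩, zero_mul]
        · rw [heA _ hx, mul_zero]
      simp only
      linear_combination (cv (cm m i) f x) * hfe
    · exact ((hg.sub hf).mul ((he.eval i).mul hP)).integrable μ
    · exact ((hg.mul (((heJ.eval i).sub (BdM.const k)).mul hP)).add
        ((hg.mul hP).const_mul k)).integrable μ
    · exact (hg.mul (((heJ.eval i).sub (BdM.const k)).mul hP)).integrable μ
    · exact ((hg.mul hP).const_mul k).integrable μ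
  -- the `Ψ` term
  have hpsi : |∑ i : Fin N, ∫ x, (g x - f x) * (e (x i) * cv (cm m i) f x) ∂μ|
      ≤ s * √(N * ∫ y, e y ^ 2 ∂m) := by
    have h1 : ∑ i : Fin N, ∫ x, (g x - f x) * (e (x i) * cv (cm m i) f x) ∂μ
        = ∫ x, (g x - f x) * (∑ i, e (x i) * cv (cm m i) f x) ∂μ := by
      rw [← integral_finsetSum]
      · congr 1; funext x; rw [Finset.mul_sum]
      · intro i _
        exact ((hg.sub hf).mul ((he.eval i).mul hf.cv)).integrable μ
    rw [h1]
    refine (abs_ip_le (hg.sub hf) (hf.psi he)).trans ?_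
    exact mul_le_mul_of_nonneg_left (psi_nrm_le (m := m) hf hf1 hA he heA) (nrm_nonneg _)
  -- the `eJ` term
  have heJt : ∀ i : Fin N, |∫ x, g x * ((eJ (x i) - k) * cv (cm m i) f x) ∂μ| ≤ k' := by
    intro i
    have hP : BdM (cv (cm m i) f) := hf.cv
    have h1 : |∫ x, g x * ((eJ (x i) - k) * cv (cm m i) f x) ∂μ|
        ≤ ∫ x, k' * (|g x| * |cv (cm m i) f x|) ∂μ := by
      refine (abs_integral_le_integral_abs).trans ?_
      refine integral_mono
        ((hg.mul (((heJ.eval i).sub (BdM.const k)).mul hP)).abs.integrable μ)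
        (((hg.abs.mul hP.abs).const_mul k').integrable μ) fun x => ?_
      simp only [abs_mul]
      have := mul_le_mul_of_nonneg_right (hJ (x i))
        (mul_nonneg (abs_nonneg (g x)) (abs_nonneg (cv (cm m i) f x)))
      nlinarith
    rw [integral_const_mul] at h1
    have h2 := (le_abs_self _).trans (abs_ip_le (P := μ) hg.abs hP.abs)
    have h3 : nrm μ (fun x => |g x|) ≤ 1 := by
      unfold nrm; simp only [sq_abs]
      simpa using Real.sqrt_le_sqrt hg1
    have h4 : nrm μ (fun x => |cv (cm m i) f x|) ≤ 1 := by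
      unfold nrm; simp only [sq_abs]
      simpa using Real.sqrt_le_sqrt (rho_le (m := m) hf hf1 i)
    have hk' : 0 ≤ k' := (abs_nonneg _).trans (hJ 0)
    have h5 : nrm μ (fun x => |g x|) * nrm μ (fun x => |cv (cm m i) f x|) ≤ 1 :=
      mul_le_one₀ h3 (nrm_nonneg _) h4
    calc _ ≤ _ := h1
      _ ≤ k' * 1 := mul_le_mul_of_nonneg_left (h2.trans h5) hk'
      _ = k' := mul_one _
  have hcross : ∑ i, ∫ x, g x * ((e (x i) - eJ (x i)) * cv (cm m i) f x) ∂μ
      ≤ s * √(N * ∫ y, e y ^ 2 ∂m) + N * k'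
        - k * (∑ i, ∫ x, cv (cm m i) f x ^ 2 ∂μ - N * s) := by
    simp only [hsplit]
    rw [Finset.sum_sub_distrib]
    have a1 := (le_abs_self _).trans hpsi
    have a2 : ∑ i : Fin N, (k * (∫ x, cv (cm m i) f x ^ 2 ∂μ - s) - k')
        ≤ ∑ i : Fin N, (∫ x, g x * ((eJ (x i) - k) * cv (cm m i) f x) ∂μ
            + k * ∫ x, g x * cv (cm m i) f x ∂μ) := by
      refine Finset.sum_le_sum fun i _ => ?_
      have b1 := neg_le_of_abs_le (heJt i)
      have b2 := mul_le_mul_of_nonneg_left (ip_proj_ge (m := m) hf hg hf1 i) hk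
      linarith
    have a3 : ∑ i : Fin N, (k * (∫ x, cv (cm m i) f x ^ 2 ∂μ - s) - k')
        = k * (∑ i, ∫ x, cv (cm m i) f x ^ 2 ∂μ - N * s) - N * k' := by
      rw [Finset.sum_sub_distrib, ← Finset.mul_sum, Finset.sum_sub_distrib]
      simp
    linarith
  rw [hsum]
  nlinarith [hcross]

/-- The projections do not lose much mass. -/
lemma rho_lower {γ : ℝ} (hγ : 0 < γ)
    (H2 : ∀ u : G → ℝ, BdM u → γ * ∫ y, (u y - ∫ y', u y' ∂m) ^ 2 ∂m ≤ Dm m ν u)
    {f g : (Fin N → G) → ℝ} (hf : BdM f) (hg : BdM g)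
    (hf1 : ∫ x, f x ^ 2 ∂μ = 1) :
    γ * (N - ∑ i, ∫ x, cv (cm m i) f x ^ 2 ∂μ)
      ≤ 2 * ∑ i, Dm μ (cm ν i) g + 2 * γ * N * nrm μ (fun x => g x - f x) ^ 2 := by
  have h1 : ∀ i : Fin N, γ * (1 - ∫ x, cv (cm m i) f x ^ 2 ∂μ)
      ≤ 2 * Dm μ (cm ν i) g + 2 * γ * nrm μ (fun x => g x - f x) ^ 2 := by
    intro i
    have a1 : 1 - ∫ x, cv (cm m i) f x ^ 2 ∂μ = ∫ x, (f x - cv (cm m i) f x) ^ 2 ∂μ := by
      rw [integral_sub_proj_sq hf i, hf1]
    have hd : BdM (fun x => f x - g x) := hf.sub hg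
    have a2 : ∫ x, (f x - cv (cm m i) f x) ^ 2 ∂μ
        ≤ 2 * ∫ x, (g x - cv (cm m i) g x) ^ 2 ∂μ
          + 2 * ∫ x, ((f x - g x) - cv (cm m i) (fun x => f x - g x) x) ^ 2 ∂μ := by
      rw [← integral_const_mul, ← integral_const_mul, ← integral_add]
      · refine integral_mono ((hf.sub hf.cv).sq.integrable μ) ?_ fun x => ?_
        · exact (((hg.sub hg.cv).sq.const_mul 2).add
            ((hd.sub hd.cv).sq.const_mul 2)).integrable μ
        · have : cv (cm m i) (fun x => f x - g x) x = cv (cm m i) f x - cv (cm m i) g x :=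
            cv_sub hf hg x
          simp only [this]
          nlinarith [sq_nonneg ((g x - cv (cm m i) g x)
            - ((f x - g x) - (cv (cm m i) f x - cv (cm m i) g x)))]
      · exact ((hg.sub hg.cv).sq.const_mul 2).integrable μ
      · exact ((hd.sub hd.cv).sq.const_mul 2).integrable μ
    have a3 : ∫ x, ((f x - g x) - cv (cm m i) (fun x => f x - g x) x) ^ 2 ∂μ
        ≤ nrm μ (fun x => g x - f x) ^ 2 := by
      rw [integral_sub_proj_sq hd i, nrm_sub_comm, nrm_sq]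
      have : 0 ≤ ∫ x, cv (cm m i) (fun x => f x - g x) x ^ 2 ∂μ :=
        integral_nonneg fun _ => sq_nonneg _
      linarith
    have a4 := gap_coord (μ := μ) H2 hg i
    rw [a1]
    nlinarith
  calc γ * (N - ∑ i, ∫ x, cv (cm m i) f x ^ 2 ∂μ)
      = ∑ i : Fin N, γ * (1 - ∫ x, cv (cm m i) f x ^ 2 ∂μ) := by
        rw [← Finset.mul_sum, Finset.sum_sub_distrib]; simp
    _ ≤ ∑ i : Fin N, (2 * Dm μ (cm ν i) g + 2 * γ * nrm μ (fun x => g x - f x) ^ 2) :=
        Finset.sum_le_sum fun i _ => h1 i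
    _ = _ := by
        rw [Finset.sum_add_distrib, ← Finset.mul_sum]; simp; ring

end Core

end Pool.Agent.Lib.MP_fd77c3_pr
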