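import Pool.Agent.Lib.MP_fd77c3_pr.Core

/-!
The translation inequality.
-/

open MeasureTheory Set Filter Topology
open scoped ENNReal NNReal

set_option linter.unusedSectionVars false
set_option linter.unusedTactic false
set_option linter.unusedSimpArgs false

namespace Pool.Agent.Lib.MP_fd77c3_pr

section Trans

variable {G : Type*} [AddCommGroup G] [MeasurableSpace G] [MeasurableAdd₂ G] [MeasurableNeg G]
variable {N : ℕ}
variable {m : Measure G} [IsProbabilityMeasure m] [m.IsAddRightInvariant]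
variable {μ : Measure (Fin N → G)} [IsProbabilityMeasure μ] [μ.IsAddRightInvariant]
variable {ν : Measure G} [IsProbabilityMeasure ν]

/-- Indicator of a set. -/
noncomputable def ind {α : Type*} (A : Set α) : α → ℝ := A.indicator (fun _ => (1:ℝ))

lemma BdM.ind {α : Type*} [MeasurableSpace α] {A : Set α} (hA : MeasurableSet A) :
    BdM (ind A) := BdM.indicator_one hA

lemma ind_sq {α : Type*} (A : Set α) (x : α) : ind A x ^ 2 = ind A x := by
  unfold ind; by_cases h : x ∈ A <;> simp [h]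

lemma ind_nonneg {α : Type*} (A : Set α) (x : α) : 0 ≤ ind A x := by
  unfold ind; by_cases h : x ∈ A <;> simp [h]

lemma ind_le_one {α : Type*} (A : Set α) (x : α) : ind A x ≤ 1 := by
  unfold ind; by_cases h : x ∈ A <;> simp [h]

lemma ind_of_not_mem {α : Type*} {A : Set α} {x : α} (h : x ∉ A) : ind A x = 0 := by
  unfold ind; simp [h]

lemma ind_of_mem {α : Type*} {A : Set α} {x : α} (h : x ∈ A) : ind A x = 1 := by
  unfold ind; simp [h]

/-- Constant displacement. -/
def cst (N : ℕ) (z : G) : Fin N → G := fun _ => z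

/-- Upper bound for the translation functional. -/
lemma J_upper {A : Set G} (hAm : MeasurableSet A) {f g : (Fin N → G) → ℝ} (hf : BdM f)
    (hg : BdM g) (hf1 : ∫ x, f x ^ 2 ∂μ = 1)
    (hA : ∀ x : Fin N → G, (∃ i, x i ∈ A) → f x = 0) (z : G) :
    ∫ x, g (x + cst N z) * (∑ i, ind A (x i) * cv (cm m i) f x) ∂μ
      ≤ (nrm μ (fun x => g (x + cst N z) - g x) + nrm μ (fun x => g x - f x))
        * √(N * ∫ y, ind A y ∂m) := by
  have hI : BdM (ind A) := BdM.ind hAm
  have hPsi : BdM (fun x : Fin N → G => ∑ i, ind A (x i) * cv (cm m i) f x) := hf.psi hI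
  have h0 : ∀ x, f x * (∑ i, ind A (x i) * cv (cm m i) f x) = 0 := by
    intro x
    rw [Finset.mul_sum]
    refine Finset.sum_eq_zero fun i _ => ?_
    by_cases hx : x i ∈ A
    · rw [hA x ⟨i, hx⟩, zero_mul]
    · rw [ind_of_not_mem hx]; ring
  have h1 : ∫ x, g (x + cst N z) * (∑ i, ind A (x i) * cv (cm m i) f x) ∂μ
      = ∫ x, (g (x + cst N z) - f x) * (∑ i, ind A (x i) * cv (cm m i) f x) ∂μ := by
    congr 1; funext x
    rw [sub_mul, h0, sub_zero]
  rw [h1]
  have hgz := hg.shift (cst N z)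
  refine ((le_abs_self _).trans (abs_ip_le (hgz.sub hf) hPsi)).trans ?_
  have h2 := nrm_triangle (P := μ) hgz hg hf
  have h3 := psi_nrm_le (m := m) hf hf1 hA hI (fun y hy => ind_of_not_mem hy)
  simp only [ind_sq] at h3
  exact mul_le_mul h2 h3 (nrm_nonneg _) (add_nonneg (nrm_nonneg _) (nrm_nonneg _))

lemma integral_ind_shift {A : Set G} (z : G) :
    ∫ y, ind A (y + -z) ∂m = ∫ y, ind A y ∂m := integral_shift (μ := m) (ind A) (-z)

/-- Lower bound for the translation functional. -/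
lemma J_lower {c : ℝ} (hc : 0 < c) {A B : Set G} (hAm : MeasurableSet A) (hB : MeasurableSet B)
    (H1 : ∀ u : G → ℝ, BdM u → ∀ w : G,
      c * ∫ y, B.indicator (fun _ => (1:ℝ)) (w + y) * (u y - ∫ y', u y' ∂m) ^ 2 ∂m ≤ Dm m ν u)
    {f g : (Fin N → G) → ℝ} (hf : BdM f) (hg : BdM g) (hf1 : ∫ x, f x ^ 2 ∂μ = 1)
    {h : G → ℝ} (hh : BdM h) (hh0 : ∫ y, h y ∂m = 0) (z : G) (hAB : ∀ y ∈ A, y + z ∈ B) :
    (∑ i, ∫ x, cv (cm m i) f x ^ 2 ∂μ) * (∫ y, ind A y ∂m - ∫ y, h y * ind A (y + -z) ∂m)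
      - N * (∫ y, ind A y ∂m) * (nrm μ (fun x => g x - f x)
          + nrm μ (fun x => f (x + cst N (-z)) - f x))
      - N * |∫ y, h y * ind A (y + -z) ∂m| * nrm μ (fun x => f (x + cst N (-z)) - f x)
      - √((∑ i, Dm μ (cm ν i) (fun x => g x + h (x i) * cv (cm m i) f x)) / c)
          * √(N * ∫ y, ind A y ∂m)
      ≤ ∫ x, g (x + cst N z) * (∑ i, ind A (x i) * cv (cm m i) f x) ∂μ := by
  have hI : BdM (ind A) := BdM.ind hAm
  have hIB : BdM (ind B) := BdM.ind hB
  have hIz : BdM (fun y : G => ind A (y + -z)) := hI.shift (-z)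
  set mA := ∫ y, ind A y ∂m with hmA
  have hmA0 : 0 ≤ mA := integral_nonneg fun y => ind_nonneg A y
  set a := ∫ y, h y * ind A (y + -z) ∂m with ha
  set s := nrm μ (fun x => g x - f x) with hs
  set fz : (Fin N → G) → ℝ := fun x => f (x + cst N (-z)) with hfz
  have hfzB : BdM fz := hf.shift _
  set d := nrm μ (fun x => fz x - f x) with hd
  have hfz1 : nrm μ fz = 1 := by
    rw [hfz, nrm_shift]; unfold nrm; rw [hf1]; simp
  have hfn1 : nrm μ f = 1 := by unfold nrm; rw [hf1]; simp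
  -- rewrite the left side
  have hJ : ∫ x, g (x + cst N z) * (∑ i, ind A (x i) * cv (cm m i) f x) ∂μ
      = ∑ i, ∫ x, g x * (ind A (x i + -z) * cv (cm m i) fz x) ∂μ := by
    have e1 : ∀ x : Fin N → G, g (x + cst N z) * (∑ i, ind A (x i) * cv (cm m i) f x)
        = ∑ i, g (x + cst N z) * (ind A (x i) * cv (cm m i) f x) := fun x => by
      rw [Finset.mul_sum]
    simp only [e1]
    rw [integral_finsetSum]
    · refine Finset.sum_congr rfl fun i _ => ?_
      rw [← integral_shift (μ := μ) (fun x => g (x + cst N z) * (ind A (x i) * cv (cm m i) f x))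
        (cst N (-z))]
      congr 1; funext x
      have e2 : x + cst N (-z) + cst N z = x := by
        funext j; simp [cst]
      have e3 : (x + cst N (-z)) i = x i + -z := by simp [cst]
      rw [e2, e3, ← cv_add_const]
    · intro i _
      exact ((hg.shift _).mul ((hI.eval i).mul hf.cv)).integrable μ
  -- the functions v_i and r_i
  have hvB : ∀ i : Fin N, BdM (fun x : Fin N → G => g x + h (x i) * cv (cm m i) f x) := fun i =>
    hg.add ((hh.eval i).mul hf.cv)
  set r : Fin N → (Fin N → G) → ℝ := fun i x =>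
    g x + h (x i) * cv (cm m i) f x - cv (cm m i) g x with hr
  have hrB : ∀ i, BdM (r i) := fun i => (hvB i).sub hg.cv
  have hPv : ∀ i x, cv (cm m i) (fun x => g x + h (x i) * cv (cm m i) f x) x
      = cv (cm m i) g x := by
    intro i x
    have hPf : BdM (cv (cm m i) f) := hf.cv
    rw [cv_add hg ((hh.eval i).mul hPf)]
    have : cv (cm m i) (fun y => h (y i) * cv (cm m i) f y) x = 0 := by
      rw [cv_cm ((hh.eval i).mul hPf)]
      have e1 : ∀ w : G, h ((x + (Pi.single i w : Fin N → G)) i)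
          * cv (cm m i) f (x + Pi.single i w) = h (w + x i) * cv (cm m i) f x := by
        intro w
        rw [inv_cv hf i x w, single_apply_self', add_comm]
      simp only [e1]
      rw [integral_mul_const, integral_shift (μ := m) h (x i), hh0, zero_mul]
    rw [this, add_zero]
  have hloc : ∀ i : Fin N, ∫ x, (ind B (x i) * r i x) ^ 2 ∂μ
      ≤ Dm μ (cm ν i) (fun x => g x + h (x i) * cv (cm m i) f x) / c := by
    intro i
    rw [le_div_iff₀ hc, mul_comm]
    refine le_trans (le_of_eq ?_) (local_coord (m := m) (μ := μ) (ν := ν) hB H1 (hvB i) i)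
    congr 2; funext x
    rw [hPv i x, mul_pow, ind_sq]
    rfl
  -- split each term
  have hsplit : ∀ i : Fin N, ∫ x, g x * (ind A (x i + -z) * cv (cm m i) fz x) ∂μ
      = ∫ x, (ind B (x i) * r i x) * (ind A (x i + -z) * cv (cm m i) fz x) ∂μ
        + (mA * ∫ x, cv (cm m i) g x * cv (cm m i) fz x ∂μ
            - a * ∫ x, cv (cm m i) f x * cv (cm m i) fz x ∂μ) := by
    intro i
    have hPf : BdM (cv (cm m i) f) := hf.cv
    have hPg : BdM (cv (cm m i) g) := hg.cv
    have hPfz : BdM (cv (cm m i) fz) := hfzB.cv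
    have e1 := integral_eval_mul (m := m) (μ := μ) hIz (hPg.mul hPfz)
      ((inv_cv hg i).mul (inv_cv hfzB i))
    have e2 := integral_eval_mul (m := m) (μ := μ) (hh.mul hIz) (hPf.mul hPfz)
      ((inv_cv hf i).mul (inv_cv hfzB i))
    rw [integral_ind_shift] at e1
    rw [← e1, ← e2, ← integral_sub, ← integral_add]
    · refine integral_congr_ae (ae_of_all _ fun x => ?_)
      have e3 : ind A (x i + -z) = ind B (x i) * ind A (x i + -z) := by
        by_cases hx : x i + -z ∈ A
        · have : x i ∈ B := by simpa using hAB _ hx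
          rw [ind_of_mem this, one_mul]
        · rw [ind_of_not_mem hx, mul_zero]
      simp only [hr]
      linear_combination (g x + h (x i) * cv (cm m i) f x - cv (cm m i) g x)
        * cv (cm m i) fz x * e3
    · exact (((hIB.eval i).mul (hrB i)).mul ((hIz.eval i).mul hPfz)).integrable μ
    · exact (((hIz.eval i).mul (hPg.mul hPfz)).sub
        (((hh.mul hIz).eval i).mul (hPf.mul hPfz))).integrable μ
    · exact ((hIz.eval i).mul (hPg.mul hPfz)).integrable μ
    · exact (((hh.mul hIz).eval i).mul (hPf.mul hPfz)).integrable μ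
  -- bound on the r terms
  have hR : |∑ i : Fin N, ∫ x, (ind B (x i) * r i x) * (ind A (x i + -z) * cv (cm m i) fz x) ∂μ|
      ≤ √((∑ i, Dm μ (cm ν i) (fun x => g x + h (x i) * cv (cm m i) f x)) / c)
          * √(N * mA) := by
    have b1 : ∀ i : Fin N,
        |∫ x, (ind B (x i) * r i x) * (ind A (x i + -z) * cv (cm m i) fz x) ∂μ|
        ≤ √(∫ x, (ind B (x i) * r i x) ^ 2 ∂μ)
          * √(∫ x, (ind A (x i + -z) * cv (cm m i) fz x) ^ 2 ∂μ) := fun i =>
      abs_integral_mul_le μ ((hIB.eval i).mul (hrB i)) ((hIz.eval i).mul hfzB.cv)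
    refine (Finset.abs_sum_le_sum_abs _ _).trans ((Finset.sum_le_sum fun i _ => b1 i).trans ?_)
    refine (Real.sum_sqrt_mul_sqrt_le _ (fun i => integral_nonneg fun _ => sq_nonneg _)
      (fun i => integral_nonneg fun _ => sq_nonneg _)).trans ?_
    refine mul_le_mul (Real.sqrt_le_sqrt ?_) (Real.sqrt_le_sqrt ?_) (Real.sqrt_nonneg _)
      (Real.sqrt_nonneg _)
    · rw [Finset.sum_div]
      exact Finset.sum_le_sum fun i _ => hloc i
    · have b2 : ∀ i : Fin N, ∫ x, (ind A (x i + -z) * cv (cm m i) fz x) ^ 2 ∂μ ≤ mA := by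
        intro i
        have e1 := integral_eval_mul (m := m) (μ := μ) hIz (hfzB.cv (ν := cm m i)).sq
          (inv_cv hfzB i).sq
        rw [integral_ind_shift] at e1
        have e2 : ∫ x, (ind A (x i + -z) * cv (cm m i) fz x) ^ 2 ∂μ
            = mA * ∫ x, cv (cm m i) fz x ^ 2 ∂μ := by
          rw [← e1]; congr 1; funext x
          rw [mul_pow, ind_sq]
        rw [e2]
        have e3 : ∫ x, cv (cm m i) fz x ^ 2 ∂μ ≤ 1 := by
          refine (sq_cv_le hfzB).trans ?_
          rw [← nrm_sq, hfz1]; norm_num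
        exact mul_le_of_le_one_right hmA0 e3
      calc ∑ i : Fin N, ∫ x, (ind A (x i + -z) * cv (cm m i) fz x) ^ 2 ∂μ
          ≤ ∑ _i : Fin N, mA := Finset.sum_le_sum fun i _ => b2 i
        _ = N * mA := by simp
  -- bounds on the main terms
  have hM : ∀ i : Fin N, (∫ x, cv (cm m i) f x ^ 2 ∂μ) * (mA - a) - mA * (s + d) - |a| * d
      ≤ mA * ∫ x, cv (cm m i) g x * cv (cm m i) fz x ∂μ
            - a * ∫ x, cv (cm m i) f x * cv (cm m i) fz x ∂μ := by
    intro i
    have hPf : BdM (cv (cm m i) f) := hf.cv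
    have hPg : BdM (cv (cm m i) g) := hg.cv
    have hPfz : BdM (cv (cm m i) fz) := hfzB.cv
    set ρ := ∫ x, cv (cm m i) f x ^ 2 ∂μ with hρ
    have nPf : nrm μ (cv (cm m i) f) ≤ 1 := hfn1 ▸ nrm_cv_le hf
    have nPfz : nrm μ (cv (cm m i) fz) ≤ 1 := hfz1 ▸ nrm_cv_le hfzB
    have n1 : nrm μ (fun x => cv (cm m i) g x - cv (cm m i) f x) ≤ s := by
      have := nrm_cv_le (μ := μ) (ρ := cm m i) (hg.sub hf)
      refine le_trans (le_of_eq ?_) this
      congr 1; funext x; rw [cv_sub hg hf]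
    have n2 : nrm μ (fun x => cv (cm m i) fz x - cv (cm m i) f x) ≤ d := by
      have := nrm_cv_le (μ := μ) (ρ := cm m i) (hfzB.sub hf)
      refine le_trans (le_of_eq ?_) this
      congr 1; funext x; rw [cv_sub hfzB hf]
    have i1 : ∫ x, cv (cm m i) g x * cv (cm m i) fz x ∂μ
        = ρ + ∫ x, (cv (cm m i) g x - cv (cm m i) f x) * cv (cm m i) fz x ∂μ
          + ∫ x, cv (cm m i) f x * (cv (cm m i) fz x - cv (cm m i) f x) ∂μ := by
      rw [hρ, ← integral_add, ← integral_add]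
      · congr 1; funext x; ring
      · exact (hPf.sq.add ((hPg.sub hPf).mul hPfz)).integrable μ
      · exact (hPf.mul (hPfz.sub hPf)).integrable μ
      · exact hPf.sq.integrable μ
      · exact ((hPg.sub hPf).mul hPfz).integrable μ
    have i2 : ∫ x, cv (cm m i) f x * cv (cm m i) fz x ∂μ
        = ρ + ∫ x, cv (cm m i) f x * (cv (cm m i) fz x - cv (cm m i) f x) ∂μ := by
      rw [hρ, ← integral_add]
      · congr 1; funext x; ring
      · exact hPf.sq.integrable μ
      · exact (hPf.mul (hPfz.sub hPf)).integrable μ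
    have b1 : |∫ x, (cv (cm m i) g x - cv (cm m i) f x) * cv (cm m i) fz x ∂μ| ≤ s := by
      refine (abs_ip_le (hPg.sub hPf) hPfz).trans ?_
      calc _ ≤ s * 1 := mul_le_mul n1 nPfz (nrm_nonneg _) (nrm_nonneg _)
        _ = s := mul_one s
    have b2 : |∫ x, cv (cm m i) f x * (cv (cm m i) fz x - cv (cm m i) f x) ∂μ| ≤ d := by
      refine (abs_ip_le hPf (hPfz.sub hPf)).trans ?_
      calc _ ≤ 1 * d := mul_le_mul nPf n2 (nrm_nonneg _) zero_le_one
        _ = d := one_mul d
    rw [i1, i2]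
    set u := ∫ x, (cv (cm m i) g x - cv (cm m i) f x) * cv (cm m i) fz x ∂μ
    set w := ∫ x, cv (cm m i) f x * (cv (cm m i) fz x - cv (cm m i) f x) ∂μ
    have c1 : -s ≤ u := neg_le_of_abs_le b1
    have c2 : -d ≤ w := neg_le_of_abs_le b2
    have c3 : a * w ≤ |a| * d := by
      calc a * w ≤ |a * w| := le_abs_self _
        _ = |a| * |w| := abs_mul _ _
        _ ≤ |a| * d := mul_le_mul_of_nonneg_left b2 (abs_nonneg _)
    have c4 : mA * (u + w) ≥ mA * (-(s + d)) := mul_le_mul_of_nonneg_left (by linarith) hmA0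
    nlinarith
  rw [hJ]
  simp only [hsplit]
  rw [Finset.sum_add_distrib]
  have hMs : (∑ i, ∫ x, cv (cm m i) f x ^ 2 ∂μ) * (mA - a) - N * mA * (s + d) - N * |a| * d
      ≤ ∑ i : Fin N, (mA * ∫ x, cv (cm m i) g x * cv (cm m i) fz x ∂μ
            - a * ∫ x, cv (cm m i) f x * cv (cm m i) fz x ∂μ) := by
    refine le_trans (le_of_eq ?_) (Finset.sum_le_sum fun i _ => hM i)
    rw [Finset.sum_sub_distrib, Finset.sum_sub_distrib, ← Finset.sum_mul]
    simp
    ring
  have := neg_le_of_abs_le hR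
  linarith

/-- The translation inequality. -/
lemma trans_ineq {c : ℝ} (hc : 0 < c) {A B : Set G} (hAm : MeasurableSet A)
    (hB : MeasurableSet B)
    (H1 : ∀ u : G → ℝ, BdM u → ∀ w : G,
      c * ∫ y, B.indicator (fun _ => (1:ℝ)) (w + y) * (u y - ∫ y', u y' ∂m) ^ 2 ∂m ≤ Dm m ν u)
    {f g : (Fin N → G) → ℝ} (hf : BdM f) (hg : BdM g) (hf1 : ∫ x, f x ^ 2 ∂μ = 1)
    (hA : ∀ x : Fin N → G, (∃ i, x i ∈ A) → f x = 0)
    {h : G → ℝ} (hh : BdM h) (hh0 : ∫ y, h y ∂m = 0)
    {ζ : Measure G} [IsProbabilityMeasure ζ] {Z : Set G} (hZ : MeasurableSet Z)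
    (hAB : ∀ z ∈ Z, ∀ y ∈ A, y + z ∈ B) {H0 θ : ℝ} (hH0 : 0 ≤ H0)
    (ha : ∀ z ∈ Z, |∫ y, h y * ind A (y + -z) ∂m| ≤ H0 * ∫ y, ind A y ∂m)
    (hθ : θ ≤ ∫ z in Z, (∫ y, ind A y ∂m - ∫ y, h y * ind A (y + -z) ∂m) ∂ζ) :
    (∑ i, ∫ x, cv (cm m i) f x ^ 2 ∂μ) * θ
      ≤ (N * (∫ y, ind A y ∂m) * (1 + H0) + √(N * ∫ y, ind A y ∂m))
          * √(2 * Dm μ (dg N ζ) g)
        + (N * (∫ y, ind A y ∂m) * (3 + 2 * H0) + √(N * ∫ y, ind A y ∂m))
          * nrm μ (fun x => g x - f x)
        + √((∑ i, Dm μ (cm ν i) (fun x => g x + h (x i) * cv (cm m i) f x)) / c)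
          * √(N * ∫ y, ind A y ∂m) := by
  set mA := ∫ y, ind A y ∂m with hmA
  have hmA0 : 0 ≤ mA := integral_nonneg fun y => ind_nonneg A y
  set s := nrm μ (fun x => g x - f x) with hs
  have hs0 : 0 ≤ s := nrm_nonneg _
  set Y := √((∑ i, Dm μ (cm ν i) (fun x => g x + h (x i) * cv (cm m i) f x)) / c) with hY
  have hY0 : 0 ≤ Y := Real.sqrt_nonneg _
  set t : G → ℝ := fun z => nrm μ (fun x => g (x + cst N z) - g x) with ht
  have ht0 : ∀ z, 0 ≤ t z := fun z => nrm_nonneg _
  have hcst : Measurable (fun z : G => cst N z) := measurable_const'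
  have htB : BdM t := by
    have : BdM (fun z : G => ∫ x, (g (x + cst N z) - g x) ^ 2 ∂μ) :=
      (hg.dsq (μ := μ)).comp hcst
    exact this.sqrt
  set Sρ := ∑ i, ∫ x, cv (cm m i) f x ^ 2 ∂μ with hSρ
  have hSρ0 : 0 ≤ Sρ := Finset.sum_nonneg fun i _ => integral_nonneg fun _ => sq_nonneg _
  -- pointwise inequality
  have hpt : ∀ z ∈ Z, Sρ * (mA - ∫ y, h y * ind A (y + -z) ∂m)
      ≤ (N * mA * (1 + H0) + √(N * mA)) * t z
        + ((N * mA * (3 + 2 * H0) + √(N * mA)) * s + Y * √(N * mA)) := by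
    intro z hz
    have hlow := J_lower (m := m) (μ := μ) (ν := ν) hc hAm hB H1 hf hg hf1 hh hh0 z (hAB z hz)
    have hup := J_upper (m := m) (μ := μ) hAm hf hg hf1 hA z
    set d := nrm μ (fun x => f (x + cst N (-z)) - f x) with hd
    have hd0 : 0 ≤ d := nrm_nonneg _
    have hdle : d ≤ t z + 2 * s := by
      have e1 : nrm μ (fun x => f (x + cst N (-z)) - g (x + cst N (-z))) = s := by
        rw [nrm_shift (μ := μ) (fun x => f x - g x) (cst N (-z)), nrm_sub_comm]
      have e2 : nrm μ (fun x => g (x + cst N (-z)) - g x) = t z := by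
        rw [ht, ← nrm_shift (μ := μ) (fun x => g (x + cst N (-z)) - g x) (cst N z), nrm_sub_comm]
        congr 1; funext x
        have : x + cst N z + cst N (-z) = x := by funext j; simp [cst]
        rw [this]
      have t1 := nrm_triangle (P := μ) (hf.shift (cst N (-z))) (hg.shift (cst N (-z))) hf
      have t2 := nrm_triangle (P := μ) (hg.shift (cst N (-z))) hg hf
      rw [e1] at t1
      rw [e2] at t2
      have e3 : nrm μ (fun x => g x - f x) = s := rfl
      linarith
    have haz := ha z hz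
    have hN : (0:ℝ) ≤ N := Nat.cast_nonneg N
    have hNm : 0 ≤ N * mA := mul_nonneg hN hmA0
    have hq : 0 ≤ √(N * mA) := Real.sqrt_nonneg _
    have b1 : N * |∫ y, h y * ind A (y + -z) ∂m| * d ≤ N * (H0 * mA) * d :=
      mul_le_mul_of_nonneg_right (mul_le_mul_of_nonneg_left haz hN) hd0
    have b2 : (N * mA * (1 + H0)) * d ≤ (N * mA * (1 + H0)) * (t z + 2 * s) :=
      mul_le_mul_of_nonneg_left hdle (mul_nonneg hNm (by linarith))
    have htz : nrm μ (fun x => g (x + cst N z) - g x) = t z := rfl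
    rw [htz] at hup
    have key := hlow.trans hup
    nlinarith [key, b1, b2]
  -- integrate over Z
  have hhI : BdM (fun z : G => ∫ y, h y * ind A (y + -z) ∂m) := by
    have hF : BdM (fun p : G × G => h p.1 * ind A (p.1 + -p.2)) :=
      (hh.comp measurable_fst).mul ((BdM.ind hAm).comp (measurable_fst.add measurable_snd.neg))
    exact hF.integral_prod_left m
  have hint1 : Integrable (fun z : G => mA - ∫ y, h y * ind A (y + -z) ∂m) (ζ.restrict Z) :=
    ((BdM.const mA).sub hhI).integrable _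
  have hint2 : Integrable (fun z : G => (N * mA * (1 + H0) + √(N * mA)) * t z
        + ((N * mA * (3 + 2 * H0) + √(N * mA)) * s + Y * √(N * mA))) (ζ.restrict Z) :=
    ((htB.const_mul _).add (BdM.const _)).integrable _
  have hN : (0:ℝ) ≤ N := Nat.cast_nonneg N
  have hNm : 0 ≤ N * mA := mul_nonneg hN hmA0
  have hq : 0 ≤ √(N * mA) := Real.sqrt_nonneg _
  have hα : 0 ≤ N * mA * (1 + H0) + √(N * mA) := by
    have := mul_nonneg hNm (by linarith : 0 ≤ 1 + H0); linarith
  have hβ : 0 ≤ (N * mA * (3 + 2 * H0) + √(N * mA)) * s + Y * √(N * mA) := by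
    have h1 := mul_nonneg hNm (by linarith : 0 ≤ 3 + 2 * H0)
    have h2 := mul_nonneg (by linarith : 0 ≤ N * mA * (3 + 2 * H0) + √(N * mA)) hs0
    have h3 := mul_nonneg hY0 hq
    linarith
  have step1 : Sρ * θ ≤ ∫ z in Z, ((N * mA * (1 + H0) + √(N * mA)) * t z
        + ((N * mA * (3 + 2 * H0) + √(N * mA)) * s + Y * √(N * mA))) ∂ζ := by
    calc Sρ * θ ≤ Sρ * ∫ z in Z, (mA - ∫ y, h y * ind A (y + -z) ∂m) ∂ζ :=
          mul_le_mul_of_nonneg_left hθ hSρ0
      _ = ∫ z in Z, Sρ * (mA - ∫ y, h y * ind A (y + -z) ∂m) ∂ζ := by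
          rw [integral_const_mul]
      _ ≤ _ := setIntegral_mono_on (hint1.const_mul _) hint2 hZ fun z hz => hpt z hz
  have step2 : ∫ z in Z, ((N * mA * (1 + H0) + √(N * mA)) * t z
        + ((N * mA * (3 + 2 * H0) + √(N * mA)) * s + Y * √(N * mA))) ∂ζ
      ≤ ∫ z, ((N * mA * (1 + H0) + √(N * mA)) * t z
        + ((N * mA * (3 + 2 * H0) + √(N * mA)) * s + Y * √(N * mA))) ∂ζ := by
    refine setIntegral_le_integral (((htB.const_mul _).add (BdM.const _)).integrable _) ?_
    exact ae_of_all _ fun z => add_nonneg (mul_nonneg hα (ht0 z)) hβ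
  have step3 : ∫ z, ((N * mA * (1 + H0) + √(N * mA)) * t z
        + ((N * mA * (3 + 2 * H0) + √(N * mA)) * s + Y * √(N * mA))) ∂ζ
      = (N * mA * (1 + H0) + √(N * mA)) * ∫ z, t z ∂ζ
        + ((N * mA * (3 + 2 * H0) + √(N * mA)) * s + Y * √(N * mA)) := by
    rw [integral_add ((htB.const_mul _).integrable _) (integrable_const _), integral_const_mul]
    simp
  have step4 : ∫ z, t z ∂ζ ≤ √(2 * Dm μ (dg N ζ) g) := by
    apply Real.le_sqrt_of_sq_le
    refine (sq_integral_le ζ htB).trans (le_of_eq ?_)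
    have e1 : ∀ z, t z ^ 2 = ∫ x, (g (x + cst N z) - g x) ^ 2 ∂μ := fun z => nrm_sq _
    simp only [e1]
    unfold Dm
    rw [dg, integral_map measurable_const'.aemeasurable hg.dsq.meas.aestronglyMeasurable]
    unfold cst
    ring
  have step5 := mul_le_mul_of_nonneg_left step4 hα
  linarith

end Trans

end Pool.Agent.Lib.MP_fd77c3_pr
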