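import Pool.Agent.Lib.MP_fd77c3_pr.TorusFixed

/-!
The contraction estimate on the torus.
-/

open MeasureTheory Set Filter Topology ProbabilityTheory
open scoped ENNReal NNReal

set_option linter.unusedSectionVars false
set_option linter.unusedTactic false
set_option linter.unusedSimpArgs false

namespace Pool.Agent.Lib.MP_fd77c3_pr

lemma half_natCast_tendsto (E : ℝ) : Tendsto (fun n : ℕ => E / √(n:ℝ)) atTop (𝓝 0) :=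
  (Real.tendsto_sqrt_atTop.comp tendsto_natCast_atTop_atTop).const_div_atTop E

lemma eventually_mul_le {u : ℕ → ℝ} (hu : Tendsto u atTop (𝓝 0)) (c : ℝ) {b : ℝ} (hb : 0 < b) :
    ∀ᶠ n in atTop, c * u n ≤ b := by
  have h1 : Tendsto (fun n => c * u n) atTop (𝓝 (c * 0)) := hu.const_mul c
  rw [mul_zero] at h1
  filter_upwards [h1.eventually (gt_mem_nhds hb)] with n hn using hn.le

lemma forms_range {d q : ℕ} {δ : ℝ≥0} (hqδ : (q:ℝ≥0) * δ = 1) (e : (Fin d → ℝ) → ℝ) (D : ℕ) :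
    ∑ i ∈ Finset.range D, ∑ l ∈ Finset.range q,
        ∫ x, e x * cv (gs d (l * δ + i)) e x
        = ∑ j ∈ Finset.range (D * q), ∫ x, e x * cv (gs d ((j:ℝ≥0) * δ)) e x := by
  induction D with
  | zero => simp
  | succ D ih =>
    rw [Finset.sum_range_succ, ih, add_mul, one_mul, Finset.sum_range_add]
    congr 1
    refine Finset.sum_congr rfl fun l _ => ?_
    have : (((D * q + l : ℕ) : ℝ≥0)) * δ = l * δ + D := by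
      push_cast
      rw [add_mul, mul_assoc, hqδ, mul_one, add_comm]
    rw [this]

theorem torus_contraction {d : ℕ} (hd : 3 ≤ d) {lam a κb : ℝ} (hlam : 0 < lam) (ha : 0 < a)
    (hκ : 0 ≤ κb) {K : Set (Fin d → ℝ)} (hK : MeasurableSet K) (hKa : K ⊆ cube d a)
    (hvK : 0 < volume.real K) :
    ∃ c > 0, ∀ e : (Fin d → ℝ) → ℝ, BdM e → (∀ x, 0 ≤ e x) → (∀ x, x ∉ K → e x = 0) →
      (∫ x, e x) ≤ κb →
      ∃ q0 : ℕ, ∀ q : ℕ, q0 ≤ q →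
        (∀ J : ℕ, ∑ j ∈ Finset.range J, ∫ x, e x * cv (gs d ((j:ℝ≥0) * (q:ℝ≥0)⁻¹)) e x
          ≤ q * ∫ x, e x) →
        ∀ᶠ L : ℕ in atTop, ∀ f : (Fin ⌊lam * (L:ℝ) ^ d⌋₊ → Tor d) → ℝ, BdM f →
          (∀ x : Fin ⌊lam * (L:ℝ) ^ d⌋₊ → Tor d, (∃ i, sec d L (x i) ∈ K) → f x = 0) →
          ∫ x, bop ⌊lam * (L:ℝ) ^ d⌋₊ (pt d L) ((q:ℝ≥0)⁻¹) f x ^ 2
            ≤ (1 - (lam * (∫ x, e x) + c) / q) * ∫ x, f x ^ 2 := by
  have hC0 := C0_pos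
  have hc0 := c0d_pos d
  obtain ⟨E1, hE1⟩ : ∃ E : ℝ, E = 8 * C0 ^ d := ⟨_, rfl⟩
  obtain ⟨E2, hE2⟩ : ∃ E : ℝ, E = 2 * C0 ^ d / c0 ^ d := ⟨_, rfl⟩
  have hE1p : 0 < E1 := by rw [hE1]; positivity
  have hE2p : 0 < E2 := by rw [hE2]; positivity
  have hsum : ∀ {L : ℕ}, 0 < L → ∀ {b : ℕ}, 1 ≤ b → ∀ J : ℕ,
      ∑ j ∈ Finset.Ico b J, rt d L j ≤ (L:ℝ) ^ d * (E1 / √b + E2 / L) := by
    intro L hL b hb J
    rw [hE1, hE2]; exact rt_sum hd hL hb J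
  have hsqrt := half_natCast_tendsto E1
  -- Δ
  obtain ⟨Δ, hΔ, hΔ1⟩ : ∃ Δ : ℕ, κb * (E1 / √(Δ:ℝ)) ≤ 1 / 8 ∧ 1 ≤ Δ :=
    ((eventually_mul_le hsqrt κb (by norm_num : (0:ℝ) < 1 / 8)).and
      (eventually_ge_atTop 1)).exists
  -- R₀
  obtain ⟨R0, hR0⟩ : ∃ R : ℕ, 3 / 4 ≤ (gs d Δ).real (cube d R) := by
    obtain ⟨n, hn⟩ := ((gs_cube_tendsto d Δ).eventually
      (lt_mem_nhds (by norm_num : (3 / 4 : ℝ) < 1))).exists
    exact ⟨n, hn.le⟩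
  obtain ⟨s1, hs1⟩ : ∃ s : ℝ, s = E1 + E2 := ⟨_, rfl⟩
  obtain ⟨K1, hK1⟩ : ∃ k : ℝ, k = 1 + (2 * (a + R0)) ^ d * s1 := ⟨_, rfl⟩
  have hs1p : 0 < s1 := by rw [hs1]; positivity
  have hK1p : 0 < K1 := by rw [hK1]; positivity
  obtain ⟨vK, hvKe⟩ : ∃ v : ℝ, v = volume.real K := ⟨_, rfl⟩
  rw [← hvKe] at hvK
  obtain ⟨H0, hH0⟩ : ∃ h : ℝ, h = √(K1 * (κb + 1) / vK) := ⟨_, rfl⟩
  have hH0p : 0 ≤ H0 := by rw [hH0]; exact Real.sqrt_nonneg _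
  obtain ⟨M0, hM0⟩ : ∃ M : ℝ, M = lam * vK := ⟨_, rfl⟩
  have hM0p : 0 < M0 := by rw [hM0]; positivity
  obtain ⟨C3, hC3⟩ : ∃ C : ℝ, C = √(2 * Δ) * (M0 * (1 + H0) + √M0) + √(K1 * M0) := ⟨_, rfl⟩
  have hC3p : 0 < C3 := by rw [hC3]; positivity
  obtain ⟨c2, hc2⟩ : ∃ c : ℝ, c = (M0 / 2 / (16 * C3)) ^ 2 := ⟨_, rfl⟩
  have hc2p : 0 < c2 := by rw [hc2]; positivity
  obtain ⟨n0, hn01, hn0⟩ := rt_half d
  refine ⟨c2 / 2, by positivity, ?_⟩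
  intro e he he0 heK hκe
  obtain ⟨ke, hke⟩ : ∃ t : ℝ, t = ∫ x, e x := ⟨_, rfl⟩
  rw [← hke] at hκe ⊢
  have hecube : ∀ x, x ∉ cube d a → e x = 0 := fun x hx => heK x fun h => hx (hKa h)
  obtain ⟨e2, he2⟩ : ∃ t : ℝ, t = ∫ x, e x ^ 2 := ⟨_, rfl⟩
  obtain ⟨Λ, hΛ⟩ : ∃ t : ℝ, t = lam * κb + c2 + 1 := ⟨_, rfl⟩
  have hΛp : 0 < Λ := by rw [hΛ]; positivity
  obtain ⟨η, hηp, hη2, hη3⟩ := ar12 hlam hκ hc2p
  obtain ⟨ε3, hε3p, hε31, hε32⟩ := ar13 hlam hc2p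
  -- conditions on q
  have hσt : Tendsto (fun q : ℕ => √(Λ / q)) atTop (𝓝 0) := by
    have h1 : Tendsto (fun q : ℕ => Λ / (q:ℝ)) atTop (𝓝 0) :=
      tendsto_natCast_atTop_atTop.const_div_atTop Λ
    have h2 := h1.sqrt
    simpa using h2
  have hσt2 : Tendsto (fun q : ℕ => √(Λ / q) ^ 2) atTop (𝓝 0) := by
    simpa using hσt.pow 2
  have hq0 : ∀ᶠ q : ℕ in atTop, 1 ≤ q ∧ 2 * √(Λ / q) ^ 2 ≤ η / 2
      ∧ 2 * (√(lam * e2) + lam * κb) * √(Λ / q) ≤ c2 / 8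
      ∧ (M0 * (3 + 2 * H0) + √M0) * √(Λ / q) ≤ M0 / 32 := by
    filter_upwards [eventually_ge_atTop 1, eventually_mul_le hσt2 2 (half_pos hηp),
      eventually_mul_le hσt (2 * (√(lam * e2) + lam * κb)) (by positivity : (0:ℝ) < c2 / 8),
      eventually_mul_le hσt (M0 * (3 + 2 * H0) + √M0) (by positivity : (0:ℝ) < M0 / 32)]
      with q h1 h2 h3 h4
    exact ⟨h1, h2, h3, h4⟩
  obtain ⟨q0, hq0⟩ := eventually_atTop.1 hq0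
  refine ⟨q0, fun q hq henergy => ?_⟩
  obtain ⟨hq1, hqη, hqa, hqM⟩ := hq0 q hq
  have hqR : (0:ℝ) < q := by exact_mod_cast hq1
  obtain ⟨δ, hδ⟩ : ∃ t : ℝ≥0, t = (q:ℝ≥0)⁻¹ := ⟨_, rfl⟩
  rw [← hδ] at henergy ⊢
  have hqδ : (q:ℝ≥0) * δ = 1 := by
    rw [hδ]; exact mul_inv_cancel₀ (by positivity)
  obtain ⟨σ, hσ⟩ : ∃ t : ℝ, t = √(Λ / q) := ⟨_, rfl⟩
  rw [← hσ] at hqη hqa hqM
  have hσ0 : 0 ≤ σ := by rw [hσ]; exact Real.sqrt_nonneg _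
  have hσ2 : Λ / q ≤ σ ^ 2 := by rw [hσ, Real.sq_sqrt (by positivity)]
  have hqa' : 2 * σ * (√(lam * e2) + lam * κb) ≤ c2 / 8 := by
    have : 2 * σ * (√(lam * e2) + lam * κb) = 2 * (√(lam * e2) + lam * κb) * σ := by ring
    rw [this]; exact hqa
  -- D
  obtain ⟨D, ⟨hD1, hDa⟩, hDb⟩ : ∃ D : ℕ, (1 ≤ D ∧ ke ^ 2 * (E1 / √(D:ℝ)) ≤ ε3 / 4)
      ∧ ke * (E1 / √(D:ℝ)) ≤ 1 / 16 :=
    (((eventually_ge_atTop 1).and (eventually_mul_le hsqrt (ke ^ 2)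
      (by positivity : (0:ℝ) < ε3 / 4))).and (eventually_mul_le hsqrt ke
      (by norm_num : (0:ℝ) < 1 / 16))).exists
  -- limits in L
  have hLinv : Tendsto (fun L : ℕ => (1:ℝ) / L) atTop (𝓝 0) := tendsto_one_div_atTop_nhds_zero_nat
  have hLdinv : Tendsto (fun L : ℕ => (1:ℝ) / (L:ℝ) ^ d) atTop (𝓝 0) := by
    have h1 : Tendsto (fun L : ℕ => ((1:ℝ) / L) ^ d) atTop (𝓝 (0 ^ d)) := hLinv.pow d
    rw [zero_pow (by omega)] at h1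
    refine h1.congr fun L => ?_
    rw [div_pow, one_pow]
  have hform : Tendsto (fun L : ℕ => ∑ i ∈ Finset.range D, ∑ l ∈ Finset.range q,
      ((L:ℝ) ^ d * ∫ g : Tor d, e (sec d L g)
        * cv (pt d L (l * δ + i)) (fun g => e (sec d L g)) g)) atTop
      (𝓝 (∑ i ∈ Finset.range D, ∑ l ∈ Finset.range q,
        ∫ x, e x * cv (gs d (l * δ + i)) e x)) := by
    refine tendsto_finsetSum _ fun i _ => tendsto_finsetSum _ fun l _ => ?_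
    exact form_tendsto d _ he hecube
  have hformle : ∑ i ∈ Finset.range D, ∑ l ∈ Finset.range q,
        ∫ x, e x * cv (gs d (l * δ + i)) e x ≤ q * ke := by
    rw [forms_range hqδ]
    exact henergy _
  -- eventually facts
  have ev1 : ∀ᶠ L : ℕ in atTop, 2 * (a + R0) < (L:ℝ) :=
    tendsto_natCast_atTop_atTop.eventually_gt_atTop _
  have ev2 : ∀ᶠ L : ℕ in atTop, (1:ℝ) / (L:ℝ) ^ d ≤ lam / 2 := by
    filter_upwards [hLdinv.eventually (gt_mem_nhds (half_pos hlam))] with L hL using hL.le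
  have ev3 := eventually_mul_le hLinv (8 * n0 * Λ / lam) (half_pos hηp)
  have ev4 := eventually_mul_le hLinv (κb * E2) (by norm_num : (0:ℝ) < 1 / 16)
  have ev5 := eventually_mul_le hLinv (ke ^ 2 * E2) (by positivity : (0:ℝ) < ε3 / 4)
  have ev6 := eventually_mul_le hLdinv (ke * D) (by norm_num : (0:ℝ) < 1 / 16)
  have ev7 := eventually_mul_le hLdinv ke (by positivity : (0:ℝ) < c2 / 16)
  have ev8 : ∀ᶠ L : ℕ in atTop, ∑ i ∈ Finset.range D, ∑ l ∈ Finset.range q,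
      ((L:ℝ) ^ d * ∫ g : Tor d, e (sec d L g)
        * cv (pt d L (l * δ + i)) (fun g => e (sec d L g)) g) ≤ q * (ke + ε3 / 2) := by
    have h1 : ∑ i ∈ Finset.range D, ∑ l ∈ Finset.range q,
        ∫ x, e x * cv (gs d (l * δ + i)) e x < q * (ke + ε3 / 2) := by
      have h2 : (0:ℝ) < q * (ε3 / 2) := by positivity
      have h3 : q * (ke + ε3 / 2) = q * ke + q * (ε3 / 2) := by ring
      rw [h3]
      linarith
    filter_upwards [hform.eventually (gt_mem_nhds h1)] with L hL using hL.le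
  filter_upwards [ev1, ev2, ev3, ev4, ev5, ev6, ev7, ev8, eventually_gt_atTop 0]
    with L h1 h2 h3 h4 h5 h6 h7 h8 hL0
  have hN1 : (⌊lam * (L:ℝ) ^ d⌋₊ : ℝ) ≤ lam * (L:ℝ) ^ d := Nat.floor_le (by positivity)
  have hN2 : lam * (L:ℝ) ^ d - 1 ≤ (⌊lam * (L:ℝ) ^ d⌋₊ : ℝ) := by
    have := Nat.lt_floor_add_one (lam * (L:ℝ) ^ d); linarith
  intro f hf hfK
  exact torus_fixed hd hL0 hq1 hqδ hlam ha hκ hK hKa hvKe hvK hE1p hE2p (hsum hL0) hΔ1 hΔ hR0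
    hs1 hK1 hH0 hM0 hC3 hc2 hc2p hn01 (hn0 L hL0) he he0 heK hke hκe he2 hΛ hηp hη2 hη3 hε3p hε31
    hε32 hσ2 hσ0 hqη hqa' hqM hD1 hDa hDb h1 h2 h3 h4 h5 h6 h7 h8 hN1 hN2 hf hfK

end Pool.Agent.Lib.MP_fd77c3_pr
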