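import Pool.Agent.Lib.MP_fd77c3_pr.SpaceBound
import Pool.Agent.Lib.MP_fd77c3_pr.TorusStep

/-!
The analytic core: exponential bound for the expected void probability.
-/

open MeasureTheory Set Filter Topology ProbabilityTheory
open scoped ENNReal NNReal

set_option linter.unusedSectionVars false
set_option linter.unusedTactic false
set_option linter.unusedSimpArgs false

namespace Pool.Agent.Lib.MP_fd77c3_pr

/-- Monotonicity in time of the energy in space. -/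
lemma form_antitone (d : ℕ) {a : ℝ} {e : (Fin d → ℝ) → ℝ} (he : BdM e)
    (hsupp : ∀ x, x ∉ cube d a → e x = 0) {s t : ℝ≥0} (hst : s ≤ t) :
    ∫ x, e x * cv (gs d t) e x ≤ ∫ x, e x * cv (gs d s) e x := by
  refine le_of_tendsto_of_tendsto (form_tendsto d t he hsupp) (form_tendsto d s he hsupp) ?_
  refine Eventually.of_forall fun L => ?_
  have heG : BdM (fun g : Tor d => e (sec d L g)) := he.comp (measurable_sec d L)
  have h := (pt_semi d L).ip_antitone heG hst (m := (volume : Measure (Tor d)))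
  exact mul_le_mul_of_nonneg_left h (by positivity)

/-- Refinement of the time step in the energy inequality. -/
lemma energy_refine (d : ℕ) {a : ℝ} {e : (Fin d → ℝ) → ℝ} (he : BdM e) (he0 : ∀ x, 0 ≤ e x)
    (hsupp : ∀ x, x ∉ cube d a → e x = 0) {q' : ℕ} (hq' : 0 < q')
    (h : ∀ J : ℕ, ∑ j ∈ Finset.range J, ∫ x, e x * cv (gs d ((j:ℝ≥0) * (q':ℝ≥0)⁻¹)) e x
      ≤ q' * ∫ x, e x) {m : ℕ} (hm : 0 < m) (J : ℕ) :
    ∑ j ∈ Finset.range J, ∫ x, e x * cv (gs d ((j:ℝ≥0) * ((m * q' : ℕ):ℝ≥0)⁻¹)) e x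
      ≤ (m * q' : ℕ) * ∫ x, e x := by
  have hpos : ∀ s : ℝ≥0, 0 ≤ ∫ x, e x * cv (gs d s) e x := fun s =>
    integral_nonneg fun x => mul_nonneg (he0 x) (integral_nonneg fun y => he0 _)
  set u : ℕ → ℝ := fun j => ∫ x, e x * cv (gs d ((j:ℝ≥0) * ((m * q' : ℕ):ℝ≥0)⁻¹)) e x with hu
  have h1 : ∑ j ∈ Finset.range J, u j ≤ ∑ j ∈ Finset.range (J * m), u j := by
    apply Finset.sum_le_sum_of_subset_of_nonneg
    · intro j hj
      rw [Finset.mem_range] at *
      exact hj.trans_le (Nat.le_mul_of_pos_right J hm)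
    · intro j _ _
      exact hpos _
  have hmR : (m:ℝ≥0) ≠ 0 := by positivity
  have hqR : (q':ℝ≥0) ≠ 0 := by positivity
  have h2 : ∀ J : ℕ, ∑ j ∈ Finset.range (J * m), u j
      ≤ m * ∑ i ∈ Finset.range J, ∫ x, e x * cv (gs d ((i:ℝ≥0) * (q':ℝ≥0)⁻¹)) e x := by
    intro J
    induction J with
    | zero => simp
    | succ J ih =>
      rw [add_mul, one_mul, Finset.sum_range_add, Finset.sum_range_succ, mul_add]
      refine add_le_add ih ?_
      calc ∑ l ∈ Finset.range m, u (J * m + l)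
          ≤ ∑ _l ∈ Finset.range m, ∫ x, e x * cv (gs d ((J:ℝ≥0) * (q':ℝ≥0)⁻¹)) e x := by
            refine Finset.sum_le_sum fun l _ => ?_
            refine form_antitone d he hsupp ?_
            have e1 : ((J:ℝ≥0) * (q':ℝ≥0)⁻¹) = ((J * m : ℕ):ℝ≥0) * ((m * q' : ℕ):ℝ≥0)⁻¹ := by
              push_cast
              field_simp
            rw [e1]
            gcongr
            omega
        _ = _ := by simp
  have h3 : (m:ℝ) * ∑ i ∈ Finset.range J, ∫ x, e x * cv (gs d ((i:ℝ≥0) * (q':ℝ≥0)⁻¹)) e x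
      ≤ m * (q' * ∫ x, e x) := mul_le_mul_of_nonneg_left (h J) (by positivity)
  calc ∑ j ∈ Finset.range J, u j ≤ m * (q' * ∫ x, e x) := h1.trans ((h2 J).trans h3)
    _ = (m * q' : ℕ) * ∫ x, e x := by push_cast; ring

/-- The analytic core. -/
theorem core_bound {d : ℕ} (hd : 3 ≤ d) {lam a κ : ℝ} (hlam : 0 < lam) (ha : 0 < a)
    (hκ : 0 ≤ κ) {K : Set (Fin d → ℝ)} (hK : MeasurableSet K) (hKa : K ⊆ cube d a)
    (hvK : 0 < volume.real K) :
    ∃ c > 0, ∀ e : (Fin d → ℝ) → ℝ, BdM e → (∀ x, 0 ≤ e x) → (∀ x, x ∉ K → e x = 0) →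
      (∫ x, e x) ≤ κ → ∀ q' : ℕ, 0 < q' →
      (∀ J : ℕ, ∑ j ∈ Finset.range J, ∫ x, e x * cv (gs d ((j:ℝ≥0) * (q':ℝ≥0)⁻¹)) e x
          ≤ q' * ∫ x, e x) →
      ∃ q : ℕ, 0 < q ∧ ∀ n : ℕ,
        ∫ ξ, Real.exp (-(lam * wv K ((q:ℝ≥0)⁻¹) n ξ))
          ∂(Measure.pi fun _ : Fin n => gs d ((q:ℝ≥0)⁻¹))
        ≤ Real.exp (-((lam * (∫ x, e x) + c) * (n / q))) := by
  obtain ⟨c, hc, H⟩ := torus_contraction hd hlam ha hκ hK hKa hvK
  refine ⟨c, hc, ?_⟩
  intro e he he0 heK hκe q' hq' hen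
  obtain ⟨q0, hq0⟩ := H e he he0 heK hκe
  have hsupp : ∀ x, x ∉ cube d a → e x = 0 := fun x hx => heK x fun h => hx (hKa h)
  have hke0 : 0 ≤ ∫ x, e x := integral_nonneg he0
  obtain ⟨m, hm⟩ : ∃ m : ℕ, lam * (∫ x, e x) + c ≤ m := exists_nat_ge _
  -- choose the refinement
  set M := q0 + m + 1 with hM
  have hMpos : 0 < M := by omega
  refine ⟨M * q', Nat.mul_pos hMpos hq', ?_⟩
  have hge : q0 ≤ M * q' := by
    calc q0 ≤ M := by omega
      _ ≤ M * q' := Nat.le_mul_of_pos_right M hq'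
  have hge2 : m ≤ M * q' := by
    calc m ≤ M := by omega
      _ ≤ M * q' := Nat.le_mul_of_pos_right M hq'
  have hqpos : 0 < M * q' := Nat.mul_pos hMpos hq'
  have hev := hq0 (M * q') hge (fun J => energy_refine d he he0 hsupp hq' hen hMpos J)
  generalize M * q' = q at hge2 hqpos hev ⊢
  intro n
  have hqR : (0:ℝ) < q := by exact_mod_cast hqpos
  have hx : (lam * (∫ x, e x) + c) / q ≤ 1 := by
    rw [div_le_one hqR]
    have : (m:ℝ) ≤ q := by exact_mod_cast hge2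
    linarith
  have hρ : 0 ≤ 1 - (lam * (∫ x, e x) + c) / q := by linarith
  have h1 := space_bound (by omega) hlam hK hKa ((q:ℝ≥0)⁻¹) n hρ hev
  refine h1.trans ?_
  have h2 : 1 - (lam * (∫ x, e x) + c) / q ≤ Real.exp (-((lam * (∫ x, e x) + c) / q)) := by
    have := Real.add_one_le_exp (-((lam * (∫ x, e x) + c) / q))
    linarith
  calc (1 - (lam * (∫ x, e x) + c) / q) ^ n
      ≤ Real.exp (-((lam * (∫ x, e x) + c) / q)) ^ n := pow_le_pow_left₀ hρ h2 n
    _ = Real.exp (-((lam * (∫ x, e x) + c) * (n / q))) := by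
        rw [← Real.exp_nat_mul]; congr 1; ring

end Pool.Agent.Lib.MP_fd77c3_pr
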