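import Pool.Agent.Lib.MP_fd77c3_pr.Surv

/-!
Auxiliary facts for the discrete equilibrium charge: averaging operators on `Fin d → ℝ` with
Lebesgue measure, and the hitting probabilities `Hs`, the escape functions `es`.
-/

open MeasureTheory Set Filter Topology ProbabilityTheory
open scoped ENNReal NNReal

set_option linter.unusedSectionVars false

namespace Pool.Agent.Lib.MP_fd77c3_pr

section Leb

variable {d : ℕ} {γ : Measure (Fin d → ℝ)} [IsProbabilityMeasure γ]

lemma integrable_cvL {f : (Fin d → ℝ) → ℝ} (hf : BdM f) (hi : Integrable f volume) :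
    Integrable (cv γ f) volume ∧ ∫ x, cv γ f x = ∫ x, f x := by
  have hF : AEStronglyMeasurable (fun p : (Fin d → ℝ) × (Fin d → ℝ) => f (p.1 + p.2))
      ((volume : Measure (Fin d → ℝ)).prod γ) := hf.add₂.meas.aestronglyMeasurable
  have hint : Integrable (fun p : (Fin d → ℝ) × (Fin d → ℝ) => f (p.1 + p.2))
      ((volume : Measure (Fin d → ℝ)).prod γ) := by
    rw [integrable_prod_iff' hF]
    constructor
    · exact ae_of_all _ fun y => hi.comp_add_right y
    · have : (fun y : Fin d → ℝ => ∫ x, ‖f (x + y)‖) = fun _ => ∫ x, ‖f x‖ := by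
        funext y
        exact integral_add_right_eq_self (fun x => ‖f x‖) y
      simp only [this]
      exact integrable_const _
  constructor
  · exact hint.integral_prod_left
  · unfold cv
    rw [integral_integral_swap hint]
    have : (fun y : Fin d → ℝ => ∫ x, f (x + y)) = fun _ => ∫ x, f x := by
      funext y
      exact integral_add_right_eq_self f y
    simp only [this]
    simp

lemma cv_monoL {f g : (Fin d → ℝ) → ℝ} (hf : BdM f) (hg : BdM g) (h : ∀ x, f x ≤ g x) (x) :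
    cv γ f x ≤ cv γ g x := by
  unfold cv
  exact integral_mono ((hf.comp (measurable_const_add x)).integrable γ)
    ((hg.comp (measurable_const_add x)).integrable γ) fun z => h _

lemma cv_nonnegL {f : (Fin d → ℝ) → ℝ} (h : ∀ x, 0 ≤ f x) (x) : 0 ≤ cv γ f x :=
  integral_nonneg fun _ => h _

end Leb

lemma cv_gs_le {d : ℕ} (s : ℝ≥0) (hs : s ≠ 0) {f : (Fin d → ℝ) → ℝ} (h0 : ∀ x, 0 ≤ f x)
    (hi : Integrable f volume) (x : Fin d → ℝ) :
    cv (gs d s) f x ≤ (√(2 * Real.pi * s))⁻¹ ^ d * ∫ y, f y := by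
  unfold cv
  set c : ℝ≥0∞ := ENNReal.ofReal (√(2 * Real.pi * s))⁻¹ ^ d with hc
  have hctop : c ≠ ∞ := ENNReal.pow_ne_top ENNReal.ofReal_ne_top
  have hi' : Integrable (fun z => f (x + z)) (c • (volume : Measure (Fin d → ℝ))) :=
    (hi.comp_add_left x).smul_measure hctop
  refine (integral_mono_measure (gs_le d s hs) (ae_of_all _ fun z => h0 _) hi').trans ?_
  rw [integral_smul_measure, integral_add_left_eq_self f x]
  apply le_of_eq
  rw [smul_eq_mul, ENNReal.toReal_pow, ENNReal.toReal_ofReal (by positivity)]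

/-- Hitting probabilities. -/
noncomputable def Hs {d : ℕ} (K : Set (Fin d → ℝ)) (γ : Measure (Fin d → ℝ)) (n : ℕ)
    (x : Fin d → ℝ) : ℝ := 1 - surv K γ n 0 x

/-- Discrete equilibrium functions. -/
noncomputable def es {d : ℕ} (K : Set (Fin d → ℝ)) (γ : Measure (Fin d → ℝ)) :
    ℕ → (Fin d → ℝ) → ℝ
  | 0 => ind K
  | n + 1 => fun x => ind K x * (1 - cv γ (Hs K γ n) x)

section Hit

variable {d : ℕ} {K : Set (Fin d → ℝ)} (hK : MeasurableSet K) {γ : Measure (Fin d → ℝ)}
  [IsProbabilityMeasure γ]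

include hK

lemma Hs_bdM (n : ℕ) : BdM (Hs K γ n) := by
  have h := (bdM_surv (γ := γ) hK n).comp (φ := fun x : Fin d → ℝ => ((0 : Fin n → Fin d → ℝ), x))
    (by fun_prop)
  exact (BdM.const 1).sub h

lemma Hs_nonneg (n : ℕ) (x : Fin d → ℝ) : 0 ≤ Hs K γ n x := by
  have := surv_le_one (γ := γ) hK n 0 x
  unfold Hs; linarith

lemma Hs_le_one (n : ℕ) (x : Fin d → ℝ) : Hs K γ n x ≤ 1 := by
  have := surv_nonneg (γ := γ) hK n 0 x
  unfold Hs; linarith

omit hK in
lemma Hs_zero (x : Fin d → ℝ) : Hs K γ 0 x = ind K x := by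
  unfold Hs; rw [surv_zero]; ring

lemma Hs_succ (n : ℕ) (x : Fin d → ℝ) :
    Hs K γ (n + 1) x = ind K x + (1 - ind K x) * cv γ (Hs K γ n) x := by
  have h0 : (Fin.tail (0 : Fin (n + 1) → Fin d → ℝ)) = 0 := by
    funext i; rfl
  have hb : BdM (fun x : Fin d → ℝ => surv K γ n 0 x) :=
    (bdM_surv (γ := γ) hK n).comp (φ := fun x : Fin d → ℝ => ((0 : Fin n → Fin d → ℝ), x))
    (by fun_prop)
  have h1 : cv γ (Hs K γ n) x = 1 - ∫ y, surv K γ n 0 (x + y) ∂γ := by
    unfold cv Hs
    rw [integral_sub (integrable_const _) ((hb.comp (measurable_const_add x)).integrable γ)]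
    simp
  rw [h1]
  unfold Hs
  rw [surv_succ, h0]
  simp only [Pi.zero_apply, neg_zero, add_zero]
  ring

lemma es_bdM (n : ℕ) : BdM (es K γ n) := by
  cases n with
  | zero => exact BdM.ind hK
  | succ n =>
    have : BdM (cv γ (Hs K γ n)) := (Hs_bdM (γ := γ) hK n).cv
    exact (BdM.ind hK).mul ((BdM.const 1).sub this)

lemma cv_Hs_le_one (n : ℕ) (x : Fin d → ℝ) : cv γ (Hs K γ n) x ≤ 1 := by
  have := cv_monoL (γ := γ) (Hs_bdM (γ := γ) hK n) (BdM.const (α := Fin d → ℝ) 1) (Hs_le_one (γ := γ) hK n) x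
  rw [cv_const] at this
  exact this

lemma es_nonneg (n : ℕ) (x : Fin d → ℝ) : 0 ≤ es K γ n x := by
  cases n with
  | zero => exact ind_nonneg K x
  | succ n =>
    have := cv_Hs_le_one (γ := γ) hK n x
    exact mul_nonneg (ind_nonneg K x) (by linarith)

lemma Hs_mono_step (n : ℕ) : ∀ x : Fin d → ℝ, Hs K γ n x ≤ Hs K γ (n + 1) x := by
  induction n with
  | zero =>
    intro x
    rw [Hs_zero, Hs_succ hK]
    have h1 := cv_nonnegL (γ := γ) (Hs_nonneg (γ := γ) hK 0) x
    have h2 := ind_le_one K x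
    nlinarith
  | succ n ih =>
    intro x
    rw [Hs_succ hK, Hs_succ hK (n + 1)]
    have h1 := cv_monoL (γ := γ) (Hs_bdM hK n) (Hs_bdM hK (n + 1)) ih x
    have h2 := ind_le_one K x
    nlinarith

lemma Hs_mono {n m : ℕ} (h : n ≤ m) (x : Fin d → ℝ) : Hs K γ n x ≤ Hs K γ m x := by
  induction h with
  | refl => exact le_rfl
  | step _ ih => exact ih.trans (Hs_mono_step (γ := γ) hK _ x)

/-- `H_{n+1} = p H_n + e_{n+1}` -/
lemma Hs_succ' (n : ℕ) (x : Fin d → ℝ) :
    Hs K γ (n + 1) x = cv γ (Hs K γ n) x + es K γ (n + 1) x := by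
  rw [Hs_succ hK]
  change _ = _ + ind K x * (1 - cv γ (Hs K γ n) x)
  ring

lemma es_anti_step (n : ℕ) (x : Fin d → ℝ) : es K γ (n + 1) x ≤ es K γ n x := by
  cases n with
  | zero =>
    change ind K x * (1 - cv γ (Hs K γ 0) x) ≤ ind K x
    have h1 := cv_nonnegL (γ := γ) (Hs_nonneg (γ := γ) hK 0) x
    have h2 := ind_nonneg K x
    nlinarith
  | succ n =>
    change ind K x * (1 - cv γ (Hs K γ (n + 1)) x) ≤ ind K x * (1 - cv γ (Hs K γ n) x)
    have h1 := cv_monoL (γ := γ) (Hs_bdM (γ := γ) hK n) (Hs_bdM hK (n + 1)) (Hs_mono_step hK n) x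
    have h2 := ind_nonneg K x
    nlinarith

lemma es_anti {n m : ℕ} (h : n ≤ m) (x : Fin d → ℝ) : es K γ m x ≤ es K γ n x := by
  induction h with
  | refl => exact le_rfl
  | step _ ih => exact (es_anti_step (γ := γ) hK _ x).trans ih

lemma es_le_ind (n : ℕ) (x : Fin d → ℝ) : es K γ n x ≤ ind K x :=
  es_anti (γ := γ) hK (Nat.zero_le n) x

variable (hvK : volume K < ∞)
include hvK

omit [IsProbabilityMeasure γ] in
lemma ind_integrable : Integrable (ind K) (volume : Measure (Fin d → ℝ)) := by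
  unfold ind
  exact (integrable_indicator_iff hK).mpr (integrableOn_const hvK.ne)

lemma Hs_integrable (n : ℕ) : Integrable (Hs K γ n) volume := by
  induction n with
  | zero =>
    have : Hs K γ 0 = ind K := by funext x; exact Hs_zero x
    rw [this]
    exact ind_integrable hK hvK
  | succ n ih =>
    have h1 := (integrable_cvL (γ := γ) (Hs_bdM hK n) ih).1
    refine Integrable.mono' ((ind_integrable hK hvK).add h1)
      (Hs_bdM hK (n + 1)).meas.aestronglyMeasurable (ae_of_all _ fun x => ?_)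
    rw [Real.norm_of_nonneg (Hs_nonneg hK _ _), Hs_succ hK]
    have h2 := cv_nonnegL (γ := γ) (Hs_nonneg (γ := γ) hK n) x
    have h3 := ind_nonneg K x
    simp only [Pi.add_apply]
    nlinarith

lemma es_integrable (n : ℕ) : Integrable (es K γ n) volume := by
  refine Integrable.mono' (ind_integrable hK hvK)
    (es_bdM hK n).meas.aestronglyMeasurable (ae_of_all _ fun x => ?_)
  rw [Real.norm_of_nonneg (es_nonneg hK _ _)]
  exact es_le_ind hK n x

/-- `W_n = ∑_{i ≤ n} b_i` -/
lemma integral_Hs (n : ℕ) :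
    ∫ x, Hs K γ n x = ∑ i ∈ Finset.range (n + 1), ∫ x, es K γ i x := by
  induction n with
  | zero =>
    simp only [zero_add, Finset.range_one, Finset.sum_singleton]
    congr 1
    funext x
    exact Hs_zero x
  | succ n ih =>
    rw [Finset.sum_range_succ, ← ih]
    have h1 := integrable_cvL (γ := γ) (Hs_bdM (γ := γ) hK n) (Hs_integrable hK hvK n)
    rw [← h1.2, ← integral_add h1.1 (es_integrable hK hvK (n + 1))]
    congr 1
    funext x
    exact Hs_succ' hK n x

lemma bs_anti {n m : ℕ} (h : n ≤ m) : ∫ x, es K γ m x ≤ ∫ x, es K γ n x :=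
  integral_mono (es_integrable hK hvK m) (es_integrable hK hvK n) (es_anti hK h)

omit hvK in
lemma bs_nonneg (n : ℕ) : 0 ≤ ∫ x, es K γ n x := integral_nonneg (es_nonneg (γ := γ) hK n)

/-- `(n+1) b_n ≤ W_n` -/
lemma bs_le (n : ℕ) : ((n : ℝ) + 1) * ∫ x, es K γ n x ≤ ∫ x, Hs K γ n x := by
  rw [integral_Hs hK hvK]
  have : ∑ _i ∈ Finset.range (n + 1), ∫ x, es K γ n x
      ≤ ∑ i ∈ Finset.range (n + 1), ∫ x, es K γ i x := by
    refine Finset.sum_le_sum fun i hi => ?_
    exact bs_anti hK hvK (by rw [Finset.mem_range] at hi; omega)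
  rw [Finset.sum_const, Finset.card_range, nsmul_eq_mul] at this
  push_cast at this
  exact this

/-- `W_M / (M+1)` is decreasing -/
lemma Ws_div_anti {n m : ℕ} (h : n ≤ m) :
    (∫ x, Hs K γ m x) / (m + 1) ≤ (∫ x, Hs K γ n x) / (n + 1) := by
  induction h with
  | refl => exact le_rfl
  | @step m _ ih =>
    refine le_trans ?_ ih
    have h1 := bs_le (γ := γ) hK hvK m
    have h2 : ∫ x, Hs K γ (m + 1) x = (∫ x, Hs K γ m x) + ∫ x, es K γ (m + 1) x := by
      rw [integral_Hs (γ := γ) hK hvK (m + 1), integral_Hs (γ := γ) hK hvK m,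
        Finset.sum_range_succ]
    have h3 := bs_anti (γ := γ) hK hvK (Nat.le_succ m)
    rw [div_le_div_iff₀ (by positivity) (by positivity), Nat.succ_eq_add_one, h2]
    push_cast
    have hm : (0 : ℝ) ≤ m := Nat.cast_nonneg m
    have h4 := mul_le_mul_of_nonneg_left h3 (by linarith : (0 : ℝ) ≤ (m : ℝ) + 1)
    rw [Nat.succ_eq_add_one] at h4
    nlinarith

end Hit

end Pool.Agent.Lib.MP_fd77c3_pr
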