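import Pool.Agent.Lib.MP_fd77c3_pr.EqAux

/-!
Auxiliary facts for the discrete equilibrium charge, part 2.
-/

open MeasureTheory Set Filter Topology ProbabilityTheory
open scoped ENNReal NNReal

set_option linter.unusedSectionVars false

namespace Pool.Agent.Lib.MP_fd77c3_pr

section Op

variable {d : ℕ} {K : Set (Fin d → ℝ)} (hK : MeasurableSet K) {γ : Measure (Fin d → ℝ)}
  [IsProbabilityMeasure γ]

lemma cv_finset_sum {ι : Type*} (s : Finset ι) {f : ι → (Fin d → ℝ) → ℝ}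
    (hf : ∀ i ∈ s, BdM (f i)) (x : Fin d → ℝ) :
    cv γ (fun y => ∑ i ∈ s, f i y) x = ∑ i ∈ s, cv γ (f i) x := by
  unfold cv
  exact integral_finsetSum s fun i hi =>
    ((hf i hi).comp (measurable_const_add x)).integrable γ

/-- killed operator -/
noncomputable def Qop (K : Set (Fin d → ℝ)) (γ : Measure (Fin d → ℝ)) (f : (Fin d → ℝ) → ℝ) :
    (Fin d → ℝ) → ℝ := cv γ (fun y => (1 - ind K y) * f y)

include hK

lemma kill_bdM {f : (Fin d → ℝ) → ℝ} (hf : BdM f) : BdM (fun y => (1 - ind K y) * f y) :=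
  ((BdM.const 1).sub (BdM.ind hK)).mul hf

lemma Qop_bdM {f : (Fin d → ℝ) → ℝ} (hf : BdM f) : BdM (Qop K γ f) := (kill_bdM hK hf).cv

lemma Qit_bdM {f : (Fin d → ℝ) → ℝ} (hf : BdM f) (n : ℕ) : BdM ((Qop K γ)^[n] f) := by
  induction n with
  | zero => exact hf
  | succ n ih =>
    rw [Function.iterate_succ_apply']
    exact Qop_bdM hK ih

lemma Qop_mono {f g : (Fin d → ℝ) → ℝ} (hf : BdM f) (hg : BdM g) (h : ∀ x, f x ≤ g x) (x) :
    Qop K γ f x ≤ Qop K γ g x := by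
  refine cv_monoL (kill_bdM hK hf) (kill_bdM hK hg) (fun y => ?_) x
  have h1 := ind_le_one K y
  exact mul_le_mul_of_nonneg_left (h y) (by linarith)

lemma Qit_mono {f g : (Fin d → ℝ) → ℝ} (hf : BdM f) (hg : BdM g) (h : ∀ x, f x ≤ g x) (n : ℕ) :
    ∀ x, (Qop K γ)^[n] f x ≤ (Qop K γ)^[n] g x := by
  induction n with
  | zero => exact h
  | succ n ih =>
    intro x
    rw [Function.iterate_succ_apply', Function.iterate_succ_apply']
    exact Qop_mono hK (Qit_bdM hK hf n) (Qit_bdM hK hg n) ih x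

lemma Qop_sub {f g : (Fin d → ℝ) → ℝ} (hf : BdM f) (hg : BdM g) :
    Qop K γ (fun x => f x - g x) = fun x => Qop K γ f x - Qop K γ g x := by
  funext x
  unfold Qop
  rw [← cv_sub (kill_bdM hK hf) (kill_bdM hK hg)]
  congr 1
  funext y
  ring

lemma Qit_sub {f g : (Fin d → ℝ) → ℝ} (hf : BdM f) (hg : BdM g) (n : ℕ) :
    (Qop K γ)^[n] (fun x => f x - g x)
      = fun x => (Qop K γ)^[n] f x - (Qop K γ)^[n] g x := by
  induction n with
  | zero => rfl
  | succ n ih =>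
    rw [Function.iterate_succ_apply', Function.iterate_succ_apply', Function.iterate_succ_apply',
      ih, Qop_sub hK (Qit_bdM hK hf n) (Qit_bdM hK hg n)]

omit hK [IsProbabilityMeasure γ] in
lemma Qop_smul (c : ℝ) (f : (Fin d → ℝ) → ℝ) :
    Qop K γ (fun x => c * f x) = fun x => c * Qop K γ f x := by
  funext x
  unfold Qop
  rw [← cv_const_mul]
  congr 1
  funext y
  ring

omit hK [IsProbabilityMeasure γ] in
lemma Qit_smul (c : ℝ) (f : (Fin d → ℝ) → ℝ) (n : ℕ) :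
    (Qop K γ)^[n] (fun x => c * f x) = fun x => c * (Qop K γ)^[n] f x := by
  induction n with
  | zero => rfl
  | succ n ih =>
    rw [Function.iterate_succ_apply', Function.iterate_succ_apply', ih, Qop_smul]

lemma cvit_bdM {f : (Fin d → ℝ) → ℝ} (hf : BdM f) (n : ℕ) : BdM ((cv γ)^[n] f) := by
  induction n with
  | zero => exact hf
  | succ n ih =>
    rw [Function.iterate_succ_apply']
    exact ih.cv

lemma Qit_nonneg {f : (Fin d → ℝ) → ℝ} (h : ∀ x, 0 ≤ f x) (n : ℕ) :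
    ∀ x, 0 ≤ (Qop K γ)^[n] f x := by
  induction n with
  | zero => exact h
  | succ n ih =>
    intro x
    rw [Function.iterate_succ_apply']
    refine cv_nonnegL (fun y => ?_) x
    have h1 := ind_le_one K y
    exact mul_nonneg (by linarith) (ih y)

lemma Qit_le_cvit {f : (Fin d → ℝ) → ℝ} (hf : BdM f) (h : ∀ x, 0 ≤ f x) (n : ℕ) :
    ∀ x, (Qop K γ)^[n] f x ≤ (cv γ)^[n] f x := by
  induction n with
  | zero => intro x; exact le_rfl
  | succ n ih =>
    intro x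
    rw [Function.iterate_succ_apply', Function.iterate_succ_apply']
    refine cv_monoL (kill_bdM hK (Qit_bdM hK hf n)) (cvit_bdM hK hf n) (fun y => ?_) x
    have h1 := ind_nonneg K y
    have h2 := Qit_nonneg (γ := γ) hK h n y
    have h3 := ih y
    nlinarith

lemma Qop_of_one_sub {g : (Fin d → ℝ) → ℝ} (n : ℕ)
    (h : ∀ y, 1 - Hs K γ n y = (1 - ind K y) * g y) (x) :
    Qop K γ g x = 1 - cv γ (Hs K γ n) x := by
  unfold Qop
  have h2 := cv_sub (ν := γ) (BdM.const (α := Fin d → ℝ) 1) (Hs_bdM (γ := γ) hK n) x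
  rw [cv_const] at h2
  rw [← h2]
  congr 1
  funext y
  exact (h y).symm

/-- `1 - H_n = 1_{K^c} U_n` -/
lemma one_sub_Hs (n : ℕ) : ∀ x : Fin d → ℝ,
    1 - Hs K γ n x = (1 - ind K x) * (Qop K γ)^[n] (fun _ => 1) x := by
  induction n with
  | zero =>
    intro x
    rw [Hs_zero]
    simp
  | succ n ih =>
    intro x
    rw [Hs_succ hK, Function.iterate_succ_apply', Qop_of_one_sub hK n ih]
    ring

lemma es_eq (n : ℕ) (x : Fin d → ℝ) :
    es K γ n x = ind K x * (Qop K γ)^[n] (fun _ => 1) x := by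
  cases n with
  | zero => simp [es]
  | succ n =>
    rw [Function.iterate_succ_apply', Qop_of_one_sub hK n (one_sub_Hs hK n)]
    rfl

lemma one_sub_U_le (j : ℕ) (x : Fin d → ℝ) :
    1 - (Qop K γ)^[j] (fun _ => 1) x ≤ Hs K γ j x := by
  have h1 := one_sub_Hs (γ := γ) hK j x
  have h2 : 0 ≤ (Qop K γ)^[j] (fun _ => 1) x := Qit_nonneg hK (fun _ => zero_le_one) j x
  have h3 := ind_nonneg K x
  nlinarith

lemma U_diff_le {n k j : ℕ} (hk : k ≤ n) {C : ℝ} (hC : ∀ y, (cv γ)^[n - k] (Hs K γ j) y ≤ C)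
    (x : Fin d → ℝ) :
    (Qop K γ)^[n] (fun _ => 1) x - (Qop K γ)^[n + j] (fun _ => 1) x
      ≤ C * (Qop K γ)^[k] (fun _ => 1) x := by
  have hone : BdM (fun _ : Fin d → ℝ => (1 : ℝ)) := BdM.const 1
  have h1 := Qit_sub (γ := γ) hK hone (Qit_bdM (γ := γ) hK hone j) n
  have h2 : (Qop K γ)^[n] (fun _ => 1) x - (Qop K γ)^[n + j] (fun _ => 1) x
      = (Qop K γ)^[n] (fun x => 1 - (Qop K γ)^[j] (fun _ => 1) x) x := by
    rw [h1, Function.iterate_add_apply]
  rw [h2]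
  have h3 := Qit_mono (γ := γ) hK (hone.sub (Qit_bdM (γ := γ) hK hone j)) (Hs_bdM (γ := γ) hK j)
    (one_sub_U_le (γ := γ) hK j) n x
  refine h3.trans ?_
  have hn : n = k + (n - k) := by omega
  have h4 : (Qop K γ)^[n] (Hs K γ j) x = (Qop K γ)^[k] ((Qop K γ)^[n - k] (Hs K γ j)) x := by
    rw [← Function.iterate_add_apply, ← hn]
  rw [h4]
  have h5 := Qit_smul (K := K) (γ := γ) C (fun _ => (1 : ℝ)) k
  have h6 : C * (Qop K γ)^[k] (fun _ => 1) x = (Qop K γ)^[k] (fun _ => C * 1) x := by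
    rw [h5]
  rw [h6]
  refine Qit_mono (γ := γ) hK (Qit_bdM (γ := γ) hK (Hs_bdM hK j) _) (BdM.const _) (fun y => ?_) k x
  rw [mul_one]
  exact (Qit_le_cvit (γ := γ) hK (Hs_bdM hK j) (Hs_nonneg hK j) (n - k) y).trans (hC y)

lemma es_diff_le {n k j : ℕ} (hk : k ≤ n) {C : ℝ} (hC : ∀ y, (cv γ)^[n - k] (Hs K γ j) y ≤ C)
    (x : Fin d → ℝ) :
    es K γ n x - es K γ (n + j) x ≤ C * es K γ k x := by
  rw [es_eq hK, es_eq hK, es_eq hK]
  have h1 := U_diff_le (γ := γ) hK hk hC x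
  have h2 := ind_nonneg K x
  nlinarith

lemma bs_diff_le (hvK : volume K < ∞) {n k j : ℕ} (hk : k ≤ n) {C : ℝ}
    (hC : ∀ y, (cv γ)^[n - k] (Hs K γ j) y ≤ C) :
    (∫ x, es K γ n x) - ∫ x, es K γ (n + j) x ≤ C * ∫ x, es K γ k x := by
  rw [← integral_sub (es_integrable hK hvK n) (es_integrable hK hvK (n + j)),
    ← integral_const_mul]
  exact integral_mono ((es_integrable hK hvK n).sub (es_integrable hK hvK (n + j)))
    ((es_integrable hK hvK k).const_mul C) (es_diff_le hK hk hC)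

end Op

end Pool.Agent.Lib.MP_fd77c3_pr
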