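import Pool.Agent.Lib.MP_fd77c3_pr.EqAux2

/-!
Auxiliary facts for the discrete equilibrium charge, part 3: Gaussian estimates.
-/

open MeasureTheory Set Filter Topology ProbabilityTheory
open scoped ENNReal NNReal

set_option linter.unusedSectionVars false

namespace Pool.Agent.Lib.MP_fd77c3_pr

section Gau

variable {d : ℕ}

lemma cv_gs_zero {f : (Fin d → ℝ) → ℝ} : cv (gs d 0) f = f := by
  funext x
  have h := (gs_semi d).zero
  rw [h]
  unfold cv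
  rw [integral_dirac]
  simp

lemma cv_gs_add {f : (Fin d → ℝ) → ℝ} (hf : BdM f) (s t : ℝ≥0) :
    cv (gs d s) (cv (gs d t) f) = cv (gs d (s + t)) f := by
  have h := (gs_semi d).conv s t
  rw [← cv_conv hf, ← h]

lemma cvit_gs {f : (Fin d → ℝ) → ℝ} (hf : BdM f) (δ : ℝ≥0) (n : ℕ) :
    (cv (gs d δ))^[n] f = cv (gs d (n * δ)) f := by
  induction n with
  | zero => simp [cv_gs_zero]
  | succ n ih =>
    rw [Function.iterate_succ_apply', ih, cv_gs_add hf]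
    congr 2
    push_cast
    ring

lemma Hs_expand {K : Set (Fin d → ℝ)} (hK : MeasurableSet K) (δ : ℝ≥0) (n : ℕ) :
    ∀ x : Fin d → ℝ, Hs K (gs d δ) n x
      = ∑ j ∈ Finset.range (n + 1), cv (gs d (j * δ)) (es K (gs d δ) (n - j)) x := by
  induction n with
  | zero =>
    intro x
    simp [cv_gs_zero, Hs_zero, es]
  | succ n ih =>
    intro x
    rw [Hs_succ' hK, Finset.sum_range_succ']
    have h1 : Hs K (gs d δ) n = fun y => ∑ j ∈ Finset.range (n + 1),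
        cv (gs d (j * δ)) (es K (gs d δ) (n - j)) y := by
      funext y; exact ih y
    rw [h1, cv_finset_sum]
    · congr 1
      · refine Finset.sum_congr rfl fun j hj => ?_
        rw [cv_gs_add (es_bdM hK _)]
        have e1 : δ + (j : ℝ≥0) * δ = ((j + 1 : ℕ) : ℝ≥0) * δ := by push_cast; ring
        have e2 : n + 1 - (j + 1) = n - j := by omega
        rw [e1, e2]
      · simp [cv_gs_zero]
    · intro i _
      exact (es_bdM hK _).cv

/-- Gaussian decay factor -/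
noncomputable def psi (δ : ℝ≥0) (i : ℕ) : ℝ := ((√((i : ℝ) * δ))⁻¹) ^ 3

lemma psi_nonneg (δ : ℝ≥0) (i : ℕ) : 0 ≤ psi δ i := by unfold psi; positivity

lemma psi_anti {δ : ℝ≥0} {i j : ℕ} (hi : 1 ≤ (i : ℝ) * δ) (hij : i ≤ j) : psi δ j ≤ psi δ i := by
  unfold psi
  have h1 : (i : ℝ) * δ ≤ (j : ℝ) * δ := by
    have : (i : ℝ) ≤ j := by exact_mod_cast hij
    exact mul_le_mul_of_nonneg_right this δ.2
  have h2 : 0 < √((i : ℝ) * δ) := Real.sqrt_pos.mpr (by linarith)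
  have h3 : √((i : ℝ) * δ) ≤ √((j : ℝ) * δ) := Real.sqrt_le_sqrt h1
  exact pow_le_pow_left₀ (by positivity) (inv_anti₀ h2 h3) 3

lemma cv_le_psi (hd : 3 ≤ d) {δ : ℝ≥0} {i : ℕ} (hi : 1 ≤ (i : ℝ) * δ)
    {f : (Fin d → ℝ) → ℝ} (h0 : ∀ x, 0 ≤ f x) (hf : Integrable f volume) (x : Fin d → ℝ) :
    cv (gs d (i * δ)) f x ≤ psi δ i * ∫ y, f y := by
  have hne : (i : ℝ≥0) * δ ≠ 0 := by
    intro h
    have : (i : ℝ) * δ = 0 := by exact_mod_cast h
    rw [this] at hi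
    linarith
  refine (cv_gs_le _ hne h0 hf x).trans ?_
  refine mul_le_mul_of_nonneg_right ?_ (integral_nonneg h0)
  unfold psi
  have e : (((i : ℝ≥0) * δ : ℝ≥0) : ℝ) = (i : ℝ) * δ := by push_cast; rfl
  rw [e]
  set s := (i : ℝ) * δ with hs
  have h1 : 1 ≤ √s := by
    rw [show (1 : ℝ) = √1 by simp]
    exact Real.sqrt_le_sqrt hi
  have h2 : √s ≤ √(2 * Real.pi * s) := by
    apply Real.sqrt_le_sqrt
    have := Real.pi_gt_three
    nlinarith
  have h3 : (√(2 * Real.pi * s))⁻¹ ≤ (√s)⁻¹ := inv_anti₀ (by linarith) h2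
  have h4 : (√s)⁻¹ ≤ 1 := inv_le_one_of_one_le₀ h1
  calc (√(2 * Real.pi * s))⁻¹ ^ d ≤ (√s)⁻¹ ^ d := pow_le_pow_left₀ (by positivity) h3 d
    _ ≤ (√s)⁻¹ ^ 3 := pow_le_pow_of_le_one (by positivity) h4 hd

/-- telescoping step -/
lemma psi_step {a b : ℝ} (ha : 1 ≤ a) (hab : a ≤ b) :
    (b - a) * (√b)⁻¹ ^ 3 ≤ 2 * ((√a)⁻¹ - (√b)⁻¹) := by
  set p := √a with hp
  set q := √b with hq
  have hp1 : 1 ≤ p := by
    rw [hp, show (1 : ℝ) = √1 by simp]
    exact Real.sqrt_le_sqrt ha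
  have hpq : p ≤ q := Real.sqrt_le_sqrt hab
  have ha2 : a = p ^ 2 := (Real.sq_sqrt (by linarith)).symm
  have hb2 : b = q ^ 2 := (Real.sq_sqrt (by linarith)).symm
  have hq0 : 0 < q := by linarith
  have hp0 : 0 < p := by linarith
  rw [ha2, hb2]
  have e1 : (q ^ 2 - p ^ 2) * q⁻¹ ^ 3 = (q - p) * (q + p) / q ^ 3 := by
    field_simp
    ring
  have e2 : 2 * (p⁻¹ - q⁻¹) = 2 * (q - p) / (p * q) := by
    field_simp
  rw [e1, e2, div_le_div_iff₀ (by positivity) (by positivity)]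
  have h1 : 0 ≤ q - p := by linarith
  have h2 : (q + p) * (p * q) ≤ 2 * q ^ 3 := by nlinarith [mul_nonneg h1 hq0.le, mul_nonneg h1 hp0.le, mul_nonneg (mul_nonneg h1 hq0.le) hq0.le, mul_nonneg (mul_nonneg h1 hp0.le) hq0.le]
  nlinarith

/-- the sum of the decay factors -/
lemma sum_psi_le {δ : ℝ≥0} (hδ0 : 0 < δ) (hδ1 : δ ≤ 1) {k : ℕ} (hk : 1 ≤ (k : ℝ) * δ) (M : ℕ) :
    ∑ j ∈ Finset.range (M + 1), psi δ (k + j) ≤ 3 * (√((k : ℝ) * δ))⁻¹ / δ := by
  have hδ0' : (0 : ℝ) < δ := by exact_mod_cast hδ0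
  have hδ1' : (δ : ℝ) ≤ 1 := by exact_mod_cast hδ1
  have key : ∀ M : ℕ, (δ : ℝ) * ∑ j ∈ Finset.range M, psi δ (k + 1 + j)
      ≤ 2 * ((√((k : ℝ) * δ))⁻¹ - (√(((k + M : ℕ) : ℝ) * δ))⁻¹) := by
    intro M
    induction M with
    | zero => simp
    | succ M ih =>
      rw [Finset.sum_range_succ, mul_add]
      have h1 : 1 ≤ ((k + M : ℕ) : ℝ) * δ := by
        push_cast
        have : 0 ≤ (M : ℝ) * δ := by positivity
        nlinarith
      have h2 := psi_step (a := ((k + M : ℕ) : ℝ) * δ) (b := ((k + (M + 1) : ℕ) : ℝ) * δ) h1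
        (by push_cast; nlinarith)
      have h3 : ((k + (M + 1) : ℕ) : ℝ) * δ - ((k + M : ℕ) : ℝ) * δ = δ := by push_cast; ring
      rw [h3] at h2
      have h4 : psi δ (k + 1 + M) = (√(((k + (M + 1) : ℕ) : ℝ) * δ))⁻¹ ^ 3 := by
        unfold psi
        have : k + 1 + M = k + (M + 1) := by ring
        rw [this]
      rw [h4]
      linarith
  have h5 := key M
  rw [Finset.sum_range_succ']
  have h6 : ∑ j ∈ Finset.range M, psi δ (k + (j + 1)) = ∑ j ∈ Finset.range M, psi δ (k + 1 + j) := by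
    refine Finset.sum_congr rfl fun j _ => ?_
    congr 1
    ring
  rw [h6, add_zero, le_div_iff₀ hδ0']
  set p := √((k : ℝ) * δ) with hp
  have hp1 : 1 ≤ p := by
    rw [hp, show (1 : ℝ) = √1 by simp]
    exact Real.sqrt_le_sqrt hk
  have h7 : psi δ k = p⁻¹ ^ 3 := rfl
  have h8 : p⁻¹ ^ 3 ≤ p⁻¹ := by
    have h9 : p⁻¹ ≤ 1 := inv_le_one_of_one_le₀ hp1
    have h10 : 0 ≤ p⁻¹ := by positivity
    calc p⁻¹ ^ 3 ≤ p⁻¹ ^ 1 := pow_le_pow_of_le_one h10 h9 (by norm_num)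
      _ = p⁻¹ := pow_one _
  have h9 : 0 ≤ (√(((k + M : ℕ) : ℝ) * δ))⁻¹ := by positivity
  rw [h7]
  have h10 : 0 ≤ p⁻¹ := by positivity
  have h11 : p⁻¹ ^ 3 * δ ≤ p⁻¹ := by
    calc p⁻¹ ^ 3 * δ ≤ p⁻¹ ^ 3 * 1 := mul_le_mul_of_nonneg_left hδ1' (by positivity)
      _ = p⁻¹ ^ 3 := mul_one _
      _ ≤ p⁻¹ := h8
  nlinarith

end Gau

section Gau2

variable {d : ℕ} {K : Set (Fin d → ℝ)} (hK : MeasurableSet K) (hvK : volume K < ∞)
include hK hvK

/-- the key uniform bound -/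
lemma cv_Hs_bound (hd : 3 ≤ d) {δ : ℝ≥0} (hδ0 : 0 < δ) (hδ1 : δ ≤ 1) {k : ℕ}
    (hk : 1 ≤ (k : ℝ) * δ) (M : ℕ) (x : Fin d → ℝ) :
    cv (gs d (k * δ)) (Hs K (gs d δ) M) x
      ≤ ((∫ y, Hs K (gs d δ) M y) / (M + 1)) * (3 * (√((k : ℝ) * δ))⁻¹ / δ) := by
  have h1 : Hs K (gs d δ) M = fun y => ∑ j ∈ Finset.range (M + 1),
      cv (gs d (j * δ)) (es K (gs d δ) (M - j)) y := by
    funext y; exact Hs_expand hK δ M y
  have h2 : cv (gs d (k * δ)) (Hs K (gs d δ) M) x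
      ≤ ∑ j ∈ Finset.range (M + 1), psi δ (k + j) * ∫ y, es K (gs d δ) (M - j) y := by
    rw [h1, cv_finset_sum _ (fun i _ => (es_bdM hK _).cv)]
    refine Finset.sum_le_sum fun j _ => ?_
    rw [cv_gs_add (es_bdM hK _)]
    have e1 : (k : ℝ≥0) * δ + (j : ℝ≥0) * δ = ((k + j : ℕ) : ℝ≥0) * δ := by push_cast; ring
    rw [e1]
    refine cv_le_psi hd ?_ (es_nonneg hK _) (es_integrable hK hvK _) x
    push_cast
    have : 0 ≤ (j : ℝ) * δ := by positivity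
    nlinarith
  refine h2.trans ?_
  have hcheb : ((M : ℝ) + 1) * ∑ j ∈ Finset.range (M + 1),
        psi δ (k + j) * ∫ y, es K (gs d δ) (M - j) y
      ≤ (∑ j ∈ Finset.range (M + 1), psi δ (k + j))
        * ∑ j ∈ Finset.range (M + 1), ∫ y, es K (gs d δ) (M - j) y := by
    have hanti : AntitoneOn (fun j => psi δ (k + j)) (Finset.range (M + 1) : Set ℕ) := by
      intro i _ j _ hij
      refine psi_anti ?_ (by omega)
      push_cast
      have : 0 ≤ (i : ℝ) * δ := by positivity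
      nlinarith
    have hmono : MonotoneOn (fun j => ∫ y, es K (gs d δ) (M - j) y)
        (Finset.range (M + 1) : Set ℕ) := by
      intro i _ j _ hij
      exact bs_anti hK hvK (by omega)
    have h3 := (hanti.antivaryOn hmono).card_mul_sum_le_sum_mul_sum
    rw [Finset.card_range] at h3
    push_cast at h3
    exact h3
  have hsum : ∑ j ∈ Finset.range (M + 1), ∫ y, es K (gs d δ) (M - j) y
      = ∫ y, Hs K (gs d δ) M y := by
    rw [integral_Hs hK hvK]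
    have h4 := Finset.sum_range_reflect (fun i => ∫ y, es K (gs d δ) i y) (M + 1)
    rw [← h4]
    refine Finset.sum_congr rfl fun j _ => ?_
    congr 2
  rw [hsum] at hcheb
  have h5 := sum_psi_le hδ0 hδ1 hk M
  have h6 : 0 ≤ ∫ y, Hs K (gs d δ) M y := integral_nonneg (Hs_nonneg hK M)
  have h7 : (0 : ℝ) < (M : ℝ) + 1 := by positivity
  have h8 : ((M : ℝ) + 1) * ∑ j ∈ Finset.range (M + 1),
        psi δ (k + j) * ∫ y, es K (gs d δ) (M - j) y
      ≤ (3 * (√((k : ℝ) * δ))⁻¹ / δ) * ∫ y, Hs K (gs d δ) M y :=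
    hcheb.trans (mul_le_mul_of_nonneg_right h5 h6)
  rw [div_mul_eq_mul_div, le_div_iff₀ h7]
  nlinarith

end Gau2

end Pool.Agent.Lib.MP_fd77c3_pr
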