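import Pool.Agent.Lib.MP_fd77c3_pr.EqAux3

/-!
Discrete equilibrium charge.
-/

open MeasureTheory Set Filter Topology ProbabilityTheory
open scoped ENNReal NNReal

set_option linter.unusedSectionVars false

namespace Pool.Agent.Lib.MP_fd77c3_pr

section EInf

variable {d : ℕ} {K : Set (Fin d → ℝ)} (hK : MeasurableSet K) {γ : Measure (Fin d → ℝ)}
  [IsProbabilityMeasure γ]

/-- limit of the escape functions -/
noncomputable def einf {d : ℕ} (K : Set (Fin d → ℝ)) (γ : Measure (Fin d → ℝ))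
    (x : Fin d → ℝ) : ℝ := ⨅ m, es K γ m x

include hK

lemma es_bddBelow (x : Fin d → ℝ) : BddBelow (range fun m => es K γ m x) :=
  ⟨0, by rintro _ ⟨m, rfl⟩; exact es_nonneg hK m x⟩

lemma einf_le (m : ℕ) (x : Fin d → ℝ) : einf K γ x ≤ es K γ m x :=
  ciInf_le (es_bddBelow hK x) m

lemma einf_nonneg (x : Fin d → ℝ) : 0 ≤ einf K γ x := le_ciInf fun m => es_nonneg hK m x

lemma einf_tendsto (x : Fin d → ℝ) :
    Tendsto (fun m => es K γ m x) atTop (𝓝 (einf K γ x)) :=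
  tendsto_atTop_ciInf (fun _ _ h => es_anti hK h x) (es_bddBelow hK x)

lemma einf_meas : Measurable (einf K γ) :=
  measurable_of_tendsto_metrizable (fun m => (es_bdM (γ := γ) hK m).meas)
    (tendsto_pi_nhds.mpr fun x => einf_tendsto hK x)

lemma einf_le_ind (x : Fin d → ℝ) : einf K γ x ≤ ind K x := einf_le (γ := γ) hK 0 x

lemma einf_bdM : BdM (einf K γ) :=
  ⟨einf_meas hK, 1, fun x => by
    rw [abs_of_nonneg (einf_nonneg hK x)]
    exact (einf_le_ind (γ := γ) hK x).trans (ind_le_one K x)⟩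

lemma einf_integrable (hvK : volume K < ∞) : Integrable (einf K γ) volume := by
  refine Integrable.mono' (ind_integrable hK hvK)
    (einf_meas hK).aestronglyMeasurable (ae_of_all _ fun x => ?_)
  rw [Real.norm_of_nonneg (einf_nonneg hK _)]
  exact einf_le_ind hK x

lemma bs_tendsto (hvK : volume K < ∞) :
    Tendsto (fun m => ∫ x, es K γ m x) atTop (𝓝 (∫ x, einf K γ x)) := by
  refine tendsto_integral_of_dominated_convergence (ind K)
    (fun m => (es_bdM (γ := γ) hK m).meas.aestronglyMeasurable) (ind_integrable hK hvK)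
    (fun m => ae_of_all _ fun x => ?_) (ae_of_all _ fun x => einf_tendsto hK x)
  rw [Real.norm_of_nonneg (es_nonneg hK _ _)]
  exact es_le_ind hK m x

end EInf

lemma einf_pot {d : ℕ} {K : Set (Fin d → ℝ)} (hK : MeasurableSet K) (δ : ℝ≥0) (J : ℕ)
    (x : Fin d → ℝ) :
    ∑ j ∈ Finset.range J, cv (gs d (j * δ)) (einf K (gs d δ)) x ≤ 1 := by
  have h1 := Hs_expand hK δ J x
  have h2 := Hs_le_one (γ := gs d δ) hK J x
  rw [h1, Finset.sum_range_succ] at h2
  have h3 : 0 ≤ cv (gs d (J * δ)) (es K (gs d δ) (J - J)) x :=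
    cv_nonnegL (es_nonneg (γ := gs d δ) hK _) x
  have h4 : ∑ j ∈ Finset.range J, cv (gs d (j * δ)) (einf K (gs d δ)) x
      ≤ ∑ j ∈ Finset.range J, cv (gs d (j * δ)) (es K (gs d δ) (J - j)) x :=
    Finset.sum_le_sum fun j _ =>
      cv_monoL (einf_bdM hK) (es_bdM hK _) (einf_le (γ := gs d δ) hK _) x
  linarith

lemma einf_energy {d : ℕ} {K : Set (Fin d → ℝ)} (hK : MeasurableSet K) (hvK : volume K < ∞)
    (δ : ℝ≥0) {c : ℝ} (hc : 0 ≤ c) (J : ℕ) :
    ∑ j ∈ Finset.range J, ∫ x, (c * einf K (gs d δ) x)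
        * cv (gs d (j * δ)) (fun y => c * einf K (gs d δ) y) x
      ≤ c * ∫ x, c * einf K (gs d δ) x := by
  have hi : Integrable (fun x => c * einf K (gs d δ) x) volume :=
    (einf_integrable (γ := gs d δ) hK hvK).const_mul c
  have hint : ∀ j ∈ Finset.range J, Integrable (fun x => (c * einf K (gs d δ) x)
        * cv (gs d (j * δ)) (fun y => c * einf K (gs d δ) y) x) volume := by
    intro j _
    obtain ⟨C, hC⟩ := ((einf_bdM (γ := gs d δ) hK).const_mul c).cv (ν := gs d (j * δ)) |>.bdd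
    have hm := (((einf_bdM (γ := gs d δ) hK).const_mul c).cv (ν := gs d (j * δ))).meas
    exact hi.mul_bdd (c := C) hm.aestronglyMeasurable (ae_of_all _ fun x => hC x)
  rw [← integral_finsetSum _ hint, ← integral_const_mul]
  refine integral_mono (integrable_finsetSum _ hint) (hi.const_mul c) fun x => ?_
  simp only
  rw [← Finset.mul_sum]
  have h1 : ∑ j ∈ Finset.range J, cv (gs d (j * δ)) (fun y => c * einf K (gs d δ) y) x
      = c * ∑ j ∈ Finset.range J, cv (gs d (j * δ)) (einf K (gs d δ)) x := by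
    rw [Finset.mul_sum]
    exact Finset.sum_congr rfl fun j _ => cv_const_mul c _ x
  rw [h1]
  have h2 := einf_pot hK δ J x
  have h3 := einf_nonneg (γ := gs d δ) hK x
  have h4 : c * ∑ j ∈ Finset.range J, cv (gs d (j * δ)) (einf K (gs d δ)) x ≤ c * 1 :=
    mul_le_mul_of_nonneg_left h2 hc
  have h5 : 0 ≤ c * einf K (gs d δ) x := mul_nonneg hc h3
  nlinarith

/-- lower bound for `b_m`, `m ≥ n` -/
lemma bs_lower {d : ℕ} (hd : 3 ≤ d) {K : Set (Fin d → ℝ)} (hK : MeasurableSet K)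
    (hvK : volume K < ∞) {R s : ℕ} (hR : 0 < R) (hs : 0 < s) {w1 w2 w4 : ℝ}
    (h1 : ∫ x, Hs K (gs d ((R : ℝ≥0))⁻¹) (s * R) x ≤ w1)
    (h2 : ∫ x, Hs K (gs d ((R : ℝ≥0))⁻¹) (2 * s * R) x ≤ w2)
    (h4 : w4 ≤ ∫ x, Hs K (gs d ((R : ℝ≥0))⁻¹) (2 * (2 * s) * R) x)
    (j : ℕ) :
    (w4 - w2) / (2 * s * R) - (3 * (√(s : ℝ))⁻¹ * (w2 / (2 * s))) * (w1 / (s * R))
      ≤ ∫ x, es K (gs d ((R : ℝ≥0))⁻¹) (2 * s * R + j) x := by
  set δ : ℝ≥0 := (R : ℝ≥0)⁻¹ with hδ
  set γ := gs d δ with hγ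
  have hR' : (0 : ℝ) < R := by exact_mod_cast hR
  have hs' : (0 : ℝ) < s := by exact_mod_cast hs
  have hδ0 : 0 < δ := by rw [hδ]; positivity
  have hδ1 : δ ≤ 1 := by
    rw [hδ]
    exact inv_le_one_of_one_le₀ (by exact_mod_cast hR)
  have hδr : (δ : ℝ) = (R : ℝ)⁻¹ := by rw [hδ]; simp
  -- b_n lower bound
  set b : ℕ → ℝ := fun m => ∫ x, es K γ m x with hb
  have hbn : (w4 - w2) / (2 * s * R) ≤ b (2 * s * R) := by
    have e1 : 2 * (2 * s) * R = 2 * s * R + 2 * s * R := by ring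
    set n := 2 * s * R with hn
    rw [e1] at h4
    have h5 : ∀ m : ℕ, (∫ x, Hs K γ (n + m) x) ≤ (∫ x, Hs K γ n x) + m * b n := by
      intro m
      induction m with
      | zero => simp
      | succ m ih =>
        have e2 : ∫ x, Hs K γ (n + (m + 1)) x
            = (∫ x, Hs K γ (n + m) x) + b (n + (m + 1)) := by
          rw [← add_assoc, integral_Hs (γ := γ) hK hvK (n + m + 1),
            integral_Hs (γ := γ) hK hvK (n + m), Finset.sum_range_succ]
        have h6 : b (n + (m + 1)) ≤ b n := bs_anti (γ := γ) hK hvK (by omega)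
        rw [e2]
        push_cast
        linarith
    have h6 := h5 n
    have hnpos : (0 : ℝ) < (n : ℝ) := by
      rw [hn]; push_cast; positivity
    have e3 : (2 : ℝ) * s * R = (n : ℝ) := by rw [hn]; push_cast; ring
    rw [e3, div_le_iff₀ hnpos]
    linarith
  have hbk : b (s * R) ≤ w1 / (s * R) := by
    have h5 := bs_le (γ := γ) hK hvK (s * R)
    rw [le_div_iff₀ (by positivity)]
    have h6 : 0 ≤ b (s * R) := bs_nonneg (γ := γ) hK _
    push_cast at h5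
    change ((s : ℝ) * R + 1) * b (s * R) ≤ _ at h5
    nlinarith
  have hC : ∀ y, (cv γ)^[2 * s * R - s * R] (Hs K γ j) y ≤ 3 * (√(s : ℝ))⁻¹ * (w2 / (2 * s)) := by
    intro y
    have e1 : 2 * s * R - s * R = s * R := by
      have : 2 * s * R = s * R + s * R := by ring
      omega
    rw [e1, hγ, cvit_gs (Hs_bdM hK j)]
    set n := 2 * s * R with hn
    set M := max j n with hM
    have h5 : cv (gs d ((s * R : ℕ) * δ)) (Hs K (gs d δ) j) y
        ≤ cv (gs d ((s * R : ℕ) * δ)) (Hs K (gs d δ) M) y :=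
      cv_monoL (Hs_bdM hK j) (Hs_bdM hK M) (Hs_mono (γ := gs d δ) hK (le_max_left _ _)) y
    refine h5.trans ?_
    have hkd : ((s * R : ℕ) : ℝ) * δ = s := by
      rw [hδr]; push_cast; field_simp
    have h6 := cv_Hs_bound hK hvK hd hδ0 hδ1 (k := s * R) (by
      rw [hkd]; exact_mod_cast hs) M y
    refine h6.trans ?_
    rw [hkd, hδr]
    have h7 := Ws_div_anti (γ := gs d δ) hK hvK (le_max_right j n)
    rw [← hM] at h7
    have h8 : (∫ x, Hs K (gs d δ) n x) / (n + 1) ≤ w2 / (2 * s * R) := by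
      have h9 : 0 ≤ ∫ x, Hs K (gs d δ) n x := integral_nonneg (Hs_nonneg hK n)
      have e3 : (2 : ℝ) * s * R = (n : ℝ) := by rw [hn]; push_cast; ring
      have hnpos : (0 : ℝ) < (n : ℝ) := by
        rw [hn]; push_cast; positivity
      rw [e3, div_le_div_iff₀ (by positivity) hnpos]
      have h10 : (∫ x, Hs K (gs d δ) n x) ≤ w2 := h2
      nlinarith
    calc (∫ y, Hs K (gs d δ) M y) / (M + 1) * (3 * (√(s : ℝ))⁻¹ / (R : ℝ)⁻¹)
        ≤ (w2 / (2 * s * R)) * (3 * (√(s : ℝ))⁻¹ / (R : ℝ)⁻¹) :=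
          mul_le_mul_of_nonneg_right (h7.trans h8) (by positivity)
      _ = 3 * (√(s : ℝ))⁻¹ * (w2 / (2 * s)) := by
          field_simp
  have hfin := bs_diff_le (γ := γ) hK hvK (n := 2 * s * R) (k := s * R) (j := j) (by
      have : 2 * s * R = s * R + s * R := by ring
      omega) hC
  have hw2 : 0 ≤ w2 := le_trans (integral_nonneg (Hs_nonneg hK _)) h2
  have h9 : 0 ≤ 3 * (√(s : ℝ))⁻¹ * (w2 / (2 * s)) := by positivity
  have h10 := mul_le_mul_of_nonneg_left hbk h9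
  change b (2 * s * R) - b (2 * s * R + j) ≤ _ * b (s * R) at hfin
  change _ ≤ b (2 * s * R + j)
  linarith

theorem equilibrium {d : ℕ} (hd : 3 ≤ d) {K : Set (Fin d → ℝ)} (hK : MeasurableSet K)
    (hvK : volume K < ∞) (w : ℕ → ℝ) {κ : ℝ}
    (hκ : Tendsto (fun t : ℕ => w t / t) atTop (𝓝 κ))
    (hle : ∀ t r : ℕ, ∫ x, (1 - surv K (gs d ((2:ℝ≥0) ^ r)⁻¹) (t * 2 ^ r) 0 x) ≤ w t)
    (hlim : ∀ t : ℕ, ∀ ε > 0, ∃ r0 : ℕ, ∀ r ≥ r0,
      w t - ε ≤ ∫ x, (1 - surv K (gs d ((2:ℝ≥0) ^ r)⁻¹) (t * 2 ^ r) 0 x)) :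
    ∀ ε > 0, ∃ (r : ℕ) (e : (Fin d → ℝ) → ℝ), BdM e ∧ (∀ x, 0 ≤ e x) ∧
      (∀ x, x ∉ K → e x = 0) ∧ κ - ε ≤ ∫ x, e x ∧ ∫ x, e x ≤ κ ∧
      ∀ J : ℕ, ∑ j ∈ Finset.range J, ∫ x, e x * cv (gs d ((j:ℝ≥0) * ((2:ℝ≥0) ^ r)⁻¹)) e x
        ≤ 2 ^ r * ∫ x, e x := by
  intro ε hε
  have hcast : ∀ r : ℕ, ((2:ℝ≥0) ^ r)⁻¹ = (((2 ^ r : ℕ)) : ℝ≥0)⁻¹ := by
    intro r; push_cast; rfl
  have hw0 : ∀ t, 0 ≤ w t := fun t =>
    le_trans (integral_nonneg (Hs_nonneg (γ := gs d ((2:ℝ≥0) ^ 0)⁻¹) hK _)) (hle t 0)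
  have hκ0 : 0 ≤ κ := ge_of_tendsto' hκ fun t => div_nonneg (hw0 t) (Nat.cast_nonneg t)
  -- choose s
  set η := ε / 3 with hη
  have hη0 : 0 < η := by positivity
  have ht1 : Tendsto (fun s : ℕ => w s / s) atTop (𝓝 κ) := hκ
  have ht2 : Tendsto (fun s : ℕ => w (2 * s) / ((2 * s : ℕ) : ℝ)) atTop (𝓝 κ) :=
    hκ.comp (tendsto_id.const_mul_atTop' (by norm_num : 0 < 2))
  have ht4 : Tendsto (fun s : ℕ => w (2 * (2 * s)) / ((2 * (2 * s) : ℕ) : ℝ)) atTop (𝓝 κ) :=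
    (hκ.comp (tendsto_id.const_mul_atTop' (by norm_num : 0 < 2))).comp
      (tendsto_id.const_mul_atTop' (by norm_num : 0 < 2))
  have htd : Tendsto (fun s : ℕ => 2 * (w (2 * (2 * s)) / ((2 * (2 * s) : ℕ) : ℝ))
      - w (2 * s) / ((2 * s : ℕ) : ℝ)) atTop (𝓝 (2 * κ - κ)) := (ht4.const_mul 2).sub ht2
  have hsq : Tendsto (fun s : ℕ => 3 * (√(s : ℝ))⁻¹ * (κ + 1) * (κ + 1)) atTop (𝓝 0) := by
    have h1 : Tendsto (fun s : ℕ => (√(s : ℝ))⁻¹) atTop (𝓝 0) :=
      (Real.tendsto_sqrt_atTop.comp tendsto_natCast_atTop_atTop).inv_tendsto_atTop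
    have h2 := ((h1.const_mul 3).mul_const (κ + 1)).mul_const (κ + 1)
    simpa using h2
  have hev : ∀ᶠ s : ℕ in atTop, w s / s < κ + 1 ∧ w (2 * s) / ((2 * s : ℕ) : ℝ) < κ + 1 ∧
      κ - η < 2 * (w (2 * (2 * s)) / ((2 * (2 * s) : ℕ) : ℝ)) - w (2 * s) / ((2 * s : ℕ) : ℝ) ∧
      3 * (√(s : ℝ))⁻¹ * (κ + 1) * (κ + 1) < η ∧ 1 ≤ s := by
    refine (ht1.eventually_lt_const (by linarith)).and
      ((ht2.eventually_lt_const (by linarith)).and
      ((htd.eventually_const_lt (by linarith)).and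
      ((hsq.eventually_lt_const hη0).and (eventually_ge_atTop 1))))
  obtain ⟨s, hs1, hs2, hs3, hs4, hs5⟩ := hev.exists
  obtain ⟨r0, hr0⟩ := hlim (2 * (2 * s)) η hη0
  have hr := hr0 r0 le_rfl
  set r := r0 with hrdef
  set R : ℕ := 2 ^ r with hRdef
  have hR : 0 < R := by positivity
  have hR' : (0 : ℝ) < R := by exact_mod_cast hR
  have hs' : (0 : ℝ) < s := by exact_mod_cast hs5
  have hRr : (R : ℝ) = 2 ^ r := by rw [hRdef]; push_cast; rfl
  have hlow := bs_lower hd hK hvK (R := R) (s := s) hR (by omega) (w1 := w s) (w2 := w (2 * s))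
    (w4 := w (2 * (2 * s)) - η)
    (by have := hle s r; rw [hcast] at this; exact this)
    (by have := hle (2 * s) r; rw [hcast] at this; exact this)
    (by rw [hcast] at hr; exact hr)
  set γ := gs d (R : ℝ≥0)⁻¹ with hγ
  -- simplify lower bound
  have hlow2 : ∀ j, (κ - ε) / R ≤ ∫ x, es K γ (2 * s * R + j) x := by
    intro j
    refine le_trans ?_ (hlow j)
    push_cast at hs2 hs3
    have e1 : w (2 * (2 * s)) - η - w (2 * s)
        = (2 * s) * ((2 * (w (2 * (2 * s)) / (2 * (2 * s))) - w (2 * s) / (2 * s)) - η / (2 * s)) := by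
      field_simp
      ring
    have h5 : η / (2 * s) ≤ η := by
      rw [div_le_iff₀ (by positivity)]
      have : (1 : ℝ) ≤ s := by exact_mod_cast hs5
      nlinarith
    have h6 : (κ - 2 * η) / R ≤ (w (2 * (2 * s)) - η - w (2 * s)) / (2 * s * R) := by
      rw [e1, div_le_div_iff₀ hR' (by positivity)]
      have h7 : κ - 2 * η ≤ (2 * (w (2 * (2 * s)) / (2 * (2 * s))) - w (2 * s) / (2 * s))
          - η / (2 * s) := by linarith
      have h8 := mul_le_mul_of_nonneg_left h7 (by positivity : 0 ≤ (2 * s * R : ℝ))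
      nlinarith
    have h7 : 3 * (√(s : ℝ))⁻¹ * (w (2 * s) / (2 * s)) * (w s / (s * R)) ≤ η / R := by
      have e2 : w s / (s * R) = (w s / s) / R := by field_simp
      rw [e2, ← mul_div_assoc]
      refine div_le_div_of_nonneg_right ?_ hR'.le
      have a1 : 0 ≤ w s / s := div_nonneg (hw0 _) hs'.le
      have a2 : 0 ≤ w (2 * s) / (2 * s) := div_nonneg (hw0 _) (by positivity)
      calc 3 * (√(s : ℝ))⁻¹ * (w (2 * s) / (2 * s)) * (w s / s)
          ≤ 3 * (√(s : ℝ))⁻¹ * (κ + 1) * (κ + 1) := by gcongr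
        _ ≤ η := hs4.le
    have e3 : (κ - ε) / R = (κ - 2 * η) / R - η / R := by rw [hη]; ring
    rw [e3]
    linarith
  have hbt := bs_tendsto (γ := γ) hK hvK
  have hinf1 : (κ - ε) / R ≤ ∫ x, einf K γ x := by
    refine ge_of_tendsto hbt ?_
    filter_upwards [eventually_ge_atTop (2 * s * R)] with m hm
    obtain ⟨j, rfl⟩ := Nat.exists_eq_add_of_le hm
    exact hlow2 j
  have hinf2 : ∫ x, einf K γ x ≤ κ / R := by
    have hbt2 : Tendsto (fun t : ℕ => ∫ x, es K γ (t * R) x) atTop (𝓝 (∫ x, einf K γ x)) :=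
      hbt.comp (tendsto_id.atTop_mul_const' hR)
    have h3 : Tendsto (fun t : ℕ => (w t / t) / R) atTop (𝓝 (κ / R)) := hκ.div_const _
    refine le_of_tendsto_of_tendsto hbt2 h3 ?_
    filter_upwards [eventually_ge_atTop 1] with t ht
    have ht' : (0 : ℝ) < t := by exact_mod_cast ht
    have h5 := bs_le (γ := γ) hK hvK (t * R)
    have h6 : ∫ x, Hs K γ (t * R) x ≤ w t := by
      have := hle t r; rw [hcast] at this; exact this
    have h7 : 0 ≤ ∫ x, es K γ (t * R) x := bs_nonneg (γ := γ) hK _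
    rw [div_div, le_div_iff₀ (by positivity)]
    push_cast at h5
    nlinarith
  have hγ' : gs d ((2:ℝ≥0) ^ r)⁻¹ = γ := by rw [hγ, hcast]
  refine ⟨r, fun x => 2 ^ r * einf K γ x, (einf_bdM hK).const_mul _,
    fun x => mul_nonneg (by positivity) (einf_nonneg hK x), fun x hx => ?_, ?_, ?_, fun J => ?_⟩
  · have h1 := einf_le_ind (γ := γ) hK x
    rw [ind_of_not_mem hx] at h1
    have h2 := einf_nonneg (γ := γ) hK x
    have h3 : einf K γ x = 0 := le_antisymm h1 h2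
    simp [h3]
  · rw [integral_const_mul, ← hRr]
    rw [div_le_iff₀ hR'] at hinf1
    linarith
  · rw [integral_const_mul, ← hRr]
    rw [le_div_iff₀ hR'] at hinf2
    linarith
  · have h1 := einf_energy hK hvK (((2 ^ r : ℕ) : ℝ≥0)⁻¹) (c := 2 ^ r) (by positivity) J
    rw [hcast]
    exact h1

end Pool.Agent.Lib.MP_fd77c3_pr
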