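import Pool.Agent.Lib.MP_fd77c3_pr.SpaceBound

/-!
Subadditivity and finiteness for the hitting volumes of the random walk.
-/

open MeasureTheory Set Filter Topology ProbabilityTheory
open scoped ENNReal NNReal

set_option linter.unusedSectionVars false
set_option linter.unusedTactic false
set_option linter.unusedSimpArgs false
set_option linter.unusedVariables false

namespace Pool.Agent.Lib.MP_fd77c3_pr

section general

variable {H : Type*} [AddCommGroup H] [MeasurableSpace H] [MeasurableAdd₂ H] [MeasurableNeg H]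

/-- Averaging operator on extended nonnegative functions. -/
noncomputable def cE (ν : Measure H) (f : H → ℝ≥0∞) (x : H) : ℝ≥0∞ := ∫⁻ z, f (x + z) ∂ν

lemma measurable_cE (ν : Measure H) [SFinite ν] {f : H → ℝ≥0∞} (hf : Measurable f) :
    Measurable (cE ν f) := by
  unfold cE
  exact (hf.comp (measurable_fst.add measurable_snd)).lintegral_prod_right'

lemma lintegral_cE {μ ν : Measure H} [SFinite μ] [μ.IsAddRightInvariant] [IsProbabilityMeasure ν]
    {f : H → ℝ≥0∞} (hf : Measurable f) : ∫⁻ x, cE ν f x ∂μ = ∫⁻ x, f x ∂μ := by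
  unfold cE
  rw [lintegral_lintegral_swap]
  · simp only [lintegral_add_right_eq_self]
    simp
  · exact (hf.comp (measurable_fst.add measurable_snd)).aemeasurable

lemma cE_mono {ν : Measure H} {f g : H → ℝ≥0∞} (h : ∀ x, f x ≤ g x) (x : H) :
    cE ν f x ≤ cE ν g x := lintegral_mono fun z => h _

lemma cE_conv {μ ν : Measure H} [SFinite μ] [SFinite ν] {f : H → ℝ≥0∞} (hf : Measurable f) :
    cE (μ ∗ ν) f = cE μ (cE ν f) := by
  funext x
  unfold cE
  unfold Measure.conv
  have hm : Measurable (fun z => f (x + z)) := hf.comp (measurable_const_add x)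
  rw [lintegral_map hm measurable_add, lintegral_prod]
  · refine lintegral_congr fun y => lintegral_congr fun z => ?_
    rw [add_assoc]
  · exact (hm.comp measurable_add).aemeasurable

variable {γ : Measure H} [IsProbabilityMeasure γ] {A : Set H}

/-- Hitting probability of the walk. -/
noncomputable def hz (A : Set H) (γ : Measure H) (n : ℕ) (x : H) : ℝ≥0∞ := hitE A γ n 0 x

lemma measurable_hz (hA : MeasurableSet A) (n : ℕ) : Measurable (hz A γ n) :=
  measurable_hitE_right hA n 0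

lemma hz_of_mem (n : ℕ) {x : H} (hx : x ∈ A) : hz A γ n x = 1 := hitE_of_mem _ _ hx

lemma hz_le_one (hA : MeasurableSet A) (n : ℕ) (x : H) : hz A γ n x ≤ 1 := hitE_le_one hA _ _ _

lemma hz_zero {x : H} (hx : x ∉ A) : hz A γ 0 x = 0 := hitE_zero_of_not_mem _ hx

lemma hz_succ (hA : MeasurableSet A) (n : ℕ) {x : H} (hx : x ∉ A) :
    hz A γ (n + 1) x = cE γ (hz A γ n) x := by
  unfold hz
  rw [hitE_succ_of_not_mem hA n 0 hx]
  unfold cE
  refine lintegral_congr fun y => ?_
  have h1 : (Fin.tail (0 : Fin (n + 1) → H)) = 0 := rfl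
  rw [h1]
  simp

lemma measurable_iter (n : ℕ) {f : H → ℝ≥0∞} (hf : Measurable f) :
    Measurable ((cE γ)^[n] f) := by
  induction n with
  | zero => exact hf
  | succ n ih => rw [Function.iterate_succ_apply']; exact measurable_cE γ ih

lemma lintegral_iter {μ : Measure H} [SFinite μ] [μ.IsAddRightInvariant] (n : ℕ)
    {f : H → ℝ≥0∞} (hf : Measurable f) : ∫⁻ x, (cE γ)^[n] f x ∂μ = ∫⁻ x, f x ∂μ := by
  induction n with
  | zero => rfl
  | succ n ih =>
    rw [Function.iterate_succ_apply', lintegral_cE (measurable_iter n hf), ih]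

lemma hz_add_le (hA : MeasurableSet A) (m n : ℕ) (x : H) :
    hz A γ (n + m) x ≤ hz A γ n x + (cE γ)^[n] (hz A γ m) x := by
  induction n generalizing x with
  | zero =>
    rw [Nat.zero_add, Function.iterate_zero, id]
    exact le_add_self
  | succ n ih =>
    by_cases hx : x ∈ A
    · rw [hz_of_mem _ hx, hz_of_mem _ hx]
      exact le_self_add
    · have e1 : n + 1 + m = n + m + 1 := by ring
      rw [e1, hz_succ hA _ hx, hz_succ hA _ hx, Function.iterate_succ_apply']
      have h1 : cE γ (hz A γ n) x + cE γ ((cE γ)^[n] (hz A γ m)) x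
          = ∫⁻ z, (hz A γ n (x + z) + (cE γ)^[n] (hz A γ m) (x + z)) ∂γ := by
        have hm : Measurable (fun z => hz A γ n (x + z)) :=
          (measurable_hz hA n).comp (measurable_const_add x)
        rw [lintegral_add_left hm]
        rfl
      rw [h1]
      exact lintegral_mono fun z => ih _

lemma lintegral_hz_add_le {μ : Measure H} [SFinite μ] [μ.IsAddRightInvariant]
    (hA : MeasurableSet A) (m n : ℕ) :
    ∫⁻ x, hz A γ (n + m) x ∂μ ≤ ∫⁻ x, hz A γ n x ∂μ + ∫⁻ x, hz A γ m x ∂μ := by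
  calc ∫⁻ x, hz A γ (n + m) x ∂μ
      ≤ ∫⁻ x, (hz A γ n x + (cE γ)^[n] (hz A γ m) x) ∂μ :=
        lintegral_mono fun x => hz_add_le hA m n x
    _ = ∫⁻ x, hz A γ n x ∂μ + ∫⁻ x, hz A γ m x ∂μ := by
        rw [lintegral_add_left (measurable_hz hA n), lintegral_iter n (measurable_hz hA m)]

/-- Expected occupation numbers. -/
noncomputable def occ (A : Set H) (γ : Measure H) : ℕ → H → ℝ≥0∞
  | 0 => A.indicator fun _ => 1
  | n + 1 => fun x => A.indicator (fun _ => 1) x + cE γ (occ A γ n) x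

lemma measurable_occ (hA : MeasurableSet A) (n : ℕ) : Measurable (occ A γ n) := by
  induction n with
  | zero => exact measurable_const.indicator hA
  | succ n ih => exact (measurable_const.indicator hA).add (measurable_cE γ ih)

lemma lintegral_occ {μ : Measure H} [SFinite μ] [μ.IsAddRightInvariant]
    (hA : MeasurableSet A) (n : ℕ) : ∫⁻ x, occ A γ n x ∂μ = (n + 1) * μ A := by
  induction n with
  | zero =>
    change ∫⁻ x, A.indicator (fun _ => (1:ℝ≥0∞)) x ∂μ = _
    rw [lintegral_indicator_const hA]; simp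
  | succ n ih =>
    change ∫⁻ x, (A.indicator (fun _ => (1:ℝ≥0∞)) x + cE γ (occ A γ n) x) ∂μ = _
    rw [lintegral_add_left (measurable_const.indicator hA), lintegral_indicator_const hA,
      lintegral_cE (measurable_occ hA n), ih]
    push_cast
    ring

lemma occ_mono_succ (hA : MeasurableSet A) (n : ℕ) (x : H) : occ A γ n x ≤ occ A γ (n + 1) x := by
  induction n generalizing x with
  | zero => exact le_self_add
  | succ n ih => exact add_le_add le_rfl (cE_mono ih x)

lemma occ_mono (hA : MeasurableSet A) {m n : ℕ} (h : m ≤ n) (x : H) :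
    occ A γ m x ≤ occ A γ n x := by
  induction n, h using Nat.le_induction with
  | base => exact le_rfl
  | succ n _ ih => exact ih.trans (occ_mono_succ hA n x)

lemma hz_mul_le_occ (hA : MeasurableSet A) {g : ℝ≥0∞} {m : ℕ} (hg : ∀ y ∈ A, g ≤ occ A γ m y)
    (n : ℕ) (x : H) : hz A γ n x * g ≤ occ A γ (n + m) x := by
  induction n generalizing x with
  | zero =>
    rw [Nat.zero_add]
    by_cases hx : x ∈ A
    · rw [hz_of_mem _ hx, one_mul]; exact hg x hx
    · rw [hz_zero hx, zero_mul]; exact zero_le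
  | succ n ih =>
    by_cases hx : x ∈ A
    · rw [hz_of_mem _ hx, one_mul]
      exact (hg x hx).trans (occ_mono hA (by omega) x)
    · rw [hz_succ hA _ hx]
      have e1 : n + 1 + m = n + m + 1 := by ring
      rw [e1]
      change _ ≤ A.indicator (fun _ => 1) x + cE γ (occ A γ (n + m)) x
      refine le_trans ?_ le_add_self
      unfold cE
      have hm : Measurable (fun z => hz A γ n (x + z)) :=
        (measurable_hz hA n).comp (measurable_const_add x)
      rw [← lintegral_mul_const _ hm]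
      exact lintegral_mono fun z => ih _

lemma lintegral_hz_mul_le {μ : Measure H} [SFinite μ] [μ.IsAddRightInvariant]
    (hA : MeasurableSet A) {g : ℝ≥0∞} {m : ℕ} (hg : ∀ y ∈ A, g ≤ occ A γ m y) (n : ℕ) :
    (∫⁻ x, hz A γ n x ∂μ) * g ≤ (n + m + 1) * μ A := by
  rw [← lintegral_mul_const _ (measurable_hz hA n)]
  refine (lintegral_mono fun x => hz_mul_le_occ hA hg n x).trans (le_of_eq ?_)
  rw [lintegral_occ hA]
  push_cast
  ring

end general

section gauss

variable {d : ℕ}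

lemma cE_gs_add {f : (Fin d → ℝ) → ℝ≥0∞} (hf : Measurable f) (s t : ℝ≥0) :
    cE (gs d (s + t)) f = cE (gs d s) (cE (gs d t) f) := by
  rw [(gs_semi d).conv, cE_conv hf]

lemma cE_gs_zero {f : (Fin d → ℝ) → ℝ≥0∞} (hf : Measurable f) : cE (gs d 0) f = f := by
  funext x
  unfold cE
  have hm : Measurable (fun z => f (x + z)) := hf.comp (measurable_const_add x)
  rw [(gs_semi d).zero, lintegral_dirac' _ hm]
  simp

lemma occ_eq {A : Set (Fin d → ℝ)} (hA : MeasurableSet A) (δ : ℝ≥0) (n : ℕ) (x : Fin d → ℝ) :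
    occ A (gs d δ) n x
      = ∑ j ∈ Finset.range (n + 1), cE (gs d (j * δ)) (A.indicator fun _ => 1) x := by
  have h1 : Measurable (A.indicator fun _ => (1:ℝ≥0∞)) := measurable_const.indicator hA
  induction n generalizing x with
  | zero => simp [occ, cE_gs_zero h1]
  | succ n ih =>
    rw [Finset.sum_range_succ']
    change A.indicator (fun _ => 1) x + cE (gs d δ) (occ A (gs d δ) n) x = _
    have h2 : cE (gs d δ) (occ A (gs d δ) n) x
        = ∑ j ∈ Finset.range (n + 1), cE (gs d ((j + 1 : ℕ) * δ)) (A.indicator fun _ => 1) x := by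
      unfold cE
      have h3 : ∀ z, occ A (gs d δ) n (x + z) = ∑ j ∈ Finset.range (n + 1),
          cE (gs d (j * δ)) (A.indicator fun _ => 1) (x + z) := fun z => ih (x + z)
      simp only [h3]
      rw [lintegral_finsetSum]
      · refine Finset.sum_congr rfl fun j _ => ?_
        have h4 : ((j + 1 : ℕ) : ℝ≥0) * δ = δ + j * δ := by push_cast; ring
        rw [h4]
        have h5 := congrFun (cE_gs_add h1 δ (j * δ)) x
        exact h5.symm
      · intro j _
        exact (measurable_cE _ h1).comp (measurable_const_add x)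
    rw [h2, add_comm]
    simp [cE_gs_zero h1]

/-- Lower bound for the one-dimensional Gaussian on an interval. -/
lemma gaussian_Icc_ge {s : ℝ≥0} (hs : 1 / 2 ≤ s) (hs1 : s ≤ 1) {ρ a y : ℝ} (hρ : 0 < ρ)
    (ha : 0 < a) (hy : |y| ≤ a) :
    ENNReal.ofReal (2 * ρ * ((√(2 * Real.pi))⁻¹ * Real.exp (-(a + ρ) ^ 2)))
      ≤ gaussianReal 0 s (Icc (-ρ - y) (ρ - y)) := by
  have hs0 : s ≠ 0 := by
    intro h; rw [h] at hs; norm_num at hs
  have hsR : (0:ℝ) < s := by
    have : 0 < s := pos_iff_ne_zero.2 hs0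
    exact_mod_cast this
  have hs' : (1:ℝ) / 2 ≤ s := by exact_mod_cast hs
  have hs1' : (s:ℝ) ≤ 1 := by exact_mod_cast hs1
  rw [gaussianReal_apply _ hs0]
  have h1 : ∀ z ∈ Icc (-ρ - y) (ρ - y),
      ENNReal.ofReal ((√(2 * Real.pi))⁻¹ * Real.exp (-(a + ρ) ^ 2)) ≤ gaussianPDF 0 s z := by
    intro z hz
    unfold gaussianPDF gaussianPDFReal
    apply ENNReal.ofReal_le_ofReal
    have hz2 : |z| ≤ a + ρ := by
      rw [abs_le] at hy ⊢
      constructor <;> linarith [hz.1, hz.2]
    have hz3 : z ^ 2 ≤ (a + ρ) ^ 2 := by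
      rw [← sq_abs]; exact pow_le_pow_left₀ (abs_nonneg _) hz2 2
    apply mul_le_mul
    · apply inv_anti₀
      · positivity
      · apply Real.sqrt_le_sqrt
        have : 0 < 2 * Real.pi := by positivity
        nlinarith
    · apply Real.exp_le_exp.2
      rw [sub_zero]
      have h2 : z ^ 2 / (2 * s) ≤ (a + ρ) ^ 2 := by
        rw [div_le_iff₀ (by positivity)]
        have : (a + ρ) ^ 2 * 1 ≤ (a + ρ) ^ 2 * (2 * s) :=
          mul_le_mul_of_nonneg_left (by linarith) (sq_nonneg _)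
        linarith
      have h3 : -z ^ 2 / (2 * s) = -(z ^ 2 / (2 * s)) := by ring
      rw [h3]
      linarith
    · positivity
    · positivity
  calc ENNReal.ofReal (2 * ρ * ((√(2 * Real.pi))⁻¹ * Real.exp (-(a + ρ) ^ 2)))
      = ENNReal.ofReal ((√(2 * Real.pi))⁻¹ * Real.exp (-(a + ρ) ^ 2))
          * volume (Icc (-ρ - y) (ρ - y)) := by
        rw [Real.volume_Icc, ← ENNReal.ofReal_mul (by positivity)]
        congr 1; ring
    _ = ∫⁻ z in Icc (-ρ - y) (ρ - y),
          ENNReal.ofReal ((√(2 * Real.pi))⁻¹ * Real.exp (-(a + ρ) ^ 2)) := by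
        rw [setLIntegral_const]
    _ ≤ ∫⁻ z in Icc (-ρ - y) (ρ - y), gaussianPDF 0 s z :=
        setLIntegral_mono' measurableSet_Icc h1

/-- Uniform lower bound for the transition probabilities. -/
lemma cE_ge {K : Set (Fin d → ℝ)} {a ρ : ℝ} (hρ : 0 < ρ) (ha : 0 < a) (hKa : K ⊆ cube d a)
    (hρK : cube d ρ ⊆ K) {s : ℝ≥0} (hs : 1 / 2 ≤ s) (hs1 : s ≤ 1) {y : Fin d → ℝ} (hy : y ∈ K) :
    ENNReal.ofReal (2 * ρ * ((√(2 * Real.pi))⁻¹ * Real.exp (-(a + ρ) ^ 2))) ^ d
      ≤ cE (gs d s) (K.indicator fun _ => 1) y := by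
  have h1 : ∀ z, (univ.pi fun i => Icc (-ρ - y i) (ρ - y i)).indicator (fun _ => (1:ℝ≥0∞)) z
      ≤ K.indicator (fun _ => 1) (y + z) := by
    intro z
    by_cases hz : z ∈ univ.pi fun i => Icc (-ρ - y i) (ρ - y i)
    · rw [indicator_of_mem hz, indicator_of_mem]
      apply hρK
      intro i
      rw [mem_univ_pi] at hz
      have := hz i
      rw [Pi.add_apply, abs_le]
      constructor <;> linarith [this.1, this.2]
    · rw [indicator_of_notMem hz]; exact zero_le
  have hm : MeasurableSet (univ.pi fun i => Icc (-ρ - y i) (ρ - y i)) :=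
    MeasurableSet.univ_pi fun i => measurableSet_Icc
  calc _ = ∏ _i : Fin d,
        ENNReal.ofReal (2 * ρ * ((√(2 * Real.pi))⁻¹ * Real.exp (-(a + ρ) ^ 2))) := by simp
    _ ≤ ∏ i : Fin d, gaussianReal 0 s (Icc (-ρ - y i) (ρ - y i)) :=
        Finset.prod_le_prod' fun i _ => gaussian_Icc_ge hs hs1 hρ ha (hKa hy i)
    _ = gs d s (univ.pi fun i => Icc (-ρ - y i) (ρ - y i)) := by
        unfold gs; rw [Measure.pi_pi]
    _ = ∫⁻ z, (univ.pi fun i => Icc (-ρ - y i) (ρ - y i)).indicator (fun _ => (1:ℝ≥0∞)) z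
          ∂(gs d s) := by
        rw [lintegral_indicator_const hm, one_mul]
    _ ≤ _ := lintegral_mono h1

/-- Uniform bound for the expected volume swept up to time one. -/
lemma lintegral_hz_bounded {K : Set (Fin d → ℝ)} (hK : MeasurableSet K) {a ρ : ℝ} (hρ : 0 < ρ)
    (ha : 0 < a) (hKa : K ⊆ cube d a) (hρK : cube d ρ ⊆ K) :
    ∃ C : ℝ≥0∞, C < ∞ ∧ ∀ r : ℕ,
      ∫⁻ x, hz K (gs d ((2:ℝ≥0) ^ (r + 1))⁻¹) (2 ^ (r + 1)) x ≤ C := by
  have hvK : volume K < ∞ := (measure_mono hKa).trans_lt (volume_cube_lt_top d a)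
  set c := ENNReal.ofReal (2 * ρ * ((√(2 * Real.pi))⁻¹ * Real.exp (-(a + ρ) ^ 2))) ^ d with hc
  have hc0 : c ≠ 0 := by
    rw [hc]
    apply pow_ne_zero
    rw [ne_eq, ENNReal.ofReal_eq_zero, not_le]
    positivity
  have hct : c ≠ ∞ := ENNReal.pow_ne_top ENNReal.ofReal_ne_top
  refine ⟨5 * volume K / c, ?_, fun r => ?_⟩
  · exact ENNReal.div_lt_top (ENNReal.mul_lt_top (by simp) hvK).ne hc0
  have hg : ∀ y ∈ K, (2:ℝ≥0∞) ^ r * c ≤ occ K (gs d ((2:ℝ≥0) ^ (r + 1))⁻¹) (2 ^ (r + 1)) y := by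
    intro y hy
    rw [occ_eq hK]
    have h1 : ∑ j ∈ (Finset.range (2 ^ r)).map (addLeftEmbedding (2 ^ r)),
        cE (gs d ((j:ℝ≥0) * ((2:ℝ≥0) ^ (r + 1))⁻¹)) (K.indicator fun _ => 1) y
        ≤ ∑ j ∈ Finset.range (2 ^ (r + 1) + 1),
          cE (gs d ((j:ℝ≥0) * ((2:ℝ≥0) ^ (r + 1))⁻¹)) (K.indicator fun _ => 1) y := by
      apply Finset.sum_le_sum_of_subset
      intro j hj
      rw [Finset.mem_map] at hj
      obtain ⟨i, hi, rfl⟩ := hj
      rw [Finset.mem_range] at *
      simp only [addLeftEmbedding_apply]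
      rw [pow_succ]
      omega
    refine le_trans ?_ h1
    rw [Finset.sum_map]
    have h2 : ∀ i ∈ Finset.range (2 ^ r), c ≤ cE (gs d (((addLeftEmbedding (2 ^ r) i : ℕ):ℝ≥0)
        * ((2:ℝ≥0) ^ (r + 1))⁻¹)) (K.indicator fun _ => 1) y := by
      intro i hi
      rw [Finset.mem_range] at hi
      have hpos : (0:ℝ≥0) < 2 ^ (r + 1) := by positivity
      refine cE_ge hρ ha hKa hρK ?_ ?_ hy
      · rw [← div_eq_mul_inv, le_div_iff₀ hpos]
        simp only [addLeftEmbedding_apply]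
        push_cast
        rw [pow_succ]
        have : (1:ℝ≥0) / 2 * (2 ^ r * 2) = 2 ^ r := by
          rw [mul_comm ((2:ℝ≥0) ^ r) 2, ← mul_assoc]; norm_num
        rw [this]
        exact le_self_add
      · rw [← div_eq_mul_inv, div_le_one hpos]
        simp only [addLeftEmbedding_apply]
        push_cast
        rw [pow_succ, mul_two]
        have : (i:ℝ≥0) ≤ 2 ^ r := by exact_mod_cast hi.le
        exact add_le_add le_rfl this
    calc (2:ℝ≥0∞) ^ r * c = ∑ _i ∈ Finset.range (2 ^ r), c := by simp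
      _ ≤ _ := Finset.sum_le_sum h2
  have h3 := lintegral_hz_mul_le (μ := (volume : Measure (Fin d → ℝ))) hK hg (2 ^ (r + 1))
  rw [ENNReal.le_div_iff_mul_le (Or.inl hc0) (Or.inl hct)]
  have h4 : (2:ℝ≥0∞) ^ r ≠ 0 := by positivity
  have h5 : (2:ℝ≥0∞) ^ r ≠ ∞ := ENNReal.pow_ne_top (by simp)
  have h6 : (2:ℝ≥0∞) ^ r * ((∫⁻ x, hz K (gs d ((2:ℝ≥0) ^ (r + 1))⁻¹) (2 ^ (r + 1)) x) * c)
      ≤ 2 ^ r * (5 * volume K) := by
    calc _ = (∫⁻ x, hz K (gs d ((2:ℝ≥0) ^ (r + 1))⁻¹) (2 ^ (r + 1)) x) * (2 ^ r * c) := by ring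
      _ ≤ _ := h3
      _ ≤ 2 ^ r * (5 * volume K) := by
          rw [← mul_assoc]
          refine mul_le_mul_left ?_ _
          push_cast
          have h7 : (1:ℝ≥0∞) ≤ 2 ^ r := one_le_pow₀ (by norm_num)
          calc (2:ℝ≥0∞) ^ (r + 1) + 2 ^ (r + 1) + 1 = 4 * 2 ^ r + 1 := by rw [pow_succ]; ring
            _ ≤ 4 * 2 ^ r + 2 ^ r := add_le_add le_rfl h7
            _ = 2 ^ r * 5 := by ring
  exact (ENNReal.mul_le_mul_iff_right h4 h5).1 h6

end gauss

end Pool.Agent.Lib.MP_fd77c3_pr
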