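import Pool.Agent.Lib.MP_fd77c3_pr.OneBody

/-!
Gaussian convolution semigroup on `Fin d → ℝ`.
-/

open MeasureTheory Set Filter Topology ProbabilityTheory
open scoped ENNReal NNReal

set_option linter.unusedSectionVars false
set_option linter.unusedTactic false
set_option linter.unusedSimpArgs false

namespace Pool.Agent.Lib.MP_fd77c3_pr

lemma pi_mono_fin {α : Type*} [MeasurableSpace α] : ∀ (n : ℕ) (μ ν : Fin n → Measure α)
    [∀ i, SigmaFinite (μ i)] [∀ i, SigmaFinite (ν i)], (∀ i, μ i ≤ ν i) →
    Measure.pi μ ≤ Measure.pi ν := by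
  intro n
  induction n with
  | zero =>
    intro μ ν _ _ _
    rw [Measure.pi_of_empty, Measure.pi_of_empty]
  | succ n ih =>
    intro μ ν _ _ h
    have h1 := measurePreserving_piFinSuccAbove μ 0
    have h2 := measurePreserving_piFinSuccAbove ν 0
    have h3 := h1.symm
    have h4 := h2.symm
    rw [← h3.map_eq, ← h4.map_eq]
    refine Measure.map_mono ?_ (MeasurableEquiv.measurable _)
    exact Measure.prod_mono (h 0) (ih _ _ fun i => h _)

lemma pi_smul_const {α : Type*} [MeasurableSpace α] (d : ℕ) (μ : Measure α)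
    [SigmaFinite μ] (c : ℝ≥0) :
    Measure.pi (fun _ : Fin d => (c : ℝ≥0∞) • μ) = ((c : ℝ≥0∞) ^ d) • Measure.pi (fun _ : Fin d => μ) := by
  have : SigmaFinite ((c : ℝ≥0∞) • μ) := by
    have : ((c : ℝ≥0∞) • μ) = c • μ := rfl
    rw [this]; infer_instance
  refine (Measure.pi_eq fun s hs => ?_)
  rw [Measure.smul_apply, Measure.pi_pi]
  simp [Finset.prod_mul_distrib]

lemma pi_conv {M : Type*} [AddCommGroup M] [MeasurableSpace M] [MeasurableAdd₂ M] (d : ℕ)
    (μ ν : Measure M) [IsProbabilityMeasure μ] [IsProbabilityMeasure ν] :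
    Measure.pi (fun _ : Fin d => μ) ∗ Measure.pi (fun _ : Fin d => ν)
      = Measure.pi (fun _ : Fin d => μ ∗ ν) := by
  have h1 := measurePreserving_arrowProdEquivProdArrow M M (Fin d) (fun _ => μ) (fun _ => ν)
  unfold Measure.conv
  rw [← h1.map_eq, Measure.map_map (by fun_prop) (MeasurableEquiv.measurable _)]
  have h2 := Measure.pi_map_pi (μ := fun _ : Fin d => μ.prod ν)
    (f := fun _ : Fin d => fun x : M × M => x.1 + x.2)
    (hμ := fun _ => by
      have : IsProbabilityMeasure ((μ.prod ν).map fun x : M × M => x.1 + x.2) :=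
        Measure.isProbabilityMeasure_map (by fun_prop)
      infer_instance)
    (fun _ => by fun_prop)
  rw [← h2]
  rfl

/-- Centered Gaussian on `Fin d → ℝ` with covariance `s • 1`. -/
noncomputable def gs (d : ℕ) (s : ℝ≥0) : Measure (Fin d → ℝ) :=
  Measure.pi (fun _ : Fin d => gaussianReal 0 s)

instance gs_prob (d : ℕ) (s : ℝ≥0) : IsProbabilityMeasure (gs d s) := by
  unfold gs; infer_instance

lemma gs_semi (d : ℕ) : Semi (gs d) where
  prob := fun s => inferInstance
  symm := fun s => by
    unfold Symm gs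
    have h2 := Measure.pi_map_pi (μ := fun _ : Fin d => gaussianReal 0 s)
      (f := fun _ : Fin d => fun x : ℝ => -x)
      (hμ := fun _ => by rw [gaussianReal_map_neg]; infer_instance)
      (fun _ => by fun_prop)
    have h3 : (fun x : Fin d → ℝ => -x) = fun x i => -(x i) := rfl
    rw [h3, h2]
    simp only [gaussianReal_map_neg, neg_zero]
  zero := by
    unfold gs
    refine Measure.pi_eq fun s hs => ?_
    simp only [gaussianReal_zero_var]
    rw [Measure.dirac_apply' _ (MeasurableSet.univ_pi hs)]
    simp only [Measure.dirac_apply' _ (hs _)]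
    by_cases h : (0 : Fin d → ℝ) ∈ univ.pi s
    · rw [indicator_of_mem h]
      rw [mem_univ_pi] at h
      have : ∀ i, (s i).indicator (1 : ℝ → ℝ≥0∞) 0 = 1 := fun i => indicator_of_mem (h i) _
      simp [this]
    · rw [indicator_of_notMem h]
      rw [mem_univ_pi] at h
      push Not at h
      obtain ⟨i, hi⟩ := h
      symm
      apply Finset.prod_eq_zero (Finset.mem_univ i)
      exact indicator_of_notMem hi _
  conv := fun s t => by
    unfold gs
    rw [pi_conv, gaussianReal_conv_gaussianReal]
    simp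

/-- Image of a semigroup under a measurable homomorphism. -/
lemma Semi.map {H G : Type*} [AddCommGroup H] [MeasurableSpace H] [MeasurableAdd₂ H]
    [MeasurableNeg H] [AddCommGroup G] [MeasurableSpace G] [MeasurableAdd₂ G] [MeasurableNeg G]
    {p : ℝ≥0 → Measure H} (hp : Semi p) (φ : H →+ G) (hφ : Measurable φ) :
    Semi (fun s => (p s).map φ) where
  prob := fun s => by
    have := hp.prob s
    exact Measure.isProbabilityMeasure_map hφ.aemeasurable
  symm := fun s => by
    unfold Symm
    rw [Measure.map_map measurable_neg hφ]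
    have : (fun x : G => -x) ∘ φ = φ ∘ fun x => -x := by funext x; simp
    rw [this, ← Measure.map_map hφ measurable_neg]
    have := hp.symm s
    unfold Symm at this
    rw [this]
  zero := by
    rw [hp.zero, Measure.map_dirac' hφ, map_zero]
  conv := fun s t => by
    have := hp.prob s
    have := hp.prob t
    rw [hp.conv]
    exact Measure.map_conv_addMonoidHom φ hφ

/-- One dimensional Gaussian density bound. -/
lemma gaussianReal_le (s : ℝ≥0) (hs : s ≠ 0) :
    gaussianReal 0 s ≤ ENNReal.ofReal (√(2 * Real.pi * s))⁻¹ • (volume : Measure ℝ) := by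
  intro A
  rw [gaussianReal_apply _ hs, Measure.smul_apply, smul_eq_mul]
  calc ∫⁻ x in A, gaussianPDF 0 s x ≤ ∫⁻ _ in A, ENNReal.ofReal (√(2 * Real.pi * s))⁻¹ := by
        refine lintegral_mono fun x => ?_
        unfold gaussianPDF gaussianPDFReal
        apply ENNReal.ofReal_le_ofReal
        have : Real.exp (-(x - 0) ^ 2 / (2 * s)) ≤ 1 := by
          rw [Real.exp_le_one_iff]
          apply div_nonpos_of_nonpos_of_nonneg
          · nlinarith [sq_nonneg (x - 0)]
          · positivity
        exact mul_le_of_le_one_right (by positivity) this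
    _ = _ := by simp

/-- `d`-dimensional Gaussian density bound. -/
lemma gs_le (d : ℕ) (s : ℝ≥0) (hs : s ≠ 0) :
    gs d s ≤ (ENNReal.ofReal (√(2 * Real.pi * s))⁻¹) ^ d • (volume : Measure (Fin d → ℝ)) := by
  have h := pi_smul_const d (volume : Measure ℝ) (Real.toNNReal (√(2 * Real.pi * s))⁻¹)
  have h' : ((Real.toNNReal (√(2 * Real.pi * s))⁻¹ : ℝ≥0) : ℝ≥0∞)
      = ENNReal.ofReal (√(2 * Real.pi * s))⁻¹ := rfl
  rw [h'] at h
  have : SigmaFinite (ENNReal.ofReal (√(2 * Real.pi * s))⁻¹ • (volume : Measure ℝ)) := by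
    rw [← h']
    have : (((Real.toNNReal (√(2 * Real.pi * s))⁻¹ : ℝ≥0) : ℝ≥0∞) • (volume : Measure ℝ))
      = (Real.toNNReal (√(2 * Real.pi * s))⁻¹) • volume := rfl
    rw [this]; infer_instance
  rw [volume_pi, ← h]
  exact pi_mono_fin d _ _ fun i => gaussianReal_le s hs

end Pool.Agent.Lib.MP_fd77c3_pr
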