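import Pool.Agent.Lib.MP_fd77c3_pr.Gauss

/-!
Survival probabilities of a random walk relative to a moving target.
-/

open MeasureTheory Set Filter Topology ProbabilityTheory
open scoped ENNReal NNReal

set_option linter.unusedSectionVars false
set_option linter.unusedTactic false
set_option linter.unusedSimpArgs false

namespace Pool.Agent.Lib.MP_fd77c3_pr

variable {H : Type*} [AddCommGroup H] [MeasurableSpace H] [MeasurableAdd₂ H] [MeasurableNeg H]

/-- Probability that the walk started at `x`, with steps of law `γ` shifted by `-ξ j`, avoids `A`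
at the times `0, …, n`. -/
noncomputable def surv (A : Set H) (γ : Measure H) : (n : ℕ) → (Fin n → H) → H → ℝ
  | 0, _, x => 1 - ind A x
  | n + 1, ξ, x => (1 - ind A x) * ∫ y, surv A γ n (Fin.tail ξ) (x + (y + -ξ 0)) ∂γ

/-- The walk started at `x` with increments `ζ` avoids `A` at the times `0, …, n`. -/
def miss (A : Set H) : (n : ℕ) → (Fin n → H) → H → Prop
  | 0, _, x => x ∉ A
  | n + 1, ζ, x => x ∉ A ∧ miss A n (Fin.tail ζ) (x + ζ 0)

lemma surv_zero (A : Set H) (γ : Measure H) (ξ : Fin 0 → H) (x : H) :
    surv A γ 0 ξ x = 1 - ind A x := rfl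

lemma surv_succ (A : Set H) (γ : Measure H) (n : ℕ) (ξ : Fin (n + 1) → H) (x : H) :
    surv A γ (n + 1) ξ x
      = (1 - ind A x) * ∫ y, surv A γ n (Fin.tail ξ) (x + (y + -ξ 0)) ∂γ := rfl

lemma miss_iff (A : Set H) (n : ℕ) (ζ : Fin n → H) (x : H) :
    miss A n ζ x ↔ ∀ j ≤ n, x + ∑ i ∈ Finset.univ.filter (fun i : Fin n => (i : ℕ) < j), ζ i ∉ A := by
  induction n generalizing x with
  | zero =>
    unfold miss
    constructor
    · intro h j hj
      simpa using h
    · intro h
      simpa using h 0 le_rfl
  | succ n ih =>
    have hs : ∀ j : ℕ, ∑ i ∈ Finset.univ.filter (fun i : Fin (n + 1) => (i : ℕ) < j + 1), ζ i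
        = ζ 0 + ∑ i ∈ Finset.univ.filter (fun i : Fin n => (i : ℕ) < j), Fin.tail ζ i := by
      intro j
      rw [Finset.sum_filter, Finset.sum_filter, Fin.sum_univ_succ]
      simp [Fin.tail]
    unfold miss
    rw [ih]
    constructor
    · rintro ⟨h0, h⟩ j hj
      rcases j with _ | j
      · simpa using h0
      · rw [hs, ← add_assoc]; exact h j (by omega)
    · intro h
      refine ⟨by simpa using h 0 (by omega), fun j hj => ?_⟩
      have := h (j + 1) (by omega)
      rw [hs, ← add_assoc] at this; exact this

lemma measurableSet_miss {A : Set H} (hA : MeasurableSet A) (n : ℕ) :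
    MeasurableSet {p : (Fin n → H) × H | miss A n p.1 p.2} := by
  induction n with
  | zero => exact measurable_snd hA.compl
  | succ n ih =>
    have h1 : Measurable (fun p : (Fin (n + 1) → H) × H => (Fin.tail p.1, p.2 + p.1 0)) := by
      refine Measurable.prodMk ?_ ?_
      · exact measurable_pi_iff.2 fun i => (measurable_pi_apply (i.succ)).comp measurable_fst
      · exact measurable_snd.add ((measurable_pi_apply 0).comp measurable_fst)
    exact (measurable_snd hA.compl).inter (h1 ih)

variable {γ : Measure H} [IsProbabilityMeasure γ]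

lemma surv_eq {A : Set H} (hA : MeasurableSet A) (n : ℕ) (ξ : Fin n → H) (x : H) :
    surv A γ n ξ x
      = (Measure.pi fun _ : Fin n => γ).real {η | miss A n (fun i => η i + -ξ i) x} := by
  induction n generalizing x with
  | zero =>
    rw [surv_zero]
    by_cases hx : x ∈ A
    · rw [ind_of_mem hx]
      have : {η : Fin 0 → H | miss A 0 (fun i => η i + -ξ i) x} = ∅ := by
        ext η; simp [miss, hx]
      rw [this]; simp
    · rw [ind_of_not_mem hx]
      have : {η : Fin 0 → H | miss A 0 (fun i => η i + -ξ i) x} = univ := by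
        ext η; simp [miss, hx]
      rw [this]; simp
  | succ n ih =>
    rw [surv_succ]
    have hmeas : MeasurableSet {η : Fin (n + 1) → H | miss A (n + 1) (fun i => η i + -ξ i) x} := by
      have h1 : Measurable (fun η : Fin (n + 1) → H => ((fun i => η i + -ξ i), x)) :=
        (measurable_pi_iff.2 fun i => (measurable_pi_apply i).add_const _).prodMk measurable_const
      exact h1 (measurableSet_miss hA (n + 1))
    have hmp := measurePreserving_piFinSuccAbove (fun _ : Fin (n + 1) => γ) 0
    have hmp' := hmp.symm
    rw [Measure.real, ← hmp'.measure_preimage hmeas.nullMeasurableSet]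
    have hpre : (MeasurableEquiv.piFinSuccAbove (fun _ : Fin (n + 1) => H) 0).symm ⁻¹'
        {η : Fin (n + 1) → H | miss A (n + 1) (fun i => η i + -ξ i) x}
        = {p : H × (Fin n → H) | x ∉ A ∧
            miss A n (fun i => p.2 i + -Fin.tail ξ i) (x + (p.1 + -ξ 0))} := by
      ext p
      obtain ⟨y, η⟩ := p
      have e0 : (MeasurableEquiv.piFinSuccAbove (fun _ : Fin (n + 1) => H) 0).symm (y, η)
          = Fin.cons y η := by
        simp [MeasurableEquiv.piFinSuccAbove, Fin.insertNthEquiv]
      have e1 : (Fin.tail fun i => (Fin.cons y η : Fin (n + 1) → H) i + -ξ i)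
          = fun i => η i + -Fin.tail ξ i := by
        funext i; simp [Fin.tail]
      change (x ∉ A ∧ miss A n (Fin.tail fun i =>
        (MeasurableEquiv.piFinSuccAbove (fun _ : Fin (n + 1) => H) 0).symm (y, η) i + -ξ i)
        (x + ((MeasurableEquiv.piFinSuccAbove (fun _ : Fin (n + 1) => H) 0).symm (y, η) 0
          + -ξ 0))) ↔ _
      rw [e0, e1]
      simp
    rw [hpre]
    by_cases hx : x ∈ A
    · rw [ind_of_mem hx]
      simp [hx]
    · rw [ind_of_not_mem hx]
      simp only [hx, not_false_eq_true, true_and, sub_zero, one_mul]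
      have hm2 : MeasurableSet {p : H × (Fin n → H) |
          miss A n (fun i => p.2 i + -Fin.tail ξ i) (x + (p.1 + -ξ 0))} := by
        have h1 : Measurable (fun p : H × (Fin n → H) =>
            ((fun i => p.2 i + -Fin.tail ξ i), x + (p.1 + -ξ 0))) := by
          refine Measurable.prodMk ?_ ?_
          · exact measurable_pi_iff.2 fun i =>
              ((measurable_pi_apply i).comp measurable_snd).add_const _
          · exact (measurable_fst.add_const _).const_add _
        exact h1 (measurableSet_miss hA n)
      have hpi : (Measure.pi fun j : Fin n => γ)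
          = Measure.pi (fun j : Fin n => (fun _ : Fin (n + 1) => γ) (Fin.succAbove 0 j)) := rfl
      rw [← Measure.real, Measure.real, Measure.prod_apply hm2]
      rw [← integral_toReal]
      · refine integral_congr_ae (ae_of_all _ fun y => ?_)
        change surv A γ n (Fin.tail ξ) (x + (y + -ξ 0)) = _
        rw [ih]
        rfl
      · exact (measurable_measure_prodMk_left hm2).aemeasurable
      · exact ae_of_all _ fun y => measure_lt_top _ _

lemma surv_nonneg {A : Set H} (hA : MeasurableSet A) (n : ℕ) (ξ : Fin n → H) (x : H) :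
    0 ≤ surv A γ n ξ x := by
  rw [surv_eq hA]; exact measureReal_nonneg

lemma surv_le_one {A : Set H} (hA : MeasurableSet A) (n : ℕ) (ξ : Fin n → H) (x : H) :
    surv A γ n ξ x ≤ 1 := by
  rw [surv_eq hA]; exact measureReal_le_one

/-- Joint measurability. -/
lemma measurable_surv {A : Set H} (hA : MeasurableSet A) (n : ℕ) :
    Measurable (fun p : (Fin n → H) × H => surv A γ n p.1 p.2) := by
  have h : (fun p : (Fin n → H) × H => surv A γ n p.1 p.2)
      = fun p => (Measure.pi fun _ : Fin n => γ).real
        {η | miss A n (fun i => η i + -p.1 i) p.2} := by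
    funext p; exact surv_eq hA n p.1 p.2
  rw [h]
  have h1 : Measurable (fun q : ((Fin n → H) × H) × (Fin n → H) =>
      ((fun i => q.2 i + -q.1.1 i), q.1.2)) := by
    refine Measurable.prodMk ?_ ?_
    · exact measurable_pi_iff.2 fun i =>
        ((measurable_pi_apply i).comp measurable_snd).add
          ((measurable_pi_apply i).comp (measurable_fst.comp measurable_fst)).neg
    · exact measurable_snd.comp measurable_fst
  have h2 := h1 (measurableSet_miss hA n)
  exact (measurable_measure_prodMk_left h2).ennreal_toReal

lemma bdM_surv {A : Set H} (hA : MeasurableSet A) (n : ℕ) :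
    BdM (fun p : (Fin n → H) × H => surv A γ n p.1 p.2) :=
  ⟨measurable_surv hA n, 1, fun p => by
    rw [abs_of_nonneg (surv_nonneg hA _ _ _)]; exact surv_le_one hA _ _ _⟩

end Pool.Agent.Lib.MP_fd77c3_pr
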