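import Pool.Agent.Lib.MP_fd77c3_pr.Step
import Pool.Agent.Lib.MP_fd77c3_pr.Surv

/-!
Iteration of the contraction estimate.
-/

open MeasureTheory Set Filter Topology ProbabilityTheory
open scoped ENNReal NNReal

set_option linter.unusedSectionVars false
set_option linter.unusedTactic false
set_option linter.unusedSimpArgs false

namespace Pool.Agent.Lib.MP_fd77c3_pr

section one

variable {H : Type*} [AddCommGroup H] [MeasurableSpace H] [MeasurableAdd₂ H] [MeasurableNeg H]

lemma cv_integral {α : Type*} [MeasurableSpace α] (κ : Measure α) [IsProbabilityMeasure κ]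
    (ρ : Measure H) [IsProbabilityMeasure ρ] {Φ : α × H → ℝ} (hΦ : BdM Φ) (x : H) :
    cv ρ (fun x => ∫ ξ, Φ (ξ, x) ∂κ) x = ∫ ξ, cv ρ (fun x => Φ (ξ, x)) x ∂κ := by
  unfold cv
  have hF : BdM (fun p : H × α => Φ (p.2, x + p.1)) :=
    hΦ.comp (measurable_snd.prodMk (measurable_fst.const_add x))
  exact hF.swap ρ κ

lemma cvl_integral {l : List (Measure H)} (hl : Good l) {α : Type*} [MeasurableSpace α]
    (κ : Measure α) [IsProbabilityMeasure κ] {Φ : α × H → ℝ} (hΦ : BdM Φ) :
    cvl l (fun x => ∫ ξ, Φ (ξ, x) ∂κ) = fun x => ∫ ξ, cvl l (fun x => Φ (ξ, x)) x ∂κ := by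
  induction l generalizing Φ with
  | nil => rfl
  | cons ρ l ih =>
    have := hl.head.1
    change cvl l (cv ρ (fun x => ∫ ξ, Φ (ξ, x) ∂κ))
      = fun x => ∫ ξ, cvl l (cv ρ (fun x => Φ (ξ, x))) x ∂κ
    have h1 : cv ρ (fun x => ∫ ξ, Φ (ξ, x) ∂κ)
        = fun x => ∫ ξ, (fun q : α × H => cv ρ (fun x => Φ (q.1, x)) q.2) (ξ, x) ∂κ := by
      funext x; exact cv_integral κ ρ hΦ x
    rw [h1]
    refine ih hl.tail (Φ := fun q : α × H => cv ρ (fun x => Φ (q.1, x)) q.2) ?_
    have hF : BdM (fun p : (α × H) × H => Φ (p.1.1, p.1.2 + p.2)) :=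
      hΦ.comp ((measurable_fst.comp measurable_fst).prodMk
        ((measurable_snd.comp measurable_fst).add measurable_snd))
    exact hF.integral_prod_right ρ

end one

section prod

variable {G : Type*} [AddCommGroup G] [MeasurableSpace G] [MeasurableAdd₂ G] [MeasurableNeg G]
variable {N : ℕ} {ν : Measure G} [IsProbabilityMeasure ν]

lemma BdM.prodf {φ : Fin N → G → ℝ} (hφ : ∀ i, BdM (φ i)) :
    BdM (fun x : Fin N → G => ∏ i, φ i (x i)) := by
  classical
  have h : ∀ s : Finset (Fin N), BdM (fun x : Fin N → G => ∏ i ∈ s, φ i (x i)) := by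
    intro s
    induction s using Finset.induction_on with
    | empty => simpa using BdM.const 1
    | insert a s ha ih =>
      simp only [Finset.prod_insert ha]
      exact ((hφ a).comp (measurable_pi_apply a)).mul ih
  exact h Finset.univ

lemma cv_cm_prod {φ : Fin N → G → ℝ} (hφ : ∀ i, BdM (φ i)) (i : Fin N) :
    cv (cm ν i) (fun x => ∏ j, φ j (x j))
      = fun x => ∏ j, (if j = i then cv ν (φ j) else φ j) (x j) := by
  classical
  funext x
  rw [cv_cm (BdM.prodf hφ)]
  have h1 : ∀ z, ∏ j, φ j ((x + Pi.single i z : Fin N → G) j)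
      = φ i (x i + z) * ∏ j ∈ Finset.univ.erase i, φ j (x j) := by
    intro z
    rw [← Finset.mul_prod_erase Finset.univ _ (Finset.mem_univ i)]
    congr 1
    · simp
    · refine Finset.prod_congr rfl fun j hj => ?_
      have : j ≠ i := (Finset.mem_erase.1 hj).1
      simp [Pi.single_apply, this]
  simp only [h1]
  rw [integral_mul_const, ← Finset.mul_prod_erase Finset.univ _ (Finset.mem_univ i)]
  congr 1
  · simp [cv]
  · refine Finset.prod_congr rfl fun j hj => ?_
    have : j ≠ i := (Finset.mem_erase.1 hj).1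
    simp [this]

lemma cvl_map_prod (l : List (Fin N)) (hl : l.Nodup) {φ : Fin N → G → ℝ}
    (hφ : ∀ i, BdM (φ i)) :
    cvl (l.map fun i => cm ν i) (fun x => ∏ j, φ j (x j))
      = fun x => ∏ j, (if j ∈ l then cv ν (φ j) else φ j) (x j) := by
  classical
  induction l generalizing φ with
  | nil => simp [cvl]
  | cons i l ih =>
    rw [List.map_cons]
    change cvl (l.map fun i => cm ν i) (cv (cm ν i) (fun x => ∏ j, φ j (x j))) = _
    rw [cv_cm_prod hφ]
    have hφ' : ∀ j, BdM (if j = i then cv ν (φ j) else φ j) := by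
      intro j
      split_ifs
      · exact (hφ j).cv
      · exact hφ j
    rw [ih (List.nodup_cons.1 hl).2 hφ']
    funext x
    refine Finset.prod_congr rfl fun j _ => ?_
    by_cases hj : j = i
    · subst hj
      simp [(List.nodup_cons.1 hl).1]
    · simp [hj]

lemma cvl_ofFn_prod {φ : G → ℝ} (hφ : BdM φ) :
    cvl (List.ofFn (fun i : Fin N => cm ν i)) (fun x => ∏ j, φ (x j))
      = fun x => ∏ j, cv ν φ (x j) := by
  have h1 : List.ofFn (fun i : Fin N => cm ν i) = (List.finRange N).map (fun i => cm ν i) := by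
    rw [List.ofFn_eq_map]
  rw [h1, cvl_map_prod _ (List.nodup_finRange N) (φ := fun _ => φ) (fun _ => hφ)]
  simp

/-- Expected survival function of `N` traps. -/
noncomputable def Fn (N : ℕ) (A : Set G) (ν : Measure G) (n : ℕ) (x : Fin N → G) : ℝ :=
  ∫ ξ, ∏ i, surv A ν n ξ (x i) ∂(Measure.pi fun _ : Fin n => ν)

lemma bdM_prod_surv {A : Set G} (hA : MeasurableSet A) (n : ℕ) :
    BdM (fun p : (Fin n → G) × (Fin N → G) => ∏ i, surv A ν n p.1 (p.2 i)) := by
  classical
  have h : ∀ s : Finset (Fin N),
      BdM (fun p : (Fin n → G) × (Fin N → G) => ∏ i ∈ s, surv A ν n p.1 (p.2 i)) := by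
    intro s
    induction s using Finset.induction_on with
    | empty => simpa using BdM.const 1
    | insert a s ha ih =>
      simp only [Finset.prod_insert ha]
      exact ((bdM_surv hA n).comp
        (measurable_fst.prodMk ((measurable_pi_apply a).comp measurable_snd))).mul ih
  exact h Finset.univ

lemma bdM_Fn {A : Set G} (hA : MeasurableSet A) (n : ℕ) : BdM (Fn N A ν n) :=
  (bdM_prod_surv hA n).integral_prod_left _

lemma bdM_surv_right {A : Set G} (hA : MeasurableSet A) (n : ℕ) (ξ : Fin n → G) :
    BdM (surv A ν n ξ) := (bdM_surv hA n).comp (measurable_const.prodMk measurable_id)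

lemma Fn_zero (A : Set G) (x : Fin N → G) : Fn N A ν 0 x = ∏ i, (1 - ind A (x i)) := by
  unfold Fn
  simp [surv_zero]

lemma Fn_succ (hν : Symm ν) {A : Set G} (hA : MeasurableSet A) (n : ℕ) (x : Fin N → G) :
    Fn N A ν (n + 1) x = (∏ i, (1 - ind A (x i))) * cvl (stepL N ν) (Fn N A ν n) x := by
  -- right-hand side
  have hgood : Good (List.ofFn (fun i : Fin N => cm ν i)) := (good_stepL (N := N) hν).tail
  have h1 : cvl (stepL N ν) (Fn N A ν n) x
      = ∫ z, ∫ ξ, ∏ i, cv ν (surv A ν n ξ) (x i + z) ∂(Measure.pi fun _ : Fin n => ν) ∂ν := by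
    change cvl (List.ofFn (fun i : Fin N => cm ν i)) (cv (dg N ν) (Fn N A ν n)) x = _
    rw [cvl_cv hgood (bdM_Fn hA n)]
    have h2 : cvl (List.ofFn (fun i : Fin N => cm ν i)) (Fn N A ν n)
        = fun x => ∫ ξ, ∏ i, cv ν (surv A ν n ξ) (x i) ∂(Measure.pi fun _ : Fin n => ν) := by
      have h3 := cvl_integral hgood (Measure.pi fun _ : Fin n => ν)
        (bdM_prod_surv (N := N) (ν := ν) hA n)
      refine h3.trans ?_
      funext x
      refine integral_congr_ae (ae_of_all _ fun ξ => ?_)
      change cvl (List.ofFn (fun i : Fin N => cm ν i)) (fun x => ∏ i, surv A ν n ξ (x i)) x = _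
      rw [cvl_ofFn_prod (bdM_surv_right hA n ξ)]
    have hB : BdM (cvl (List.ofFn (fun i : Fin N => cm ν i)) (Fn N A ν n)) :=
      (bdM_Fn hA n).cvl hgood
    rw [cv_dg hB, h2]
    rfl
  -- left-hand side
  have h4 : Fn N A ν (n + 1) x = (∏ i, (1 - ind A (x i)))
      * ∫ z, ∫ ξ, ∏ i, cv ν (surv A ν n ξ) (x i + -z) ∂(Measure.pi fun _ : Fin n => ν) ∂ν := by
    unfold Fn
    have hmp := measurePreserving_piFinSuccAbove (fun _ : Fin (n + 1) => ν) 0
    have hmp' := hmp.symm
    rw [← hmp'.integral_comp (MeasurableEquiv.measurableEmbedding _)]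
    have hpt : ∀ p : G × (Fin n → G),
        ∏ i, surv A ν (n + 1)
          ((MeasurableEquiv.piFinSuccAbove (fun _ : Fin (n + 1) => G) 0).symm p) (x i)
        = (∏ i, (1 - ind A (x i))) * ∏ i, cv ν (surv A ν n p.2) (x i + -p.1) := by
      intro p
      obtain ⟨y, η⟩ := p
      have e0 : (MeasurableEquiv.piFinSuccAbove (fun _ : Fin (n + 1) => G) 0).symm (y, η)
          = Fin.cons y η := by
        simp [MeasurableEquiv.piFinSuccAbove, Fin.insertNthEquiv]
      rw [e0, ← Finset.prod_mul_distrib]
      refine Finset.prod_congr rfl fun i _ => ?_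
      rw [surv_succ]
      congr 1
      unfold cv
      refine integral_congr_ae (ae_of_all _ fun z => ?_)
      change surv A ν n (Fin.tail (Fin.cons y η : Fin (n + 1) → G))
        (x i + (z + -(Fin.cons y η : Fin (n + 1) → G) 0)) = surv A ν n η (x i + -y + z)
      rw [Fin.tail_cons, Fin.cons_zero]
      congr 1
      abel
    simp only [hpt]
    rw [integral_const_mul]
    congr 1
    have hBd : BdM (fun p : G × (Fin n → G) => ∏ i, cv ν (surv A ν n p.2) (x i + -p.1)) := by
      classical
      have h : ∀ s : Finset (Fin N),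
          BdM (fun p : G × (Fin n → G) => ∏ i ∈ s, cv ν (surv A ν n p.2) (x i + -p.1)) := by
        intro s
        induction s using Finset.induction_on with
        | empty => simpa using BdM.const 1
        | insert a s ha ih =>
          simp only [Finset.prod_insert ha]
          refine BdM.mul ?_ ih
          have hF : BdM (fun q : (G × (Fin n → G)) × G =>
              surv A ν n q.1.2 (x a + -q.1.1 + q.2)) :=
            (bdM_surv hA n).comp ((measurable_snd.comp measurable_fst).prodMk
              (((measurable_fst.comp measurable_fst).neg.const_add _).add measurable_snd))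
          exact hF.integral_prod_right ν
      exact h Finset.univ
    exact integral_prod _ (hBd.integrable _)
  rw [h4, h1]
  congr 1
  -- symmetry
  have hS : BdM (fun z : G => ∫ ξ, ∏ i, cv ν (surv A ν n ξ) (x i + z)
      ∂(Measure.pi fun _ : Fin n => ν)) := by
    have hBd : BdM (fun p : G × (Fin n → G) => ∏ i, cv ν (surv A ν n p.2) (x i + p.1)) := by
      classical
      have h : ∀ s : Finset (Fin N),
          BdM (fun p : G × (Fin n → G) => ∏ i ∈ s, cv ν (surv A ν n p.2) (x i + p.1)) := by
        intro s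
        induction s using Finset.induction_on with
        | empty => simpa using BdM.const 1
        | insert a s ha ih =>
          simp only [Finset.prod_insert ha]
          refine BdM.mul ?_ ih
          have hF : BdM (fun q : (G × (Fin n → G)) × G =>
              surv A ν n q.1.2 (x a + q.1.1 + q.2)) :=
            (bdM_surv hA n).comp ((measurable_snd.comp measurable_fst).prodMk
              (((measurable_fst.comp measurable_fst).const_add _).add measurable_snd))
          exact hF.integral_prod_right ν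
      exact h Finset.univ
    exact hBd.integral_prod_right _
  have h5 := integral_map (μ := ν) (φ := fun x : G => -x) measurable_neg.aemeasurable
    (f := fun z : G => ∫ ξ, ∏ i, cv ν (surv A ν n ξ) (x i + z)
      ∂(Measure.pi fun _ : Fin n => ν)) hS.meas.aestronglyMeasurable
  unfold Symm at hν
  rw [hν] at h5
  exact h5.symm

end prod

end Pool.Agent.Lib.MP_fd77c3_pr
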