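import Pool.Agent.Lib.MP_fd77c3_pr.Iter

/-!
Iteration of the contraction estimate: norm bounds.
-/

open MeasureTheory Set Filter Topology ProbabilityTheory
open scoped ENNReal NNReal

set_option linter.unusedSectionVars false
set_option linter.unusedTactic false
set_option linter.unusedSimpArgs false

namespace Pool.Agent.Lib.MP_fd77c3_pr

variable {G : Type*} [AddCommGroup G] [MeasurableSpace G] [MeasurableAdd₂ G] [MeasurableNeg G]
variable {p : ℝ≥0 → Measure G}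
variable {m : Measure G} [IsProbabilityMeasure m] [m.IsAddRightInvariant]
variable {N : ℕ}
variable {μ : Measure (Fin N → G)} [IsProbabilityMeasure μ] [μ.IsAddRightInvariant]

lemma bop_bop (hp : Semi p) {f : (Fin N → G) → ℝ} (hf : BdM f) (δ : ℝ≥0) :
    bop N p δ (bop N p δ f) = cvl (stepL N (p δ)) f := by
  have := hp.prob (δ / 2)
  unfold bop
  have h := cvl_sq (good_stepL (N := N) (hp.symm (δ / 2))) hf
  rw [stepL_sq, half_conv hp] at h
  exact h.symm

lemma Fn_vanish {A : Set G} {ν : Measure G} [IsProbabilityMeasure ν] (hν : Symm ν)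
    (hA : MeasurableSet A) (n : ℕ) (x : Fin N → G) (hx : ∃ i, x i ∈ A) : Fn N A ν n x = 0 := by
  obtain ⟨i, hi⟩ := hx
  have h0 : ∏ i, (1 - ind A (x i)) = 0 :=
    Finset.prod_eq_zero (Finset.mem_univ i) (by rw [ind_of_mem hi]; ring)
  rcases n with _ | n
  · rw [Fn_zero, h0]
  · rw [Fn_succ hν hA, h0, zero_mul]

lemma Fn_norm (hp : Semi p) {A : Set G} (hA : MeasurableSet A) (δ : ℝ≥0) {ρ : ℝ} (hρ : 0 ≤ ρ)
    (H : ∀ f : (Fin N → G) → ℝ, BdM f → (∀ x : Fin N → G, (∃ i, x i ∈ A) → f x = 0) →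
      ∫ x, bop N p δ f x ^ 2 ∂μ ≤ ρ * ∫ x, f x ^ 2 ∂μ) (n : ℕ) :
    ∫ x, Fn N A (p δ) n x ^ 2 ∂μ ≤ (ρ ^ n) ^ 2 := by
  have hpδ := hp.prob δ
  have hsym := hp.symm δ
  induction n with
  | zero =>
    rw [pow_zero, one_pow]
    calc ∫ x, Fn N A (p δ) 0 x ^ 2 ∂μ ≤ ∫ _x, (1:ℝ) ∂μ := by
          refine integral_mono ((bdM_Fn hA 0).sq.integrable _) (integrable_const _) fun x => ?_
          change Fn N A (p δ) 0 x ^ 2 ≤ 1
          rw [Fn_zero]
          have h1 : 0 ≤ ∏ i, (1 - ind A (x i)) :=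
            Finset.prod_nonneg fun i _ => by linarith [ind_le_one A (x i)]
          have h2 : ∏ i, (1 - ind A (x i)) ≤ 1 :=
            Finset.prod_le_one (fun i _ => by linarith [ind_le_one A (x i)])
              fun i _ => by linarith [ind_nonneg A (x i)]
          exact pow_le_one₀ h1 h2
      _ = 1 := by simp
  | succ n ih =>
    set F := Fn N A (p δ) n with hF
    set ψ := Fn N A (p δ) (n + 1) with hψ
    have hFB : BdM F := bdM_Fn hA n
    have hψB : BdM ψ := bdM_Fn hA (n + 1)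
    have hψM : ∀ x, ψ x = (∏ i, (1 - ind A (x i))) * bop N p δ (bop N p δ F) x := by
      intro x
      rw [bop_bop hp hFB, hψ, Fn_succ hsym hA]
    have hψψ : ∀ x, ψ x * ψ x = ψ x * bop N p δ (bop N p δ F) x := by
      intro x
      by_cases hx : ∃ i, x i ∈ A
      · have : ψ x = 0 := Fn_vanish hsym hA (n + 1) x hx
        rw [this]; ring
      · push Not at hx
        have h1 : ∏ i, (1 - ind A (x i)) = 1 :=
          Finset.prod_eq_one fun i _ => by rw [ind_of_not_mem (hx i)]; ring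
        have h2 : ψ x = bop N p δ (bop N p δ F) x := by rw [hψM, h1, one_mul]
        rw [← h2]
    have hpδ2 := hp.prob (δ / 2)
    have hgood : Good (stepL N (p (δ / 2))) := good_stepL (hp.symm _)
    have h1 : ∫ x, ψ x ^ 2 ∂μ = ∫ x, bop N p δ ψ x * bop N p δ F x ∂μ := by
      have h2 : ∫ x, ψ x ^ 2 ∂μ = ∫ x, ψ x * bop N p δ (bop N p δ F) x ∂μ := by
        refine integral_congr_ae (ae_of_all _ fun x => ?_)
        change ψ x ^ 2 = ψ x * bop N p δ (bop N p δ F) x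
        rw [← hψψ x, sq]
      rw [h2]
      exact integral_mul_cvl hgood hψB (hFB.bop hp δ)
    have h3 := abs_integral_mul_le μ (hψB.bop hp δ) (hFB.bop hp δ)
    rw [← h1] at h3
    set a := ∫ x, ψ x ^ 2 ∂μ with ha
    set b := ∫ x, F x ^ 2 ∂μ with hb
    have ha0 : 0 ≤ a := integral_nonneg fun _ => sq_nonneg _
    have hb0 : 0 ≤ b := integral_nonneg fun _ => sq_nonneg _
    have h4 : √(∫ x, bop N p δ ψ x ^ 2 ∂μ) ≤ √(ρ * a) :=
      Real.sqrt_le_sqrt (H ψ hψB fun x hx => Fn_vanish hsym hA (n + 1) x hx)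
    have h5 : √(∫ x, bop N p δ F x ^ 2 ∂μ) ≤ √(ρ * b) :=
      Real.sqrt_le_sqrt (H F hFB fun x hx => Fn_vanish hsym hA n x hx)
    have h6 : a ≤ √(ρ * a) * √(ρ * b) := by
      rw [abs_of_nonneg ha0] at h3
      exact h3.trans (mul_le_mul h4 h5 (Real.sqrt_nonneg _) (Real.sqrt_nonneg _))
    have h7 : √(ρ * a) * √(ρ * b) = ρ * (√a * √b) := by
      rw [Real.sqrt_mul hρ, Real.sqrt_mul hρ]
      calc √ρ * √a * (√ρ * √b) = (√ρ * √ρ) * (√a * √b) := by ring
        _ = ρ * (√a * √b) := by rw [Real.mul_self_sqrt hρ]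
    rw [h7] at h6
    have h8 : √a ≤ ρ * √b := by
      rcases ha0.eq_or_lt with h | h
      · rw [← h, Real.sqrt_zero]; positivity
      · have h9 : 0 < √a := Real.sqrt_pos.2 h
        have h10 : √a * √a ≤ √a * (ρ * √b) := by
          rw [Real.mul_self_sqrt ha0]
          calc a ≤ ρ * (√a * √b) := h6
            _ = √a * (ρ * √b) := by ring
        exact le_of_mul_le_mul_left h10 h9
    have h11 : √b ≤ ρ ^ n := by
      rw [← Real.sqrt_sq (pow_nonneg hρ n)]
      exact Real.sqrt_le_sqrt ih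
    calc a = √a ^ 2 := (Real.sq_sqrt ha0).symm
      _ ≤ (ρ * ρ ^ n) ^ 2 := by
          apply pow_le_pow_left₀ (Real.sqrt_nonneg _)
          exact h8.trans (mul_le_mul_of_nonneg_left h11 hρ)
      _ = (ρ ^ (n + 1)) ^ 2 := by rw [pow_succ' ρ n]

lemma Fn_integral_le (hp : Semi p) {A : Set G} (hA : MeasurableSet A) (δ : ℝ≥0) {ρ : ℝ}
    (hρ : 0 ≤ ρ)
    (H : ∀ f : (Fin N → G) → ℝ, BdM f → (∀ x : Fin N → G, (∃ i, x i ∈ A) → f x = 0) →
      ∫ x, bop N p δ f x ^ 2 ∂μ ≤ ρ * ∫ x, f x ^ 2 ∂μ) (n : ℕ) :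
    ∫ x, Fn N A (p δ) n x ∂μ ≤ ρ ^ n := by
  have hpδ := hp.prob δ
  have h1 := Fn_norm hp hA δ hρ H n
  have h2 := sq_integral_le μ (bdM_Fn (N := N) (ν := p δ) hA n)
  have h3 : (∫ x, Fn N A (p δ) n x ∂μ) ^ 2 ≤ (ρ ^ n) ^ 2 := h2.trans h1
  exact abs_le_of_sq_le_sq' h3 (pow_nonneg hρ n) |>.2

/-- The integral of the expected survival function. -/
lemma Fn_integral_eq {A : Set G} {ν : Measure G} [IsProbabilityMeasure ν]
    (hA : MeasurableSet A) (n : ℕ) :
    ∫ x, Fn N A ν n x ∂(Measure.pi fun _ : Fin N => m)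
      = ∫ ξ, (∫ y, surv A ν n ξ y ∂m) ^ N ∂(Measure.pi fun _ : Fin n => ν) := by
  unfold Fn
  have h := (bdM_prod_surv (N := N) (ν := ν) hA n).swap (Measure.pi fun _ : Fin n => ν)
    (Measure.pi fun _ : Fin N => m)
  rw [← h]
  refine integral_congr_ae (ae_of_all _ fun ξ => ?_)
  change ∫ x, ∏ i, surv A ν n ξ (x i) ∂(Measure.pi fun _ : Fin N => m)
    = (∫ y, surv A ν n ξ y ∂m) ^ N
  rw [integral_fintype_prod_eq_pow]
  simp

end Pool.Agent.Lib.MP_fd77c3_pr
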