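import Pool.Agent.Lib.MP_fd77c3_pr.Annealed
import Pool.Agent.Lib.MP_fd77c3_pr.CoreBound
import Pool.Agent.Lib.MP_fd77c3_pr.Equilibrium

/-!
Assembly of the proof.
-/

open MeasureTheory Set Filter Topology ProbabilityTheory
open scoped ENNReal NNReal

namespace Pool.Agent.Lib.MP_fd77c3_pr

/-- Constants extracted from the Wiener sausage. -/
lemma charge_of_sausage {d : ℕ} (hd : 3 ≤ d) {a : ℝ} (ha : 0 < a)
    {Ω : Type*} [MeasurableSpace Ω] {P : Measure Ω} [IsProbabilityMeasure P]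
    {B : ℝ≥0 → Ω → Eu d} (hB : IsBM P B) {κ : ℝ≥0}
    (hκ : Tendsto (fun t : ℝ≥0 =>
      (∫⁻ ω, volume (⋃ s ∈ Set.Iic t, Metric.ball (B s ω) a) ∂P) / t) atTop (𝓝 (κ : ℝ≥0∞)))
    {ε : ℝ} (hε : 0 < ε) :
    ∃ (r : ℕ) (e : (Fin d → ℝ) → ℝ), BdM e ∧ (∀ x, 0 ≤ e x) ∧
      (∀ x, x ∉ bl d a → e x = 0) ∧ κ - ε ≤ ∫ x, e x ∧ ∫ x, e x ≤ κ ∧
      ∀ J : ℕ, ∑ j ∈ Finset.range J, ∫ x, e x * cv (gs d ((j:ℝ≥0) * ((2:ℝ≥0) ^ r)⁻¹)) e x
        ≤ 2 ^ r * ∫ x, e x := by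
  set W : ℝ≥0 → ℝ≥0∞ := fun t => ∫⁻ ω, volume (⋃ s ∈ Set.Iic t, Metric.ball (B s ω) a) ∂P with hW
  have hmono : Monotone W := by
    intro s t hst
    refine lintegral_mono fun ω => measure_mono ?_
    exact biUnion_subset_biUnion_left (Iic_subset_Iic.2 hst)
  have hκN : Tendsto (fun t : ℕ => W t / (t : ℝ≥0∞)) atTop (𝓝 (κ : ℝ≥0∞)) := by
    have h1 := hκ.comp (tendsto_natCast_atTop_atTop (R := ℝ≥0))
    refine h1.congr fun t => ?_
    simp [hW]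
  have hfin : ∀ t : ℕ, W t < ∞ := by
    have h1 : ∀ᶠ t : ℕ in atTop, W t / (t : ℝ≥0∞) < κ + 1 :=
      hκN.eventually (gt_mem_nhds (by
        rw [← ENNReal.coe_one, ← ENNReal.coe_add, ENNReal.coe_lt_coe]
        exact lt_add_one κ))
    intro t
    obtain ⟨s, hs, hst, hs1⟩ := (h1.and ((eventually_ge_atTop t).and
      (eventually_ge_atTop 1))).exists
    have h2 : W s < ∞ := by
      by_contra h
      rw [not_lt, top_le_iff] at h
      rw [h, ENNReal.top_div_of_ne_top (ENNReal.natCast_ne_top s)] at hs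
      exact absurd hs (by simp)
    exact (hmono (by exact_mod_cast hst)).trans_lt h2
  set w : ℕ → ℝ := fun t => (W t).toReal with hw
  have hK := measurableSet_bl d a
  have hvK : volume (bl d a) < ∞ := volume_bl_lt_top ha
  have hd1 : 1 ≤ d := by omega
  have hwκ : Tendsto (fun t : ℕ => w t / t) atTop (𝓝 (κ : ℝ)) := by
    have h1 := (ENNReal.tendsto_toReal (ENNReal.coe_ne_top (r := κ))).comp hκN
    refine h1.congr fun t => ?_
    simp [hw]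
  refine equilibrium hd hK hvK w hwκ ?_ ?_ ε hε
  · intro t r
    have h1 := sausage_le hd1 hB ha t r
    exact (ENNReal.ofReal_le_iff_le_toReal (hfin t).ne).1 h1
  · intro t ε hε
    have h1 := sausage_tendsto hd1 hB ha t
    have h2 := (ENNReal.tendsto_toReal (hfin t).ne).comp h1
    have h3 : ∀ᶠ r : ℕ in atTop, w t - ε < (ENNReal.ofReal
        (∫ x, (1 - surv (bl d a) (gs d ((2:ℝ≥0) ^ r)⁻¹) (t * 2 ^ r) 0 x))).toReal :=
      h2.eventually (lt_mem_nhds (by linarith))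
    obtain ⟨r0, hr0⟩ := eventually_atTop.1 h3
    refine ⟨r0, fun r hr => ?_⟩
    have h4 := hr0 r hr
    have h5 : 0 ≤ ∫ x, (1 - surv (bl d a) (gs d ((2:ℝ≥0) ^ r)⁻¹) (t * 2 ^ r) 0 x) :=
      integral_nonneg fun x => by
        simp only [Pi.zero_apply]
        linarith [surv_le_one (γ := gs d ((2:ℝ≥0) ^ r)⁻¹) hK (t * 2 ^ r) 0 x]
    rw [ENNReal.toReal_ofReal h5] at h4
    exact h4.le

theorem main_bound {d : ℕ} (hd : 3 ≤ d) {lam a : ℝ} (hlam : 0 < lam) (ha : 0 < a)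
    {Ω : Type*} [MeasurableSpace Ω] {P : Measure Ω} [IsProbabilityMeasure P]
    {X : ℝ≥0 → Ω → Eu d} {x : ℕ → Ω → Eu d} {Y : ℕ → ℝ≥0 → Ω → Eu d}
    (h : IsTrapModel P lam X x Y)
    {Ω' : Type*} [MeasurableSpace Ω'] {P' : Measure Ω'} [IsProbabilityMeasure P']
    {B : ℝ≥0 → Ω' → Eu d} (hB : IsBM P' B) {κ : ℝ≥0}
    (hκ : Tendsto (fun t : ℝ≥0 =>
      (∫⁻ ω, volume (⋃ s ∈ Set.Iic t, Metric.ball (B s ω) a) ∂P') / t) atTop (𝓝 (κ : ℝ≥0∞))) :
    ∃ c : ℝ, 0 < c ∧ ∀ᶠ t : ℝ≥0 in atTop, P {ω | (t : ℝ≥0∞) < hitTime a X x Y ω}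
        ≤ ENNReal.ofReal (Real.exp (-((lam * κ + c) * t))) := by
  have hK := measurableSet_bl d a
  have hKa := bl_subset_cube (d := d) ha
  obtain ⟨c, hc, Hc⟩ := core_bound hd hlam ha κ.coe_nonneg hK hKa (volume_bl_pos ha)
  obtain ⟨r, e, he, he0, heK, hlow, hup, hen⟩ :=
    charge_of_sausage hd ha hB hκ (ε := c / (4 * lam)) (by positivity)
  have hq' : 0 < 2 ^ r := by positivity
  obtain ⟨q, hq, Hq⟩ := Hc e he he0 heK hup (2 ^ r) hq' (fun J => by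
    have := hen J
    push_cast
    exact this)
  have hqR : (0:ℝ) < q := by exact_mod_cast hq
  refine ⟨c / 2, by positivity, ?_⟩
  have hrate : lam * κ + 3 * c / 4 ≤ lam * (∫ x, e x) + c := by
    have h1 : lam * (κ - c / (4 * lam)) ≤ lam * ∫ x, e x :=
      mul_le_mul_of_nonneg_left hlow hlam.le
    have h2 : lam * (κ - c / (4 * lam)) = lam * κ - c / 4 := by
      field_simp
    linarith
  obtain ⟨t0, ht0⟩ : ∃ t0 : ℝ≥0, (lam * κ + 3 * c / 4) / q ≤ c / 4 * t0 := by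
    refine ⟨Real.toNNReal ((lam * κ + 3 * c / 4) / q * (4 / c)), ?_⟩
    rw [Real.coe_toNNReal _ (by positivity)]
    apply le_of_eq
    field_simp
  filter_upwards [eventually_ge_atTop t0] with t ht
  set n := ⌊(t:ℝ) * q⌋₊ with hn
  have hn1 : (n:ℝ) ≤ t * q := Nat.floor_le (by positivity)
  have hn2 : (t:ℝ) * q - 1 ≤ n := by
    have := Nat.lt_floor_add_one ((t:ℝ) * q); linarith
  have hnq1 : (n:ℝ) / q ≤ t := by rw [div_le_iff₀ hqR]; exact hn1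
  have hnq2 : (t:ℝ) - 1 / q ≤ n / q := by
    rw [le_div_iff₀ hqR, sub_mul, one_div_mul_cancel hqR.ne']; exact hn2
  have hsub : {ω | (t : ℝ≥0∞) < hitTime a X x Y ω} ⊆
      {ω | ∀ j ≤ n, ∀ i, X (j * (q:ℝ≥0)⁻¹) ω
        ∉ Metric.closedBall (x i ω + Y i (j * (q:ℝ≥0)⁻¹) ω) a} := by
    intro ω hω j hj i hmem
    have h1 : hitTime a X x Y ω ≤ ((j * (q:ℝ≥0)⁻¹ : ℝ≥0) : ℝ≥0∞) :=
      iInf₂_le (j * (q:ℝ≥0)⁻¹) ⟨i, hmem⟩
    have h2 : (j * (q:ℝ≥0)⁻¹ : ℝ≥0) ≤ t := by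
      rw [← NNReal.coe_le_coe]
      push_cast
      rw [← div_eq_mul_inv]
      refine le_trans ?_ hnq1
      gcongr
    have h3 : ((j * (q:ℝ≥0)⁻¹ : ℝ≥0) : ℝ≥0∞) ≤ (t : ℝ≥0∞) := ENNReal.coe_le_coe.2 h2
    exact absurd (lt_of_lt_of_le hω (h1.trans h3)) (lt_irrefl _)
  refine (measure_mono hsub).trans ?_
  refine (annealed_le hlam ha h ((q:ℝ≥0)⁻¹) n).trans ?_
  apply ENNReal.ofReal_le_ofReal
  refine (Hq n).trans ?_
  apply Real.exp_le_exp.2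
  have h1 : (lam * κ + 3 * c / 4) * (t - 1 / q) ≤ (lam * (∫ x, e x) + c) * (n / q) := by
    have h2 : (lam * κ + 3 * c / 4) * (t - 1 / q) ≤ (lam * κ + 3 * c / 4) * (n / q) :=
      mul_le_mul_of_nonneg_left hnq2 (by positivity)
    have h3 : (lam * κ + 3 * c / 4) * (n / q) ≤ (lam * (∫ x, e x) + c) * (n / q) :=
      mul_le_mul_of_nonneg_right hrate (by positivity)
    linarith
  have h4 : (lam * κ + 3 * c / 4) * (t - 1 / q)
      = (lam * κ + c / 2) * t + c / 4 * t - (lam * κ + 3 * c / 4) / q := by ring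
  have h5 : c / 4 * t0 ≤ c / 4 * t := by
    apply mul_le_mul_of_nonneg_left _ (by positivity)
    exact_mod_cast ht
  linarith

lemma limit_of_bound {p : ℝ≥0 → ℝ≥0∞} {v c : ℝ} (hc : 0 < c)
    (hp : ∀ᶠ t : ℝ≥0 in atTop, p t ≤ ENNReal.ofReal (Real.exp (-((v + c) * t)))) (ℓ : EReal)
    (hℓ : Tendsto (fun t : ℝ≥0 => -(ENNReal.log (p t)) / ((t : ℝ) : EReal)) atTop (𝓝 ℓ)) :
    ((v : ℝ) : EReal) < ℓ := by
  have h1 : ((v + c : ℝ) : EReal) ≤ ℓ := by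
    refine ge_of_tendsto hℓ ?_
    filter_upwards [hp, eventually_gt_atTop 0] with t ht ht0
    have htR : (0:ℝ) < t := by exact_mod_cast ht0
    have h2 : ENNReal.log (p t) ≤ ((-((v + c) * t) : ℝ) : EReal) := by
      refine (ENNReal.log_monotone ht).trans (le_of_eq ?_)
      rw [ENNReal.log_ofReal_of_pos (Real.exp_pos _), Real.log_exp]
    have h3 : (((v + c) * t : ℝ) : EReal) ≤ -(ENNReal.log (p t)) := by
      rw [EReal.le_neg]
      refine h2.trans (le_of_eq ?_)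
      rw [← EReal.coe_neg]
    have h4 : (((v + c : ℝ)) : EReal) = (((v + c) * t : ℝ) : EReal) / ((t : ℝ) : EReal) := by
      rw [← EReal.coe_div, mul_div_cancel_right₀ _ htR.ne']
    rw [h4]
    exact EReal.div_le_div_right_of_nonneg (by exact_mod_cast htR.le) h3
  refine lt_of_lt_of_le ?_ h1
  exact_mod_cast (by linarith : v < v + c)

end Pool.Agent.Lib.MP_fd77c3_pr
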