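import Mathlib

/-!
The model: Brownian motion among moving traps.
-/

open MeasureTheory ProbabilityTheory Filter Topology
open scoped ENNReal NNReal

namespace Pool.Agent.Lib.MP_fd77c3_pr

/-- Euclidean space. -/
abbrev Eu (d : ℕ) := EuclideanSpace ℝ (Fin d)

/-- `B` is a standard Brownian motion in `ℝ^d` started at `0`: its coordinates are independent
real Brownian motions with almost surely continuous paths. -/
structure IsBM {Ω : Type*} [MeasurableSpace Ω] (P : Measure Ω) {d : ℕ}
    (B : ℝ≥0 → Ω → Eu d) : Prop where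
  meas : ∀ t, Measurable (B t)
  coord : ∀ i : Fin d, IsBrownianReal (fun t ω => B t ω i) P
  indep : iIndepFun (fun (i : Fin d) (ω : Ω) (t : ℝ≥0) => B t ω i) P

/-- `x` lists the points of a Poisson point process of intensity `lam` (times Lebesgue measure):
the numbers of points in finitely many disjoint sets of finite volume are independent Poisson
variables with mean `lam` times the volume. -/
structure IsPoissonPts {Ω : Type*} [MeasurableSpace Ω] (P : Measure Ω) {d : ℕ} (lam : ℝ)
    (x : ℕ → Ω → Eu d) : Prop where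
  meas : ∀ i, Measurable (x i)
  law : ∀ (k : ℕ) (A : Fin k → Set (Eu d)) (n : Fin k → ℕ), (∀ j, MeasurableSet (A j)) →
    (∀ j, volume (A j) < ∞) → Pairwise (fun i j => Disjoint (A i) (A j)) →
    P {ω | ∀ j, {i : ℕ | x i ω ∈ A j}.encard = n j}
      = ∏ j, ENNReal.ofReal (Real.exp (-(lam * volume.real (A j)))
          * (lam * volume.real (A j)) ^ n j / (n j).factorial)

/-- The particle `X`, the initial positions `x i` of the traps and their displacements `Y i`. -/
structure IsTrapModel {Ω : Type*} [MeasurableSpace Ω] (P : Measure Ω) {d : ℕ} (lam : ℝ)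
    (X : ℝ≥0 → Ω → Eu d) (x : ℕ → Ω → Eu d) (Y : ℕ → ℝ≥0 → Ω → Eu d) : Prop where
  particle : IsBM P X
  points : IsPoissonPts P lam x
  traps : ∀ i, IsBM P (Y i)
  indep_traps : iIndepFun (fun (i : ℕ) (ω : Ω) (t : ℝ≥0) => Y i t ω) P
  indep_points : IndepFun (fun ω i => x i ω) (fun ω i t => Y i t ω) P
  indep_particle : IndepFun (fun ω t => X t ω) (fun ω => (fun i => x i ω, fun i t => Y i t ω)) P

/-- The first time at which the particle is in a trap. -/
noncomputable def hitTime {Ω : Type*} {d : ℕ} (a : ℝ) (X : ℝ≥0 → Ω → Eu d) (x : ℕ → Ω → Eu d)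
    (Y : ℕ → ℝ≥0 → Ω → Eu d) (ω : Ω) : ℝ≥0∞ :=
  ⨅ (s : ℝ≥0) (_ : ∃ i, X s ω ∈ Metric.closedBall (x i ω + Y i s ω) a), (s : ℝ≥0∞)

end Pool.Agent.Lib.MP_fd77c3_pr
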