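import Pool.Agent.Lib.MP_fd77c3_pr.Conv

/-!
Several particles on a measurable abelian group `G`: coordinate-wise averaging operators.
-/

open MeasureTheory Set Filter Topology
open scoped ENNReal NNReal

set_option linter.unusedSectionVars false
set_option linter.unusedTactic false
set_option linter.unusedSimpArgs false

namespace Pool.Agent.Lib.MP_fd77c3_pr

section List

variable {H : Type*} [AddCommGroup H] [MeasurableSpace H] [MeasurableAdd₂ H] [MeasurableNeg H]
variable {μ : Measure H} [IsProbabilityMeasure μ] [μ.IsAddRightInvariant]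

/-- Successive averaging. -/
noncomputable def cvl : List (Measure H) → (H → ℝ) → (H → ℝ)
  | [], f => f
  | ρ :: l, f => cvl l (cv ρ f)

/-- All members are symmetric probability measures. -/
def Good (l : List (Measure H)) : Prop := ∀ ρ ∈ l, IsProbabilityMeasure ρ ∧ Symm ρ

lemma Good.tail {ρ : Measure H} {l : List (Measure H)} (h : Good (ρ :: l)) : Good l :=
  fun σ hσ => h σ (List.mem_cons_of_mem _ hσ)

lemma Good.head {ρ : Measure H} {l : List (Measure H)} (h : Good (ρ :: l)) :
    IsProbabilityMeasure ρ ∧ Symm ρ := h ρ List.mem_cons_self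

lemma BdM.cvl {l : List (Measure H)} (hl : Good l) {f : H → ℝ} (hf : BdM f) : BdM (cvl l f) := by
  induction l generalizing f with
  | nil => exact hf
  | cons ρ l ih =>
    have := hl.head.1
    exact ih hl.tail hf.cv

lemma cvl_cv {l : List (Measure H)} (hl : Good l) {f : H → ℝ} (hf : BdM f) (ρ : Measure H)
    [IsProbabilityMeasure ρ] : cvl l (cv ρ f) = cv ρ (cvl l f) := by
  induction l generalizing f with
  | nil => rfl
  | cons σ l ih =>
    have := hl.head.1
    change cvl l (cv σ (cv ρ f)) = cv ρ (cvl l (cv σ f))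
    rw [cv_comm hf, ih hl.tail hf.cv]

lemma integral_mul_cvl {l : List (Measure H)} (hl : Good l) {f g : H → ℝ} (hf : BdM f)
    (hg : BdM g) : ∫ x, f x * cvl l g x ∂μ = ∫ x, cvl l f x * g x ∂μ := by
  induction l generalizing f g with
  | nil => rfl
  | cons σ l ih =>
    have := hl.head.1
    change ∫ x, f x * cvl l (cv σ g) x ∂μ = ∫ x, cvl l (cv σ f) x * g x ∂μ
    rw [ih hl.tail hf hg.cv, integral_mul_cv (hf.cvl hl.tail) hg hl.head.2,
      cvl_cv hl.tail hf]

lemma sq_cvl_le {l : List (Measure H)} (hl : Good l) {f : H → ℝ} (hf : BdM f) :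
    ∫ x, cvl l f x ^ 2 ∂μ ≤ ∫ x, f x ^ 2 ∂μ := by
  induction l generalizing f with
  | nil => exact le_rfl
  | cons σ l ih =>
    have := hl.head.1
    exact (ih hl.tail hf.cv).trans (sq_cv_le hf)

lemma Dm_cvl_le {l : List (Measure H)} (hl : Good l) {f : H → ℝ} (hf : BdM f) (ν : Measure H)
    [IsProbabilityMeasure ν] : Dm μ ν (cvl l f) ≤ Dm μ ν f := by
  induction l generalizing f with
  | nil => exact le_rfl
  | cons σ l ih =>
    have := hl.head.1
    exact (ih hl.tail hf.cv).trans (Dm_cv_le hf)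

instance convProb (ρ σ : Measure H) [IsProbabilityMeasure ρ] [IsProbabilityMeasure σ] :
    IsProbabilityMeasure (ρ ∗ σ) := by
  unfold Measure.conv
  exact Measure.isProbabilityMeasure_map (by fun_prop)

/-- Telescoping lower bound. -/
lemma tele {l : List (Measure H)} (hl : Good l) {f : H → ℝ} (hf : BdM f) :
    (l.map (fun ρ => Dm μ (ρ ∗ ρ) (cvl l f))).sum ≤ ∫ x, f x ^ 2 ∂μ - ∫ x, cvl l f x ^ 2 ∂μ := by
  induction l generalizing f with
  | nil => simp [cvl]
  | cons σ l ih =>
    have := hl.head.1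
    have h1 := ih hl.tail hf.cv (f := cv σ f)
    have h2 : Dm μ (σ ∗ σ) (cvl (σ :: l) f) ≤ ∫ x, f x ^ 2 ∂μ - ∫ x, cv σ f x ^ 2 ∂μ := by
      rw [← Dm_conv_self hf hl.head.2]
      exact Dm_cvl_le hl hf _
    have h3 : cvl (σ :: l) f = cvl l (cv σ f) := rfl
    rw [List.map_cons, List.sum_cons]
    rw [h3] at h2 ⊢
    linarith

/-- Squares of averaging operators. -/
lemma cvl_sq {l : List (Measure H)} (hl : Good l) {f : H → ℝ} (hf : BdM f) :
    cvl (l.map fun ρ => ρ ∗ ρ) f = cvl l (cvl l f) := by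
  induction l generalizing f with
  | nil => rfl
  | cons σ l ih =>
    have := hl.head.1
    change cvl (l.map fun ρ => ρ ∗ ρ) (cv (σ ∗ σ) f) = cvl l (cv σ (cvl l (cv σ f)))
    rw [cv_conv hf, ih hl.tail hf.cv.cv, ← cvl_cv hl.tail hf.cv σ]

lemma symm_conv {ρ : Measure H} [IsProbabilityMeasure ρ] (hρ : Symm ρ) : Symm (ρ ∗ ρ) := by
  unfold Symm at *
  have h := Measure.map_conv_addMonoidHom (μ := ρ) (ν := ρ) (negAddMonoidHom : H →+ H)
    measurable_neg
  have h' : ((negAddMonoidHom : H →+ H) : H → H) = fun x => -x := rfl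
  rw [h'] at h
  rw [h, hρ]

lemma Good.sq {l : List (Measure H)} (hl : Good l) : Good (l.map fun ρ => ρ ∗ ρ) := by
  intro ρ hρ
  rw [List.mem_map] at hρ
  obtain ⟨σ, hσ, rfl⟩ := hρ
  have := (hl σ hσ).1
  exact ⟨inferInstance, symm_conv (hl σ hσ).2⟩

/-- `‖f - b f‖² ≤ ‖f‖² - ‖b f‖²` for `b = c²`. -/
lemma sub_sq_le {l : List (Measure H)} (hl : Good l) {f : H → ℝ} (hf : BdM f) :
    ∫ x, (f x - cvl (l.map fun ρ => ρ ∗ ρ) f x) ^ 2 ∂μ
      ≤ ∫ x, f x ^ 2 ∂μ - ∫ x, cvl (l.map fun ρ => ρ ∗ ρ) f x ^ 2 ∂μ := by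
  set b := cvl (l.map fun ρ => ρ ∗ ρ) f with hb
  have hbB : BdM b := hf.cvl hl.sq
  have h1 : ∫ x, (f x - b x) ^ 2 ∂μ
      = ∫ x, f x ^ 2 ∂μ - 2 * ∫ x, f x * b x ∂μ + ∫ x, b x ^ 2 ∂μ := by
    have e1 : (fun x => (f x - b x) ^ 2) = fun x => (f x ^ 2 - 2 * (f x * b x)) + b x ^ 2 := by
      funext x; ring
    rw [e1, integral_add, integral_sub, integral_const_mul]
    · exact hf.sq.integrable μ
    · exact ((hf.mul hbB).const_mul 2).integrable μ
    · exact (hf.sq.sub ((hf.mul hbB).const_mul 2)).integrable μ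
    · exact hbB.sq.integrable μ
  have h2 : ∫ x, f x * b x ∂μ = ∫ x, cvl l f x ^ 2 ∂μ := by
    rw [hb, cvl_sq hl hf, integral_mul_cvl hl hf (hf.cvl hl)]
    simp [pow_two]
  have h3 : ∫ x, b x ^ 2 ∂μ ≤ ∫ x, cvl l f x ^ 2 ∂μ := by
    rw [hb, cvl_sq hl hf]
    exact sq_cvl_le hl (hf.cvl hl)
  rw [h1, h2]
  linarith

end List

section Coord

variable {G : Type*} [AddCommGroup G] [MeasurableSpace G] [MeasurableAdd₂ G] [MeasurableNeg G]
variable {N : ℕ}

/-- The measure `ν` acting on coordinate `i`. -/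
noncomputable def cm (ν : Measure G) (i : Fin N) : Measure (Fin N → G) :=
  ν.map (fun z => Pi.single i z)

/-- The measure `ν` acting on all coordinates simultaneously. -/
noncomputable def dg (N : ℕ) (ν : Measure G) : Measure (Fin N → G) :=
  ν.map (fun z _ => z)

lemma measurable_single' (i : Fin N) : Measurable (fun z : G => (Pi.single i z : Fin N → G)) := by
  rw [measurable_pi_iff]
  intro j
  by_cases h : j = i
  · subst h
    simp only [Pi.single_eq_same]
    exact measurable_id
  · have : (fun z : G => (Pi.single i z : Fin N → G) j) = fun _ => 0 := by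
      funext z; simp [Pi.single_apply, h]
    rw [this]; exact measurable_const

lemma measurable_const' : Measurable (fun (z : G) (_ : Fin N) => z) := by
  rw [measurable_pi_iff]
  intro j
  exact measurable_id

instance cm_prob (ν : Measure G) [IsProbabilityMeasure ν] (i : Fin N) :
    IsProbabilityMeasure (cm ν i) := Measure.isProbabilityMeasure_map
      (measurable_single' i).aemeasurable

instance dg_prob (ν : Measure G) [IsProbabilityMeasure ν] :
    IsProbabilityMeasure (dg N ν) := Measure.isProbabilityMeasure_map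
      measurable_const'.aemeasurable

lemma cm_symm {ν : Measure G} (hν : Symm ν) (i : Fin N) : Symm (cm ν i) := by
  unfold Symm cm at *
  rw [Measure.map_map measurable_neg (measurable_single' i)]
  have : ((fun x : Fin N → G => -x) ∘ fun z => Pi.single i z)
      = (fun z => (Pi.single i z : Fin N → G)) ∘ fun z => -z := by
    funext z; simp [Pi.single_neg]
  rw [this, ← Measure.map_map (measurable_single' i) measurable_neg, hν]

lemma dg_symm {ν : Measure G} (hν : Symm ν) : Symm (dg N ν) := by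
  unfold Symm dg at *
  rw [Measure.map_map measurable_neg measurable_const']
  have : ((fun x : Fin N → G => -x) ∘ fun z _ => z)
      = (fun z => (fun _ => z : Fin N → G)) ∘ fun z => -z := by
    funext z j; simp
  rw [this, ← Measure.map_map measurable_const' measurable_neg, hν]

lemma cm_conv (ν ρ : Measure G) [IsProbabilityMeasure ν] [IsProbabilityMeasure ρ] (i : Fin N) :
    cm ν i ∗ cm ρ i = cm (ν ∗ ρ) i := by
  unfold cm
  have h := Measure.map_conv_addMonoidHom (μ := ν) (ν := ρ)
    (AddMonoidHom.single (fun _ : Fin N => G) i) (measurable_single' i)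
  exact h.symm

lemma dg_conv (ν ρ : Measure G) [IsProbabilityMeasure ν] [IsProbabilityMeasure ρ] :
    dg N ν ∗ dg N ρ = dg N (ν ∗ ρ) := by
  unfold dg
  let L : G →+ (Fin N → G) :=
    { toFun := fun z _ => z
      map_zero' := rfl
      map_add' := fun _ _ => rfl }
  have h := Measure.map_conv_addMonoidHom (μ := ν) (ν := ρ) L measurable_const'
  exact h.symm

lemma cv_cm {ν : Measure G} {f : (Fin N → G) → ℝ} (hf : BdM f) (i : Fin N) (x : Fin N → G) :
    cv (cm ν i) f x = ∫ z, f (x + Pi.single i z) ∂ν := by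
  unfold cv cm
  rw [integral_map (measurable_single' i).aemeasurable
    (hf.comp (measurable_const_add x)).meas.aestronglyMeasurable]

lemma cv_dg {ν : Measure G} {f : (Fin N → G) → ℝ} (hf : BdM f) (x : Fin N → G) :
    cv (dg N ν) f x = ∫ z, f (x + fun _ => z) ∂ν := by
  unfold cv dg
  rw [integral_map measurable_const'.aemeasurable
    (hf.comp (measurable_const_add x)).meas.aestronglyMeasurable]

/-- Invariance in coordinate `i`. -/
def Inv (i : Fin N) (F : (Fin N → G) → ℝ) : Prop := ∀ x z, F (x + Pi.single i z) = F x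

variable {m : Measure G} [IsProbabilityMeasure m] [m.IsAddRightInvariant]
variable {μ : Measure (Fin N → G)} [IsProbabilityMeasure μ] [μ.IsAddRightInvariant]
variable {ν : Measure G} [IsProbabilityMeasure ν]

lemma inv_cv {f : (Fin N → G) → ℝ} (hf : BdM f) (i : Fin N) : Inv i (cv (cm m i) f) := by
  intro x z
  rw [cv_cm hf, cv_cm hf]
  have : ∀ w : G, x + Pi.single i z + Pi.single i w = x + Pi.single i (w + z) := by
    intro w
    rw [Pi.single_add]; abel
  simp only [this]
  exact integral_shift (μ := m) (fun w => f (x + Pi.single i w)) z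

lemma Inv.mul {i : Fin N} {F F' : (Fin N → G) → ℝ} (h : Inv i F) (h' : Inv i F') :
    Inv i (fun x => F x * F' x) := fun x z => by simp only [h x z, h' x z]

lemma Inv.sq {i : Fin N} {F : (Fin N → G) → ℝ} (h : Inv i F) :
    Inv i (fun x => F x ^ 2) := fun x z => by simp only [h x z]

/-- `∫ F = ∫∫ F (x + single i y)`. -/
lemma integral_avg {F : (Fin N → G) → ℝ} (hF : BdM F) (i : Fin N) :
    ∫ x, ∫ y, F (x + Pi.single i y) ∂ν ∂μ = ∫ x, F x ∂μ := by
  rw [← integral_cv (ν := cm ν i) (μ := μ) hF]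
  simp only [cv_cm hF]

lemma single_apply_self' (x : Fin N → G) (i : Fin N) (y : G) :
    (x + (Pi.single i y : Fin N → G)) i = x i + y := by simp

lemma BdM.eval {h : G → ℝ} (hh : BdM h) (i : Fin N) : BdM (fun x : Fin N → G => h (x i)) :=
  hh.comp (measurable_pi_apply i)

/-- Product formula. -/
lemma integral_eval_mul {h : G → ℝ} (hh : BdM h) {F : (Fin N → G) → ℝ} (hF : BdM F) {i : Fin N}
    (hi : Inv i F) : ∫ x, h (x i) * F x ∂μ = (∫ y, h y ∂m) * ∫ x, F x ∂μ := by
  have h1 := integral_avg (ν := m) (μ := μ) ((hh.eval i).mul hF) i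
  rw [← h1]
  have h2 : ∀ x : Fin N → G, ∫ y, h ((x + (Pi.single i y : Fin N → G)) i) * F (x + Pi.single i y) ∂m
      = (∫ y, h y ∂m) * F x := by
    intro x
    have : ∀ y, h ((x + (Pi.single i y : Fin N → G)) i) * F (x + Pi.single i y) = h (y + x i) * F x := by
      intro y
      rw [hi, single_apply_self', add_comm]
    simp only [this]
    rw [integral_mul_const, integral_shift (μ := m) h (x i)]
  simp only [h2]
  rw [integral_const_mul]

/-- Averaging against an invariant function. -/
lemma integral_mul_inv {g F : (Fin N → G) → ℝ} (hg : BdM g) (hF : BdM F) {i : Fin N}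
    (hi : Inv i F) : ∫ x, g x * F x ∂μ = ∫ x, cv (cm ν i) g x * F x ∂μ := by
  rw [← integral_avg (ν := ν) (μ := μ) (hg.mul hF) i]
  congr 1; funext x
  rw [cv_cm hg, ← integral_mul_const]
  congr 1; funext y
  rw [hi]

lemma integral_sub_proj_sq {g : (Fin N → G) → ℝ} (hg : BdM g) (i : Fin N) :
    ∫ x, (g x - cv (cm m i) g x) ^ 2 ∂μ = ∫ x, g x ^ 2 ∂μ - ∫ x, cv (cm m i) g x ^ 2 ∂μ := by
  have hP : BdM (cv (cm m i) g) := hg.cv
  have e1 : (fun x => (g x - cv (cm m i) g x) ^ 2)
      = fun x => (g x ^ 2 - 2 * (g x * cv (cm m i) g x)) + cv (cm m i) g x ^ 2 := by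
    funext x; ring
  rw [e1, integral_add, integral_sub, integral_const_mul,
    integral_mul_inv (ν := m) hg hP (inv_cv hg i)]
  · have : ∀ x, cv (cm m i) g x * cv (cm m i) g x = cv (cm m i) g x ^ 2 := fun x => by ring
    simp only [this]
    ring
  · exact hg.sq.integrable μ
  · exact ((hg.mul hP).const_mul 2).integrable μ
  · exact (hg.sq.sub ((hg.mul hP).const_mul 2)).integrable μ
  · exact hP.sq.integrable μ

/-- Slicing of the Dirichlet form. -/
lemma Dm_slice {v : (Fin N → G) → ℝ} (hv : BdM v) (i : Fin N) :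
    Dm μ (cm ν i) v = ∫ x, Dm m ν (fun y => v (x + Pi.single i y)) ∂μ := by
  have h1 : Dm μ (cm ν i) v = (1/2) * ∫ z, ∫ x, (v (x + Pi.single i z) - v x) ^ 2 ∂μ ∂ν := by
    unfold Dm
    rw [cm, integral_map (measurable_single' i).aemeasurable hv.dsq.meas.aestronglyMeasurable]
  have h2 : ∀ z : G, ∫ x, (v (x + Pi.single i z) - v x) ^ 2 ∂μ
      = ∫ x, ∫ y, (v (x + Pi.single i (y + z)) - v (x + Pi.single i y)) ^ 2 ∂m ∂μ := by
    intro z
    rw [← integral_avg (ν := m) (μ := μ) (((hv.shift (Pi.single i z)).sub hv).sq) i]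
    congr 1; funext x; congr 1; funext y
    rw [Pi.single_add, add_assoc x]
  rw [h1]
  simp only [h2]
  have hB : BdM (fun p : (G × (Fin N → G)) × G =>
      (v (p.1.2 + Pi.single i (p.2 + p.1.1)) - v (p.1.2 + Pi.single i p.2)) ^ 2) := by
    refine (BdM.sub (hv.comp ?_) (hv.comp ?_)).sq
    · exact (measurable_snd.comp measurable_fst).add
        ((measurable_single' i).comp (measurable_snd.add (measurable_fst.comp measurable_fst)))
    · exact (measurable_snd.comp measurable_fst).add
        ((measurable_single' i).comp measurable_snd)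
  have hB' := hB.integral_prod_right m
  have h3 := hB'.swap ν μ
  have h3' : ∫ z, ∫ x, ∫ y, (v (x + Pi.single i (y + z)) - v (x + Pi.single i y)) ^ 2 ∂m ∂μ ∂ν
      = ∫ x, ∫ z, ∫ y, (v (x + Pi.single i (y + z)) - v (x + Pi.single i y)) ^ 2 ∂m ∂ν ∂μ := h3
  rw [h3', ← integral_const_mul]
  rfl

/-- Local inequality in one coordinate. -/
lemma local_coord {c : ℝ} {B : Set G} (hB : MeasurableSet B)
    (H1 : ∀ u : G → ℝ, BdM u → ∀ w : G,
      c * ∫ y, B.indicator (fun _ => (1:ℝ)) (w + y) * (u y - ∫ y', u y' ∂m) ^ 2 ∂m ≤ Dm m ν u)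
    {v : (Fin N → G) → ℝ} (hv : BdM v) (i : Fin N) :
    c * ∫ x, B.indicator (fun _ => (1:ℝ)) (x i) * (v x - cv (cm m i) v x) ^ 2 ∂μ
      ≤ Dm μ (cm ν i) v := by
  rw [Dm_slice (m := m) hv i]
  have hI : BdM (B.indicator (fun _ => (1:ℝ))) := BdM.indicator_one hB
  have hP : BdM (cv (cm m i) v) := hv.cv
  have hF : BdM (fun x : Fin N → G => B.indicator (fun _ => (1:ℝ)) (x i)
      * (v x - cv (cm m i) v x) ^ 2) := (hI.eval i).mul (hv.sub hP).sq
  rw [← integral_avg (ν := m) (μ := μ) hF i, ← integral_const_mul]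
  have hs : ∀ x : Fin N → G, BdM (fun y => v (x + Pi.single i y)) := fun x =>
    hv.comp ((measurable_const_add x).comp (measurable_single' i))
  refine integral_mono ?_ ?_ fun x => ?_
  · have : BdM (fun x : Fin N → G => ∫ y, B.indicator (fun _ => (1:ℝ)) ((x + (Pi.single i y : Fin N → G)) i)
      * (v (x + Pi.single i y) - cv (cm m i) v (x + Pi.single i y)) ^ 2 ∂m) := by
      have hφ : Measurable (fun p : (Fin N → G) × G => p.1 + (Pi.single i p.2 : Fin N → G)) :=
        Measurable.add measurable_fst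
          (Measurable.comp (g := fun z : G => (Pi.single i z : Fin N → G))
            (f := fun p : (Fin N → G) × G => p.2) (measurable_single' i) measurable_snd)
      exact (hF.comp hφ).integral_prod_right m
    exact (this.const_mul c).integrable μ
  · have : BdM (fun x : Fin N → G => Dm m ν (fun y => v (x + Pi.single i y))) := by
      unfold Dm
      have hB : BdM (fun p : ((Fin N → G) × G) × G =>
          (v (p.1.1 + Pi.single i (p.2 + p.1.2)) - v (p.1.1 + Pi.single i p.2)) ^ 2) := by
        refine (BdM.sub (hv.comp ?_) (hv.comp ?_)).sq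
        · exact (measurable_fst.comp measurable_fst).add
            ((measurable_single' i).comp (measurable_snd.add (measurable_snd.comp measurable_fst)))
        · exact (measurable_fst.comp measurable_fst).add
            ((measurable_single' i).comp measurable_snd)
      exact ((hB.integral_prod_right m).integral_prod_right ν).const_mul _
    exact this.integrable μ
  · have h := H1 _ (hs x) (x i)
    refine le_trans (le_of_eq ?_) h
    congr 2; funext y
    rw [inv_cv hv i x y, cv_cm hv, single_apply_self']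

/-- Poincare inequality in one coordinate. -/
lemma gap_coord {c : ℝ}
    (H1 : ∀ u : G → ℝ, BdM u → c * ∫ y, (u y - ∫ y', u y' ∂m) ^ 2 ∂m ≤ Dm m ν u)
    {v : (Fin N → G) → ℝ} (hv : BdM v) (i : Fin N) :
    c * ∫ x, (v x - cv (cm m i) v x) ^ 2 ∂μ ≤ Dm μ (cm ν i) v := by
  have := local_coord (m := m) (μ := μ) (ν := ν) (c := c) (B := univ) MeasurableSet.univ
    (fun u hu w => by simpa using H1 u hu) hv i
  simpa using this

end Coord

end Pool.Agent.Lib.MP_fd77c3_pr
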