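import Pool.Agent.Lib.MP_fd77c3_pr.Core2

/-!
One-particle theory for a symmetric convolution semigroup `p` on a measurable abelian group.
-/

open MeasureTheory Set Filter Topology
open scoped ENNReal NNReal

set_option linter.unusedSectionVars false
set_option linter.unusedTactic false
set_option linter.unusedSimpArgs false

namespace Pool.Agent.Lib.MP_fd77c3_pr

section Polar

variable {H : Type*} [AddCommGroup H] [MeasurableSpace H] [MeasurableAdd₂ H] [MeasurableNeg H]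
variable {μ ν ρ : Measure H} [IsProbabilityMeasure μ] [μ.IsAddRightInvariant]
  [IsProbabilityMeasure ν] [IsProbabilityMeasure ρ]

lemma Dm_const_mul (c : ℝ) (f : H → ℝ) : Dm μ ν (fun x => c * f x) = c ^ 2 * Dm μ ν f := by
  unfold Dm
  have : ∀ z x, (c * f (x + z) - c * f x) ^ 2 = c ^ 2 * (f (x + z) - f x) ^ 2 := by
    intro z x; ring
  simp only [this, integral_const_mul]
  ring

lemma Dm_sub_const (c : ℝ) (f : H → ℝ) : Dm μ ν (fun x => f x - c) = Dm μ ν f := by
  unfold Dm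
  congr 2; funext z; congr 1; funext x; ring

/-- Cauchy-Schwarz for the Dirichlet form. -/
lemma Dm_cs {u w : H → ℝ} (hu : BdM u) (hw : BdM w) (hν : Symm ν) :
    (∫ x, u x * (w x - cv ν w x) ∂μ) ^ 2 ≤ Dm μ ν u * Dm μ ν w := by
  have key : ∀ t : ℝ, 0 ≤ Dm μ ν w * (t * t) + (2 * ∫ x, u x * (w x - cv ν w x) ∂μ) * t
      + Dm μ ν u := by
    intro t
    have h0 : 0 ≤ Dm μ ν (fun x => u x + t * w x) := Dm_nonneg _
    rw [Dm_add hu (hw.const_mul t) hν, Dm_const_mul] at h0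
    have h1 : ∫ x, u x * (t * w x - cv ν (fun x => t * w x) x) ∂μ
        = t * ∫ x, u x * (w x - cv ν w x) ∂μ := by
      rw [← integral_const_mul]
      congr 1; funext x
      rw [cv_const_mul]; ring
    rw [h1] at h0
    linarith
  have := discrim_le_zero key
  unfold discrim at this
  nlinarith

lemma Dm_conv_le {g : H → ℝ} (hg : BdM g) (hρ : Symm ρ) :
    Dm μ (ν ∗ ρ) g ≤ Dm μ ν g + Dm μ ρ g := by
  rw [Dm_eq hg, cv_conv hg, Dm_eq hg (ν := ν)]
  have hw : BdM (cv ν g) := hg.cv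
  have e1 : ∫ x, g x * cv ν (cv ρ g) x ∂μ
      = ∫ x, g x * cv ν g x ∂μ - ∫ x, g x * (cv ν g x - cv ρ (cv ν g) x) ∂μ := by
    rw [cv_comm hg, ← integral_sub]
    · congr 1; funext x; ring
    · exact (hg.mul hw).integrable μ
    · exact (hg.mul (hw.sub hw.cv)).integrable μ
  rw [e1]
  have h1 := Dm_cs (μ := μ) hg hw hρ
  have h2 : Dm μ ρ (cv ν g) ≤ Dm μ ρ g := Dm_cv_le hg
  have h3 : 0 ≤ Dm μ ρ g := Dm_nonneg _
  have h4 : (∫ x, g x * (cv ν g x - cv ρ (cv ν g) x) ∂μ) ^ 2 ≤ Dm μ ρ g ^ 2 :=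
    h1.trans (by nlinarith [Dm_nonneg (μ := μ) (ν := ρ) (cv ν g)])
  have h5 := abs_le_of_sq_le_sq h4 h3
  linarith [le_of_abs_le h5, neg_le_of_abs_le h5]

end Polar

section Semi

variable {G : Type*} [AddCommGroup G] [MeasurableSpace G] [MeasurableAdd₂ G] [MeasurableNeg G]

/-- Symmetric convolution semigroup of probability measures. -/
structure Semi (p : ℝ≥0 → Measure G) : Prop where
  prob : ∀ s, IsProbabilityMeasure (p s)
  symm : ∀ s, Symm (p s)
  zero : p 0 = Measure.dirac 0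
  conv : ∀ s t, p (s + t) = p s ∗ p t

variable {p : ℝ≥0 → Measure G} (hp : Semi p)
variable {m : Measure G} [IsProbabilityMeasure m] [m.IsAddRightInvariant]

include hp

lemma Semi.cv_zero {f : G → ℝ} (hf : BdM f) : cv (p 0) f = f := by
  funext x
  unfold cv
  rw [hp.zero, integral_dirac' _ _ (hf.comp (measurable_const_add x)).meas.stronglyMeasurable]
  simp

lemma Semi.cv_add {f : G → ℝ} (hf : BdM f) (s t : ℝ≥0) :
    cv (p (s + t)) f = cv (p s) (cv (p t) f) := by
  have := hp.prob s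
  have := hp.prob t
  rw [hp.conv, cv_conv hf]

lemma Semi.bdm {f : G → ℝ} (hf : BdM f) (s : ℝ≥0) : BdM (cv (p s) f) := by
  have := hp.prob s
  exact hf.cv

lemma Semi.Dm_nsmul {g : G → ℝ} (hg : BdM g) (s : ℝ≥0) (n : ℕ) :
    Dm m (p (n * s)) g ≤ n * Dm m (p s) g := by
  induction n with
  | zero =>
    have := hp.prob 0
    simp only [Nat.cast_zero, zero_mul]
    rw [Dm_eq hg, hp.cv_zero hg]
    simp [pow_two]
  | succ n ih =>
    have e : ((n + 1 : ℕ) : ℝ≥0) * s = (n : ℝ≥0) * s + s := by push_cast; ring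
    have := hp.prob (n * s)
    have := hp.prob s
    rw [e, hp.conv]
    refine (Dm_conv_le hg (hp.symm s)).trans ?_
    push_cast
    linarith

/-- Symmetry and the semigroup law: `⟨f, P_{s+t} g⟩ = ⟨P_s f, P_t g⟩`. -/
lemma Semi.ip_add {f g : G → ℝ} (hf : BdM f) (hg : BdM g) (s t : ℝ≥0) :
    ∫ x, f x * cv (p (s + t)) g x ∂m = ∫ x, cv (p s) f x * cv (p t) g x ∂m := by
  have := hp.prob s
  have := hp.prob t
  rw [hp.cv_add hg, integral_mul_cv hf (hp.bdm hg t) (hp.symm s)]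

/-- `⟨f, P_{2s} f⟩ = ‖P_s f‖²`. -/
lemma Semi.ip_two {f : G → ℝ} (hf : BdM f) (s : ℝ≥0) :
    ∫ x, f x * cv (p (s + s)) f x ∂m = ∫ x, cv (p s) f x ^ 2 ∂m := by
  rw [hp.ip_add hf hf]
  simp [pow_two]

/-- monotonicity in time of `⟨f, P_s f⟩`. -/
lemma Semi.ip_antitone {f : G → ℝ} (hf : BdM f) {s t : ℝ≥0} (hst : s ≤ t) :
    ∫ x, f x * cv (p t) f x ∂m ≤ ∫ x, f x * cv (p s) f x ∂m := by
  obtain ⟨u, rfl⟩ := exists_add_of_le hst
  have e1 : s + u = (s / 2 + u / 2) + (s / 2 + u / 2) := by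
    rw [add_add_add_comm, add_halves, add_halves]
  have e2 : s = s / 2 + s / 2 := (add_halves s).symm
  have h1 : ∫ x, f x * cv (p (s + u)) f x ∂m = ∫ x, cv (p (s / 2 + u / 2)) f x ^ 2 ∂m := by
    rw [e1, hp.ip_two hf]
  have h2 : ∫ x, f x * cv (p s) f x ∂m = ∫ x, cv (p (s / 2)) f x ^ 2 ∂m := by
    conv_lhs => rw [e2]
    rw [hp.ip_two hf]
  rw [h1, h2, add_comm, hp.cv_add hf]
  have := hp.prob (u / 2)
  exact sq_cv_le (hp.bdm hf _)

lemma Semi.ip_ge_sq {f : G → ℝ} (hf : BdM f) (s : ℝ≥0) :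
    (∫ x, f x ∂m) ^ 2 ≤ ∫ x, f x * cv (p s) f x ∂m := by
  have e2 : s = s / 2 + s / 2 := (add_halves s).symm
  rw [e2, hp.ip_two hf]
  have := hp.prob (s / 2)
  rw [← integral_cv (ν := p (s / 2)) (μ := m) hf]
  exact sq_integral_le m (hp.bdm hf _)

/-- Rate of convergence to equilibrium. -/
structure Rate (m : Measure G) (p : ℝ≥0 → Measure G) (r : ℕ → ℝ) : Prop where
  nonneg : ∀ j, 0 ≤ r j
  bound : ∀ j : ℕ, 1 ≤ j → ∀ u : G → ℝ, BdM u → ∀ x,
    |cv (p j) u x - ∫ y, u y ∂m| ≤ r j * ∫ y, |u y| ∂m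
  tendsto : Tendsto r atTop (𝓝 0)

variable {r : ℕ → ℝ}

omit hp in
lemma integral_abs_nonneg (u : G → ℝ) : 0 ≤ ∫ y, |u y| ∂m := integral_nonneg fun _ => abs_nonneg _

/-- Rate at non-integer times. -/
lemma Semi.rate_real (hr : Rate m p r) {j : ℕ} (hj : 1 ≤ j) (s : ℝ≥0) {u : G → ℝ} (hu : BdM u)
    (x : G) : |cv (p (s + j)) u x - ∫ y, u y ∂m| ≤ r j * ∫ y, |u y| ∂m := by
  have := hp.prob s
  rw [hp.cv_add hu]
  have h1 : cv (p s) (cv (p j) u) x - ∫ y, u y ∂m
      = ∫ z, (cv (p j) u (x + z) - ∫ y, u y ∂m) ∂(p s) := by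
    have hB : BdM (cv (p j) u) := hp.bdm hu _
    rw [integral_sub ((hB.comp (measurable_const_add x)).integrable _) (integrable_const _)]
    simp [cv]
  rw [h1]
  have h2 := norm_integral_le_of_norm_le_const (μ := p s)
    (f := fun z => cv (p j) u (x + z) - ∫ y, u y ∂m) (C := r j * ∫ y, |u y| ∂m)
    (ae_of_all _ fun z => hr.bound j hj u hu _)
  simpa using h2

lemma Semi.ip_rate (hr : Rate m p r) {j : ℕ} (hj : 1 ≤ j) (s : ℝ≥0) {u v : G → ℝ} (hu : BdM u)
    (hv : BdM v) : |∫ x, v x * cv (p (s + j)) u x ∂m - (∫ y, v y ∂m) * ∫ y, u y ∂m|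
      ≤ r j * (∫ y, |u y| ∂m) * ∫ y, |v y| ∂m := by
  have hB : BdM (cv (p (s + j)) u) := hp.bdm hu _
  have h1 : ∫ x, v x * cv (p (s + j)) u x ∂m - (∫ y, v y ∂m) * ∫ y, u y ∂m
      = ∫ x, v x * (cv (p (s + j)) u x - ∫ y, u y ∂m) ∂m := by
    rw [← integral_mul_const, ← integral_sub]
    · congr 1; funext x; ring
    · exact (hv.mul hB).integrable m
    · exact (hv.mul (BdM.const _)).integrable m
  rw [h1]
  refine (abs_integral_le_integral_abs).trans ?_
  rw [← integral_const_mul]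
  refine integral_mono ((hv.mul (hB.sub (BdM.const _))).abs.integrable m)
    ((hv.abs.const_mul _).integrable m) fun x => ?_
  simp only [abs_mul]
  have := mul_le_mul_of_nonneg_left (hp.rate_real hr hj s hu x) (abs_nonneg (v x))
  linarith

omit hp in
lemma integral_ind (B : Set G) (hB : MeasurableSet B) : ∫ y, ind B y ∂m = m.real B := by
  unfold ind
  rw [integral_indicator hB]
  simp [Measure.real]

/-- The finite horizon Green function `∑_{j<J} P^j φ` and its Dirichlet energy. -/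
lemma Semi.green_step {φ : G → ℝ} (hφ : BdM φ) (s : ℝ≥0) (J : ℕ) (x : G) :
    (∑ j ∈ Finset.range J, cv (p (j * s)) φ x)
      - cv (p s) (fun y => ∑ j ∈ Finset.range J, cv (p (j * s)) φ y) x
      = φ x - cv (p (J * s)) φ x := by
  have := hp.prob s
  induction J with
  | zero =>
    simp only [Finset.range_zero, Finset.sum_empty, Nat.cast_zero, zero_mul]
    rw [hp.cv_zero hφ, cv_const]; simp
  | succ J ih =>
    simp only [Finset.sum_range_succ]
    have hS : BdM (fun y => ∑ j ∈ Finset.range J, cv (p (j * s)) φ y) :=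
      BdM.finset_sum _ fun j _ => hp.bdm hφ _
    have hJ : BdM (cv (p (J * s)) φ) := hp.bdm hφ _
    rw [Pool.Agent.Lib.MP_fd77c3_pr.cv_add hS hJ]
    have e : ((J + 1 : ℕ) : ℝ≥0) * s = s + (J : ℝ≥0) * s := by push_cast; ring
    rw [e, hp.cv_add hφ s (J * s)]
    linarith

/-- Local inequality. -/
lemma Semi.local_ineq (hr : Rate m p r) {S : ℝ}
    (hS : ∀ J : ℕ, ∑ j ∈ Finset.Ico 1 J, r j ≤ S)
    {B : Set G} (hB : MeasurableSet B) {u : G → ℝ} (hu : BdM u) (w : G) :
    ∫ y, B.indicator (fun _ => (1:ℝ)) (w + y) * (u y - ∫ y', u y' ∂m) ^ 2 ∂m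
      ≤ (1 + m.real B * S) * Dm m (p 1) u := by
  have hp1 := hp.prob 1
  set ub := ∫ y', u y' ∂m with hub
  set U : G → ℝ := fun y => u y - ub with hU
  have hUB : BdM U := hu.sub (BdM.const _)
  have hIw : BdM (fun y : G => ind B (w + y)) := (BdM.ind hB).comp (measurable_const_add w)
  set φ : G → ℝ := fun y => ind B (w + y) * U y with hφ
  have hφB : BdM φ := hIw.mul hUB
  set Q := ∫ y, φ y ^ 2 ∂m with hQ
  have hQ0 : 0 ≤ Q := integral_nonneg fun _ => sq_nonneg _
  have hQeq : ∫ y, B.indicator (fun _ => (1:ℝ)) (w + y) * (u y - ub) ^ 2 ∂m = Q := by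
    rw [hQ]; congr 1; funext y
    rw [hφ]; simp only
    rw [mul_pow, ind_sq]; rfl
  rw [hQeq]
  have hUφ : ∫ y, U y * φ y ∂m = Q := by
    rw [hQ]; congr 1; funext y
    rw [hφ]; simp only
    rw [mul_pow, ind_sq]; ring
  have hU0 : ∫ y, U y ∂m = 0 := by
    rw [hU, integral_sub (hu.integrable m) (integrable_const _)]
    simp [hub]
  have hmB : 0 ≤ m.real B := measureReal_nonneg
  -- L1 norm of φ
  have hφ1 : (∫ y, |φ y| ∂m) ^ 2 ≤ m.real B * Q := by
    have e1 : ∫ y, |φ y| ∂m = ∫ y, ind B (w + y) * |φ y| ∂m := by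
      congr 1; funext y
      rw [hφ]; simp only
      rw [abs_mul, abs_of_nonneg (ind_nonneg _ _), ← mul_assoc, ← pow_two, ind_sq]
    rw [e1]
    refine (cauchy_schwarz m hIw hφB.abs).trans (le_of_eq ?_)
    simp only [ind_sq, sq_abs]
    congr 1
    have : ∀ y, ind B (w + y) = ind B (y + w) := fun y => by rw [add_comm]
    simp only [this]
    rw [integral_shift (μ := m) (ind B) w, integral_ind B hB]
  have hφ10 : 0 ≤ ∫ y, |φ y| ∂m := integral_abs_nonneg φ
  -- correlations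
  have hcorr : ∀ j : ℕ, 1 ≤ j → |∫ y, φ y * cv (p (j * 1)) φ y ∂m - (∫ y, φ y ∂m) ^ 2|
      ≤ r j * (m.real B * Q) := by
    intro j hj
    have h := hp.ip_rate hr hj 0 hφB hφB (m := m)
    have e : (0 + (j : ℝ≥0)) = (j : ℝ≥0) * 1 := by ring
    rw [e] at h
    rw [pow_two]
    refine h.trans ?_
    have := mul_le_mul_of_nonneg_left hφ1 (hr.nonneg j)
    nlinarith
  have hS0 : 0 ≤ S := by simpa using hS 0
  -- energy of the Green function
  set gJ : ℕ → G → ℝ := fun J y => ∑ j ∈ Finset.range J, cv (p (j * 1)) φ y with hgJ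
  have hgB : ∀ J, BdM (gJ J) := fun J => BdM.finset_sum _ fun j _ => hp.bdm hφB _
  have hen : ∀ J : ℕ, Dm m (p 1) (gJ J) ≤ Q * (1 + m.real B * S) + 0 := by
    intro J
    rw [Dm_eq (hgB J)]
    have hstep : ∀ x, gJ J x - cv (p 1) (gJ J) x = φ x - cv (p (J * 1)) φ x := fun x =>
      hp.green_step hφB 1 J x
    have e1 : ∫ x, gJ J x ^ 2 ∂m - ∫ x, gJ J x * cv (p 1) (gJ J) x ∂m
        = ∑ j ∈ Finset.range J, (∫ x, φ x * cv (p (j * 1)) φ x ∂m
            - ∫ x, φ x * cv (p ((j + J : ℕ) * 1)) φ x ∂m) := by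
      rw [← integral_sub ((hgB J).sq.integrable m) (((hgB J).mul (hgB J).cv).integrable m)]
      have e2 : ∀ x, gJ J x ^ 2 - gJ J x * cv (p 1) (gJ J) x
          = ∑ j ∈ Finset.range J, (φ x * cv (p (j * 1)) φ x
              - cv (p (J * 1)) φ x * cv (p (j * 1)) φ x) := by
        intro x
        have : gJ J x ^ 2 - gJ J x * cv (p 1) (gJ J) x
            = (φ x - cv (p (J * 1)) φ x) * gJ J x := by
          rw [← hstep x]; ring
        rw [this, hgJ]
        simp only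
        rw [Finset.mul_sum]
        exact Finset.sum_congr rfl fun j _ => by ring
      simp only [e2]
      rw [integral_finsetSum]
      · refine Finset.sum_congr rfl fun j _ => ?_
        rw [integral_sub]
        · congr 1
          have e3 : ((j + J : ℕ) : ℝ≥0) * 1 = (J : ℝ≥0) * 1 + (j : ℝ≥0) * 1 := by
            push_cast; ring
          rw [e3, hp.ip_add hφB hφB]
        · exact (hφB.mul (hp.bdm hφB _)).integrable m
        · exact ((hp.bdm hφB _).mul (hp.bdm hφB _)).integrable m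
      · intro j _
        exact ((hφB.mul (hp.bdm hφB _)).sub ((hp.bdm hφB _).mul (hp.bdm hφB _))).integrable m
    rw [e1]
    rcases Nat.eq_zero_or_pos J with rfl | hJ
    · simp; positivity
    -- split j = 0
    obtain ⟨J', rfl⟩ : ∃ J', J = J' + 1 := ⟨J - 1, by omega⟩
    set sq := (∫ y, φ y ∂m) ^ 2 with hsq
    have hsq0 : 0 ≤ sq := sq_nonneg _
    have t0 : ∫ x, φ x * cv (p (((0:ℕ):ℝ≥0) * 1)) φ x ∂m = Q := by
      simp only [Nat.cast_zero, zero_mul]
      rw [hp.cv_zero hφB, hQ]; congr 1; funext x; ring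
    have hterm : ∀ j : ℕ, ∫ x, φ x * cv (p (j * 1)) φ x ∂m
            - ∫ x, φ x * cv (p ((j + (J' + 1) : ℕ) * 1)) φ x ∂m
        ≤ (if j = 0 then Q else r j * (m.real B * Q)) + r (j + (J' + 1)) * (m.real B * Q) := by
      intro j
      have h2 := hcorr (j + (J' + 1)) (by omega)
      have h2' := neg_le_of_abs_le h2
      by_cases hj : j = 0
      · subst hj
        rw [t0]; simp only [if_true]
        linarith
      · have h1 := le_of_abs_le (hcorr j (by omega))
        simp only [hj, if_false]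
        linarith
    refine (Finset.sum_le_sum fun j _ => hterm j).trans ?_
    rw [Finset.sum_add_distrib]
    have s1 : ∑ j ∈ Finset.range (J' + 1), (if j = 0 then Q else r j * (m.real B * Q))
        = Q + ∑ j ∈ Finset.Ico 1 (J' + 1), r j * (m.real B * Q) := by
      rw [Finset.range_eq_Ico, Finset.sum_eq_sum_Ico_succ_bot (by omega)]
      congr 1
      refine Finset.sum_congr rfl fun j hj => ?_
      rw [Finset.mem_Ico] at hj
      have : j ≠ 0 := by omega
      simp [this]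
    have s2 : ∑ j ∈ Finset.range (J' + 1), r (j + (J' + 1)) * (m.real B * Q)
        = ∑ j ∈ Finset.Ico (J' + 1) (J' + 1 + (J' + 1)), r j * (m.real B * Q) := by
      rw [Finset.sum_Ico_eq_sum_range]
      have : J' + 1 + (J' + 1) - (J' + 1) = J' + 1 := by omega
      rw [this]
      exact Finset.sum_congr rfl fun j _ => by rw [add_comm]
    rw [s1, s2, add_assoc, Finset.sum_Ico_consecutive _ (by omega) (by omega), ← Finset.sum_mul]
    have h3 := hS (J' + 1 + (J' + 1))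
    have h4 : 0 ≤ m.real B * Q := mul_nonneg hmB hQ0
    nlinarith [mul_le_mul_of_nonneg_right h3 h4]
  -- main inequality for each J
  set K := 1 + m.real B * S with hK
  have hK1 : 1 ≤ K := by rw [hK]; nlinarith [mul_nonneg hmB hS0]
  set Du := Dm m (p 1) u with hDu
  have hDu0 : 0 ≤ Du := Dm_nonneg _
  have hDU : Dm m (p 1) U = Du := by rw [hU, Dm_sub_const]
  obtain ⟨CU, hCU⟩ : ∃ C, C = (∫ y, |φ y| ∂m) * ∫ y, |U y| ∂m := ⟨_, rfl⟩
  have hmain : ∀ J : ℕ, 1 ≤ J → Q ≤ √(Du * (Q * K)) + r J * CU := by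
    intro J hJ
    have hstep : ∀ x, gJ J x - cv (p 1) (gJ J) x = φ x - cv (p (J * 1)) φ x := fun x =>
      hp.green_step hφB 1 J x
    have h1 := Dm_cs (μ := m) hUB (hgB J) (hp.symm 1)
    simp only [hstep] at h1
    have h2 : ∫ x, U x * (φ x - cv (p (J * 1)) φ x) ∂m
        = Q - ∫ x, U x * cv (p (J * 1)) φ x ∂m := by
      rw [← hUφ, ← integral_sub]
      · congr 1; funext x; ring
      · exact (hUB.mul hφB).integrable m
      · exact (hUB.mul (hp.bdm hφB _)).integrable m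
    have h3 := hp.ip_rate hr hJ 0 hφB hUB (m := m)
    have e : (0 + (J : ℝ≥0)) = (J : ℝ≥0) * 1 := by ring
    rw [e, hU0, zero_mul, sub_zero] at h3
    rw [h2, hDU] at h1
    have h4 : (Q - ∫ x, U x * cv (p (J * 1)) φ x ∂m) ^ 2 ≤ Du * (Q * K) := by
      refine h1.trans (mul_le_mul_of_nonneg_left ?_ hDu0)
      have := hen J
      linarith
    have h5 := Real.abs_le_sqrt h4
    have h6 := le_of_abs_le h5
    have h7 := le_of_abs_le h3
    rw [hCU]
    nlinarith
  have hlim : Q ≤ √(Du * (Q * K)) := by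
    have ht : Tendsto (fun J : ℕ => √(Du * (Q * K)) + r J * CU) atTop
        (𝓝 (√(Du * (Q * K)) + 0 * CU)) := (hr.tendsto.mul_const CU).const_add _
    rw [zero_mul, add_zero] at ht
    refine ge_of_tendsto ht ?_
    filter_upwards [eventually_ge_atTop 1] with J hJ using hmain J hJ
  have hsqle : Q ^ 2 ≤ Du * (Q * K) := by
    have hnn : 0 ≤ Du * (Q * K) := mul_nonneg hDu0 (mul_nonneg hQ0 (by linarith))
    calc Q ^ 2 ≤ √(Du * (Q * K)) ^ 2 := pow_le_pow_left₀ hQ0 hlim 2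
      _ = _ := Real.sq_sqrt hnn
  rcases hQ0.eq_or_lt with hQ' | hQ'
  · rw [← hQ']
    exact mul_nonneg (by linarith) hDu0
  · have : Q * Q ≤ Q * (K * Du) := by nlinarith
    exact le_of_mul_le_mul_left this hQ'

end Semi

end Pool.Agent.Lib.MP_fd77c3_pr
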