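import Pool.Agent.Lib.MP_fd77c3_pr.Model

/-!
Void probability bound for a marked Poisson process (MP_fd77c3_pr, task P).
-/

open MeasureTheory ProbabilityTheory Filter Topology
open scoped ENNReal NNReal

namespace Pool.Agent.Lib.MP_fd77c3_pr

/-- Infinite sums of products over `Fin k → ℕ`. -/
theorem tsum_pi_prod (k : ℕ) (f : Fin k → ℕ → ℝ≥0∞) :
    ∑' n : Fin k → ℕ, ∏ j, f j (n j) = ∏ j, ∑' m, f j m := by
  induction k with
  | zero => simp
  | succ k ih =>
    rw [← (Fin.consEquiv (fun _ : Fin (k + 1) => ℕ)).tsum_eq]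
    rw [ENNReal.tsum_prod', Fin.prod_univ_succ]
    simp only [Fin.consEquiv_apply, Fin.prod_univ_succ, Fin.cons_zero, Fin.cons_succ]
    simp_rw [ENNReal.tsum_mul_left]
    rw [ENNReal.tsum_mul_right]
    congr 1
    exact ih _

/-- The Poisson generating function. -/
theorem poisson_gen (v c : ℝ) (hv : 0 ≤ v) (hc : c ≤ 1) :
    ∑' n : ℕ, ENNReal.ofReal (1 - c) ^ n *
      ENNReal.ofReal (Real.exp (-v) * v ^ n / n.factorial) = ENNReal.ofReal (Real.exp (-(v * c))) := by
  have h1 : ∀ n : ℕ, ENNReal.ofReal (1 - c) ^ n *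
      ENNReal.ofReal (Real.exp (-v) * v ^ n / n.factorial) =
        ENNReal.ofReal (Real.exp (-v) * ((v * (1 - c)) ^ n / n.factorial)) := by
    intro n
    rw [← ENNReal.ofReal_pow (by linarith), ← ENNReal.ofReal_mul (by apply pow_nonneg; linarith)]
    congr 1
    rw [mul_pow]
    ring
  simp_rw [h1]
  have h2 : HasSum (fun n : ℕ => (v * (1 - c)) ^ n / n.factorial) (Real.exp (v * (1 - c))) := by
    have := NormedSpace.expSeries_div_hasSum_exp (𝔸 := ℝ) (v * (1 - c))
    rwa [← Real.exp_eq_exp_ℝ] at this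
  have h3 := h2.mul_left (Real.exp (-v))
  rw [← ENNReal.ofReal_tsum_of_nonneg _ h3.summable, h3.tsum_eq, ← Real.exp_add]
  · congr 2; ring
  · intro n
    have : 0 ≤ 1 - c := by linarith
    positivity

theorem void_le_prod {Ω : Type*} [MeasurableSpace Ω] {P : Measure Ω} [IsProbabilityMeasure P]
    {d : ℕ} {x : ℕ → Ω → Eu d} (hx : ∀ i, Measurable (x i))
    {S : Type*} [MeasurableSpace S] {η : ℕ → Ω → S} (hη : ∀ i, Measurable (η i))
    {ρ : Measure S} [IsProbabilityMeasure ρ] (hlaw : ∀ i, P.map (η i) = ρ)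
    (hind : iIndepFun η P) (hxη : IndepFun (fun ω i => x i ω) (fun ω i => η i ω) P)
    {D : Set (Eu d × S)} (hD : MeasurableSet D) (M : ℕ) :
    P {ω | ∀ i, (x i ω, η i ω) ∉ D} ≤
      ∫⁻ ω, ∏ i ∈ Finset.range M, (1 - ρ {s | (x i ω, s) ∈ D}) ∂P := by
  have hX : Measurable (fun ω i => x i ω) := measurable_pi_lambda _ hx
  have hH : Measurable (fun ω i => η i ω) := measurable_pi_lambda _ hη
  let T : Set ((ℕ → Eu d) × (ℕ → S)) := {z | ∀ i ∈ Finset.range M, (z.1 i, z.2 i) ∉ D}
  have hT : MeasurableSet T := by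
    have : T = ⋂ i ∈ Finset.range M,
        (fun z : (ℕ → Eu d) × (ℕ → S) => (z.1 i, z.2 i)) ⁻¹' Dᶜ := by
      ext z; simp [T]
    rw [this]
    refine Finset.measurableSet_biInter _ fun i _ => ?_
    exact (((measurable_pi_apply i).comp measurable_fst).prodMk
      ((measurable_pi_apply i).comp measurable_snd)) hD.compl
  have h1 : P {ω | ∀ i, (x i ω, η i ω) ∉ D} ≤ P ((fun ω => ((fun i => x i ω), (fun i => η i ω))) ⁻¹' T) := by
    apply measure_mono
    intro ω hω i _
    exact hω i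
  refine h1.trans (le_of_eq ?_)
  rw [← Measure.map_apply (hX.prodMk hH) hT, hxη.map_prod_eq_prod_map_map hX.aemeasurable
    hH.aemeasurable]
  have : IsProbabilityMeasure (P.map fun ω i => η i ω) :=
    Measure.isProbabilityMeasure_map hH.aemeasurable
  have hslice : ∀ z : ℕ → Eu d, (P.map fun ω i => η i ω) (Prod.mk z ⁻¹' T) =
      ∏ i ∈ Finset.range M, (1 - ρ {s | (z i, s) ∈ D}) := by
    intro z
    rw [Measure.map_apply hH (measurable_prodMk_left hT)]
    have e1 : (fun ω i => η i ω) ⁻¹' (Prod.mk z ⁻¹' T) =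
        ⋂ i ∈ Finset.range M, η i ⁻¹' {s | (z i, s) ∈ D}ᶜ := by
      ext ω; simp [T]
    have hm : ∀ i, MeasurableSet {s | (z i, s) ∈ D} := fun i => measurable_prodMk_left hD
    rw [e1, hind.measure_inter_preimage_eq_mul (Finset.range M)
      (sets := fun i => {s | (z i, s) ∈ D}ᶜ) fun i _ => (hm i).compl]
    apply Finset.prod_congr rfl
    intro i _
    rw [← Measure.map_apply (hη i) (hm i).compl, hlaw i, prob_compl_eq_one_sub (hm i)]
  have hF : Measurable fun z : ℕ → Eu d => (P.map fun ω i => η i ω) (Prod.mk z ⁻¹' T) :=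
    measurable_measure_prodMk_left hT
  rw [Measure.prod_apply hT, lintegral_map hF hX]
  apply lintegral_congr
  intro ω
  exact hslice _

theorem measurable_count {Ω : Type*} [MeasurableSpace Ω] {d : ℕ} {x : ℕ → Ω → Eu d}
    (hx : ∀ i, Measurable (x i)) {A : Set (Eu d)} (hA : MeasurableSet A) (n : ℕ) :
    MeasurableSet {ω | {i : ℕ | x i ω ∈ A}.encard = n} := by
  have h1 : Measurable fun ω => ∑' i, A.indicator (fun _ => (1 : ℝ≥0∞)) (x i ω) :=
    Measurable.tsum fun i => (measurable_const.indicator hA).comp (hx i)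
  have h2 : {ω | {i : ℕ | x i ω ∈ A}.encard = n} =
      (fun ω => ∑' i, A.indicator (fun _ => (1 : ℝ≥0∞)) (x i ω)) ⁻¹' {(n : ℝ≥0∞)} := by
    ext ω
    simp only [Set.mem_ofPred_eq, Set.mem_preimage, Set.mem_singleton_iff]
    have h3 : ∑' i, A.indicator (fun _ => (1 : ℝ≥0∞)) (x i ω) =
        (({i : ℕ | x i ω ∈ A}.encard : ℕ∞) : ℝ≥0∞) := by
      rw [← ENNReal.tsum_set_one, tsum_subtype {i : ℕ | x i ω ∈ A} fun _ => (1 : ℝ≥0∞)]
      apply tsum_congr
      intro i
      by_cases h : x i ω ∈ A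
      · simp [h, Set.indicator]
      · simp [h, Set.indicator]
    rw [h3]
    constructor
    · intro h; rw [h]; simp
    · intro h
      have : (({i : ℕ | x i ω ∈ A}.encard : ℕ∞) : ℝ≥0∞) = ((n : ℕ∞) : ℝ≥0∞) := by
        rw [h]; simp
      exact_mod_cast this
  rw [h2]
  exact h1 (measurableSet_singleton _)

open Classical in
theorem lintegral_prod_le {Ω : Type*} [MeasurableSpace Ω] {P : Measure Ω} [IsProbabilityMeasure P]
    {d : ℕ} {lam : ℝ} (hlam : 0 < lam) {x : ℕ → Ω → Eu d} (hx : IsPoissonPts P lam x)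
    {k : ℕ} (A : Fin k → Set (Eu d)) (c : Fin k → ℝ) (hc : ∀ j, c j ≤ 1)
    (hA : ∀ j, MeasurableSet (A j)) (hAf : ∀ j, volume (A j) < ∞)
    (hAd : Pairwise (fun i j => Disjoint (A i) (A j))) :
    ∫⁻ ω, ⨅ M : ℕ, ∏ i ∈ Finset.range M, ∏ j : Fin k,
        (if x i ω ∈ A j then ENNReal.ofReal (1 - c j) else 1) ∂P ≤
      ENNReal.ofReal (Real.exp (-(∑ j, lam * volume.real (A j) * c j))) := by
  set Φ : Ω → ℝ≥0∞ := fun ω => ⨅ M : ℕ, ∏ i ∈ Finset.range M, ∏ j : Fin k,
        (if x i ω ∈ A j then ENNReal.ofReal (1 - c j) else 1) with hΦ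
  let Om : (Fin k → ℕ) → Set Ω := fun n => {ω | ∀ j, {i : ℕ | x i ω ∈ A j}.encard = n j}
  have hOm : ∀ n, MeasurableSet (Om n) := by
    intro n
    have : Om n = ⋂ j, {ω | {i : ℕ | x i ω ∈ A j}.encard = n j} := by
      ext ω; simp [Om]
    rw [this]
    exact MeasurableSet.iInter fun j => measurable_count hx.meas (hA j) (n j)
  have hdis : Pairwise (Function.onFun Disjoint Om) := by
    intro n n' hnn
    rw [Function.onFun, Set.disjoint_left]
    intro ω h1 h2
    apply hnn
    funext j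
    have h3 := (h1 j).symm.trans (h2 j)
    exact_mod_cast h3
  have claimA : ∀ n, ∀ ω ∈ Om n, Φ ω ≤ ∏ j, ENNReal.ofReal (1 - c j) ^ n j := by
    intro n ω hω
    have hfin : ∀ j, {i : ℕ | x i ω ∈ A j}.Finite := by
      intro j
      apply Set.finite_of_encard_eq_coe (hω j)
    obtain ⟨M, hM⟩ : ∃ M : ℕ, ∀ j, ∀ i, x i ω ∈ A j → i < M := by
      have hb : (⋃ j, {i : ℕ | x i ω ∈ A j}).Finite := Set.finite_iUnion hfin
      obtain ⟨M, hM⟩ := hb.bddAbove
      exact ⟨M + 1, fun j i hi => Nat.lt_succ_of_le (hM (Set.mem_iUnion.2 ⟨j, hi⟩))⟩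
    refine (iInf_le _ M).trans (le_of_eq ?_)
    rw [Finset.prod_comm]
    apply Finset.prod_congr rfl
    intro j _
    rw [Finset.prod_ite, Finset.prod_const, Finset.prod_const_one, mul_one]
    congr 1
    have h1 : (((Finset.range M).filter fun i => x i ω ∈ A j : Finset ℕ) : Set ℕ) =
        {i : ℕ | x i ω ∈ A j} := by
      ext i
      simp only [Finset.coe_filter, Finset.mem_range, Set.mem_ofPred_eq]
      exact ⟨fun h => h.2, fun h => ⟨hM j i h, h⟩⟩
    have h2 := hω j
    rw [← h1, Set.encard_coe_eq_coe_finsetCard] at h2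
    exact_mod_cast h2
  have hprob : ∀ n, P (Om n) = ∏ j, ENNReal.ofReal (Real.exp (-(lam * volume.real (A j)))
          * (lam * volume.real (A j)) ^ n j / (n j).factorial) :=
    fun n => hx.law k A n hA hAf hAd
  have hv : ∀ j, 0 ≤ lam * volume.real (A j) := fun j =>
    mul_nonneg hlam.le measureReal_nonneg
  have claimB : P (⋃ n, Om n) = 1 := by
    rw [measure_iUnion hdis hOm]
    simp_rw [hprob]
    rw [tsum_pi_prod k fun j m => ENNReal.ofReal (Real.exp (-(lam * volume.real (A j)))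
          * (lam * volume.real (A j)) ^ m / m.factorial)]
    apply Finset.prod_eq_one
    intro j _
    have := poisson_gen (lam * volume.real (A j)) 0 (hv j) zero_le_one
    simpa using this
  have hrestr : P.restrict (⋃ n, Om n) = P := by
    apply Measure.restrict_eq_self_of_ae_mem
    exact (mem_ae_iff_prob_eq_one (MeasurableSet.iUnion hOm)).2 claimB
  calc ∫⁻ ω, Φ ω ∂P = ∫⁻ ω in ⋃ n, Om n, Φ ω ∂P := by rw [hrestr]
    _ ≤ ∑' n, ∫⁻ ω in Om n, Φ ω ∂P := lintegral_iUnion_le _ _
    _ ≤ ∑' n, (∏ j, ENNReal.ofReal (1 - c j) ^ n j) * P (Om n) := by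
      apply ENNReal.tsum_le_tsum
      intro n
      rw [← setLIntegral_const]
      exact setLIntegral_mono' (hOm n) fun ω hω => claimA n ω hω
    _ = ∑' n : Fin k → ℕ, ∏ j, (ENNReal.ofReal (1 - c j) ^ n j *
          ENNReal.ofReal (Real.exp (-(lam * volume.real (A j)))
          * (lam * volume.real (A j)) ^ n j / (n j).factorial)) := by
      apply tsum_congr
      intro n
      rw [hprob, Finset.prod_mul_distrib]
    _ = ∏ j, ENNReal.ofReal (Real.exp (-(lam * volume.real (A j) * c j))) := by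
      rw [tsum_pi_prod k fun j m => ENNReal.ofReal (1 - c j) ^ m *
          ENNReal.ofReal (Real.exp (-(lam * volume.real (A j)))
          * (lam * volume.real (A j)) ^ m / m.factorial)]
      apply Finset.prod_congr rfl
      intro j _
      exact poisson_gen _ _ (hv j) (hc j)
    _ = ENNReal.ofReal (Real.exp (-(∑ j, lam * volume.real (A j) * c j))) := by
      rw [← ENNReal.ofReal_prod_of_nonneg fun j _ => (Real.exp_pos _).le, ← Real.exp_sum,
        Finset.sum_neg_distrib]

/-- The bound for a simple function below the density. -/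
theorem void_le_simple {Ω : Type*} [MeasurableSpace Ω] {P : Measure Ω} [IsProbabilityMeasure P]
    {d : ℕ} {lam : ℝ} (hlam : 0 < lam) {x : ℕ → Ω → Eu d} (hx : IsPoissonPts P lam x)
    {S : Type*} [MeasurableSpace S] {η : ℕ → Ω → S} (hη : ∀ i, Measurable (η i))
    {ρ : Measure S} [IsProbabilityMeasure ρ] (hlaw : ∀ i, P.map (η i) = ρ)
    (hind : iIndepFun η P) (hxη : IndepFun (fun ω i => x i ω) (fun ω i => η i ω) P)
    {D : Set (Eu d × S)} (hD : MeasurableSet D) (hfin : ∫⁻ y, ρ {s | (y, s) ∈ D} < ∞)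
    (φ : SimpleFunc (Eu d) ℝ≥0∞) (hφ : ∀ y, φ y ≤ ρ {s | (y, s) ∈ D}) :
    P {ω | ∀ i, (x i ω, η i ω) ∉ D}
      ≤ ENNReal.ofReal (Real.exp (-(lam * (φ.lintegral volume).toReal))) := by
  classical
  have hφ1 : ∀ y, φ y ≤ 1 := fun y => (hφ y).trans prob_le_one
  let J : Finset ℝ≥0∞ := φ.range.filter (fun a => a ≠ 0)
  let e : Fin J.card ≃ J := J.equivFin.symm
  let c : Fin J.card → ℝ≥0∞ := fun j => (e j).1
  have hcJ : ∀ j, c j ∈ J := fun j => (e j).2
  have hc0 : ∀ j, c j ≠ 0 := fun j => (Finset.mem_filter.1 (hcJ j)).2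
  have hc1 : ∀ j, c j ≤ 1 := by
    intro j
    obtain ⟨y, hy⟩ := SimpleFunc.mem_range.1 (Finset.mem_filter.1 (hcJ j)).1
    rw [← hy]
    exact hφ1 y
  have hct : ∀ j, c j ≠ ∞ := fun j => ((hc1 j).trans_lt ENNReal.one_lt_top).ne
  have hcinj : Function.Injective c := fun i j h => e.injective (Subtype.ext h)
  let A : Fin J.card → Set (Eu d) := fun j => φ ⁻¹' {c j}
  have hlin : φ.lintegral volume = ∑ j, c j * volume (A j) := by
    rw [SimpleFunc.lintegral]
    have h1 : ∑ a ∈ φ.range, a * volume (φ ⁻¹' {a}) = ∑ a ∈ J, a * volume (φ ⁻¹' {a}) := by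
      rw [Finset.sum_filter]
      apply Finset.sum_congr rfl
      intro a _
      by_cases ha : a = 0
      · simp [ha]
      · simp [ha]
    rw [h1, ← Finset.sum_coe_sort]
    exact (Equiv.sum_comp e (fun a : J => (a : ℝ≥0∞) * volume (φ ⁻¹' {(a : ℝ≥0∞)}))).symm
  have hlinfin : φ.lintegral volume < ∞ := by
    rw [← SimpleFunc.lintegral_eq_lintegral]
    exact (lintegral_mono hφ).trans_lt hfin
  have hAf : ∀ j, volume (A j) < ∞ := by
    intro j
    have h1 : c j * volume (A j) < ∞ := by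
      refine lt_of_le_of_lt ?_ hlinfin
      rw [hlin]
      exact Finset.single_le_sum (f := fun j => c j * volume (A j)) (fun _ _ => zero_le)
        (Finset.mem_univ j)
    by_contra h2
    rw [not_lt, top_le_iff] at h2
    rw [h2, ENNReal.mul_top (hc0 j)] at h1
    exact lt_irrefl _ h1
  have hA : ∀ j, MeasurableSet (A j) := fun j => φ.measurableSet_preimage _
  have hAd : Pairwise (fun i j => Disjoint (A i) (A j)) := by
    intro i j hij
    rw [Set.disjoint_left]
    intro y h1 h2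
    apply hij
    apply hcinj
    have h1' : φ y = c i := h1
    have h2' : φ y = c j := h2
    rw [← h1', ← h2']
  have hprod : ∀ y, 1 - φ y =
      ∏ j, (if y ∈ A j then ENNReal.ofReal (1 - (c j).toReal) else 1) := by
    intro y
    by_cases hy : φ y = 0
    · rw [hy, tsub_zero]
      symm
      apply Finset.prod_eq_one
      intro j _
      rw [if_neg]
      intro hj
      have hj' : φ y = c j := hj
      exact hc0 j (hj'.symm.trans hy)
    · have hmem : φ y ∈ J := Finset.mem_filter.2 ⟨SimpleFunc.mem_range_self _ _, hy⟩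
      let j0 := e.symm ⟨φ y, hmem⟩
      have hj0 : c j0 = φ y := by simp [c, j0]
      rw [Finset.prod_eq_single j0]
      · rw [if_pos (show y ∈ A j0 from hj0.symm), hj0]
        rw [ENNReal.ofReal_sub _ ENNReal.toReal_nonneg, ENNReal.ofReal_one,
          ENNReal.ofReal_toReal (hj0 ▸ hct j0)]
      · intro j _ hj
        rw [if_neg]
        intro hj'
        have hj'' : φ y = c j := hj'
        exact hj (hcinj (hj''.symm.trans hj0.symm))
      · intro h
        exact absurd (Finset.mem_univ _) h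
  have hmain := lintegral_prod_le hlam hx A (fun j => (c j).toReal)
    (fun j => by
      have := ENNReal.toReal_mono ENNReal.one_ne_top (hc1 j)
      simpa using this) hA hAf hAd
  have hsum : ∑ j, lam * volume.real (A j) * (c j).toReal =
      lam * (φ.lintegral volume).toReal := by
    rw [hlin, ENNReal.toReal_sum, Finset.mul_sum]
    · apply Finset.sum_congr rfl
      intro j _
      rw [ENNReal.toReal_mul, Measure.real]
      ring
    · intro j _
      exact ENNReal.mul_ne_top (hct j) (hAf j).ne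
  rw [hsum] at hmain
  refine le_trans ?_ hmain
  have hstep : ∀ M : ℕ, P {ω | ∀ i, (x i ω, η i ω) ∉ D} ≤
      ∫⁻ ω, ∏ i ∈ Finset.range M, ∏ j, (if x i ω ∈ A j then
        ENNReal.ofReal (1 - (c j).toReal) else 1) ∂P := by
    intro M
    refine (void_le_prod hx.meas hη hlaw hind hxη hD M).trans ?_
    apply lintegral_mono
    intro ω
    apply Finset.prod_le_prod' 
    intro i _
    rw [← hprod]
    exact tsub_le_tsub_left (hφ _) _
  rw [lintegral_iInf]
  · exact le_iInf hstep
  · intro M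
    apply Finset.measurable_prod
    intro i _
    apply Finset.measurable_prod
    intro j _
    exact Measurable.ite ((hx.meas i) (hA j)) measurable_const measurable_const
  · intro M M' hMM ω
    apply Finset.prod_le_prod_of_subset_of_le_one'
    · exact Finset.range_mono hMM
    · intro i _ _
      rw [← hprod]
      exact tsub_le_self
  · refine ne_of_lt (lt_of_le_of_lt (b := ∫⁻ _, 1 ∂P) (lintegral_mono fun ω => by simp) ?_)
    simp

theorem poisson_void_le {Ω : Type*} [MeasurableSpace Ω] {P : Measure Ω} [IsProbabilityMeasure P]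
    {d : ℕ} {lam : ℝ} (hlam : 0 < lam) {x : ℕ → Ω → Eu d} (hx : IsPoissonPts P lam x)
    {S : Type*} [MeasurableSpace S] {η : ℕ → Ω → S} (hη : ∀ i, Measurable (η i))
    {ρ : Measure S} [IsProbabilityMeasure ρ] (hlaw : ∀ i, P.map (η i) = ρ)
    (hind : iIndepFun η P) (hxη : IndepFun (fun ω i => x i ω) (fun ω i => η i ω) P)
    {D : Set (Eu d × S)} (hD : MeasurableSet D) (hfin : ∫⁻ y, ρ {s | (y, s) ∈ D} < ∞) :
    P {ω | ∀ i, (x i ω, η i ω) ∉ D}
      ≤ ENNReal.ofReal (Real.exp (-(lam * ∫ y, ρ.real {s | (y, s) ∈ D}))) := by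
  have hg : Measurable fun y => ρ {s | (y, s) ∈ D} := measurable_measure_prodMk_left hD
  have hint : ∫ y, ρ.real {s | (y, s) ∈ D} = (∫⁻ y, ρ {s | (y, s) ∈ D}).toReal := by
    rw [← integral_toReal hg.aemeasurable]
    · rfl
    · exact Eventually.of_forall fun y => measure_lt_top _ _
  rw [hint]
  set g : Eu d → ℝ≥0∞ := fun y => ρ {s | (y, s) ∈ D} with hgdef
  have hmono : Monotone fun n => (SimpleFunc.eapprox g n).lintegral volume := by
    intro m n hmn
    exact SimpleFunc.lintegral_mono (SimpleFunc.monotone_eapprox g hmn) le_rfl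
  have hlim : Tendsto (fun n => (SimpleFunc.eapprox g n).lintegral volume) atTop
      (𝓝 (∫⁻ y, g y)) := by
    rw [lintegral_eq_iSup_eapprox_lintegral hg]
    exact tendsto_atTop_iSup hmono
  have hlim2 : Tendsto (fun n => ((SimpleFunc.eapprox g n).lintegral volume).toReal) atTop
      (𝓝 (∫⁻ y, g y).toReal) :=
    (ENNReal.tendsto_toReal hfin.ne).comp hlim
  have hlim3 : Tendsto (fun n => ENNReal.ofReal (Real.exp
      (-(lam * ((SimpleFunc.eapprox g n).lintegral volume).toReal)))) atTop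
      (𝓝 (ENNReal.ofReal (Real.exp (-(lam * (∫⁻ y, g y).toReal))))) := by
    apply ENNReal.tendsto_ofReal
    apply (Real.continuous_exp.tendsto _).comp
    exact (hlim2.const_mul lam).neg
  refine ge_of_tendsto' hlim3 fun n => ?_
  apply void_le_simple hlam hx hη hlaw hind hxη hD hfin
  intro y
  change _ ≤ g y
  rw [← SimpleFunc.iSup_eapprox_apply hg y]
  exact le_iSup (fun n => (SimpleFunc.eapprox g n : Eu d → ℝ≥0∞) y) n

end Pool.Agent.Lib.MP_fd77c3_pr
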