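import Pool.Agent.Lib.MP_fd77c3_pr.OneBody

/-!
The potential of a charge on `G`, at time step `δ = 1/q`.
-/

open MeasureTheory Set Filter Topology
open scoped ENNReal NNReal

set_option linter.unusedSectionVars false
set_option linter.unusedTactic false
set_option linter.unusedSimpArgs false

namespace Pool.Agent.Lib.MP_fd77c3_pr

variable {G : Type*} [AddCommGroup G] [MeasurableSpace G] [MeasurableAdd₂ G] [MeasurableNeg G]
variable {p : ℝ≥0 → Measure G}
variable {m : Measure G} [IsProbabilityMeasure m] [m.IsAddRightInvariant]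
variable {r : ℕ → ℝ}

/-- The potential `∑_{i<J} ∑_{l<q} (P_{i + lδ} e - ∫ e)`. -/
noncomputable def pot (m : Measure G) (p : ℝ≥0 → Measure G) (q : ℕ) (δ : ℝ≥0) (e : G → ℝ) (J : ℕ)
    (x : G) : ℝ :=
  ∑ i ∈ Finset.range J, ∑ l ∈ Finset.range q, (cv (p (l * δ)) (cv (p i) e) x - ∫ y, e y ∂m)

lemma BdM.pot (hp : Semi p) {e : G → ℝ} (he : BdM e) (q : ℕ) (δ : ℝ≥0) (J : ℕ) :
    BdM (pot m p q δ e J) :=
  BdM.finset_sum _ fun _ _ => BdM.finset_sum _ fun _ _ =>
    (hp.bdm (hp.bdm he _) _).sub (BdM.const _)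

lemma integral_cv_semi (hp : Semi p) {e : G → ℝ} (he : BdM e) (s : ℝ≥0) :
    ∫ x, cv (p s) e x ∂m = ∫ x, e x ∂m := by
  have := hp.prob s
  exact integral_cv he

lemma pot_mean (hp : Semi p) {e : G → ℝ} (he : BdM e) (q : ℕ) (δ : ℝ≥0) (J : ℕ) :
    ∫ x, pot m p q δ e J x ∂m = 0 := by
  unfold Pool.Agent.Lib.MP_fd77c3_pr.pot
  rw [integral_finsetSum]
  · refine Finset.sum_eq_zero fun i _ => ?_
    rw [integral_finsetSum]
    · refine Finset.sum_eq_zero fun l _ => ?_
      rw [integral_sub ((hp.bdm (hp.bdm he _) _).integrable m) (integrable_const _),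
        integral_cv_semi hp (hp.bdm he _), integral_cv_semi hp he]
      simp
    · intro l _
      exact ((hp.bdm (hp.bdm he _) _).sub (BdM.const _)).integrable m
  · intro i _
    exact (BdM.finset_sum _ fun l _ =>
      (hp.bdm (hp.bdm he _) _).sub (BdM.const _)).integrable m

lemma pot_poisson (hp : Semi p) {e : G → ℝ} (he : BdM e) {q : ℕ} {δ : ℝ≥0}
    (hq : (q : ℝ≥0) * δ = 1) (J : ℕ) (x : G) :
    pot m p q δ e J x - cv (p δ) (pot m p q δ e J) x = e x - cv (p J) e x := by
  have := hp.prob δ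
  induction J with
  | zero =>
    have e0 : pot m p q δ e 0 = fun _ => (0:ℝ) := by
      funext y; simp [pot]
    rw [e0, cv_const, Nat.cast_zero, hp.cv_zero he]; simp
  | succ J ih =>
    set φ := cv (p J) e with hφ
    have hφB : BdM φ := hp.bdm he _
    set k := ∫ y, e y ∂m with hk
    have e1 : pot m p q δ e (J + 1) = fun y => pot m p q δ e J y
        + ((∑ l ∈ Finset.range q, cv (p (l * δ)) φ y) - q * k) := by
      funext y
      simp only [pot]
      rw [Finset.sum_range_succ, Finset.sum_sub_distrib]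
      simp [hk, hφ]
    have hS : BdM (fun y => ∑ l ∈ Finset.range q, cv (p (l * δ)) φ y) :=
      BdM.finset_sum _ fun l _ => hp.bdm hφB _
    have hP : BdM (pot m p q δ e J) := he.pot hp q δ J
    have h1 := hp.green_step hφB δ q x
    rw [hq] at h1
    rw [e1]
    rw [cv_add hP (hS.sub (BdM.const _)), cv_sub hS (BdM.const _), cv_const]
    have h2 : cv (p 1) φ x = cv (p ((J + 1 : ℕ) : ℝ≥0)) e x := by
      rw [hφ, ← hp.cv_add he]; congr 2; push_cast; ring
    rw [h2] at h1
    simp only
    linarith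

lemma eJ_bound (hp : Semi p) (hr : Rate m p r) {e : G → ℝ} (he : BdM e) (he0 : ∀ x, 0 ≤ e x)
    {J : ℕ} (hJ : 1 ≤ J) (x : G) :
    |cv (p J) e x - ∫ y, e y ∂m| ≤ r J * ∫ y, e y ∂m := by
  have := hr.bound J hJ e he x
  simpa only [abs_of_nonneg (he0 _)] using this

/-- Energy of the potential. -/
lemma pot_energy (hp : Semi p) (hr : Rate m p r) {e : G → ℝ} (he : BdM e) (he0 : ∀ x, 0 ≤ e x)
    {q : ℕ} {δ : ℝ≥0} {D J : ℕ} (hD : 1 ≤ D) (hDJ : D ≤ J) {SD : ℝ}
    (hSD : ∑ j ∈ Finset.Ico D J, r j ≤ SD) :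
    ∫ x, pot m p q δ e J x * (e x - cv (p J) e x) ∂m
      ≤ ∑ i ∈ Finset.range D, ∑ l ∈ Finset.range q, ∫ x, e x * cv (p (l * δ + i)) e x ∂m
        + q * (∫ y, e y ∂m) ^ 2 * SD := by
  set k := ∫ y, e y ∂m with hk
  have hk0 : 0 ≤ k := integral_nonneg he0
  set eJ := cv (p J) e with heJ
  have heJB : BdM eJ := hp.bdm he _
  have hterm : ∀ i l : ℕ, ∫ x, (cv (p (l * δ)) (cv (p i) e) x - k) * (e x - eJ x) ∂m
      = ∫ x, e x * cv (p (l * δ + i)) e x ∂m - ∫ x, eJ x * cv (p (l * δ + i)) e x ∂m := by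
    intro i l
    rw [← hp.cv_add he]
    set w := cv (p (l * δ + i)) e with hw
    have hwB : BdM w := hp.bdm he _
    have e1 : ∀ x, (w x - k) * (e x - eJ x) = (e x * w x - eJ x * w x) - k * (e x - eJ x) := by
      intro x; ring
    simp only [e1]
    rw [integral_sub, integral_sub, integral_const_mul, integral_sub (he.integrable m)
      (heJB.integrable m), heJ, integral_cv_semi hp he]
    · simp
    · exact (he.mul hwB).integrable m
    · exact (heJB.mul hwB).integrable m
    · exact ((he.mul hwB).sub (heJB.mul hwB)).integrable m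
    · exact ((he.sub heJB).const_mul k).integrable m
  have hexp : ∫ x, pot m p q δ e J x * (e x - eJ x) ∂m
      = ∑ i ∈ Finset.range J, ∑ l ∈ Finset.range q,
        (∫ x, e x * cv (p (l * δ + i)) e x ∂m - ∫ x, eJ x * cv (p (l * δ + i)) e x ∂m) := by
    have e1 : ∀ x, pot m p q δ e J x * (e x - eJ x)
        = ∑ i ∈ Finset.range J, ∑ l ∈ Finset.range q,
          (cv (p (l * δ)) (cv (p i) e) x - k) * (e x - eJ x) := by
      intro x
      rw [pot, Finset.sum_mul]
      refine Finset.sum_congr rfl fun i _ => ?_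
      rw [Finset.sum_mul]
    simp only [e1]
    rw [integral_finsetSum]
    · refine Finset.sum_congr rfl fun i _ => ?_
      rw [integral_finsetSum]
      · exact Finset.sum_congr rfl fun l _ => hterm i l
      · intro l _
        exact (((hp.bdm (hp.bdm he _) _).sub (BdM.const _)).mul (he.sub heJB)).integrable m
    · intro i _
      exact (BdM.finset_sum _ fun l _ =>
        ((hp.bdm (hp.bdm he _) _).sub (BdM.const _)).mul (he.sub heJB)).integrable m
  have hlow : ∀ i l : ℕ, k ^ 2 ≤ ∫ x, eJ x * cv (p (l * δ + i)) e x ∂m := by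
    intro i l
    have h1 : ∫ x, eJ x * cv (p (l * δ + i)) e x ∂m
        = ∫ x, e x * cv (p (J + (l * δ + i))) e x ∂m := by
      rw [hp.ip_add he he]
    rw [h1]
    exact hp.ip_ge_sq he _
  rw [hexp]
  have hsplit : ∀ i ∈ Finset.range J, ∑ l ∈ Finset.range q,
        (∫ x, e x * cv (p (l * δ + i)) e x ∂m - ∫ x, eJ x * cv (p (l * δ + i)) e x ∂m)
      ≤ (if i < D then ∑ l ∈ Finset.range q, ∫ x, e x * cv (p (l * δ + i)) e x ∂m
          else q * (r i * k ^ 2)) := by
    intro i _
    by_cases hi : i < D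
    · simp only [hi, if_true]
      refine Finset.sum_le_sum fun l _ => ?_
      have := hlow i l
      nlinarith [sq_nonneg k]
    · simp only [hi, if_false]
      have : ∀ l ∈ Finset.range q, (∫ x, e x * cv (p (l * δ + i)) e x ∂m
          - ∫ x, eJ x * cv (p (l * δ + i)) e x ∂m) ≤ r i * k ^ 2 := by
        intro l _
        have h1 := hlow i l
        have h2 := hp.ip_rate hr (j := i) (by omega) (l * δ) he he (m := m)
        simp only [abs_of_nonneg (he0 _)] at h2
        have h3 := le_of_abs_le h2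
        nlinarith
      calc _ ≤ ∑ _l ∈ Finset.range q, r i * k ^ 2 := Finset.sum_le_sum this
        _ = _ := by simp
  refine (Finset.sum_le_sum hsplit).trans ?_
  have h1 : Finset.range J = Finset.range D ∪ Finset.Ico D J := by
    rw [Finset.range_eq_Ico, Finset.range_eq_Ico, Finset.Ico_union_Ico_eq_Ico (by omega) hDJ]
  have h2 : Disjoint (Finset.range D) (Finset.Ico D J) := by
    rw [Finset.range_eq_Ico]; exact Finset.Ico_disjoint_Ico_consecutive 0 D J
  rw [h1, Finset.sum_union h2]
  refine add_le_add (le_of_eq ?_) ?_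
  · refine Finset.sum_congr rfl fun i hi => ?_
    rw [Finset.mem_range] at hi
    simp [hi]
  · calc ∑ i ∈ Finset.Ico D J, (if i < D
            then ∑ l ∈ Finset.range q, ∫ x, e x * cv (p (l * δ + i)) e x ∂m
            else q * (r i * k ^ 2))
        = ∑ i ∈ Finset.Ico D J, q * (r i * k ^ 2) := by
          refine Finset.sum_congr rfl fun i hi => ?_
          rw [Finset.mem_Ico] at hi
          have : ¬ i < D := by omega
          simp [this]
      _ = q * k ^ 2 * ∑ i ∈ Finset.Ico D J, r i := by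
          rw [Finset.mul_sum]
          exact Finset.sum_congr rfl fun i _ => by ring
      _ ≤ q * k ^ 2 * SD := mul_le_mul_of_nonneg_left hSD (by positivity)

/-- Lower bound for the potential. -/
lemma pot_lower (hp : Semi p) (hr : Rate m p r) {e : G → ℝ} (he : BdM e) (he0 : ∀ x, 0 ≤ e x)
    {q : ℕ} {δ : ℝ≥0} {D J : ℕ} (hD : 1 ≤ D) (hDJ : D ≤ J) {SD : ℝ}
    (hSD : ∑ j ∈ Finset.Ico D J, r j ≤ SD) (x : G) :
    -(q * (∫ y, e y ∂m) * (D + SD)) ≤ pot m p q δ e J x := by
  set k := ∫ y, e y ∂m with hk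
  have hk0 : 0 ≤ k := integral_nonneg he0
  have hcv0 : ∀ (s : ℝ≥0) (f : G → ℝ), (∀ x, 0 ≤ f x) → ∀ x, 0 ≤ cv (p s) f x := by
    intro s f hf x
    exact integral_nonneg fun z => hf _
  have hsplit : ∀ i ∈ Finset.range J, (if i < D then -(q * k) else -(q * (r i * k)))
      ≤ ∑ l ∈ Finset.range q, (cv (p (l * δ)) (cv (p i) e) x - k) := by
    intro i _
    by_cases hi : i < D
    · simp only [hi, if_true]
      calc -(q * k) = ∑ _l ∈ Finset.range q, (0 - k) := by simp
        _ ≤ _ := Finset.sum_le_sum fun l _ =>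
            sub_le_sub_right (hcv0 _ _ (hcv0 _ _ he0) x) k
    · simp only [hi, if_false]
      calc -(q * (r i * k)) = ∑ _l ∈ Finset.range q, (-(r i * k)) := by simp
        _ ≤ _ := Finset.sum_le_sum fun l _ => by
            rw [← hp.cv_add he]
            have h2 := hp.rate_real hr (j := i) (by omega) (l * δ) he x (m := m)
            simp only [abs_of_nonneg (he0 _)] at h2
            exact neg_le_of_abs_le h2
  refine le_trans ?_ (Finset.sum_le_sum hsplit)
  have h1 : Finset.range J = Finset.range D ∪ Finset.Ico D J := by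
    rw [Finset.range_eq_Ico, Finset.range_eq_Ico, Finset.Ico_union_Ico_eq_Ico (by omega) hDJ]
  have h2 : Disjoint (Finset.range D) (Finset.Ico D J) := by
    rw [Finset.range_eq_Ico]; exact Finset.Ico_disjoint_Ico_consecutive 0 D J
  rw [h1, Finset.sum_union h2]
  have s1 : ∑ i ∈ Finset.range D, (if i < D then -(q * k) else -(q * (r i * k)))
      = -(q * k * D) := by
    calc _ = ∑ _i ∈ Finset.range D, (-(q * k)) := by
          refine Finset.sum_congr rfl fun i hi => ?_
          rw [Finset.mem_range] at hi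
          simp [hi]
      _ = _ := by simp; ring
  have s2 : ∑ i ∈ Finset.Ico D J, (if i < D then -(q * k) else -(q * (r i * k)))
      = -(q * k * ∑ i ∈ Finset.Ico D J, r i) := by
    rw [Finset.mul_sum, ← Finset.sum_neg_distrib]
    refine Finset.sum_congr rfl fun i hi => ?_
    rw [Finset.mem_Ico] at hi
    have : ¬ i < D := by omega
    simp only [this, if_false]; ring
  rw [s1, s2]
  have h3 : 0 ≤ q * k := by positivity
  have := mul_le_mul_of_nonneg_left hSD h3
  linarith

/-- Averages of the potential over far translates. -/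
lemma pot_far (hp : Semi p) (hr : Rate m p r) {e : G → ℝ} (he : BdM e) (he0 : ∀ x, 0 ≤ e x)
    {q : ℕ} {δ : ℝ≥0} {Δ J : ℕ} (hΔ : 1 ≤ Δ) {SΔ : ℝ}
    (hSΔ : ∑ j ∈ Finset.Ico Δ (Δ + J), r j ≤ SΔ) {A : Set G} (hA : MeasurableSet A) :
    ∫ x, ind A x * cv (p Δ) (pot m p q δ e J) x ∂m
      ≤ m.real A * (q * (∫ y, e y ∂m) * SΔ) := by
  set k := ∫ y, e y ∂m with hk
  have hk0 : 0 ≤ k := integral_nonneg he0
  have hpΔ := hp.prob Δ
  have hpt : ∀ x, cv (p Δ) (pot m p q δ e J) x ≤ q * k * SΔ := by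
    intro x
    have e1 : cv (p Δ) (pot m p q δ e J) x
        = ∑ i ∈ Finset.range J, ∑ l ∈ Finset.range q,
          (cv (p (l * δ + (Δ + i : ℕ))) e x - k) := by
      unfold pot
      rw [show cv (p Δ) (fun x => ∑ i ∈ Finset.range J, ∑ l ∈ Finset.range q,
          (cv (p (l * δ)) (cv (p i) e) x - ∫ y, e y ∂m)) x
          = ∫ z, ∑ i ∈ Finset.range J, ∑ l ∈ Finset.range q,
          (cv (p (l * δ)) (cv (p i) e) (x + z) - ∫ y, e y ∂m) ∂(p Δ) from rfl]
      rw [integral_finsetSum]
      · refine Finset.sum_congr rfl fun i _ => ?_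
        rw [integral_finsetSum]
        · refine Finset.sum_congr rfl fun l _ => ?_
          have hB : BdM (cv (p (l * δ)) (cv (p i) e)) := hp.bdm (hp.bdm he _) _
          rw [integral_sub ((hB.comp (measurable_const_add x)).integrable _)
            (integrable_const _)]
          have e2 : ∫ z, cv (p (l * δ)) (cv (p i) e) (x + z) ∂(p Δ)
              = cv (p (l * δ + (Δ + i : ℕ))) e x := by
            have e3 : (l : ℝ≥0) * δ + ((Δ + i : ℕ) : ℝ≥0) = (Δ : ℝ≥0) + (l * δ + i) := by
              push_cast; ring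
            rw [e3, hp.cv_add he, hp.cv_add he]; rfl
          rw [e2]; simp [hk]
        · intro l _
          exact (((hp.bdm (hp.bdm he _) _).comp (measurable_const_add x)).sub
            (BdM.const _)).integrable _
      · intro i _
        exact (BdM.finset_sum _ fun l _ =>
          ((hp.bdm (hp.bdm he _) _).comp (measurable_const_add x)).sub
            (BdM.const _)).integrable _
    rw [e1]
    have h2 : ∀ i l : ℕ, cv (p (l * δ + (Δ + i : ℕ))) e x - k ≤ r (Δ + i) * k := by
      intro i l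
      have h2 := hp.rate_real hr (j := Δ + i) (by omega) (l * δ) he x (m := m)
      simp only [abs_of_nonneg (he0 _)] at h2
      exact le_of_abs_le h2
    calc _ ≤ ∑ i ∈ Finset.range J, ∑ _l ∈ Finset.range q, r (Δ + i) * k :=
          Finset.sum_le_sum fun i _ => Finset.sum_le_sum fun l _ => h2 i l
      _ = q * k * ∑ i ∈ Finset.range J, r (Δ + i) := by
          rw [Finset.mul_sum]
          refine Finset.sum_congr rfl fun i _ => ?_
          simp; ring
      _ = q * k * ∑ i ∈ Finset.Ico Δ (Δ + J), r i := by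
          rw [Finset.sum_Ico_eq_sum_range]; simp
      _ ≤ q * k * SΔ := mul_le_mul_of_nonneg_left hSΔ (by positivity)
  have hB : BdM (cv (p Δ) (pot m p q δ e J)) := hp.bdm (he.pot hp q δ J) _
  calc ∫ x, ind A x * cv (p Δ) (pot m p q δ e J) x ∂m
      ≤ ∫ x, ind A x * (q * k * SΔ) ∂m := by
        refine integral_mono (((BdM.ind hA).mul hB).integrable m)
          (((BdM.ind hA).mul (BdM.const _)).integrable m) fun x => ?_
        exact mul_le_mul_of_nonneg_left (hpt x) (ind_nonneg _ _)
    _ = _ := by rw [integral_mul_const, integral_ind A hA]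

/-- The quantity `a_z = ∫ h(y) 1_A(y - z)`. -/
noncomputable def az (m : Measure G) (h : G → ℝ) (A : Set G) (z : G) : ℝ :=
  ∫ y, h y * ind A (y + -z) ∂m

lemma BdM.az {h : G → ℝ} (hh : BdM h) {A : Set G} (hA : MeasurableSet A) :
    BdM (Pool.Agent.Lib.MP_fd77c3_pr.az m h A) := by
  have hF : BdM (fun p : G × G => h p.1 * Pool.Agent.Lib.MP_fd77c3_pr.ind A (p.1 + -p.2)) :=
    (hh.comp measurable_fst).mul ((BdM.ind hA).comp (measurable_fst.add measurable_snd.neg))
  exact hF.integral_prod_left m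

lemma integral_az {h : G → ℝ} (hh : BdM h) {A : Set G} (hA : MeasurableSet A) {ζ : Measure G}
    [IsProbabilityMeasure ζ] (hζ : Symm ζ) :
    ∫ z, az m h A z ∂ζ = ∫ x, ind A x * cv ζ h x ∂m := by
  have hF : BdM (fun p : G × G => h p.1 * ind A (p.1 + -p.2)) :=
    (hh.comp measurable_fst).mul ((BdM.ind hA).comp (measurable_fst.add measurable_snd.neg))
  have e1 : ∫ z, az m h A z ∂ζ = ∫ x, h x * ∫ z, ind A (x + -z) ∂ζ ∂m := by
    have h0 := hF.swap m ζ
    have h1 : ∫ z, az m h A z ∂ζ = ∫ x, ∫ z, h x * ind A (x + -z) ∂ζ ∂m := h0.symm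
    rw [h1]
    refine integral_congr_ae (ae_of_all _ fun x => ?_)
    exact integral_const_mul _ _
  have e2 : ∀ x : G, ∫ z, ind A (x + -z) ∂ζ = cv ζ (ind A) x := by
    intro x
    unfold cv
    have hB : BdM (fun z : G => ind A (x + z)) := (BdM.ind hA).comp (measurable_const_add x)
    have h5 := integral_map (μ := ζ) (φ := fun x : G => -x) measurable_neg.aemeasurable
      (f := fun z : G => ind A (x + z)) hB.meas.aestronglyMeasurable
    rw [← h5]
    unfold Symm at hζ
    rw [hζ]
  rw [e1]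
  simp only [e2]
  rw [integral_mul_cv hh (BdM.ind hA) hζ]
  congr 1; funext x; ring

lemma az_lower {h : G → ℝ} (hh : BdM h) {A : Set G} (hA : MeasurableSet A) {b : ℝ}
    (hb : ∀ x, -b ≤ h x) (z : G) : -(b * m.real A) ≤ az m h A z := by
  have h1 : ∫ y, ind A (y + -z) ∂m = m.real A := by
    rw [integral_ind_shift, integral_ind A hA]
  have h2 : ∫ y, (-b) * ind A (y + -z) ∂m ≤ az m h A z := by
    refine integral_mono ((((BdM.ind hA).shift (-z)).const_mul _).integrable m)
      ((hh.mul ((BdM.ind hA).shift (-z))).integrable m) fun y => ?_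
    exact mul_le_mul_of_nonneg_right (hb y) (ind_nonneg _ _)
  rw [integral_const_mul, h1] at h2
  linarith

lemma az_abs {h : G → ℝ} (hh : BdM h) {A B : Set G} (hA : MeasurableSet A)
    (hB : MeasurableSet B) {z : G} (hAB : ∀ y ∈ A, y + z ∈ B) {E : ℝ}
    (hE : ∫ y, ind B y * h y ^ 2 ∂m ≤ E) : |az m h A z| ≤ √(E * m.real A) := by
  have e1 : az m h A z = ∫ y, (ind B y * h y) * ind A (y + -z) ∂m := by
    unfold az
    congr 1; funext y
    by_cases hy : y + -z ∈ A
    · have : y ∈ B := by simpa using hAB _ hy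
      rw [ind_of_mem this, one_mul]
    · rw [ind_of_not_mem hy]; ring
  rw [e1]
  refine (abs_integral_mul_le m ((BdM.ind hB).mul hh) ((BdM.ind hA).shift (-z))).trans ?_
  rw [← Real.sqrt_mul (integral_nonneg fun x => sq_nonneg _)]
  apply Real.sqrt_le_sqrt
  have e2 : ∫ y, ind A (y + -z) ^ 2 ∂m = m.real A := by
    simp only [ind_sq]
    rw [integral_ind_shift, integral_ind A hA]
  have e3 : ∫ y, (ind B y * h y) ^ 2 ∂m = ∫ y, ind B y * h y ^ 2 ∂m := by
    congr 1; funext y; rw [mul_pow, ind_sq]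
  rw [e2, e3]
  exact mul_le_mul_of_nonneg_right hE measureReal_nonneg

end Pool.Agent.Lib.MP_fd77c3_pr
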