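import Pool.Agent.Lib.MP_fd77c3_pr.Model
import Pool.Agent.Lib.MP_fd77c3_pr.Surv

/-!
Law of the increments of a Brownian motion in `ℝ^d` along an arithmetic progression.
-/

open MeasureTheory ProbabilityTheory Filter Topology
open scoped ENNReal NNReal

namespace Pool.Agent.Lib.MP_fd77c3_pr

/-- the closed ball as a set of functions -/
def bl (d : ℕ) (a : ℝ) : Set (Fin d → ℝ) := {x | ∑ i, x i ^ 2 ≤ a ^ 2}

lemma pi_swap {α : Type*} [MeasurableSpace α] (n d : ℕ) (γ : Measure α) [IsProbabilityMeasure γ] :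
    (Measure.pi (fun _ : Fin d => Measure.pi (fun _ : Fin n => γ))).map
        (fun (x : Fin d → Fin n → α) (j : Fin n) (i : Fin d) => x i j)
      = Measure.pi (fun _ : Fin n => Measure.pi (fun _ : Fin d => γ)) := by
  symm
  have hmeas : Measurable (fun (x : Fin d → Fin n → α) (j : Fin n) (i : Fin d) => x i j) := by
    refine measurable_pi_iff.2 fun j => measurable_pi_iff.2 fun i => ?_
    exact (measurable_pi_apply j).comp (measurable_pi_apply i)
  let C : Set (Set (Fin d → α)) := Set.pi Set.univ '' Set.pi Set.univ (fun _ : Fin d => {s : Set α | MeasurableSet s})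
  refine Measure.pi_eq_generateFrom (C := fun _ => C) (fun _ => generateFrom_pi) (fun _ => isPiSystem_pi)
    (fun _ => ⟨fun _ => Set.univ, fun _ => ?_, fun _ => ?_, ?_⟩) ?_
  · exact ⟨fun _ => Set.univ, fun _ _ => MeasurableSet.univ, Set.pi_univ _⟩
  · exact measure_lt_top _ _
  · exact Set.iUnion_const _
  · intro s hs
    choose t ht1 ht2 using hs
    have hsm : ∀ j, MeasurableSet (s j) := by
      intro j
      rw [← ht2 j]
      exact MeasurableSet.univ_pi fun i => ht1 j i (Set.mem_univ i)
    rw [Measure.map_apply hmeas (MeasurableSet.univ_pi hsm)]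
    have h1 : (fun (x : Fin d → Fin n → α) (j : Fin n) (i : Fin d) => x i j) ⁻¹' Set.pi Set.univ s
        = Set.pi Set.univ (fun i : Fin d => Set.pi Set.univ (fun j : Fin n => t j i)) := by
      ext x
      simp only [Set.mem_preimage, Set.mem_pi, Set.mem_univ, true_implies]
      constructor
      · intro h i j
        have := h j
        rw [← ht2 j] at this
        exact this i (Set.mem_univ i)
      · intro h j
        rw [← ht2 j]
        exact fun i _ => h i j
    rw [h1, Measure.pi_pi]
    simp only [Measure.pi_pi]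
    rw [Finset.prod_comm]
    refine Finset.prod_congr rfl fun j _ => ?_
    rw [← ht2 j, Measure.pi_pi]

theorem incr_law {Ω : Type*} [MeasurableSpace Ω] {P : Measure Ω} [IsProbabilityMeasure P]
    {d : ℕ} {B : ℝ≥0 → Ω → Eu d} (hB : IsBM P B) (δ : ℝ≥0) (n : ℕ) :
    P.map (fun ω (j : Fin n) (i : Fin d) => B (((j : ℕ) + 1 : ℝ≥0) * δ) ω i - B ((j : ℕ) * δ) ω i)
      = Measure.pi (fun _ : Fin n => gs d δ) := by
  have hmB : ∀ t i, Measurable fun ω => B t ω i := by
    intro t i
    exact (EuclideanSpace.proj (𝕜 := ℝ) i).continuous.measurable.comp (hB.meas t)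
  -- the increments of one coordinate
  have h1 : ∀ i : Fin d, P.map (fun ω (j : Fin n) => B (((j : ℕ) + 1 : ℝ≥0) * δ) ω i - B ((j : ℕ) * δ) ω i)
      = Measure.pi (fun _ : Fin n => gaussianReal 0 δ) := by
    intro i
    have hmono : Monotone (fun j : Fin (n + 1) => ((j : ℕ) : ℝ≥0) * δ) := by
      intro a b hab
      have : ((a : ℕ) : ℝ≥0) ≤ ((b : ℕ) : ℝ≥0) := by exact_mod_cast hab
      exact mul_le_mul_left this δ
    have hind := (hB.coord i).toIsPreBrownianReal.hasIndepIncrements n _ hmono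
    simp only [Fin.val_succ, Fin.val_castSucc, Nat.cast_add, Nat.cast_one] at hind
    rw [iIndepFun_iff_map_fun_eq_pi_map] at hind
    · rw [hind]
      congr 1
      funext j
      have h2 := ((hB.coord i).toIsPreBrownianReal.hasLaw_sub (((j : ℕ) + 1 : ℝ≥0) * δ) ((j : ℕ) * δ)).map_eq
      have h3 : nndist ((((j : ℕ) + 1 : ℝ≥0) * δ : ℝ≥0) : ℝ) ((((j : ℕ) : ℝ≥0) * δ : ℝ≥0) : ℝ) = δ := by
        ext
        rw [coe_nndist, Real.dist_eq]
        push_cast
        have : ((j : ℕ) + 1 : ℝ) * δ - (j : ℕ) * δ = δ := by ring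
        rw [this, abs_of_nonneg δ.coe_nonneg]
      have h4 : (gaussianReal 0 (nndist ((((j : ℕ) + 1 : ℝ≥0) * δ : ℝ≥0) : ℝ) ((((j : ℕ) : ℝ≥0) * δ : ℝ≥0) : ℝ)))
          = gaussianReal 0 δ := by rw [h3]
      rw [← h4]
      exact h2
    · intro j
      exact ((hmB _ i).sub (hmB _ i)).aemeasurable
  -- independence of the coordinates
  have h2 : iIndepFun (fun (i : Fin d) (ω : Ω) (j : Fin n) =>
      B (((j : ℕ) + 1 : ℝ≥0) * δ) ω i - B ((j : ℕ) * δ) ω i) P := by
    have := hB.indep.comp (fun _ : Fin d => fun (p : ℝ≥0 → ℝ) (j : Fin n) =>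
      p (((j : ℕ) + 1 : ℝ≥0) * δ) - p ((j : ℕ) * δ)) (fun _ => by
        refine measurable_pi_iff.2 fun j => ?_
        exact (measurable_pi_apply _).sub (measurable_pi_apply _))
    exact this
  rw [iIndepFun_iff_map_fun_eq_pi_map] at h2
  · simp only [h1] at h2
    have h3 := pi_swap n d (gaussianReal 0 δ)
    rw [← h2, Measure.map_map] at h3
    · exact h3
    · refine measurable_pi_iff.2 fun j => measurable_pi_iff.2 fun i => ?_
      exact (measurable_pi_apply j).comp (measurable_pi_apply i)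
    · refine measurable_pi_iff.2 fun i => measurable_pi_iff.2 fun j => ?_
      exact (hmB _ i).sub (hmB _ i)
  · intro i
    exact (measurable_pi_iff.2 fun j => (hmB _ i).sub (hmB _ i)).aemeasurable

end Pool.Agent.Lib.MP_fd77c3_pr
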