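import Mathlib

/-!
Elementary inequalities between real numbers used in the contraction estimate.
-/

open Set Filter Topology

set_option linter.unusedVariables false

namespace Pool.Agent.Lib.MP_fd77c3_pr

lemma ar1 {q N V e2 lam : ℝ} (hq : 0 < q) (hN : 0 ≤ N) (hV : 0 < V) (he : 0 ≤ e2)
    (h : N / V ≤ lam) : q * √(N * (q⁻¹ ^ 2 * (e2 / V))) ≤ √(lam * e2) := by
  have u2 : N * (q⁻¹ ^ 2 * (e2 / V)) = q⁻¹ ^ 2 * ((N / V) * e2) := by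
    field_simp
  rw [u2, Real.sqrt_mul (by positivity), Real.sqrt_sq (by positivity), ← mul_assoc,
    mul_inv_cancel₀ hq.ne', one_mul]
  exact Real.sqrt_le_sqrt (mul_le_mul_of_nonneg_right h he)

lemma ar2 {q N V ke kD lam κb : ℝ} (hk : q * kD = ke / V) (hV : 0 < V) (hN : 0 ≤ N)
    (hke : 0 ≤ ke) (hκ : ke ≤ κb) (h : N / V ≤ lam) (hlam : 0 ≤ lam) :
    q * N * kD ≤ lam * κb := by
  have u1 : q * N * kD = (N / V) * ke := by
    rw [mul_right_comm, hk]; ring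
  rw [u1]
  exact mul_le_mul h hκ hke hlam

lemma ar4 {q N V ke kD κh ε : ℝ} (hk : q * kD = ke / V) (hV : 0 < V) (hN : 0 ≤ N)
    (hκ : q * V * κh ≤ ke + ε) :
    N / V * (ke - ε) ≤ q * N * (2 * kD - κh) := by
  have u1 : q * N * (2 * kD - κh) = (N / V) * (2 * ke - q * V * κh) := by
    have : q * N * (2 * kD - κh) = 2 * N * (q * kD) - q * N * κh := by ring
    rw [this, hk]; field_simp
  rw [u1]
  exact mul_le_mul_of_nonneg_left (by linarith) (div_nonneg hN hV.le)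

lemma ar5 {d L n0 : ℕ} {N lam Λ : ℝ} (hd : 3 ≤ d) (hL : 0 < L) (hlam : 0 < lam) (hΛ : 0 < Λ)
    (hN : lam / 2 * (L:ℝ) ^ d ≤ N) :
    4 * ((n0 * L ^ 2 : ℕ) : ℝ) / N * Λ ≤ 8 * n0 * Λ / lam * ((1:ℝ) / L) := by
  have hL1 : (1:ℝ) ≤ L := by exact_mod_cast hL
  have hLR : (0:ℝ) < L := by linarith
  push_cast
  have u3 : (L:ℝ) ^ 3 ≤ (L:ℝ) ^ d := pow_le_pow_right₀ hL1 hd
  have u4 : lam / 2 * (L:ℝ) ^ 3 ≤ N :=
    (mul_le_mul_of_nonneg_left u3 (by positivity)).trans hN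
  have u5 : 4 * ((n0:ℝ) * L ^ 2) / N ≤ 4 * ((n0:ℝ) * L ^ 2) / (lam / 2 * (L:ℝ) ^ 3) :=
    div_le_div_of_nonneg_left (by positivity) (by positivity) u4
  refine (mul_le_mul_of_nonneg_right u5 hΛ.le).trans (le_of_eq ?_)
  field_simp
  ring

lemma ar6 {M M0 H0 σ : ℝ} (hM : 0 ≤ M) (hMle : M ≤ M0) (hMge : M0 / 2 ≤ M) (hH : 0 ≤ H0)
    (hσ : 0 ≤ σ) (h : (M0 * (3 + 2 * H0) + √M0) * σ ≤ M0 / 32) :
    (M * (3 + 2 * H0) + √M) * σ ≤ M / 16 := by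
  have hs : √M ≤ √M0 := Real.sqrt_le_sqrt hMle
  have v : M * (3 + 2 * H0) ≤ M0 * (3 + 2 * H0) :=
    mul_le_mul_of_nonneg_right hMle (by positivity)
  have u1 : M * (3 + 2 * H0) + √M ≤ M0 * (3 + 2 * H0) + √M0 := add_le_add v hs
  have u2 := mul_le_mul_of_nonneg_right u1 hσ
  linarith

lemma ar7 {M M0 H0 K1 Δ C3 : ℝ} (hM : 0 < M) (hMle : M ≤ M0) (hMge : M0 / 2 ≤ M) (hH : 0 ≤ H0)
    (hK : 0 < K1) (hC3 : C3 = √(2 * Δ) * (M0 * (1 + H0) + √M0) + √(K1 * M0)) :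
    (M0 / 2 / (16 * C3)) ^ 2
      ≤ (M / (16 * (√(2 * Δ) * (M * (1 + H0) + √M) + √(K1 * M)))) ^ 2 := by
  have hM0 : 0 < M0 := by linarith
  have hs : √M ≤ √M0 := Real.sqrt_le_sqrt hMle
  have u1 : √(2 * Δ) * (M * (1 + H0) + √M) + √(K1 * M) ≤ C3 := by
    rw [hC3]
    have v1 : √(K1 * M) ≤ √(K1 * M0) :=
      Real.sqrt_le_sqrt (mul_le_mul_of_nonneg_left hMle hK.le)
    have v2 : M * (1 + H0) + √M ≤ M0 * (1 + H0) + √M0 :=
      add_le_add (mul_le_mul_of_nonneg_right hMle (by positivity)) hs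
    have v3 := mul_le_mul_of_nonneg_left v2 (Real.sqrt_nonneg (2 * Δ))
    linarith
  have hKM : 0 < √(K1 * M) := Real.sqrt_pos.2 (by positivity)
  have u0 : 0 ≤ √(2 * Δ) * (M * (1 + H0) + √M) := by positivity
  have u2 : 0 < √(2 * Δ) * (M * (1 + H0) + √M) + √(K1 * M) := by linarith
  have hC : 0 < C3 := lt_of_lt_of_le u2 u1
  apply pow_le_pow_left₀ (by positivity)
  rw [div_le_div_iff₀ (by positivity) (by positivity)]
  have v1 := mul_le_mul hMge u1 u2.le hM.le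
  linarith

lemma ar8 {V K1 κb vK : ℝ} (hV : 0 < V) (hv : 0 < vK) (hK : 0 < K1) (hκ : 0 ≤ κb) :
    √(K1 * ((κb + 1) / V) * (vK / V)) = √(K1 * (κb + 1) / vK) * (vK / V) := by
  have t1 : K1 * ((κb + 1) / V) * (vK / V) = (K1 * (κb + 1) / vK) * (vK / V) ^ 2 := by
    field_simp
  rw [t1, Real.sqrt_mul (by positivity), Real.sqrt_sq (by positivity)]

lemma ar9 {V ke κb D s E2 L : ℝ} (hV : 0 < V) (hL : 0 < L) (hE : 0 < E2) (hκ : ke ≤ κb)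
    (h1 : ke * D * (1 / V) ≤ 1 / 16) (h2 : ke * s ≤ 1 / 16) (h3 : κb * E2 * (1 / L) ≤ 1 / 16) :
    ke / V * (D + V * (s + E2 / L)) ≤ 1 / 4 := by
  have e1 : ke / V * (D + V * (s + E2 / L))
      = ke * D * (1 / V) + ke * s + ke * (E2 * (1 / L)) := by
    field_simp
    ring
  have e2 : ke * (E2 * (1 / L)) ≤ κb * (E2 * (1 / L)) :=
    mul_le_mul_of_nonneg_right hκ (by positivity)
  rw [e1]
  linarith

lemma ar10 {V ke κb s E2 L : ℝ} (hV : 0 < V) (hL : 0 < L) (hE : 0 < E2) (hκ : ke ≤ κb)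
    (hs : 0 ≤ s) (h2 : κb * s ≤ 1 / 8) (h3 : κb * E2 * (1 / L) ≤ 1 / 16) :
    ke / V * (V * (s + E2 / L)) ≤ 1 / 4 := by
  have e1 : ke / V * (V * (s + E2 / L)) = ke * s + ke * (E2 * (1 / L)) := by
    field_simp
  have e2 : ke * (E2 * (1 / L)) ≤ κb * (E2 * (1 / L)) :=
    mul_le_mul_of_nonneg_right hκ (by positivity)
  have e3 : ke * s ≤ κb * s := mul_le_mul_of_nonneg_right hκ hs
  rw [e1]
  linarith

lemma ar11 {lam ke ε V r : ℝ} (hke : 0 ≤ ke) (hr1 : r ≤ lam) (hr2 : lam - 1 / V ≤ r)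
    (hε : 0 < ε) : lam * ke - lam * ε - ke * (1 / V) ≤ r * (ke - ε) := by
  have u1 : (lam - 1 / V) * ke ≤ r * ke := mul_le_mul_of_nonneg_right hr2 hke
  have u2 : r * ε ≤ lam * ε := mul_le_mul_of_nonneg_right hr1 hε.le
  have u3 : (lam - 1 / V) * ke = lam * ke - ke * (1 / V) := by ring
  have u4 : r * (ke - ε) = r * ke - r * ε := by ring
  linarith

lemma ar12 {lam κb c2 : ℝ} (hlam : 0 < lam) (hκ : 0 ≤ κb) (hc : 0 < c2) :
    ∃ η > 0, η ≤ 1 / 2 ∧ lam * (κb + 1) * η ≤ c2 / 16 := by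
  refine ⟨min (1 / 2) (c2 / (16 * (lam * (κb + 1) + 1))), lt_min (by norm_num) (by positivity),
    min_le_left _ _, ?_⟩
  set η := min (1 / 2) (c2 / (16 * (lam * (κb + 1) + 1))) with hη
  have hη0 : 0 < η := lt_min (by norm_num) (by positivity)
  have h1 : η ≤ c2 / (16 * (lam * (κb + 1) + 1)) := min_le_right _ _
  have h2 : lam * (κb + 1) * η ≤ (lam * (κb + 1) + 1) * η :=
    mul_le_mul_of_nonneg_right (by linarith) hη0.le
  refine h2.trans ?_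
  calc (lam * (κb + 1) + 1) * η ≤ (lam * (κb + 1) + 1) * (c2 / (16 * (lam * (κb + 1) + 1))) :=
        mul_le_mul_of_nonneg_left h1 (by positivity)
    _ = c2 / 16 := by field_simp

lemma ar13 {lam c2 : ℝ} (hlam : 0 < lam) (hc : 0 < c2) :
    ∃ ε > 0, ε ≤ 1 ∧ lam * ε ≤ c2 / 16 := by
  refine ⟨min 1 (c2 / (16 * lam)), lt_min one_pos (by positivity), min_le_left _ _, ?_⟩
  calc lam * min 1 (c2 / (16 * lam)) ≤ lam * (c2 / (16 * lam)) :=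
        mul_le_mul_of_nonneg_left (min_le_right _ _) hlam.le
    _ = c2 / 16 := by field_simp

lemma ar14 {lam ke κb c2 Λ a4 η σ a1 a2 lε kV : ℝ} (hlam : 0 < lam) (hκ : ke ≤ κb)
    (hc : 0 < c2) (hΛ : Λ = lam * κb + c2 + 1) (hη0 : 0 ≤ η)
    (h4 : lam * ke - lε - kV ≤ a4) (hlε : lε ≤ c2 / 16) (hkV : kV ≤ c2 / 16)
    (h4a : |a4| ≤ lam * (κb + 1)) (hη : lam * (κb + 1) * η ≤ c2 / 16)
    (hσ : 2 * σ * (a1 + a2) ≤ c2 / 8) :
    lam * ke + c2 / 2 ≤ min Λ (c2 + (a4 - |a4| * η) - 2 * σ * (a1 + a2) - 2 * (c2 / 32)) := by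
  apply le_min
  · rw [hΛ]
    have := mul_le_mul_of_nonneg_left hκ hlam.le
    linarith
  · have u1 : |a4| * η ≤ lam * (κb + 1) * η := mul_le_mul_of_nonneg_right h4a hη0
    linarith

end Pool.Agent.Lib.MP_fd77c3_pr
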