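import Pool.Agent.Lib.MP_fd77c3_pr.TorusAux
import Pool.Agent.Lib.MP_fd77c3_pr.TorusArith

/-!
The contraction estimate on the torus of a fixed side length.
-/

open MeasureTheory Set Filter Topology ProbabilityTheory
open scoped ENNReal NNReal

set_option linter.unusedSectionVars false
set_option linter.unusedTactic false
set_option linter.unusedSimpArgs false
set_option linter.unusedVariables false

namespace Pool.Agent.Lib.MP_fd77c3_pr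

instance npart_inv (N d : ℕ) : (volume : Measure (Fin N → Tor d)).IsAddRightInvariant := by
  have h1 : (volume : Measure (Tor d)).IsAddLeftInvariant := inferInstance
  have h2 : (Measure.pi (fun _ : Fin N => (volume : Measure (Tor d)))).IsAddLeftInvariant :=
    Measure.pi.isAddLeftInvariant _
  have h3 : (volume : Measure (Fin N → Tor d)).IsAddLeftInvariant := h2
  exact inferInstance

theorem torus_fixed {d L q N D Δ R0 n0 : ℕ} (hd : 3 ≤ d) (hL0 : 0 < L) (hq1 : 0 < q) {δ : ℝ≥0}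
    (hqδ : (q:ℝ≥0) * δ = 1)
    {lam a κb vK E1 E2 : ℝ} (hlam : 0 < lam) (ha : 0 < a) (hκ : 0 ≤ κb)
    {K : Set (Fin d → ℝ)} (hK : MeasurableSet K) (hKa : K ⊆ cube d a)
    (hvKe : vK = volume.real K) (hvK : 0 < vK) (hE1p : 0 < E1) (hE2p : 0 < E2)
    (hsum : ∀ {b : ℕ}, 1 ≤ b → ∀ J : ℕ,
      ∑ j ∈ Finset.Ico b J, rt d L j ≤ (L:ℝ) ^ d * (E1 / √b + E2 / L))
    (hΔ1 : 1 ≤ Δ) (hΔ : κb * (E1 / √(Δ:ℝ)) ≤ 1 / 8)
    (hR0 : 3 / 4 ≤ (gs d Δ).real (cube d R0))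
    {s1 K1 H0 M0 C3 c2 : ℝ} (hs1 : s1 = E1 + E2) (hK1 : K1 = 1 + (2 * (a + R0)) ^ d * s1)
    (hH0 : H0 = √(K1 * (κb + 1) / vK)) (hM0 : M0 = lam * vK)
    (hC3 : C3 = √(2 * Δ) * (M0 * (1 + H0) + √M0) + √(K1 * M0))
    (hc2 : c2 = (M0 / 2 / (16 * C3)) ^ 2) (hc2p : 0 < c2)
    (hn01 : 1 ≤ n0) (hn0 : rt d L (n0 * L ^ 2) ≤ 1 / 2)
    {e : (Fin d → ℝ) → ℝ} (he : BdM e) (he0 : ∀ x, 0 ≤ e x) (heK : ∀ x, x ∉ K → e x = 0)
    {ke : ℝ} (hke : ke = ∫ x, e x) (hκe : ke ≤ κb) {e2 : ℝ} (he2 : e2 = ∫ x, e x ^ 2)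
    {Λ η ε3 σ : ℝ} (hΛ : Λ = lam * κb + c2 + 1) (hη0 : 0 < η) (hη2 : η ≤ 1 / 2)
    (hη3 : lam * (κb + 1) * η ≤ c2 / 16) (hε3p : 0 < ε3) (hε31 : ε3 ≤ 1)
    (hε32 : lam * ε3 ≤ c2 / 16) (hσ2 : Λ / q ≤ σ ^ 2) (hσ0 : 0 ≤ σ)
    (hqη : 2 * σ ^ 2 ≤ η / 2) (hqa : 2 * σ * (√(lam * e2) + lam * κb) ≤ c2 / 8)
    (hqM : (M0 * (3 + 2 * H0) + √M0) * σ ≤ M0 / 32)
    (hD1 : 1 ≤ D) (hDa : ke ^ 2 * (E1 / √(D:ℝ)) ≤ ε3 / 4) (hDb : ke * (E1 / √(D:ℝ)) ≤ 1 / 16)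
    (h1 : 2 * (a + R0) < (L:ℝ)) (h2 : (1:ℝ) / (L:ℝ) ^ d ≤ lam / 2)
    (h3 : 8 * n0 * Λ / lam * ((1:ℝ) / L) ≤ η / 2)
    (h4 : κb * E2 * ((1:ℝ) / L) ≤ 1 / 16) (h5 : ke ^ 2 * E2 * ((1:ℝ) / L) ≤ ε3 / 4)
    (h6 : ke * D * ((1:ℝ) / (L:ℝ) ^ d) ≤ 1 / 16) (h7 : ke * ((1:ℝ) / (L:ℝ) ^ d) ≤ c2 / 16)
    (h8 : ∑ i ∈ Finset.range D, ∑ l ∈ Finset.range q,
      ((L:ℝ) ^ d * ∫ g : Tor d, e (sec d L g)
        * cv (pt d L (l * δ + i)) (fun g => e (sec d L g)) g) ≤ q * (ke + ε3 / 2))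
    (hN1 : (N:ℝ) ≤ lam * (L:ℝ) ^ d) (hN2 : lam * (L:ℝ) ^ d - 1 ≤ (N:ℝ))
    {f : (Fin N → Tor d) → ℝ} (hf : BdM f)
    (hfK : ∀ x : Fin N → Tor d, (∃ i, sec d L (x i) ∈ K) → f x = 0) :
    ∫ x, bop N (pt d L) δ f x ^ 2 ≤ (1 - (lam * ke + c2 / 2) / q) * ∫ x, f x ^ 2 := by
  have hLR : (0:ℝ) < L := by exact_mod_cast hL0
  have hL1 : (1:ℝ) ≤ L := by exact_mod_cast hL0
  have hqR : (0:ℝ) < q := by exact_mod_cast hq1
  have hLd : (0:ℝ) < (L:ℝ) ^ d := by positivity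
  have hke0 : 0 ≤ ke := by rw [hke]; exact integral_nonneg he0
  have he20 : 0 ≤ e2 := by rw [he2]; exact integral_nonneg fun _ => sq_nonneg _
  have hs1p : 0 < s1 := by rw [hs1]; positivity
  have hK1p : 0 < K1 := by rw [hK1]; positivity
  have hH0p : 0 ≤ H0 := by rw [hH0]; exact Real.sqrt_nonneg _
  have hM0p : 0 < M0 := by rw [hM0]; positivity
  have hΛp : 0 < Λ := by rw [hΛ]; positivity
  have hNr1 : (N:ℝ) / (L:ℝ) ^ d ≤ lam := by rw [div_le_iff₀ hLd]; exact hN1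
  have hNr2 : lam - 1 / (L:ℝ) ^ d ≤ (N:ℝ) / (L:ℝ) ^ d := by
    rw [le_div_iff₀ hLd, sub_mul, div_mul_cancel₀ _ hLd.ne']; exact hN2
  have hNr3 : lam / 2 ≤ (N:ℝ) / (L:ℝ) ^ d := by linarith
  have hNr0 : 0 < (N:ℝ) / (L:ℝ) ^ d := by linarith
  have hNR : (0:ℝ) < N := by
    by_contra h
    have : (N:ℝ) / (L:ℝ) ^ d ≤ 0 := div_nonpos_of_nonpos_of_nonneg (not_lt.1 h) hLd.le
    linarith
  have hNpos : 0 < N := by exact_mod_cast hNR
  -- geometry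
  have hR0' : (0:ℝ) ≤ R0 := Nat.cast_nonneg _
  have hcubeA : cube d a ⊆ fd d L := cube_subset_fd (by linarith)
  have hKf : K ⊆ fd d L := hKa.trans hcubeA
  have hcubeB : cube d (a + R0) ⊆ fd d L := cube_subset_fd h1
  obtain ⟨A, hA⟩ : ∃ A, A = tset d L K := ⟨_, rfl⟩
  obtain ⟨B, hB⟩ : ∃ B, B = tset d L (cube d (a + R0)) := ⟨_, rfl⟩
  obtain ⟨Z, hZ⟩ : ∃ Z, Z = tset d L (cube d R0) := ⟨_, rfl⟩
  have hAm : MeasurableSet A := by rw [hA]; exact measurableSet_tset d L hK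
  have hBm : MeasurableSet B := by rw [hB]; exact measurableSet_tset d L (measurableSet_cube _ _)
  have hZm : MeasurableSet Z := by rw [hZ]; exact measurableSet_tset d L (measurableSet_cube _ _)
  have hmA : (L:ℝ) ^ d * volume.real A = vK := by
    rw [hvKe, hA]; exact volume_tset hLR hK hKf
  have hmA' : volume.real A = vK / (L:ℝ) ^ d := by
    rw [eq_div_iff hLd.ne', mul_comm]; exact hmA
  have hmB : (L:ℝ) ^ d * volume.real B = (2 * (a + R0)) ^ d := by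
    rw [hB, volume_tset hLR (measurableSet_cube _ _) hcubeB, volume_cube d (by positivity)]
  have hmApos : 0 < volume.real A := by rw [hmA']; positivity
  have hAB : ∀ z ∈ Z, ∀ y ∈ A, y + z ∈ B := by
    intro z hz y hy
    rw [hZ] at hz
    rw [hA] at hy
    rw [hB]
    exact sec_add hLR (by linarith) (show y ∈ tset d L (cube d a) from hKa hy) hz
  -- charge
  obtain ⟨eD, heD⟩ : ∃ eD : Tor d → ℝ, eD = fun g => (q:ℝ)⁻¹ * e (sec d L g) := ⟨_, rfl⟩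
  have heG : BdM (fun g : Tor d => e (sec d L g)) := he.comp (measurable_sec d L)
  have heDB : BdM eD := by rw [heD]; exact heG.const_mul _
  have heD0 : ∀ x, 0 ≤ eD x := fun x => by
    rw [heD]; exact mul_nonneg (by positivity) (he0 _)
  have heDA : ∀ y, y ∉ A → eD y = 0 := by
    intro y hy
    rw [heD]
    change (q:ℝ)⁻¹ * e (sec d L y) = 0
    rw [heK _ (fun h => hy (by rw [hA]; exact h)), mul_zero]
  have hint : (L:ℝ) ^ d * ∫ g : Tor d, e (sec d L g) = ke := by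
    rw [hke]
    exact integral_tor_supp hLR he.meas fun x hx => heK x fun h => hx (hKf h)
  have hint2 : (L:ℝ) ^ d * ∫ g : Tor d, e (sec d L g) ^ 2 = e2 := by
    rw [he2]
    exact integral_tor_supp (φ := fun x => e x ^ 2) hLR he.sq.meas fun x hx => by
      change e x ^ 2 = 0
      rw [heK x fun h => hx (hKf h)]; norm_num
  have hkD : ∫ g, eD g = (q:ℝ)⁻¹ * (ke / (L:ℝ) ^ d) := by
    rw [heD, integral_const_mul, ← hint, mul_div_cancel_left₀ _ hLd.ne']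
  have hkD2 : ∫ g, eD g ^ 2 = (q:ℝ)⁻¹ ^ 2 * (e2 / (L:ℝ) ^ d) := by
    have : ∀ g, eD g ^ 2 = (q:ℝ)⁻¹ ^ 2 * e (sec d L g) ^ 2 := fun g => by
      rw [heD]
      change ((q:ℝ)⁻¹ * e (sec d L g)) ^ 2 = _
      rw [mul_pow]
    simp only [this]
    rw [integral_const_mul, ← hint2, mul_div_cancel_left₀ _ hLd.ne']
  have hqkD : (q:ℝ) * ∫ g, eD g = ke / (L:ℝ) ^ d := by
    rw [hkD, ← mul_assoc, mul_inv_cancel₀ hqR.ne', one_mul]
  -- J
  obtain ⟨J, hJ1, hJD, hJr⟩ : ∃ J : ℕ, 1 ≤ J ∧ D ≤ J ∧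
      q * N * (rt d L J * ∫ g, eD g) ≤ c2 / 32 := by
    have t1 : Tendsto (fun J : ℕ => q * N * (rt d L J * ∫ g, eD g)) atTop (𝓝 0) := by
      simpa using ((rt_rate d hL0).tendsto.mul_const (∫ g, eD g)).const_mul ((q:ℝ) * N)
    obtain ⟨J, hJ⟩ := (((eventually_ge_atTop 1).and (eventually_ge_atTop D)).and
      (t1.eventually (gt_mem_nhds (by positivity : (0:ℝ) < c2 / 32)))).exists
    exact ⟨J, hJ.1.1, hJ.1.2, hJ.2.le⟩
  have hS1 : ∀ J : ℕ, ∑ j ∈ Finset.Ico 1 J, rt d L j ≤ (L:ℝ) ^ d * s1 := by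
    intro J
    refine (hsum le_rfl J).trans ?_
    refine mul_le_mul_of_nonneg_left ?_ hLd.le
    rw [hs1]
    have t1 : E1 / √((1:ℕ):ℝ) = E1 := by simp
    have t2 : E2 / L ≤ E2 := div_le_self hE2p.le hL1
    rw [t1]; linarith
  have hK1' : 1 + volume.real B * ((L:ℝ) ^ d * s1) = K1 := by
    rw [hK1, ← hmB]; ring
  have hrate := rt_rate d hL0
  have hsemi := pt_semi d L
  obtain ⟨h, hh⟩ : ∃ h, h = pot volume (pt d L) q δ eD J := ⟨_, rfl⟩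
  have hhB : BdM h := by rw [hh]; exact heDB.pot hsemi q δ J
  obtain ⟨κh, hκh⟩ : ∃ κh, κh = ∫ x, h x * (eD x - cv (pt d L J) eD x) := ⟨_, rfl⟩
  have hκle : (q:ℝ) * (L:ℝ) ^ d * κh ≤ ke + ε3 := by
    have hint' : (L:ℝ) ^ d * ∫ g : Tor d, e (sec d L g) = ∫ x, e x := by rw [hint, hke]
    have t1 := kappa_bound (δ := δ) hL0 hq1 hD1 hJD he he0 hint' (hsum hD1 J) h8
    rw [← hke] at t1
    have t2 : ke ^ 2 * (E1 / √(D:ℝ) + E2 / L) ≤ ε3 / 2 := by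
      have : ke ^ 2 * (E1 / √(D:ℝ) + E2 / L) = ke ^ 2 * (E1 / √(D:ℝ)) + ke ^ 2 * E2 * (1 / L) := by
        ring
      rw [this]; linarith
    rw [hκh, hh, heD]
    refine t1.trans ?_
    linarith
  -- local energy of h
  have hloc : ∫ y, ind B y * h y ^ 2 ≤ K1 * ((κb + 1) / (L:ℝ) ^ d) := by
    have t1 := pot_local hsemi hrate hS1 hBm heDB hqδ J (m := (volume : Measure (Tor d)))
    rw [hK1', ← hh, ← hκh] at t1
    refine t1.trans (mul_le_mul_of_nonneg_left ?_ hK1p.le)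
    rw [le_div_iff₀ hLd]
    linarith
  have haz : ∀ z ∈ Z, |az volume h A z| ≤ H0 * volume.real A := by
    intro z hz
    refine (az_abs hhB hAm hBm (hAB z hz) hloc).trans (le_of_eq ?_)
    rw [hmA', hH0]
    exact ar8 hLd hvK hK1p hκ
  have hD0 : (0:ℝ) ≤ E1 / √(Δ:ℝ) := by positivity
  have hhlow : ∀ x, -(1/4) ≤ h x := by
    intro x
    have t1 := pot_lower hsemi hrate heDB heD0 (q := q) (δ := δ) hD1 hJD (hsum hD1 J) x
      (m := (volume : Measure (Tor d)))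
    rw [hqkD, ← hh] at t1
    have t2 := ar9 (D := (D:ℝ)) hLd hLR hE2p hκe h6 hDb h4
    linarith
  have hpΔ : IsProbabilityMeasure (pt d L Δ) := hsemi.prob Δ
  have hintaz : ∫ z, az volume h A z ∂(pt d L Δ) ≤ volume.real A / 4 := by
    rw [integral_az hhB hAm (hsemi.symm Δ), hh]
    refine (pot_far hsemi hrate heDB heD0 hΔ1 (hsum hΔ1 (Δ + J)) hAm).trans ?_
    rw [hqkD]
    have e4 := ar10 hLd hLR hE2p hκe hD0 hΔ h4
    calc _ ≤ volume.real A * (1 / 4) := mul_le_mul_of_nonneg_left e4 hmApos.le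
      _ = volume.real A / 4 := by ring
  have hζZ : 3 / 4 ≤ (pt d L Δ).real Z := by
    rw [hZ]
    exact pt_cube_ge hLR (by linarith) Δ hR0
  have hθ := theta_low hhB hAm hZm hζZ hhlow hintaz
  -- parameters
  have hM' : N * volume.real A = (N / (L:ℝ) ^ d) * vK := by rw [hmA']; ring
  have hMle : N * volume.real A ≤ M0 := by
    rw [hM', hM0]; exact mul_le_mul_of_nonneg_right hNr1 hvK.le
  have hMge : M0 / 2 ≤ N * volume.real A := by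
    rw [hM', hM0]
    have := mul_le_mul_of_nonneg_right hNr3 hvK.le
    linarith
  have hMp : 0 < N * volume.real A := by linarith
  have ha4low := ar11 hke0 hNr1 hNr2 hε3p
  have ha4abs : |(N / (L:ℝ) ^ d) * (ke - ε3)| ≤ lam * (κb + 1) := by
    rw [abs_mul, abs_of_pos hNr0]
    apply mul_le_mul hNr1 _ (abs_nonneg _) hlam.le
    rw [abs_le]
    constructor <;> linarith
  have p1 : q * √(N * ∫ y, eD y ^ 2) ≤ √(lam * e2) := by
    rw [hkD2]; exact ar1 hqR hNR.le hLd he20 hNr1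
  have p2 : q * N * (∫ y, eD y) ≤ lam * κb := ar2 hqkD hLd hNR.le hke0 hκe hNr1 hlam.le
  have p4 : (N / (L:ℝ) ^ d) * (ke - ε3) ≤ q * N * (2 * (∫ y, eD y) - κh) :=
    ar4 hqkD hLd hNR.le hκle
  have p5 : 4 * ((n0 * L ^ 2 : ℕ) : ℝ) / N * Λ + 2 * σ ^ 2 ≤ η := by
    have u0 : lam / 2 * (L:ℝ) ^ d ≤ N := by
      rw [le_div_iff₀ hLd] at hNr3; exact hNr3
    have u1 := ar5 (n0 := n0) hd hL0 hlam hΛp u0
    linarith
  have p6 := ar6 hMp.le hMle hMge hH0p hσ0 hqM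
  have p7 := ar7 hMp hMle hMge hH0p hK1p hC3
  rw [← hc2] at p7
  have hj0 : 1 ≤ n0 * L ^ 2 := Nat.one_le_iff_ne_zero.2 (by positivity)
  have hfA : ∀ x : Fin N → Tor d, (∃ i, x i ∈ A) → f x = 0 := by
    intro x hx
    apply hfK
    obtain ⟨i, hi⟩ := hx
    rw [hA] at hi
    exact ⟨i, hi⟩
  have p7' : c2 ≤ (N * volume.real A / (16 * (√(2 * Δ) * (N * volume.real A * (1 + H0)
      + √(N * volume.real A)) + √((1 + volume.real B * ((L:ℝ) ^ d * s1))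
        * (N * volume.real A))))) ^ 2 := by
    rw [hK1']; exact p7
  rw [hh] at haz hθ
  rw [hκh, hh] at p4
  have key := step_abs (m := (volume : Measure (Tor d))) (μ := (volume : Measure (Fin N → Tor d)))
    hsemi hrate hqδ hq1 hNpos hS1 hj0 hn0
    hAm hBm hmApos heDB heD0 heDA hJ1 hZm hAB hH0p haz hθ p1 p2 hJr p4 hσ2 hσ0 p5 hη2 p6 p7' hf hfA
  refine key.trans ?_
  have hf0 : 0 ≤ ∫ x, f x ^ 2 := integral_nonneg fun _ => sq_nonneg _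
  refine mul_le_mul_of_nonneg_right ?_ hf0
  have hmin := ar14 (ke := ke) (c2 := c2) hlam hκe hc2p hΛ hη0.le ha4low hε32 h7 ha4abs hη3 hqa
  have := div_le_div_of_nonneg_right hmin hqR.le
  linarith

end Pool.Agent.Lib.MP_fd77c3_pr
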