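import Pool.Agent.Lib.MP_fd77c3_pr.TorusCmp
import Pool.Agent.Lib.MP_fd77c3_pr.Iter2
import Pool.Agent.Lib.MP_fd77c3_pr.TorusFixed

/-!
From the torus to space.
-/

open MeasureTheory Set Filter Topology ProbabilityTheory
open scoped ENNReal NNReal

set_option linter.unusedSectionVars false
set_option linter.unusedTactic false
set_option linter.unusedSimpArgs false

namespace Pool.Agent.Lib.MP_fd77c3_pr

/-- Expected volume swept by the target relative to a trap, given the increments of the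
particle. -/
noncomputable def wv {d : ℕ} (K : Set (Fin d → ℝ)) (δ : ℝ≥0) (n : ℕ) (ξ : Fin n → Fin d → ℝ) : ℝ :=
  ∫ x, (1 - surv K (gs d δ) n ξ x)

section wv

variable {d : ℕ} {K : Set (Fin d → ℝ)} (hK : MeasurableSet K) (hvK : volume K < ∞)
  (δ : ℝ≥0) (n : ℕ) (ξ : Fin n → Fin d → ℝ)

include hK hvK

lemma lintegral_hitE_lt_top : ∫⁻ x, hitE K (gs d δ) n ξ x < ∞ := by
  refine (lintegral_hitE_le (μ := volume) hK n ξ).trans_lt ?_
  exact ENNReal.mul_lt_top (by simp) hvK

lemma integrable_hit : Integrable (fun x => 1 - surv K (gs d δ) n ξ x) := by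
  refine ⟨((bdM_surv_right hK n ξ).meas.const_sub 1).aestronglyMeasurable, ?_⟩
  rw [hasFiniteIntegral_iff_ofReal]
  · exact lintegral_hitE_lt_top hK hvK δ n ξ
  · exact ae_of_all _ fun x => by
      simp only [Pi.zero_apply]
      linarith [surv_le_one (γ := gs d δ) hK n ξ x]

lemma ofReal_wv : ENNReal.ofReal (wv K δ n ξ) = ∫⁻ x, hitE K (gs d δ) n ξ x := by
  unfold wv
  rw [ofReal_integral_eq_lintegral_ofReal (integrable_hit hK hvK δ n ξ)]
  · rfl
  · exact ae_of_all _ fun x => by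
      simp only [Pi.zero_apply]
      linarith [surv_le_one (γ := gs d δ) hK n ξ x]

lemma wv_nonneg : 0 ≤ wv K δ n ξ := by
  refine integral_nonneg fun x => ?_
  simp only [Pi.zero_apply]
  linarith [surv_le_one (γ := gs d δ) hK n ξ x]

lemma wv_eq : wv K δ n ξ = (∫⁻ x, hitE K (gs d δ) n ξ x).toReal := by
  rw [← ofReal_wv hK hvK, ENNReal.toReal_ofReal (wv_nonneg hK hvK δ n ξ)]

lemma wv_le : wv K δ n ξ ≤ (n + 1) * volume.real K := by
  rw [wv_eq hK hvK]
  have h := lintegral_hitE_le (μ := (volume : Measure (Fin d → ℝ))) (γ := gs d δ) hK n ξ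
  refine (ENNReal.toReal_mono ?_ h).trans (le_of_eq ?_)
  · exact (ENNReal.mul_lt_top (by simp) hvK).ne
  · rw [ENNReal.toReal_mul, ENNReal.toReal_add (by simp) (by simp)]
    simp [Measure.real]

lemma measurable_wv : Measurable (fun ξ => wv K δ n ξ) := by
  have h1 : (fun ξ => wv K δ n ξ) = fun ξ => (∫⁻ x, hitE K (gs d δ) n ξ x).toReal := by
    funext ξ; exact wv_eq hK hvK δ n ξ
  rw [h1]
  exact (Measurable.lintegral_prod_right' (measurable_hitE hK n)).ennreal_toReal

/-- Comparison with the torus. -/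
lemma surv_torus_ge {L : ℝ} (hL : 0 < L) (hKf : K ⊆ fd d L) :
    1 - wv K δ n ξ / L ^ d
      ≤ ∫ g, surv (tset d L K) (pt d L δ) n (fun i => prj d L (ξ i)) g := by
  have hp : IsProbabilityMeasure (pt d L δ) := (pt_semi d L).prob δ
  have hA : MeasurableSet (tset d L K) := measurableSet_tset d L hK
  have h1 := lintegral_hit_torus hL hK hKf δ n ξ
  rw [← ofReal_wv hK hvK] at h1
  have hB := bdM_surv_right (ν := pt d L δ) hA n (fun i => prj d L (ξ i))
  have h2 : ENNReal.ofReal (∫ g, (1 - surv (tset d L K) (pt d L δ) n (fun i => prj d L (ξ i)) g))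
      = ∫⁻ g, hitE (tset d L K) (pt d L δ) n (fun i => prj d L (ξ i)) g := by
    have hg : Integrable (fun g : Tor d =>
        1 - surv (tset d L K) (pt d L δ) n (fun i => prj d L (ξ i)) g) :=
      (integrable_const _).sub (hB.integrable _)
    rw [ofReal_integral_eq_lintegral_ofReal hg]
    · rfl
    · exact ae_of_all _ fun x => by
        simp only [Pi.zero_apply]
        linarith [surv_le_one (γ := pt d L δ) hA n (fun i => prj d L (ξ i)) x]
  rw [← h2, ← ENNReal.ofReal_mul (by positivity),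
    ENNReal.ofReal_le_ofReal_iff (wv_nonneg hK hvK δ n ξ)] at h1
  rw [integral_sub (integrable_const _) (hB.integrable _)] at h1
  simp only [integral_const, probReal_univ, smul_eq_mul, mul_one] at h1
  have hLd : 0 < L ^ d := by positivity
  have h3 : 1 - ∫ g, surv (tset d L K) (pt d L δ) n (fun i => prj d L (ξ i)) g
      ≤ wv K δ n ξ / L ^ d := by
    rw [le_div_iff₀ hLd]
    linarith
  linarith

end wv

lemma pow_lower {u : ℝ} (hu0 : 0 ≤ u) (hu1 : u < 1) (N : ℕ) :
    Real.exp (-(N * (u / (1 - u)))) ≤ (1 - u) ^ N := by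
  have h1 : 0 < 1 - u := by linarith
  have h2 := Real.one_sub_inv_le_log_of_pos h1
  have h3 : 1 - (1 - u)⁻¹ = -(u / (1 - u)) := by field_simp; ring
  rw [h3] at h2
  have h4 : Real.exp (-(u / (1 - u))) ≤ 1 - u := by
    rw [← Real.exp_log h1] at *
    simpa using h2
  calc Real.exp (-(N * (u / (1 - u)))) = Real.exp (-(u / (1 - u))) ^ N := by
        rw [← Real.exp_nat_mul]; congr 1; ring
    _ ≤ (1 - u) ^ N := pow_le_pow_left₀ (Real.exp_pos _).le h4 N

lemma exp_lower {w C V lam N : ℝ} (hw0 : 0 ≤ w) (hwC : w ≤ C) (hV : 0 < V) (hCV : 2 * C ≤ V)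
    (hlam : 0 < lam) (hN : N ≤ lam * V) :
    N * ((w / V) / (1 - w / V)) ≤ lam * w + 2 * lam * C ^ 2 / V := by
  have hu0 : 0 ≤ w / V := by positivity
  have hu1 : w / V ≤ 1 / 2 := by rw [div_le_iff₀ hV]; linarith
  have h1 : 0 < 1 - w / V := by linarith
  have hC : 0 ≤ C := hw0.trans hwC
  have h2 : N * ((w / V) / (1 - w / V)) ≤ lam * V * ((w / V) / (1 - w / V)) :=
    mul_le_mul_of_nonneg_right hN (by positivity)
  refine h2.trans ?_
  have h3 : lam * V * ((w / V) / (1 - w / V)) = lam * w / (1 - w / V) := by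
    field_simp
  rw [h3, div_le_iff₀ h1]
  have h4 : w / V ≤ C / V := by gcongr
  have h5 : lam * w * (w / V) ≤ lam * C * (C / V) := by gcongr
  have h6 : 2 * lam * C ^ 2 / V * (1 / 2) ≤ 2 * lam * C ^ 2 / V * (1 - w / V) := by
    apply mul_le_mul_of_nonneg_left _ (by positivity)
    linarith
  have h7 : 2 * lam * C ^ 2 / V * (1 / 2) = lam * C * (C / V) := by
    field_simp
  have h8 : (lam * w + 2 * lam * C ^ 2 / V) * (1 - w / V)
      = lam * w - lam * w * (w / V) + 2 * lam * C ^ 2 / V * (1 - w / V) := by ring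
  rw [h8]
  linarith

theorem space_bound {d : ℕ} (hd : 1 ≤ d) {lam a : ℝ} (hlam : 0 < lam) {K : Set (Fin d → ℝ)}
    (hK : MeasurableSet K) (hKa : K ⊆ cube d a) (δ : ℝ≥0) (n : ℕ) {ρ : ℝ} (hρ : 0 ≤ ρ)
    (H : ∀ᶠ L : ℕ in atTop, ∀ f : (Fin ⌊lam * (L:ℝ) ^ d⌋₊ → Tor d) → ℝ, BdM f →
      (∀ x : Fin ⌊lam * (L:ℝ) ^ d⌋₊ → Tor d, (∃ i, sec d L (x i) ∈ K) → f x = 0) →
      ∫ x, bop ⌊lam * (L:ℝ) ^ d⌋₊ (pt d L) δ f x ^ 2 ≤ ρ * ∫ x, f x ^ 2) :
    ∫ ξ, Real.exp (-(lam * wv K δ n ξ)) ∂(Measure.pi fun _ : Fin n => gs d δ) ≤ ρ ^ n := by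
  have hvK : volume K < ∞ := (measure_mono hKa).trans_lt (volume_cube_lt_top d a)
  obtain ⟨C, hC⟩ : ∃ C : ℝ, C = (n + 1) * volume.real K := ⟨_, rfl⟩
  have hC0 : 0 ≤ C := by rw [hC]; positivity
  obtain ⟨I, hI⟩ : ∃ I : ℝ, I = ∫ ξ, Real.exp (-(lam * wv K δ n ξ))
    ∂(Measure.pi fun _ : Fin n => gs d δ) := ⟨_, rfl⟩
  rw [← hI]
  have hLd : Tendsto (fun L : ℕ => ((L:ℝ) ^ d)) atTop atTop :=
    (tendsto_pow_atTop (by omega)).comp tendsto_natCast_atTop_atTop
  have ev1 : ∀ᶠ L : ℕ in atTop, 2 * C ≤ (L:ℝ) ^ d := hLd.eventually_ge_atTop _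
  have ev2 : ∀ᶠ L : ℕ in atTop, 2 * a < (L:ℝ) :=
    tendsto_natCast_atTop_atTop.eventually_gt_atTop _
  have key : ∀ᶠ L : ℕ in atTop, Real.exp (-(2 * lam * C ^ 2 / (L:ℝ) ^ d)) * I ≤ ρ ^ n := by
    filter_upwards [H, ev1, ev2, eventually_gt_atTop 0] with L hH h1 h2 hL0
    have hLR : (0:ℝ) < L := by exact_mod_cast hL0
    have hV : (0:ℝ) < (L:ℝ) ^ d := by positivity
    have hKf : K ⊆ fd d L := hKa.trans (cube_subset_fd h2)
    have hA : MeasurableSet (tset d L K) := measurableSet_tset d L hK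
    have hp := (pt_semi d L).prob δ
    have hN1 : (⌊lam * (L:ℝ) ^ d⌋₊ : ℝ) ≤ lam * (L:ℝ) ^ d := Nat.floor_le (by positivity)
    generalize ⌊lam * (L:ℝ) ^ d⌋₊ = N at hH hN1
    have h3 := Fn_integral_le (μ := (volume : Measure (Fin N → Tor d))) (pt_semi d L) hA δ hρ
      (fun f hf hfA => hH f hf hfA) n
    have h4 := Fn_integral_eq (m := (volume : Measure (Tor d))) (N := N) (ν := pt d L δ) hA n
    have h5 : ∫ x, Fn N (tset d L K) (pt d L δ) n x
        = ∫ ξ, (∫ y, surv (tset d L K) (pt d L δ) n ξ y) ^ N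
          ∂(Measure.pi fun _ : Fin n => pt d L δ) := h4
    rw [h5] at h3
    -- transfer of the measure
    have hmp := Measure.pi_map_pi (μ := fun _ : Fin n => gs d δ)
      (f := fun _ : Fin n => prj d L)
      (hμ := fun _ => by
        have : IsProbabilityMeasure ((gs d δ).map (prj d L)) := hp
        infer_instance)
      (fun _ => (measurable_prj d L).aemeasurable)
    have hmp' : (Measure.pi fun _ : Fin n => pt d L δ)
        = (Measure.pi fun _ : Fin n => gs d δ).map (fun ξ i => prj d L (ξ i)) := hmp.symm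
    have hSB : BdM (fun ξ : Fin n → Tor d =>
        (∫ y, surv (tset d L K) (pt d L δ) n ξ y) ^ N) := by
      have h6 : BdM (fun ξ : Fin n → Tor d => ∫ y, surv (tset d L K) (pt d L δ) n ξ y) :=
        (bdM_surv hA n).integral_prod_right volume
      refine ⟨h6.meas.pow_const N, 1, fun ξ => ?_⟩
      have h7 : 0 ≤ ∫ y, surv (tset d L K) (pt d L δ) n ξ y :=
        integral_nonneg fun y => surv_nonneg hA n ξ y
      have h8 : ∫ y, surv (tset d L K) (pt d L δ) n ξ y ≤ 1 := by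
        calc ∫ y, surv (tset d L K) (pt d L δ) n ξ y ≤ ∫ _y : Tor d, (1:ℝ) :=
              integral_mono ((bdM_surv_right hA n ξ).integrable _) (integrable_const _)
                fun y => surv_le_one hA n ξ y
          _ = 1 := by simp
      rw [abs_of_nonneg (pow_nonneg h7 N)]
      exact pow_le_one₀ h7 h8
    have hmm : Measurable (fun (ξ : Fin n → Fin d → ℝ) (i : Fin n) => prj d L (ξ i)) :=
      measurable_pi_iff.2 fun i => (measurable_prj d L).comp (measurable_pi_apply i)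
    rw [hmp', integral_map hmm.aemeasurable hSB.meas.aestronglyMeasurable] at h3
    refine le_trans ?_ h3
    rw [hI, ← integral_const_mul]
    have hint1 : Integrable (fun ξ => Real.exp (-(2 * lam * C ^ 2 / (L:ℝ) ^ d))
        * Real.exp (-(lam * wv K δ n ξ))) (Measure.pi fun _ : Fin n => gs d δ) := by
      apply Integrable.const_mul
      refine BdM.integrable ⟨(((measurable_wv hK hvK δ n).const_mul lam).neg).exp, 1,
        fun ξ => ?_⟩ _
      change |Real.exp (-(lam * wv K δ n ξ))| ≤ 1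
      rw [abs_of_pos (Real.exp_pos _), Real.exp_le_one_iff]
      have := wv_nonneg hK hvK δ n ξ
      have : 0 ≤ lam * wv K δ n ξ := by positivity
      linarith
    refine integral_mono hint1 ((hSB.comp hmm).integrable _) fun ξ => ?_
    change Real.exp (-(2 * lam * C ^ 2 / (L:ℝ) ^ d)) * Real.exp (-(lam * wv K δ n ξ))
      ≤ (∫ y, surv (tset d L K) (pt d L δ) n (fun i => prj d L (ξ i)) y) ^ N
    have hw0 := wv_nonneg hK hvK δ n ξ
    have hwC := wv_le hK hvK δ n ξ
    rw [← hC] at hwC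
    have h9 := surv_torus_ge hK hvK δ n ξ hLR hKf
    have hu1 : wv K δ n ξ / (L:ℝ) ^ d ≤ 1 / 2 := by rw [div_le_iff₀ hV]; linarith
    have hu0 : 0 ≤ wv K δ n ξ / (L:ℝ) ^ d := by positivity
    have h10 := pow_lower hu0 (by linarith) N
    have h11 := exp_lower hw0 hwC hV h1 hlam hN1
    rw [← Real.exp_add]
    calc Real.exp (-(2 * lam * C ^ 2 / (L:ℝ) ^ d) + -(lam * wv K δ n ξ))
        ≤ Real.exp (-(N * ((wv K δ n ξ / (L:ℝ) ^ d) / (1 - wv K δ n ξ / (L:ℝ) ^ d)))) := by
          apply Real.exp_le_exp.2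
          linarith
      _ ≤ (1 - wv K δ n ξ / (L:ℝ) ^ d) ^ N := h10
      _ ≤ _ := pow_le_pow_left₀ (by linarith) h9 N
  have hlim : Tendsto (fun L : ℕ => Real.exp (-(2 * lam * C ^ 2 / (L:ℝ) ^ d)) * I) atTop
      (𝓝 (Real.exp (-0) * I)) := by
    refine Tendsto.mul_const I ?_
    refine (Real.continuous_exp.tendsto _).comp ?_
    exact (hLd.const_div_atTop _).neg
  rw [neg_zero, Real.exp_zero, one_mul] at hlim
  exact le_of_tendsto hlim key

end Pool.Agent.Lib.MP_fd77c3_pr
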