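import Pool.Agent.Lib.MP_fd77c3_pr.Potential

/-!
The contraction estimate for one time step.
-/

open MeasureTheory Set Filter Topology
open scoped ENNReal NNReal

set_option linter.unusedSectionVars false
set_option linter.unusedTactic false
set_option linter.unusedSimpArgs false

namespace Pool.Agent.Lib.MP_fd77c3_pr

variable {G : Type*} [AddCommGroup G] [MeasurableSpace G] [MeasurableAdd₂ G] [MeasurableNeg G]
variable {p : ℝ≥0 → Measure G}
variable {m : Measure G} [IsProbabilityMeasure m] [m.IsAddRightInvariant]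
variable {r : ℕ → ℝ} {N : ℕ}
variable {μ : Measure (Fin N → G)} [IsProbabilityMeasure μ] [μ.IsAddRightInvariant]

lemma Semi.dg (hp : Semi p) : Semi (fun s => dg N (p s)) where
  prob := fun s => by have := hp.prob s; infer_instance
  symm := fun s => dg_symm (hp.symm s)
  zero := by
    unfold Pool.Agent.Lib.MP_fd77c3_pr.dg
    rw [hp.zero, Measure.map_dirac' measurable_const']
    rfl
  conv := fun s t => by
    have := hp.prob s
    have := hp.prob t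
    rw [hp.conv, dg_conv]

/-- The half-step operator of the `N`-particle system. -/
noncomputable def bop (N : ℕ) (p : ℝ≥0 → Measure G) (δ : ℝ≥0) (f : (Fin N → G) → ℝ) :
    (Fin N → G) → ℝ := cvl (stepL N (p (δ / 2))) f

lemma half_conv (hp : Semi p) (δ : ℝ≥0) : p (δ / 2) ∗ p (δ / 2) = p δ := by
  rw [← hp.conv, add_halves]

lemma quarter_conv (hp : Semi p) (δ : ℝ≥0) : p (δ / 4) ∗ p (δ / 4) = p (δ / 2) := by
  rw [← hp.conv]; congr 1
  have : δ / 4 = δ / 2 / 2 := by rw [div_div]; norm_num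
  rw [this, add_halves]

lemma BdM.bop (hp : Semi p) {f : (Fin N → G) → ℝ} (hf : BdM f) (δ : ℝ≥0) :
    BdM (bop N p δ f) := by
  have := hp.prob (δ / 2)
  exact hf.cvl (good_stepL (hp.symm _))

lemma bop_sub_le (hp : Semi p) {f : (Fin N → G) → ℝ} (hf : BdM f) (δ : ℝ≥0) :
    ∫ x, (f x - bop N p δ f x) ^ 2 ∂μ ≤ ∫ x, f x ^ 2 ∂μ - ∫ x, bop N p δ f x ^ 2 ∂μ := by
  have := hp.prob (δ / 4)
  have h := sub_sq_le (μ := μ) (good_stepL (N := N) (hp.symm (δ / 4))) hf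
  rw [stepL_sq, quarter_conv hp] at h
  exact h

lemma bop_tele (hp : Semi p) {f : (Fin N → G) → ℝ} (hf : BdM f) (δ : ℝ≥0) :
    Dm μ (dg N (p δ)) (bop N p δ f) + ∑ i, Dm μ (cm (p δ) i) (bop N p δ f)
      ≤ ∫ x, f x ^ 2 ∂μ - ∫ x, bop N p δ f x ^ 2 ∂μ := by
  have := hp.prob (δ / 2)
  have h := tele_stepL (μ := μ) (hp.symm (δ / 2)) hf
  rw [half_conv hp] at h
  exact h

/-- Poincare inequality from the rate. -/
lemma gap_of_rate (hp : Semi p) (hr : Rate m p r) {q : ℕ} {δ : ℝ≥0} (hq : (q : ℝ≥0) * δ = 1)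
    {j₀ : ℕ} (hj₀ : 1 ≤ j₀) (hrj : r j₀ ≤ 1 / 2) {u : G → ℝ} (hu : BdM u) :
    ∫ y, (u y - ∫ y', u y' ∂m) ^ 2 ∂m ≤ 2 * (q * j₀) * Dm m (p δ) u := by
  set U : G → ℝ := fun y => u y - ∫ y', u y' ∂m with hU
  have hUB : BdM U := hu.sub (BdM.const _)
  have hU0 : ∫ y, U y ∂m = 0 := by
    rw [hU, integral_sub (hu.integrable m) (integrable_const _)]; simp
  have h1 := hp.ip_rate hr hj₀ 0 hUB hUB (m := m)
  rw [hU0, zero_mul, sub_zero, zero_add] at h1
  have hpj := hp.prob j₀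
  have h2 : Dm m (p j₀) U = ∫ y, U y ^ 2 ∂m - ∫ x, U x * cv (p j₀) U x ∂m := Dm_eq hUB
  have h3 : (∫ y, |U y| ∂m) ^ 2 ≤ ∫ y, U y ^ 2 ∂m := by
    have := sq_integral_le m hUB.abs
    simpa only [sq_abs] using this
  have h4 : Dm m (p j₀) u = Dm m (p j₀) U := by rw [hU, Dm_sub_const]
  have e1 : (j₀ : ℝ≥0) = ((j₀ * q : ℕ) : ℝ≥0) * δ := by
    push_cast; rw [mul_assoc, hq, mul_one]
  have h5 : Dm m (p j₀) u ≤ (j₀ * q : ℕ) * Dm m (p δ) u := by
    rw [e1]; exact hp.Dm_nsmul hu δ (j₀ * q)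
  have h6 := le_of_abs_le h1
  have h7 : r j₀ * (∫ y, |U y| ∂m) * ∫ y, |U y| ∂m ≤ (1 / 2) * ∫ y, U y ^ 2 ∂m := by
    have ha : 0 ≤ ∫ y, |U y| ∂m := integral_abs_nonneg U
    have hb : r j₀ * (∫ y, |U y| ∂m) ^ 2 ≤ (1 / 2) * (∫ y, |U y| ∂m) ^ 2 :=
      mul_le_mul_of_nonneg_right hrj (sq_nonneg _)
    nlinarith
  push_cast at h5
  have h8 : ∫ y, (u y - ∫ y', u y' ∂m) ^ 2 ∂m = ∫ y, U y ^ 2 ∂m := rfl
  rw [h8]
  nlinarith

/-- Numerical part. -/
lemma numeric {x Y Z W s M K H0 Δ a1 a2 a3 a4 g1 ρ Λ σ η c2 : ℝ}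
    (hY : 0 ≤ Y) (hZ : 0 ≤ Z) (hs : 0 ≤ s) (hM : 0 < M) (hK : 0 ≤ K) (hH0 : 0 ≤ H0) (hΔ : 0 ≤ Δ)
    (ha1 : 0 ≤ a1) (ha2 : 0 ≤ a2) (hρ1 : ρ ≤ 1) (hg1 : 0 ≤ g1)
    (hsσ : x ≤ Λ → s ≤ σ)
    (I1 : W + Z ≤ x)
    (I2 : Y - 2 * s * a1 - 2 * a2 * s - 2 * a3 + a4 * ρ ≤ W)
    (I3 : 1 - ρ ≤ 2 * g1 * x + 2 * s ^ 2)
    (I4 : M * ρ / 4 ≤ (M * (1 + H0) + √M) * √(2 * Δ * Z) + (M * (3 + 2 * H0) + √M) * s
      + √(K * Y) * √M)
    (hη : 2 * g1 * Λ + 2 * σ ^ 2 ≤ η) (hη2 : η ≤ 1 / 2)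
    (hσ2 : (M * (3 + 2 * H0) + √M) * σ ≤ M / 16)
    (hc2 : c2 ≤ (M / (16 * (√(2 * Δ) * (M * (1 + H0) + √M) + √(K * M)))) ^ 2)
    (hC : 0 < √(2 * Δ) * (M * (1 + H0) + √M) + √(K * M)) :
    Λ ≤ x ∨ c2 + (a4 - |a4| * η) - 2 * σ * (a1 + a2) - 2 * a3 ≤ x := by
  by_cases hx : Λ ≤ x
  · exact Or.inl hx
  right
  push Not at hx
  have hsσ' := hsσ hx.le
  have hσ0 : 0 ≤ σ := hs.trans hsσ'
  have hρ : 1 - η ≤ ρ := by
    have h1 : 2 * g1 * x ≤ 2 * g1 * Λ := mul_le_mul_of_nonneg_left hx.le (by linarith)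
    have h2 : s ^ 2 ≤ σ ^ 2 := pow_le_pow_left₀ hs hsσ' 2
    linarith
  have hρ2 : 1 / 2 ≤ ρ := by linarith
  set C3 := √(2 * Δ) * (M * (1 + H0) + √M) + √(K * M) with hC3
  have hα : 0 ≤ M * (1 + H0) + √M := by positivity
  have hβ : 0 ≤ M * (3 + 2 * H0) + √M := by positivity
  have hYZ : (M / (16 * C3)) ^ 2 ≤ Y + Z := by
    have h1 : √(2 * Δ * Z) = √(2 * Δ) * √Z := Real.sqrt_mul (by linarith) Z
    have h2 : √(K * Y) * √M = √(K * M) * √Y := by
      rw [← Real.sqrt_mul (by positivity), ← Real.sqrt_mul (by positivity)]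
      congr 1; ring
    have h3 : √Z ≤ √(Y + Z) := Real.sqrt_le_sqrt (by linarith)
    have h4 : √Y ≤ √(Y + Z) := Real.sqrt_le_sqrt (by linarith)
    have h5 : M / 8 ≤ M * ρ / 4 := by nlinarith
    have h6 : (M * (3 + 2 * H0) + √M) * s ≤ M / 16 :=
      (mul_le_mul_of_nonneg_left hsσ' hβ).trans hσ2
    have h7 : M / 16 ≤ C3 * √(Y + Z) := by
      have a1 : (M * (1 + H0) + √M) * √(2 * Δ * Z)
          ≤ √(2 * Δ) * (M * (1 + H0) + √M) * √(Y + Z) := by
        rw [h1]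
        have := mul_le_mul_of_nonneg_left h3 (mul_nonneg (Real.sqrt_nonneg (2 * Δ)) hα)
        linarith
      have a2 : √(K * Y) * √M ≤ √(K * M) * √(Y + Z) := by
        rw [h2]; exact mul_le_mul_of_nonneg_left h4 (Real.sqrt_nonneg _)
      rw [hC3, add_mul]
      linarith
    have h8 : M / (16 * C3) ≤ √(Y + Z) := by
      rw [div_le_iff₀ (by positivity)]
      linarith
    calc (M / (16 * C3)) ^ 2 ≤ √(Y + Z) ^ 2 := pow_le_pow_left₀ (by positivity) h8 2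
      _ = Y + Z := Real.sq_sqrt (by linarith)
  have h1 : a4 - |a4| * η ≤ a4 * ρ := by
    have h2 : a4 * (1 - ρ) ≤ |a4| * (1 - ρ) :=
      mul_le_mul_of_nonneg_right (le_abs_self _) (by linarith)
    have h3 : |a4| * (1 - ρ) ≤ |a4| * η := mul_le_mul_of_nonneg_left (by linarith) (abs_nonneg _)
    linarith
  have h2 : s * (a1 + a2) ≤ σ * (a1 + a2) := mul_le_mul_of_nonneg_right hsσ' (by linarith)
  linarith

/-- Abstract contraction estimate for the half-step operator. -/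
theorem step_abs (hp : Semi p) (hr : Rate m p r) {q : ℕ} {δ : ℝ≥0} (hq : (q : ℝ≥0) * δ = 1)
    (hq0 : 0 < q) (hN : 0 < N)
    {S1 : ℝ} (hS1 : ∀ J : ℕ, ∑ j ∈ Finset.Ico 1 J, r j ≤ S1)
    {j₀ : ℕ} (hj₀ : 1 ≤ j₀) (hrj : r j₀ ≤ 1 / 2)
    {A B : Set G} (hA : MeasurableSet A) (hB : MeasurableSet B) (hmA : 0 < m.real A)
    {e : G → ℝ} (he : BdM e) (he0 : ∀ x, 0 ≤ e x) (heA : ∀ y, y ∉ A → e y = 0)
    {J : ℕ} (hJ : 1 ≤ J)
    {Δ : ℕ} {Z : Set G} (hZ : MeasurableSet Z) (hAB : ∀ z ∈ Z, ∀ y ∈ A, y + z ∈ B)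
    {H0 : ℝ} (hH0 : 0 ≤ H0)
    (ha : ∀ z ∈ Z, |az m (pot m p q δ e J) A z| ≤ H0 * m.real A)
    (hθ : m.real A / 4 ≤ ∫ z in Z, (m.real A - az m (pot m p q δ e J) A z) ∂(p Δ))
    {a1 a2 a3 a4 Λ σ η c2 : ℝ}
    (ha1 : q * √(N * ∫ y, e y ^ 2 ∂m) ≤ a1)
    (ha2 : q * N * (∫ y, e y ∂m) ≤ a2)
    (ha3 : q * N * (r J * ∫ y, e y ∂m) ≤ a3)
    (ha4 : a4 ≤ q * N * (2 * (∫ y, e y ∂m)
      - ∫ x, pot m p q δ e J x * (e x - cv (p J) e x) ∂m))
    (hσ : Λ / q ≤ σ ^ 2) (hσ0 : 0 ≤ σ)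
    (hη : 4 * j₀ / N * Λ + 2 * σ ^ 2 ≤ η) (hη2 : η ≤ 1 / 2)
    (hσ2 : (N * m.real A * (3 + 2 * H0) + √(N * m.real A)) * σ ≤ N * m.real A / 16)
    (hc2 : c2 ≤ (N * m.real A / (16 * (√(2 * Δ) * (N * m.real A * (1 + H0) + √(N * m.real A))
      + √((1 + m.real B * S1) * (N * m.real A))))) ^ 2)
    {f : (Fin N → G) → ℝ} (hf : BdM f) (hfA : ∀ x : Fin N → G, (∃ i, x i ∈ A) → f x = 0) :
    ∫ x, bop N p δ f x ^ 2 ∂μ
      ≤ (1 - min Λ (c2 + (a4 - |a4| * η) - 2 * σ * (a1 + a2) - 2 * a3) / q) * ∫ x, f x ^ 2 ∂μ := by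
  have hqR : (0:ℝ) < q := by exact_mod_cast hq0
  have hNR : (0:ℝ) < N := by exact_mod_cast hN
  -- reduce to normalised functions
  have hnormalised : ∀ f : (Fin N → G) → ℝ, BdM f → (∀ x : Fin N → G, (∃ i, x i ∈ A) → f x = 0) →
      ∫ x, f x ^ 2 ∂μ = 1 → ∫ x, bop N p δ f x ^ 2 ∂μ
      ≤ 1 - min Λ (c2 + (a4 - |a4| * η) - 2 * σ * (a1 + a2) - 2 * a3) / q := by
    clear hf hfA f
    intro f hf hfA hf1
    have hpδ := hp.prob δ
    have hpΔ := hp.prob Δ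
    set g := bop N p δ f with hg
    have hgB : BdM g := hf.bop hp δ
    set X := 1 - ∫ x, g x ^ 2 ∂μ with hX
    have hX1 : X = ∫ x, f x ^ 2 ∂μ - ∫ x, g x ^ 2 ∂μ := by rw [hf1]
    have hsX : nrm μ (fun x => g x - f x) ^ 2 ≤ X := by
      rw [nrm_sub_comm, nrm_sq, hX1]
      exact bop_sub_le hp hf δ
    have hX0 : 0 ≤ X := (sq_nonneg _).trans hsX
    have hg1 : ∫ x, g x ^ 2 ∂μ ≤ 1 := by rw [hX] at hX0; linarith
    have htele := bop_tele (μ := μ) hp hf δ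
    rw [← hX1] at htele
    set h := pot m p q δ e J with hh
    have hhB : BdM h := he.pot hp q δ J
    set K := 1 + m.real B * S1 with hK
    have hS10 : 0 ≤ S1 := by simpa using hS1 0
    have hK1 : 1 ≤ K := by
      have : 0 ≤ m.real B * S1 := mul_nonneg measureReal_nonneg hS10
      rw [hK]; linarith
    have hK0 : 0 < K := by linarith
    set s := nrm μ (fun x => g x - f x) with hs
    have hs0 : 0 ≤ s := nrm_nonneg _
    set Sρ := ∑ i : Fin N, ∫ x, cv (cm m i) f x ^ 2 ∂μ with hSρ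
    set Y' := ∑ i : Fin N, Dm μ (cm (p δ) i) (fun x => g x + h (x i) * cv (cm m i) f x) with hY'
    have hY'0 : 0 ≤ Y' := Finset.sum_nonneg fun i _ => Dm_nonneg _
    set Z' := Dm μ (dg N (p δ)) g with hZ'
    have hZ'0 : 0 ≤ Z' := Dm_nonneg _
    set W' := ∑ i : Fin N, Dm μ (cm (p δ) i) g with hW'
    have hW'0 : 0 ≤ W' := Finset.sum_nonneg fun i _ => Dm_nonneg _
    -- local inequality at time step δ
    have e1 : (1 : ℝ≥0) = ((q : ℕ) : ℝ≥0) * δ := hq.symm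
    have H1 : ∀ u : G → ℝ, BdM u → ∀ w : G,
        (1 / (K * q)) * ∫ y, B.indicator (fun _ => (1:ℝ)) (w + y)
          * (u y - ∫ y', u y' ∂m) ^ 2 ∂m ≤ Dm m (p δ) u := by
      intro u hu w
      have h1 := hp.local_ineq hr hS1 hB hu w (m := m)
      have h2 : Dm m (p 1) u ≤ q * Dm m (p δ) u := by
        conv_lhs => rw [e1]
        exact hp.Dm_nsmul hu δ q
      have h3 : K * Dm m (p 1) u ≤ K * (q * Dm m (p δ) u) :=
        mul_le_mul_of_nonneg_left h2 hK0.le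
      rw [one_div, inv_mul_le_iff₀ (by positivity)]
      linarith
    have H2 : ∀ u : G → ℝ, BdM u →
        (1 / (2 * (q * j₀))) * ∫ y, (u y - ∫ y', u y' ∂m) ^ 2 ∂m ≤ Dm m (p δ) u := by
      intro u hu
      have h1 := gap_of_rate hp hr hq hj₀ hrj hu (m := m)
      have hj : (0:ℝ) < j₀ := by exact_mod_cast hj₀
      rw [one_div, inv_mul_le_iff₀ (by positivity)]
      exact h1
    -- I2
    have hk0 : 0 ≤ ∫ y, e y ∂m := integral_nonneg he0
    have I2 := energy_lower (m := m) (μ := μ) (hp.symm δ) hf hgB hf1 hg1 hfA he (hp.bdm he J) hhB heA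
      (fun y => pot_poisson hp he hq J y) hk0 (fun y => eJ_bound hp hr he he0 hJ y)
    -- I3
    have hj : (0:ℝ) < j₀ := by exact_mod_cast hj₀
    have I3 := rho_lower (m := m) (μ := μ) (ν := p δ) (γ := 1 / (2 * (q * j₀))) (by positivity) H2
      hf hgB hf1
    -- I4
    have hmA' : ∫ y, ind A y ∂m = m.real A := integral_ind A hA
    have I4 := trans_ineq (m := m) (μ := μ) (ν := p δ) (c := 1 / (K * q)) (by positivity) hA hB H1
      hf hgB hf1 hfA hhB (pot_mean hp he q δ J) (ζ := p Δ) hZ hAB hH0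
      (fun z hz => by rw [hmA']; exact ha z hz) (θ := m.real A / 4) (by rw [hmA']; exact hθ)
    rw [hmA'] at I4
    have hDΔ : Dm μ (dg N (p Δ)) g ≤ (Δ * q : ℕ) * Z' := by
      have e2 : (Δ : ℝ≥0) = ((Δ * q : ℕ) : ℝ≥0) * δ := by
        push_cast; rw [mul_assoc, hq, mul_one]
      have := (hp.dg (N := N)).Dm_nsmul (m := μ) hgB δ (Δ * q)
      simp only [← e2] at this
      exact this
    push_cast at hDΔ
    -- numeric
    have hM : 0 < N * m.real A := mul_pos hNR hmA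
    have key := numeric (x := q * X) (Y := q * Y') (Z := q * Z') (W := q * W') (s := s)
      (M := N * m.real A) (K := K) (H0 := H0) (Δ := Δ) (a1 := a1) (a2 := a2) (a3 := a3)
      (a4 := a4) (g1 := 2 * j₀ / N) (ρ := Sρ / N) (Λ := Λ) (σ := σ) (η := η) (c2 := c2)
      (by positivity) (by positivity) hs0 hM hK0.le hH0 (by positivity)
      (le_trans (by positivity) ha1)
      (le_trans (by positivity) ha2)
      (by
        rw [div_le_one hNR]
        calc Sρ ≤ ∑ _i : Fin N, (1:ℝ) := Finset.sum_le_sum fun i _ => rho_le hf hf1 i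
          _ = N := by simp)
      (by positivity)
      (fun hx => by
        have h1 : X ≤ Λ / q := by rw [le_div_iff₀ hqR]; linarith
        have h2 : s ^ 2 ≤ σ ^ 2 := hsX.trans (h1.trans hσ)
        exact le_of_abs_le (abs_le_of_sq_le_sq h2 hσ0))
      (by
        have h1 := mul_le_mul_of_nonneg_left htele hqR.le
        linarith)
      (by
        have h1 : 2 * s * (q * √(N * ∫ y, e y ^ 2 ∂m)) ≤ 2 * s * a1 :=
          mul_le_mul_of_nonneg_left ha1 (by positivity)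
        have h2 : 2 * (q * N * ∫ y, e y ∂m) * s ≤ 2 * a2 * s :=
          mul_le_mul_of_nonneg_right (by linarith) hs0
        have hρ0 : 0 ≤ Sρ / N := div_nonneg (Finset.sum_nonneg fun i _ =>
          integral_nonneg fun _ => sq_nonneg _) hNR.le
        have h3 : a4 * (Sρ / N) ≤ (q * N * (2 * (∫ y, e y ∂m)
            - ∫ x, h x * (e x - cv (p J) e x) ∂m)) * (Sρ / N) :=
          mul_le_mul_of_nonneg_right ha4 hρ0
        have h4 : (q * N * (2 * (∫ y, e y ∂m)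
            - ∫ x, h x * (e x - cv (p J) e x) ∂m)) * (Sρ / N)
            = q * ((2 * (∫ y, e y ∂m)
            - ∫ x, h x * (e x - cv (p J) e x) ∂m) * Sρ) := by
          field_simp
        have h5 := mul_le_mul_of_nonneg_left I2 hqR.le
        have h6 : (q:ℝ) * (2 * N * (r J * ∫ y, e y ∂m)) ≤ 2 * a3 := by linarith
        linarith)
      (by
        have h1 : (1 / (2 * (q * j₀)) : ℝ) * (N - Sρ) ≤ 2 * W'
          + 2 * (1 / (2 * (q * j₀))) * N * s ^ 2 := I3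
        have h2 : (N - Sρ) ≤ 4 * (q * j₀) * W' + 2 * N * s ^ 2 := by
          have h3 := mul_le_mul_of_nonneg_left h1 (by positivity : (0:ℝ) ≤ 2 * (q * j₀))
          have e3 : (2 * (q * j₀) : ℝ) * (1 / (2 * (q * j₀)) * (N - Sρ)) = N - Sρ := by
            field_simp
          have e4 : (2 * (q * j₀) : ℝ) * (2 * W' + 2 * (1 / (2 * (q * j₀))) * N * s ^ 2)
              = 4 * (q * j₀) * W' + 2 * N * s ^ 2 := by
            field_simp; ring
          rw [e3, e4] at h3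
          exact h3
        have h4 : W' ≤ X := by linarith
        have h5 : 1 - Sρ / N = (N - Sρ) / N := by field_simp
        rw [h5, div_le_iff₀ hNR]
        have e5 : (2 * (2 * j₀ / N) * (q * X) + 2 * s ^ 2) * N
            = 4 * (q * j₀) * X + 2 * N * s ^ 2 := by field_simp; ring
        rw [e5]
        have h6 : 4 * (q * j₀) * W' ≤ 4 * (q * j₀ : ℝ) * X :=
          mul_le_mul_of_nonneg_left h4 (by positivity)
        linarith)
      (by
        have h1 : √(2 * Dm μ (dg N (p Δ)) g) ≤ √(2 * Δ * (q * Z')) :=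
          Real.sqrt_le_sqrt (by linarith)
        have h2 : Y' / (1 / (K * q)) = K * (q * Y') := by field_simp
        rw [h2] at I4
        have h3 : N * m.real A * (Sρ / N) / 4 = Sρ * (m.real A / 4) := by field_simp
        rw [h3]
        refine I4.trans ?_
        have h4 : 0 ≤ N * m.real A * (1 + H0) + √(N * m.real A) := by positivity
        have := mul_le_mul_of_nonneg_left h1 h4
        linarith)
      (by
        have : 2 * (2 * j₀ / N) * Λ = 4 * j₀ / N * Λ := by ring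
        rw [this]; exact hη)
      hη2 hσ2 hc2 (by positivity)
    have hmin : min Λ (c2 + (a4 - |a4| * η) - 2 * σ * (a1 + a2) - 2 * a3) ≤ q * X := by
      rcases key with h | h
      · exact (min_le_left _ _).trans h
      · exact (min_le_right _ _).trans h
    have : min Λ (c2 + (a4 - |a4| * η) - 2 * σ * (a1 + a2) - 2 * a3) / q ≤ X := by
      rw [div_le_iff₀ hqR]; linarith
    rw [hX] at this
    linarith
  -- general f
  set κ := min Λ (c2 + (a4 - |a4| * η) - 2 * σ * (a1 + a2) - 2 * a3) with hκ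
  have hnn : 0 ≤ ∫ x, f x ^ 2 ∂μ := integral_nonneg fun _ => sq_nonneg _
  rcases hnn.eq_or_lt with h0 | h0
  · have h1 := bop_sub_le (μ := μ) hp hf δ
    rw [← h0] at h1 ⊢
    have h2 : 0 ≤ ∫ x, (f x - bop N p δ f x) ^ 2 ∂μ := integral_nonneg fun _ => sq_nonneg _
    simp only [mul_zero]
    linarith
  · set t := √(∫ x, f x ^ 2 ∂μ) with ht
    have ht0 : 0 < t := Real.sqrt_pos.2 h0
    have ht2 : t ^ 2 = ∫ x, f x ^ 2 ∂μ := Real.sq_sqrt h0.le
    have hfn : BdM (fun x => t⁻¹ * f x) := hf.const_mul _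
    have h1 := hnormalised (fun x => t⁻¹ * f x) hfn
      (fun x hx => by rw [hfA x hx, mul_zero]) (by
        have : ∀ x, (t⁻¹ * f x) ^ 2 = (t ^ 2)⁻¹ * f x ^ 2 := by
          intro x; rw [mul_pow, inv_pow]
        simp only [this]
        rw [integral_const_mul, ← ht2]
        exact inv_mul_cancel₀ (by positivity))
    have h2 : ∀ l : List (Measure (Fin N → G)), ∀ φ : (Fin N → G) → ℝ,
        cvl l (fun x => t⁻¹ * φ x) = fun x => t⁻¹ * cvl l φ x := by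
      intro l
      induction l with
      | nil => intro φ; rfl
      | cons ρ l ih =>
        intro φ
        have : cv ρ (fun x => t⁻¹ * φ x) = fun x => t⁻¹ * cv ρ φ x := by
          funext x; exact cv_const_mul _ _ _
        change cvl l (cv ρ (fun x => t⁻¹ * φ x)) = fun x => t⁻¹ * cvl l (cv ρ φ) x
        rw [this]; exact ih _
    have h3 : bop N p δ (fun x => t⁻¹ * f x) = fun x => t⁻¹ * bop N p δ f x := h2 _ _
    rw [h3] at h1
    have h4 : ∫ x, (t⁻¹ * bop N p δ f x) ^ 2 ∂μ = (t ^ 2)⁻¹ * ∫ x, bop N p δ f x ^ 2 ∂μ := by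
      rw [← integral_const_mul]; congr 1; funext x; rw [mul_pow, inv_pow]
    rw [h4] at h1
    rw [← ht2]
    have h5 : (t ^ 2) * ((t ^ 2)⁻¹ * ∫ x, bop N p δ f x ^ 2 ∂μ) ≤ t ^ 2 * (1 - κ / q) :=
      mul_le_mul_of_nonneg_left h1 (by positivity)
    rw [← mul_assoc, mul_inv_cancel₀ (by positivity), one_mul] at h5
    linarith

end Pool.Agent.Lib.MP_fd77c3_pr
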