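import Pool.Agent.Lib.MP_fd77c3_pr.Gauss

/-!
The Gaussian semigroup on the torus and its rate of convergence.
-/

open MeasureTheory Set Filter Topology ProbabilityTheory
open scoped ENNReal NNReal

set_option linter.unusedSectionVars false
set_option linter.unusedTactic false
set_option linter.unusedSimpArgs false

namespace Pool.Agent.Lib.MP_fd77c3_pr

instance circle_prob : IsProbabilityMeasure (volume : Measure UnitAddCircle) := ⟨by simp⟩

/-- The torus. -/
abbrev Tor (d : ℕ) := Fin d → UnitAddCircle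

instance tor_prob (d : ℕ) : IsProbabilityMeasure (volume : Measure (Tor d)) := by
  infer_instance

instance tor_inv (d : ℕ) : (volume : Measure (Tor d)).IsAddRightInvariant := by
  infer_instance

/-- The projection `ℝ → circle` with period `L`. -/
noncomputable def prj1 (L : ℝ) : ℝ →+ UnitAddCircle where
  toFun := fun x => ((x / L : ℝ) : UnitAddCircle)
  map_zero' := by simp
  map_add' := fun x y => by rw [add_div]; rfl

lemma measurable_prj1 (L : ℝ) : Measurable (prj1 L) := by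
  change Measurable (fun x : ℝ => ((x / L : ℝ) : UnitAddCircle))
  exact AddCircle.measurable_mk'.comp (measurable_id.div_const L)

/-- The projection `ℝ^d → torus` with period `L`. -/
noncomputable def prj (d : ℕ) (L : ℝ) : (Fin d → ℝ) →+ Tor d where
  toFun := fun x i => prj1 L (x i)
  map_zero' := by funext i; simp
  map_add' := fun x y => by funext i; simp

lemma measurable_prj (d : ℕ) (L : ℝ) : Measurable (prj d L) :=
  measurable_pi_iff.2 fun i => (measurable_prj1 L).comp (measurable_pi_apply i)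

/-- The semigroup on the torus. -/
noncomputable def pt (d : ℕ) (L : ℝ) (s : ℝ≥0) : Measure (Tor d) := (gs d s).map (prj d L)

lemma pt_semi (d : ℕ) (L : ℝ) : Semi (pt d L) := (gs_semi d).map (prj d L) (measurable_prj d L)

/-- Wrapped Gaussian on the circle. -/
noncomputable def kap (σ : ℝ≥0) : Measure UnitAddCircle :=
  (gaussianReal 0 σ).map (fun x : ℝ => (x : UnitAddCircle))

instance kap_prob (σ : ℝ≥0) : IsProbabilityMeasure (kap σ) :=
  Measure.isProbabilityMeasure_map AddCircle.measurable_mk'.aemeasurable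

lemma pt_eq (d : ℕ) (L : ℕ) (s : ℝ≥0) :
    pt d L s = Measure.pi (fun _ : Fin d => kap (s / (L:ℝ≥0) ^ 2)) := by
  have e1 : ((gaussianReal 0 s).map (prj1 L)) = kap (s / (L:ℝ≥0) ^ 2) := by
    unfold kap
    have h1 : (prj1 L : ℝ → UnitAddCircle) = (fun x : ℝ => (x : UnitAddCircle)) ∘ fun x => x / L := by
      funext x; rfl
    rw [h1, ← Measure.map_map AddCircle.measurable_mk' (by fun_prop), gaussianReal_map_div_const,
      zero_div]
    congr 2
  unfold pt gs
  have h2 := Measure.pi_map_pi (μ := fun _ : Fin d => gaussianReal 0 s)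
      (f := fun _ : Fin d => prj1 L)
      (hμ := fun _ => by
        have : IsProbabilityMeasure ((gaussianReal 0 s).map (prj1 L)) :=
          Measure.isProbabilityMeasure_map (measurable_prj1 L).aemeasurable
        infer_instance)
      (fun _ => (measurable_prj1 L).aemeasurable)
  rw [← e1]
  exact h2

/-- The constant `∑_{n∈ℤ} exp(3/2 - |n|)`. -/
lemma summable_exp : Summable fun n : ℤ => Real.exp (3 / 2 - |(n:ℝ)|) := by
  have h : Summable fun n : ℕ => Real.exp (3 / 2 - (n:ℝ)) := by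
    have h1 : ∀ n : ℕ, Real.exp (3 / 2 - (n:ℝ)) = Real.exp (3 / 2) * (Real.exp (-1)) ^ n := by
      intro n
      rw [← Real.exp_nat_mul, ← Real.exp_add]; congr 1; ring
    simp only [h1]
    exact (summable_geometric_of_lt_one (Real.exp_pos _).le
      (by rw [Real.exp_lt_one_iff]; norm_num)).mul_left _
  refine Summable.of_nat_of_neg ?_ ?_
  · simpa using h
  · simpa using h

/-- `C₀`. -/
noncomputable def C0 : ℝ := ∑' n : ℤ, Real.exp (3 / 2 - |(n:ℝ)|)

lemma C0_ge : 1 ≤ C0 := by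
  have h := summable_exp.le_tsum (0:ℤ) (fun j _ => (Real.exp_pos _).le)
  have h2 : 1 ≤ Real.exp (3 / 2 - |((0:ℤ):ℝ)|) := by
    rw [Real.one_le_exp_iff]; norm_num
  exact h2.trans h

lemma kap_le (σ : ℝ≥0) (hσ : σ ≠ 0) (hσ1 : σ ≤ 1) :
    kap σ ≤ ENNReal.ofReal (C0 / √σ) • (volume : Measure UnitAddCircle) := by
  refine Measure.le_iff.2 fun A hA => ?_
  have hcoe : Measurable (fun x : ℝ => (x : UnitAddCircle)) := AddCircle.measurable_mk'
  unfold kap
  rw [Measure.map_apply hcoe hA, Measure.smul_apply, smul_eq_mul]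
  set S := (fun x : ℝ => (x : UnitAddCircle)) ⁻¹' A with hS
  have hSm : MeasurableSet S := hcoe hA
  have hσR : (0:ℝ) < σ := by exact_mod_cast pos_iff_ne_zero.2 hσ
  have hσR1 : (σ:ℝ) ≤ 1 := by exact_mod_cast hσ1
  have hpart : gaussianReal 0 σ S = ∑' n : ℤ, gaussianReal 0 σ (S ∩ Ioc (n:ℝ) (n + 1)) := by
    have h1 : S = ⋃ n : ℤ, (S ∩ Ioc (n:ℝ) (n + 1)) := by
      rw [← inter_iUnion, iUnion_Ioc_intCast, inter_univ]
    conv_lhs => rw [h1]
    rw [measure_iUnion]
    · intro i j hij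
      exact (pairwise_disjoint_Ioc_intCast ℝ hij).mono inter_subset_right inter_subset_right
    · intro n
      exact hSm.inter measurableSet_Ioc
  have hterm : ∀ n : ℤ, gaussianReal 0 σ (S ∩ Ioc (n:ℝ) (n + 1))
      ≤ ENNReal.ofReal ((√σ)⁻¹ * Real.exp (3 / 2 - |(n:ℝ)|)) * volume A := by
    intro n
    rw [gaussianReal_apply _ hσ]
    have hv : volume A = volume (S ∩ Ioc (n:ℝ) (n + 1)) :=
      AddCircle.add_projection_respects_measure 1 (n:ℝ) hA
    calc ∫⁻ x in S ∩ Ioc (n:ℝ) (n + 1), gaussianPDF 0 σ x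
        ≤ ∫⁻ _ in S ∩ Ioc (n:ℝ) (n + 1),
            ENNReal.ofReal ((√σ)⁻¹ * Real.exp (3 / 2 - |(n:ℝ)|)) := by
          refine setLIntegral_mono' (hSm.inter measurableSet_Ioc) fun x hx => ?_
          unfold gaussianPDF gaussianPDFReal
          apply ENNReal.ofReal_le_ofReal
          have hx2 := hx.2
          have habs : |(n:ℝ)| - 1 ≤ |x| := by
            have : |(n:ℝ) - x| ≤ 1 := by
              rw [abs_le]; constructor
              · linarith [hx2.2]
              · linarith [hx2.1]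
            have h2 := abs_sub_abs_le_abs_sub (n:ℝ) x
            linarith
          have h1 : (√(2 * Real.pi * σ))⁻¹ ≤ (√σ)⁻¹ := by
            apply inv_anti₀ (Real.sqrt_pos.2 hσR)
            apply Real.sqrt_le_sqrt
            have := Real.pi_gt_three
            nlinarith
          have h2 : Real.exp (-(x - 0) ^ 2 / (2 * σ)) ≤ Real.exp (3 / 2 - |(n:ℝ)|) := by
            apply Real.exp_le_exp.2
            have h3 : -(x - 0) ^ 2 / (2 * σ) ≤ -(x ^ 2) / 2 := by
              rw [sub_zero, div_le_div_iff₀ (by positivity) (by norm_num)]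
              nlinarith [sq_nonneg x]
            have h4 : -(x ^ 2) / 2 ≤ 1 / 2 - |x| := by
              have : x ^ 2 = |x| ^ 2 := (sq_abs x).symm
              nlinarith [sq_nonneg (|x| - 1)]
            linarith
          exact mul_le_mul h1 h2 (Real.exp_pos _).le (by positivity)
      _ = _ := by rw [setLIntegral_const, hv]
  rw [hpart]
  refine (ENNReal.tsum_le_tsum hterm).trans ?_
  rw [ENNReal.tsum_mul_right]
  gcongr
  rw [← ENNReal.ofReal_tsum_of_nonneg (fun n => by positivity) (summable_exp.mul_left _),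
    tsum_mul_left]
  apply ENNReal.ofReal_le_ofReal
  have hfin : (√(σ:ℝ))⁻¹ * (∑' n : ℤ, Real.exp (3 / 2 - |(n:ℝ)|)) = C0 / √(σ:ℝ) := by
    unfold C0; rw [div_eq_inv_mul (∑' n : ℤ, Real.exp (3 / 2 - |(n:ℝ)|))]
  exact hfin.le

/-- Doeblin constant in dimension one. -/
noncomputable def c0 : ℝ := (√(2 * Real.pi))⁻¹ * Real.exp (-1 / 8)

lemma c0_pos : 0 < c0 := by unfold c0; positivity

lemma c0_lt : c0 < 1 / 2 := by
  unfold c0
  have h1 : 2 < √(2 * Real.pi) := by
    apply Real.lt_sqrt_of_sq_lt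
    have := Real.pi_gt_three
    linarith
  have h2 : Real.exp (-1 / 8) ≤ 1 := by rw [Real.exp_le_one_iff]; norm_num
  have h3 : (√(2 * Real.pi))⁻¹ < 1 / 2 := by
    rw [one_div]; exact inv_strictAnti₀ (by norm_num) h1
  have h4 : 0 < (√(2 * Real.pi))⁻¹ := by positivity
  nlinarith

lemma le_kap_one : ENNReal.ofReal c0 • (volume : Measure UnitAddCircle) ≤ kap 1 := by
  refine Measure.le_iff.2 fun A hA => ?_
  have hcoe : Measurable (fun x : ℝ => (x : UnitAddCircle)) := AddCircle.measurable_mk'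
  unfold kap
  rw [Measure.map_apply hcoe hA, Measure.smul_apply, smul_eq_mul]
  set S := (fun x : ℝ => (x : UnitAddCircle)) ⁻¹' A with hS
  have hSm : MeasurableSet S := hcoe hA
  have hv : volume A = volume (S ∩ Ioc (-(1/2) : ℝ) (-(1/2) + 1)) :=
    AddCircle.add_projection_respects_measure 1 (-(1/2)) hA
  calc ENNReal.ofReal c0 * volume A
      = ∫⁻ _ in S ∩ Ioc (-(1/2) : ℝ) (-(1/2) + 1), ENNReal.ofReal c0 := by
        rw [setLIntegral_const, hv]
    _ ≤ ∫⁻ x in S ∩ Ioc (-(1/2) : ℝ) (-(1/2) + 1), gaussianPDF 0 1 x := by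
        refine setLIntegral_mono' (hSm.inter measurableSet_Ioc) fun x hx => ?_
        unfold gaussianPDF gaussianPDFReal c0
        apply ENNReal.ofReal_le_ofReal
        have hx2 : x ∈ Ioc (-(1/2) : ℝ) (-(1/2) + 1) := hx.2
        simp only [NNReal.coe_one, mul_one, sub_zero]
        have : -1 / 8 ≤ -x ^ 2 / 2 := by
          have h1 : x ≤ 1 / 2 := by have := hx2.2; linarith
          have h2 : -(1/2) < x := hx2.1
          nlinarith
        exact mul_le_mul_of_nonneg_left (Real.exp_le_exp.2 this) (by positivity)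
    _ = gaussianReal 0 1 (S ∩ Ioc (-(1/2) : ℝ) (-(1/2) + 1)) := by
        rw [gaussianReal_apply _ one_ne_zero]
    _ ≤ gaussianReal 0 1 S := measure_mono inter_subset_left

/-- Upper bound for the torus heat kernel. -/
lemma pt_le (d : ℕ) {L : ℕ} (hL : 0 < L) {j : ℕ} (hj : 1 ≤ j) (hjL : j ≤ L ^ 2) :
    pt d L j ≤ ENNReal.ofReal ((C0 * L / √j) ^ d) • (volume : Measure (Tor d)) := by
  have hLR : (0:ℝ) < L := by exact_mod_cast hL
  have hjR : (0:ℝ) < j := by exact_mod_cast hj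
  set σ : ℝ≥0 := (j:ℝ≥0) / (L:ℝ≥0) ^ 2 with hσ
  have hσ0 : σ ≠ 0 := by
    rw [hσ]; positivity
  have hσ1 : σ ≤ 1 := by
    rw [hσ]
    apply div_le_one_of_le₀ _ (by positivity)
    exact_mod_cast hjL
  rw [pt_eq, ← hσ]
  have hsq : √(σ:ℝ) = √j / L := by
    rw [hσ]; push_cast
    rw [Real.sqrt_div (by positivity), Real.sqrt_sq hLR.le]
  have h0 : 0 ≤ C0 * L / √j := by have := C0_ge; positivity
  have hC : C0 / √(σ:ℝ) = C0 * L / √j := by rw [hsq]; field_simp
  have h := pi_smul_const d (volume : Measure UnitAddCircle) (Real.toNNReal (C0 * L / √j))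
  have h' : ((Real.toNNReal (C0 * L / √j) : ℝ≥0) : ℝ≥0∞) = ENNReal.ofReal (C0 * L / √j) := rfl
  rw [h'] at h
  have hsf : SigmaFinite (ENNReal.ofReal (C0 * L / √j) • (volume : Measure UnitAddCircle)) := by
    rw [← h']
    have : (((Real.toNNReal (C0 * L / √j) : ℝ≥0) : ℝ≥0∞) • (volume : Measure UnitAddCircle))
      = (Real.toNNReal (C0 * L / √j)) • volume := rfl
    rw [this]; infer_instance
  rw [ENNReal.ofReal_pow h0, volume_pi, ← h]
  refine pi_mono_fin d _ _ fun i => ?_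
  rw [← hC]
  exact kap_le σ hσ0 hσ1

/-- Doeblin minorisation on the torus. -/
lemma le_pt (d : ℕ) {L : ℕ} (hL : 0 < L) :
    ENNReal.ofReal (c0 ^ d) • (volume : Measure (Tor d)) ≤ pt d L ((L ^ 2 : ℕ) : ℝ≥0) := by
  have hL' : (L:ℝ≥0) ≠ 0 := by positivity
  have hσ : (((L ^ 2 : ℕ) : ℝ≥0)) / (L:ℝ≥0) ^ 2 = 1 := by
    push_cast; exact div_self (by positivity)
  rw [pt_eq, hσ]
  have h := pi_smul_const d (volume : Measure UnitAddCircle) (Real.toNNReal c0)
  have h' : ((Real.toNNReal c0 : ℝ≥0) : ℝ≥0∞) = ENNReal.ofReal c0 := rfl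
  rw [h'] at h
  have hsf : SigmaFinite (ENNReal.ofReal c0 • (volume : Measure UnitAddCircle)) := by
    rw [← h']
    have : (((Real.toNNReal c0 : ℝ≥0) : ℝ≥0∞) • (volume : Measure UnitAddCircle))
      = (Real.toNNReal c0) • volume := rfl
    rw [this]; infer_instance
  rw [ENNReal.ofReal_pow c0_pos.le, volume_pi, ← h]
  exact pi_mono_fin d _ _ fun i => le_kap_one

section rates

variable {G : Type*} [AddCommGroup G] [MeasurableSpace G] [MeasurableAdd₂ G] [MeasurableNeg G]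
variable {m : Measure G} [IsProbabilityMeasure m] [m.IsAddRightInvariant]
variable {ρ : Measure G} [IsProbabilityMeasure ρ]

lemma integral_shift_left (f : G → ℝ) (x : G) : ∫ z, f (x + z) ∂m = ∫ z, f z ∂m := by
  rw [← integral_shift (μ := m) f x]; congr 1; funext z; rw [add_comm]

/-- `L¹ → L^∞` bound from a measure inequality. -/
lemma cv_abs_le {C : ℝ} (hC : 0 ≤ C) (h : ρ ≤ ENNReal.ofReal C • m) {u : G → ℝ} (hu : BdM u)
    (x : G) : |cv ρ u x| ≤ C * ∫ y, |u y| ∂m := by
  have hux : BdM (fun z : G => u (x + z)) := hu.comp (measurable_const_add x)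
  unfold cv
  refine (abs_integral_le_integral_abs).trans ?_
  have h1 : ∫ z, |u (x + z)| ∂ρ ≤ ∫ z, |u (x + z)| ∂(ENNReal.ofReal C • m) := by
    refine integral_mono_measure h (ae_of_all _ fun _ => abs_nonneg _) ?_
    exact (hux.abs.integrable m).smul_measure ENNReal.ofReal_ne_top
  refine h1.trans (le_of_eq ?_)
  rw [integral_smul_measure, ENNReal.toReal_ofReal hC, smul_eq_mul,
    integral_shift_left (m := m) (fun z => |u z|) x]

/-- Doeblin contraction. -/
lemma doeblin {c : ℝ} (hc : 0 ≤ c) (h : ENNReal.ofReal c • m ≤ ρ) {u : G → ℝ} (hu : BdM u)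
    {K : ℝ} (hK : ∀ x, |u x - ∫ y, u y ∂m| ≤ K) (x : G) :
    |cv ρ u x - ∫ y, u y ∂m| ≤ (1 - c) * K := by
  have key : ∀ v : G → ℝ, BdM v → (∀ x, v x - ∫ y, v y ∂m ≤ K) →
      cv ρ v x - ∫ y, v y ∂m ≤ (1 - c) * K := by
    intro v hv hvK
    set vb := ∫ y, v y ∂m with hvb
    have hw : BdM (fun z : G => K - (v (x + z) - vb)) :=
      (BdM.const K).sub ((hv.comp (measurable_const_add x)).sub (BdM.const vb))
    have h1 : ∫ z, (K - (v (x + z) - vb)) ∂(ENNReal.ofReal c • m)
        ≤ ∫ z, (K - (v (x + z) - vb)) ∂ρ := by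
      refine integral_mono_measure h (ae_of_all _ fun z => ?_) (hw.integrable ρ)
      have := hvK (x + z)
      simp only [Pi.zero_apply]
      linarith
    rw [integral_smul_measure, ENNReal.toReal_ofReal hc, smul_eq_mul] at h1
    have h2 : ∫ z, (K - (v (x + z) - vb)) ∂m = K := by
      rw [integral_sub (integrable_const _)
        (((hv.comp (measurable_const_add x)).sub (BdM.const vb)).integrable m),
        integral_sub ((hv.comp (measurable_const_add x)).integrable m) (integrable_const _),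
        integral_shift_left (m := m) v x]
      simp [hvb]
    have h3 : ∫ z, (K - (v (x + z) - vb)) ∂ρ = K - (cv ρ v x - vb) := by
      rw [integral_sub (integrable_const _)
        (((hv.comp (measurable_const_add x)).sub (BdM.const vb)).integrable ρ),
        integral_sub ((hv.comp (measurable_const_add x)).integrable ρ) (integrable_const _)]
      simp [cv]
    rw [h2, h3] at h1
    linarith
  rw [abs_le]
  constructor
  · have h1 := key (fun y => -u y) hu.neg (fun y => by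
      rw [integral_neg]
      have := neg_le_of_abs_le (hK y)
      linarith)
    rw [integral_neg] at h1
    have h2 : cv ρ (fun y => -u y) x = - cv ρ u x := by unfold cv; exact integral_neg _
    rw [h2] at h1
    linarith
  · exact key u hu fun y => le_of_abs_le (hK y)

end rates

/-- The rate on the torus. -/
noncomputable def rt (d L : ℕ) (j : ℕ) : ℝ :=
  if j < L ^ 2 then 2 * (C0 * L / √j) ^ d
  else 2 * C0 ^ d * (1 - c0 ^ d) ^ (j / L ^ 2 - 1)

lemma c0d_pos (d : ℕ) : 0 < c0 ^ d := pow_pos c0_pos d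

lemma c0d_le (d : ℕ) : c0 ^ d ≤ 1 := pow_le_one₀ c0_pos.le (by linarith [c0_lt])

lemma C0_pos : 0 < C0 := lt_of_lt_of_le one_pos C0_ge

lemma rt_nonneg (d L j : ℕ) : 0 ≤ rt d L j := by
  unfold rt
  have h1 := C0_pos
  have h2 := c0d_le d
  have h3 : 0 ≤ 1 - c0 ^ d := by linarith
  split_ifs <;> positivity

lemma abs_integral_le' {G : Type*} [MeasurableSpace G] (m : Measure G) (u : G → ℝ) :
    |∫ y, u y ∂m| ≤ ∫ y, |u y| ∂m := abs_integral_le_integral_abs

/-- First bound. -/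
lemma rate_small (d : ℕ) {L : ℕ} (hL : 0 < L) {j : ℕ} (hj : 1 ≤ j) (hjL : j ≤ L ^ 2)
    {u : Tor d → ℝ} (hu : BdM u) (x : Tor d) :
    |cv (pt d L j) u x - ∫ y, u y| ≤ 2 * (C0 * L / √j) ^ d * ∫ y, |u y| := by
  have := (pt_semi d L).prob j
  have hLR : (0:ℝ) < L := by exact_mod_cast hL
  have hjR : (0:ℝ) < j := by exact_mod_cast hj
  have hC := C0_pos
  have h1 := cv_abs_le (m := (volume : Measure (Tor d))) (by positivity) (pt_le d hL hj hjL) hu x
  have h2 := abs_integral_le' (volume : Measure (Tor d)) u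
  have h3 : (1:ℝ) ≤ (C0 * L / √j) ^ d := by
    apply one_le_pow₀
    rw [le_div_iff₀ (Real.sqrt_pos.2 hjR), one_mul]
    have h4 : √(j:ℝ) ≤ L := by
      rw [Real.sqrt_le_left hLR.le]
      exact_mod_cast hjL
    have := C0_ge
    nlinarith
  have h5 : 0 ≤ ∫ y, |u y| := integral_abs_nonneg u
  have h6 := abs_sub (cv (pt d L j) u x) (∫ y, u y)
  nlinarith [mul_le_mul_of_nonneg_right h3 h5]

lemma rate_large (d : ℕ) {L : ℕ} (hL : 0 < L) {u : Tor d → ℝ} (hu : BdM u) (i : ℕ) (x : Tor d) :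
    |cv (pt d L (((i + 1) * L ^ 2 : ℕ) : ℝ≥0)) u x - ∫ y, u y|
      ≤ 2 * C0 ^ d * (1 - c0 ^ d) ^ i * ∫ y, |u y| := by
  induction i generalizing x with
  | zero =>
    have h1 := rate_small d hL (j := L ^ 2) (Nat.one_le_iff_ne_zero.2 (by positivity)) le_rfl hu x
    have e1 : √((L ^ 2 : ℕ) : ℝ) = L := by
      push_cast; exact Real.sqrt_sq (by positivity)
    have hLR : (L:ℝ) ≠ 0 := by positivity
    rw [e1, mul_div_assoc, div_self hLR, mul_one] at h1
    simpa using h1
  | succ i ih =>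
    have hs := pt_semi d L
    have e1 : (((i + 1 + 1) * L ^ 2 : ℕ) : ℝ≥0) = ((L ^ 2 : ℕ) : ℝ≥0)
        + (((i + 1) * L ^ 2 : ℕ) : ℝ≥0) := by push_cast; ring
    have hB : BdM (cv (pt d L (((i + 1) * L ^ 2 : ℕ) : ℝ≥0)) u) := hs.bdm hu _
    have := hs.prob ((L ^ 2 : ℕ) : ℝ≥0)
    rw [e1, hs.cv_add hu]
    have hm : ∫ y, cv (pt d L (((i + 1) * L ^ 2 : ℕ) : ℝ≥0)) u y = ∫ y, u y := by
      have := hs.prob (((i + 1) * L ^ 2 : ℕ) : ℝ≥0)
      exact integral_cv hu
    have h1 := doeblin (m := (volume : Measure (Tor d))) (c0d_pos d).le (le_pt d hL) hB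
      (K := 2 * C0 ^ d * (1 - c0 ^ d) ^ i * ∫ y, |u y|) (fun y => by rw [hm]; exact ih y) x
    rw [hm] at h1
    refine h1.trans (le_of_eq ?_)
    ring

/-- The torus semigroup has rate `rt`. -/
lemma rt_rate (d : ℕ) {L : ℕ} (hL : 0 < L) : Rate (volume : Measure (Tor d)) (pt d L) (rt d L) where
  nonneg := rt_nonneg d L
  bound := by
    intro j hj u hu x
    unfold rt
    split_ifs with h
    · exact rate_small d hL hj h.le hu x
    · push Not at h
      have hL2 : 0 < L ^ 2 := by positivity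
      obtain ⟨i, hi⟩ : ∃ i, j / L ^ 2 = i + 1 :=
        ⟨j / L ^ 2 - 1, by have := Nat.div_pos h hL2; omega⟩
      rw [hi, Nat.add_sub_cancel]
      have hs := pt_semi d L
      have e1 : (j : ℝ≥0) = ((j % L ^ 2 : ℕ) : ℝ≥0) + (((i + 1) * L ^ 2 : ℕ) : ℝ≥0) := by
        rw [← hi]; norm_cast
        rw [mul_comm]; exact (Nat.mod_add_div j (L ^ 2)).symm
      rw [e1, hs.cv_add hu]
      have hB : BdM (cv (pt d L (((i + 1) * L ^ 2 : ℕ) : ℝ≥0)) u) := hs.bdm hu _
      have := hs.prob ((j % L ^ 2 : ℕ) : ℝ≥0)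
      have h1 : cv (pt d L ((j % L ^ 2 : ℕ) : ℝ≥0)) (cv (pt d L (((i + 1) * L ^ 2 : ℕ) : ℝ≥0)) u) x
          - ∫ y, u y = ∫ z, (cv (pt d L (((i + 1) * L ^ 2 : ℕ) : ℝ≥0)) u (x + z) - ∫ y, u y)
            ∂(pt d L ((j % L ^ 2 : ℕ) : ℝ≥0)) := by
        rw [integral_sub ((hB.comp (measurable_const_add x)).integrable _) (integrable_const _)]
        simp [cv]
      rw [h1]
      have h2 := norm_integral_le_of_norm_le_const (μ := pt d L ((j % L ^ 2 : ℕ) : ℝ≥0))
        (f := fun z => cv (pt d L (((i + 1) * L ^ 2 : ℕ) : ℝ≥0)) u (x + z) - ∫ y, u y)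
        (C := 2 * C0 ^ d * (1 - c0 ^ d) ^ i * ∫ y, |u y|)
        (ae_of_all _ fun z => rate_large d hL hu i _)
      simpa using h2
  tendsto := by
    have hL2 : 0 < L ^ 2 := by positivity
    have h1 : Tendsto (fun j : ℕ => j / L ^ 2 - 1) atTop atTop := by
      refine tendsto_atTop_mono' atTop ?_ (tendsto_id (α := ℕ) (x := atTop) |>.comp
        (tendsto_sub_atTop_nat 1) |>.comp (Nat.tendsto_div_const_atTop hL2.ne'))
      exact Eventually.of_forall fun j => le_rfl
    have h2 : Tendsto (fun n : ℕ => 2 * C0 ^ d * (1 - c0 ^ d) ^ n) atTop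
        (𝓝 (2 * C0 ^ d * 0)) := by
      refine (tendsto_pow_atTop_nhds_zero_of_lt_one ?_ ?_).const_mul _
      · linarith [c0d_le d]
      · linarith [c0d_pos d]
    rw [mul_zero] at h2
    refine (h2.comp h1).congr' ?_
    filter_upwards [eventually_ge_atTop (L ^ 2)] with j hj
    unfold rt
    have : ¬ j < L ^ 2 := by omega
    simp [this]

lemma inv_pow_le {d : ℕ} (hd : 3 ≤ d) {j : ℕ} (hj : 1 ≤ j) :
    (1 / √(j:ℝ)) ^ d ≤ 4 * (1 / √(j:ℝ) - 1 / √((j:ℝ) + 1)) := by
  have hjR : (1:ℝ) ≤ j := by exact_mod_cast hj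
  set a := √(j:ℝ) with ha
  set b := √((j:ℝ) + 1) with hb
  have ha1 : 1 ≤ a := by rw [ha]; exact Real.one_le_sqrt.2 hjR
  have hab : a ≤ b := Real.sqrt_le_sqrt (by linarith)
  have ha2 : a ^ 2 = j := Real.sq_sqrt (by linarith)
  have hb2 : b ^ 2 = j + 1 := Real.sq_sqrt (by linarith)
  have h1 : (1 / a) ^ d ≤ (1 / a) ^ 3 :=
    pow_le_pow_of_le_one (by positivity) (by rw [div_le_one (by linarith)]; exact ha1) hd
  refine h1.trans ?_
  have hb0 : 0 < b := by linarith
  have ha0 : 0 < a := by linarith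
  have h2 : 1 / a - 1 / b = 1 / (a * b * (a + b)) := by
    field_simp
    nlinarith
  rw [h2, div_pow, one_pow, mul_one_div, div_le_div_iff₀ (by positivity) (by positivity)]
  have hb3 : b ≤ 3 / 2 * a := by
    have : b ^ 2 ≤ (3 / 2 * a) ^ 2 := by nlinarith
    exact le_of_abs_le (abs_le_of_sq_le_sq this (by positivity)) |>.trans le_rfl
  have h3 : a * b * (a + b) ≤ a * (3 / 2 * a) * (a + 3 / 2 * a) := by gcongr
  nlinarith [pow_pos ha0 3]

/-- Sum of the rates. -/
lemma rt_sum {d : ℕ} (hd : 3 ≤ d) {L : ℕ} (hL : 0 < L) {a : ℕ} (ha : 1 ≤ a) (J : ℕ) :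
    ∑ j ∈ Finset.Ico a J, rt d L j
      ≤ (L:ℝ) ^ d * (8 * C0 ^ d / √a + 2 * C0 ^ d / c0 ^ d / L) := by
  have hLR : (1:ℝ) ≤ L := by exact_mod_cast hL
  have hC := C0_pos
  have hc := c0d_pos d
  have hc1 := c0d_le d
  have hL2 : 0 < L ^ 2 := by positivity
  -- split the rate
  have h1 : ∀ j, 1 ≤ j → rt d L j ≤ 2 * (C0 * L) ^ d * (1 / √(j:ℝ)) ^ d
      + (if j < L ^ 2 then 0 else 2 * C0 ^ d * (1 - c0 ^ d) ^ (j / L ^ 2 - 1)) := by
    intro j hj
    unfold rt
    split_ifs with h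
    · rw [add_zero, div_eq_mul_one_div, mul_pow (C0 * L)]; linarith
    · have : 0 ≤ 2 * (C0 * L) ^ d * (1 / √(j:ℝ)) ^ d := by positivity
      linarith
  have h2 : ∑ j ∈ Finset.Ico a J, rt d L j
      ≤ ∑ j ∈ Finset.Ico a J, 2 * (C0 * L) ^ d * (1 / √(j:ℝ)) ^ d
        + ∑ j ∈ Finset.Ico a J,
          (if j < L ^ 2 then 0 else 2 * C0 ^ d * (1 - c0 ^ d) ^ (j / L ^ 2 - 1)) := by
    rw [← Finset.sum_add_distrib]
    refine Finset.sum_le_sum fun j hj => ?_
    rw [Finset.mem_Ico] at hj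
    exact h1 j (by omega)
  refine h2.trans ?_
  have h3 : ∑ j ∈ Finset.Ico a J, 2 * (C0 * L) ^ d * (1 / √(j:ℝ)) ^ d
      ≤ (L:ℝ) ^ d * (8 * C0 ^ d / √a) := by
    have t1 : ∑ j ∈ Finset.Ico a J, (1 / √(j:ℝ)) ^ d ≤ 4 * (1 / √(a:ℝ)) := by
      rcases le_or_gt J a with h | h
      · rw [Finset.Ico_eq_empty_of_le h]; simp
      · have t2 : ∑ j ∈ Finset.Ico a J, (1 / √(j:ℝ)) ^ d
            ≤ ∑ j ∈ Finset.Ico a J, 4 * (1 / √(j:ℝ) - 1 / √((j:ℝ) + 1)) := by
          refine Finset.sum_le_sum fun j hj => ?_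
          rw [Finset.mem_Ico] at hj
          exact inv_pow_le hd (by omega)
        have t3 : ∑ j ∈ Finset.Ico a J, (1 / √(j:ℝ) - 1 / √((j:ℝ) + 1))
            = 1 / √(a:ℝ) - 1 / √(J:ℝ) := by
          have := Finset.sum_Ico_sub (fun j : ℕ => - (1 / √(j:ℝ))) h.le
          push_cast at this
          rw [← sub_eq_zero]
          rw [sub_eq_zero] at *
          calc ∑ j ∈ Finset.Ico a J, (1 / √(j:ℝ) - 1 / √((j:ℝ) + 1))
              = ∑ j ∈ Finset.Ico a J, (-(1 / √((j:ℝ) + 1)) - -(1 / √(j:ℝ))) :=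
                Finset.sum_congr rfl fun j _ => by ring
            _ = _ := by rw [this]; ring
        rw [← Finset.mul_sum, t3] at t2
        have : 0 ≤ 1 / √(J:ℝ) := by positivity
        linarith
    rw [← Finset.mul_sum]
    calc 2 * (C0 * L) ^ d * ∑ j ∈ Finset.Ico a J, (1 / √(j:ℝ)) ^ d
        ≤ 2 * (C0 * L) ^ d * (4 * (1 / √(a:ℝ))) := mul_le_mul_of_nonneg_left t1 (by positivity)
      _ = _ := by rw [mul_pow]; ring
  have h4 : ∑ j ∈ Finset.Ico a J,
          (if j < L ^ 2 then 0 else 2 * C0 ^ d * (1 - c0 ^ d) ^ (j / L ^ 2 - 1))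
      ≤ (L:ℝ) ^ d * (2 * C0 ^ d / c0 ^ d / L) := by
    set g : ℕ → ℝ := fun i => if i = 0 then 0 else 2 * C0 ^ d * (1 - c0 ^ d) ^ (i - 1) with hg
    have hg0 : ∀ i, 0 ≤ g i := by
      intro i; rw [hg]; simp only
      have : 0 ≤ 1 - c0 ^ d := by linarith
      split_ifs <;> positivity
    have t1 : ∀ j, (if j < L ^ 2 then 0 else 2 * C0 ^ d * (1 - c0 ^ d) ^ (j / L ^ 2 - 1))
        = g (j / L ^ 2) := by
      intro j
      rw [hg]; simp only
      by_cases h : j < L ^ 2
      · simp [h, Nat.div_eq_of_lt h]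
      · have : j / L ^ 2 ≠ 0 := (Nat.div_pos (by omega) hL2).ne'
        simp [h, this]
    simp only [t1]
    have t2 : ∀ n : ℕ, ∑ j ∈ Finset.range (n * L ^ 2), g (j / L ^ 2)
        = (L:ℝ) ^ 2 * ∑ i ∈ Finset.range n, g i := by
      intro n
      induction n with
      | zero => simp
      | succ n ih =>
        rw [Finset.sum_range_succ, mul_add, ← ih, add_mul, one_mul, Finset.sum_range_add]
        congr 1
        have : ∀ x ∈ Finset.range (L ^ 2), g ((n * L ^ 2 + x) / L ^ 2) = g n := by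
          intro x hx
          rw [Finset.mem_range] at hx
          congr 1
          rw [mul_comm, Nat.mul_add_div hL2, Nat.div_eq_of_lt hx, add_zero]
        rw [Finset.sum_congr rfl this]
        simp
    have t3 : ∀ n : ℕ, ∑ i ∈ Finset.range n, g i ≤ 2 * C0 ^ d / c0 ^ d := by
      intro n
      have a1 : ∑ i ∈ Finset.range n, g i ≤ ∑ i ∈ Finset.range (n + 1), g i := by
        rw [Finset.sum_range_succ]; linarith [hg0 n]
      refine a1.trans ?_
      rw [Finset.sum_range_succ']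
      have a2 : ∀ i, g (i + 1) = 2 * C0 ^ d * (1 - c0 ^ d) ^ i := by
        intro i; rw [hg]; simp
      have a3 : g 0 = 0 := by rw [hg]; simp
      simp only [a2, a3, add_zero]
      rw [← Finset.mul_sum]
      have a4 : ∑ i ∈ Finset.range n, (1 - c0 ^ d) ^ i ≤ 1 / c0 ^ d := by
        have := geom_sum_mul_neg (1 - c0 ^ d) n
        rw [sub_sub_cancel] at this
        rw [le_div_iff₀ hc, this]
        have : 0 ≤ (1 - c0 ^ d) ^ n := pow_nonneg (by linarith) n
        linarith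
      calc 2 * C0 ^ d * ∑ i ∈ Finset.range n, (1 - c0 ^ d) ^ i
          ≤ 2 * C0 ^ d * (1 / c0 ^ d) := mul_le_mul_of_nonneg_left a4 (by positivity)
        _ = _ := by ring
    have t4 : ∑ j ∈ Finset.Ico a J, g (j / L ^ 2) ≤ ∑ j ∈ Finset.range (J * L ^ 2), g (j / L ^ 2) := by
      refine Finset.sum_le_sum_of_subset_of_nonneg ?_ fun i _ _ => hg0 _
      intro j hj
      rw [Finset.mem_Ico] at hj
      rw [Finset.mem_range]
      calc j < J := hj.2
        _ = J * 1 := (mul_one J).symm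
        _ ≤ J * L ^ 2 := Nat.mul_le_mul_left J hL2
    refine t4.trans ?_
    rw [t2]
    have t5 : (L:ℝ) ^ 2 ≤ (L:ℝ) ^ d / L := by
      rw [le_div_iff₀ (by linarith), ← pow_succ]
      exact pow_le_pow_right₀ hLR hd
    calc (L:ℝ) ^ 2 * ∑ i ∈ Finset.range J, g i ≤ (L:ℝ) ^ 2 * (2 * C0 ^ d / c0 ^ d) :=
          mul_le_mul_of_nonneg_left (t3 J) (by positivity)
      _ ≤ ((L:ℝ) ^ d / L) * (2 * C0 ^ d / c0 ^ d) :=
          mul_le_mul_of_nonneg_right t5 (by positivity)
      _ = _ := by ring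
  rw [mul_add]
  exact add_le_add h3 h4

/-- A time of order `L²` at which the rate is at most `1/2`. -/
lemma rt_half (d : ℕ) : ∃ n₀ : ℕ, 1 ≤ n₀ ∧ ∀ L : ℕ, 0 < L → rt d L (n₀ * L ^ 2) ≤ 1 / 2 := by
  have h2 : Tendsto (fun n : ℕ => 2 * C0 ^ d * (1 - c0 ^ d) ^ n) atTop
        (𝓝 (2 * C0 ^ d * 0)) := by
      refine (tendsto_pow_atTop_nhds_zero_of_lt_one ?_ ?_).const_mul _
      · linarith [c0d_le d]
      · linarith [c0d_pos d]
  rw [mul_zero] at h2
  obtain ⟨n, hn⟩ := (h2.eventually (gt_mem_nhds (by norm_num : (0:ℝ) < 1 / 2))).exists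
  refine ⟨n + 1, by omega, fun L hL => ?_⟩
  have hL2 : 0 < L ^ 2 := by positivity
  unfold rt
  have h3 : ¬ (n + 1) * L ^ 2 < L ^ 2 := by
    push Not
    exact Nat.le_mul_of_pos_left _ (by omega)
  rw [if_neg h3, Nat.mul_div_cancel _ hL2, Nat.add_sub_cancel]
  exact hn.le

end Pool.Agent.Lib.MP_fd77c3_pr
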