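import Pool.Agent.Lib.MP_fd77c3_pr.Torus

/-!
Geometry of the torus: section, integration formula, comparison with `ℝ^d`.
-/

open MeasureTheory Set Filter Topology ProbabilityTheory
open scoped ENNReal NNReal

set_option linter.unusedSectionVars false
set_option linter.unusedTactic false
set_option linter.unusedSimpArgs false

namespace Pool.Agent.Lib.MP_fd77c3_pr

/-- Fundamental domain. -/
def fd (d : ℕ) (L : ℝ) : Set (Fin d → ℝ) := univ.pi fun _ => Ioc (-(L / 2)) (L / 2)

lemma measurableSet_fd (d : ℕ) (L : ℝ) : MeasurableSet (fd d L) :=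
  MeasurableSet.univ_pi fun _ => measurableSet_Ioc

/-- Closed cube. -/
def cube (d : ℕ) (r : ℝ) : Set (Fin d → ℝ) := {x | ∀ i, |x i| ≤ r}

lemma cube_eq (d : ℕ) (r : ℝ) : cube d r = univ.pi fun _ => Icc (-r) r := by
  ext x
  simp only [cube, mem_setOf_eq, mem_univ_pi, mem_Icc, abs_le]

lemma measurableSet_cube (d : ℕ) (r : ℝ) : MeasurableSet (cube d r) := by
  rw [cube_eq]; exact MeasurableSet.univ_pi fun _ => measurableSet_Icc

lemma cube_subset_fd {d : ℕ} {r L : ℝ} (h : 2 * r < L) : cube d r ⊆ fd d L := by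
  intro x hx
  rw [fd, mem_univ_pi]
  intro i
  have := hx i
  rw [abs_le] at this
  exact ⟨by linarith [this.1], by linarith [this.2]⟩

lemma cube_add {d : ℕ} {r s : ℝ} {x y : Fin d → ℝ} (hx : x ∈ cube d r) (hy : y ∈ cube d s) :
    x + y ∈ cube d (r + s) := fun i => (abs_add_le _ _).trans (add_le_add (hx i) (hy i))

lemma volume_cube (d : ℕ) {r : ℝ} (hr : 0 ≤ r) : volume.real (cube d r) = (2 * r) ^ d := by
  rw [cube_eq, Measure.real, volume_pi, Measure.pi_pi]
  simp only [Real.volume_Icc]
  simp only [Finset.prod_const, Finset.card_univ, Fintype.card_fin, ENNReal.toReal_pow]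
  rw [ENNReal.toReal_ofReal (by linarith)]
  congr 1; ring

lemma volume_cube_lt_top (d : ℕ) (r : ℝ) : volume (cube d r) < ∞ := by
  rw [cube_eq, volume_pi, Measure.pi_pi]
  simp only [Real.volume_Icc]
  simp

/-- One-dimensional integration formula. -/
lemma map_restrict1 {L : ℝ} (hL : 0 < L) :
    (volume.restrict (Ioc (-(L / 2)) (L / 2))).map (prj1 L)
      = ENNReal.ofReal L • (volume : Measure UnitAddCircle) := by
  have h1 : (prj1 L : ℝ → UnitAddCircle) = (fun x : ℝ => (x : UnitAddCircle)) ∘ fun x => x * L⁻¹ := by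
    funext x
    change ((x / L : ℝ) : UnitAddCircle) = ((x * L⁻¹ : ℝ) : UnitAddCircle)
    rw [div_eq_mul_inv]
  have hLi : L⁻¹ ≠ 0 := inv_ne_zero hL.ne'
  have h2 := Real.map_volume_mul_right hLi
  rw [inv_inv, abs_of_pos hL] at h2
  have h3 : (fun x : ℝ => x * L⁻¹) ⁻¹' (Ioc (-(1/2) : ℝ) (-(1/2) + 1)) = Ioc (-(L / 2)) (L / 2) := by
    ext x
    simp only [mem_preimage, mem_Ioc]
    rw [← div_eq_mul_inv, lt_div_iff₀ hL, div_le_iff₀ hL]
    constructor
    · rintro ⟨a, b⟩; constructor <;> linarith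
    · rintro ⟨a, b⟩; constructor <;> linarith
  have hm : Measurable (fun x : ℝ => x * L⁻¹) := measurable_id.mul_const _
  have h4 := Measure.restrict_map (μ := (volume : Measure ℝ)) hm
    (s := Ioc (-(1/2) : ℝ) (-(1/2) + 1)) measurableSet_Ioc
  rw [h3, h2] at h4
  rw [h1, ← Measure.map_map AddCircle.measurable_mk' hm, ← h4, Measure.restrict_smul,
    Measure.map_smul]
  congr 1
  exact (UnitAddCircle.measurePreserving_mk (-(1/2))).map_eq

/-- Integration formula on the torus. -/
lemma map_restrict (d : ℕ) {L : ℝ} (hL : 0 < L) :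
    (volume.restrict (fd d L)).map (prj d L)
      = ENNReal.ofReal (L ^ d) • (volume : Measure (Tor d)) := by
  unfold fd
  have h0 : volume.restrict (univ.pi fun _ : Fin d => Ioc (-(L / 2)) (L / 2))
      = Measure.pi fun _ : Fin d => volume.restrict (Ioc (-(L / 2)) (L / 2)) := by
    rw [volume_pi, Measure.restrict_pi_pi]
  rw [h0]
  have h' : ((Real.toNNReal L : ℝ≥0) : ℝ≥0∞) = ENNReal.ofReal L := rfl
  have hsf : SigmaFinite (ENNReal.ofReal L • (volume : Measure UnitAddCircle)) := by
    rw [← h']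
    have : (((Real.toNNReal L : ℝ≥0) : ℝ≥0∞) • (volume : Measure UnitAddCircle))
      = (Real.toNNReal L) • volume := rfl
    rw [this]; infer_instance
  have h2 := Measure.pi_map_pi (μ := fun _ : Fin d => volume.restrict (Ioc (-(L / 2)) (L / 2)))
      (f := fun _ : Fin d => prj1 L)
      (hμ := fun _ => by rw [map_restrict1 hL]; exact hsf)
      (fun _ => (measurable_prj1 L).aemeasurable)
  have h3 : (prj d L : (Fin d → ℝ) → Tor d) = fun x i => prj1 L (x i) := rfl
  rw [h3, h2]
  simp only [map_restrict1 hL]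
  have h := pi_smul_const d (volume : Measure UnitAddCircle) (Real.toNNReal L)
  rw [h'] at h
  rw [h, ENNReal.ofReal_pow hL.le, volume_pi]

/-- Section on the circle. -/
noncomputable def sec1 (L : ℝ) (g : UnitAddCircle) : ℝ :=
  L * (AddCircle.measurableEquivIoc 1 (-(1/2)) g : ℝ)

/-- Section on the torus. -/
noncomputable def sec (d : ℕ) (L : ℝ) (g : Tor d) : Fin d → ℝ := fun i => sec1 L (g i)

lemma measurable_sec1 (L : ℝ) : Measurable (sec1 L) := by
  unfold sec1
  exact (measurable_subtype_coe.comp (AddCircle.measurableEquivIoc 1 (-(1/2))).measurable).const_mul L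

lemma measurable_sec (d : ℕ) (L : ℝ) : Measurable (sec d L) :=
  measurable_pi_iff.2 fun i => (measurable_sec1 L).comp (measurable_pi_apply i)

lemma prj_sec (d : ℕ) {L : ℝ} (hL : 0 < L) (g : Tor d) : prj d L (sec d L g) = g := by
  funext i
  change ((L * ((AddCircle.equivIoc 1 (-(1/2)) (g i) : Ioc (-(1/2):ℝ) (-(1/2)+1)) : ℝ) / L : ℝ)
    : UnitAddCircle) = g i
  rw [mul_div_cancel_left₀ _ hL.ne']
  exact AddCircle.coe_equivIoc

lemma sec_prj {d : ℕ} {L : ℝ} (hL : 0 < L) {x : Fin d → ℝ} (hx : x ∈ fd d L) :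
    sec d L (prj d L x) = x := by
  funext i
  change L * ((AddCircle.equivIoc 1 (-(1/2)) ((x i / L : ℝ) : UnitAddCircle)
    : Ioc (-(1/2):ℝ) (-(1/2)+1)) : ℝ) = x i
  have hxi : x i / L ∈ Ioc (-(1/2):ℝ) (-(1/2)+1) := by
    rw [fd, mem_univ_pi] at hx
    have := hx i
    constructor
    · rw [lt_div_iff₀ hL]; linarith [this.1]
    · rw [div_le_iff₀ hL]; linarith [this.2]
  rw [AddCircle.equivIoc_coe_eq hxi]
  field_simp

lemma sec_mem_fd {d : ℕ} {L : ℝ} (hL : 0 < L) (g : Tor d) : sec d L g ∈ fd d L := by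
  rw [fd, mem_univ_pi]
  intro i
  change L * ((AddCircle.equivIoc 1 (-(1/2)) (g i) : Ioc (-(1/2):ℝ) (-(1/2)+1)) : ℝ) ∈ _
  have := (AddCircle.equivIoc 1 (-(1/2)) (g i) : Ioc (-(1/2):ℝ) (-(1/2)+1)).2
  constructor
  · nlinarith [this.1]
  · nlinarith [this.2]

/-- Integration formula for functions. -/
lemma integral_tor {d : ℕ} {L : ℝ} (hL : 0 < L) {Φ : Tor d → ℝ} (hΦ : Measurable Φ) :
    L ^ d * ∫ g, Φ g = ∫ x in fd d L, Φ (prj d L x) := by
  have h1 := integral_map (μ := volume.restrict (fd d L)) (φ := prj d L)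
    (measurable_prj d L).aemeasurable (f := Φ) hΦ.aestronglyMeasurable
  rw [map_restrict d hL, integral_smul_measure, ENNReal.toReal_ofReal (by positivity),
    smul_eq_mul] at h1
  exact h1

lemma integral_tor_sec {d : ℕ} {L : ℝ} (hL : 0 < L) {φ : (Fin d → ℝ) → ℝ} (hφ : Measurable φ) :
    L ^ d * ∫ g, φ (sec d L g) = ∫ x in fd d L, φ x := by
  have h0 := integral_tor hL (hφ.comp (measurable_sec d L))
  simp only [Function.comp] at h0
  rw [h0]
  refine setIntegral_congr_fun (measurableSet_fd d L) fun x hx => ?_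
  simp only [sec_prj hL hx]

lemma integral_tor_supp {d : ℕ} {L : ℝ} (hL : 0 < L) {φ : (Fin d → ℝ) → ℝ} (hφ : Measurable φ)
    (hs : ∀ x, x ∉ fd d L → φ x = 0) : L ^ d * ∫ g, φ (sec d L g) = ∫ x, φ x := by
  rw [integral_tor_sec hL hφ, setIntegral_eq_integral_of_forall_compl_eq_zero hs]

/-- Pull back of a set. -/
def tset (d : ℕ) (L : ℝ) (K : Set (Fin d → ℝ)) : Set (Tor d) := sec d L ⁻¹' K

lemma measurableSet_tset (d : ℕ) (L : ℝ) {K : Set (Fin d → ℝ)} (hK : MeasurableSet K) :
    MeasurableSet (tset d L K) := measurable_sec d L hK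

lemma volume_tset {d : ℕ} {L : ℝ} (hL : 0 < L) {K : Set (Fin d → ℝ)} (hK : MeasurableSet K)
    (hKf : K ⊆ fd d L) : L ^ d * volume.real (tset d L K) = volume.real K := by
  have h1 : volume.real (tset d L K) = ∫ g, (K.indicator (fun _ => (1:ℝ))) (sec d L g) := by
    rw [← integral_ind (m := (volume : Measure (Tor d))) _ (measurableSet_tset d L hK)]
    rfl
  rw [h1, integral_tor_supp hL (measurable_const.indicator hK)]
  · rw [integral_indicator hK]; simp [Measure.real]
  · intro x hx
    exact indicator_of_notMem (fun h => hx (hKf h)) _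

/-- Adding on the torus versus adding in `ℝ^d`. -/
lemma sec_add {d : ℕ} {L r s : ℝ} (hL : 0 < L) (h : 2 * (r + s) < L) {y z : Tor d}
    (hy : y ∈ tset d L (cube d r)) (hz : z ∈ tset d L (cube d s)) :
    y + z ∈ tset d L (cube d (r + s)) := by
  have h1 : y + z = prj d L (sec d L y + sec d L z) := by
    rw [map_add, prj_sec d hL, prj_sec d hL]
  have h2 : sec d L y + sec d L z ∈ cube d (r + s) := cube_add hy hz
  change sec d L (y + z) ∈ cube d (r + s)
  rw [h1, sec_prj hL (cube_subset_fd h h2)]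
  exact h2

/-- Gaussian tails. -/
lemma gs_cube_tendsto (d : ℕ) (s : ℝ≥0) :
    Tendsto (fun r : ℕ => (gs d s).real (cube d r)) atTop (𝓝 1) := by
  have hmono : Monotone (fun r : ℕ => cube d (r:ℝ)) := by
    intro a b hab x hx i
    exact (hx i).trans (by exact_mod_cast hab)
  have h1 := tendsto_measure_iUnion_atTop (μ := gs d s) hmono
  have h2 : ⋃ r : ℕ, cube d (r:ℝ) = univ := by
    rw [eq_univ_iff_forall]
    intro x
    obtain ⟨n, hn⟩ := exists_nat_ge (∑ i, |x i|)
    rw [mem_iUnion]
    refine ⟨n, fun i => le_trans ?_ hn⟩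
    exact Finset.single_le_sum (f := fun i => |x i|) (fun _ _ => abs_nonneg _) (Finset.mem_univ i)
  rw [h2, measure_univ] at h1
  have h3 := (ENNReal.tendsto_toReal ENNReal.one_ne_top).comp h1
  rw [ENNReal.toReal_one] at h3
  exact h3

lemma gs_compl_tendsto (d : ℕ) (s : ℝ≥0) (a : ℝ) :
    Tendsto (fun L : ℕ => (gs d s).real (cube d ((L:ℝ) / 2 - a - 1))ᶜ) atTop (𝓝 0) := by
  have h1 : Tendsto (fun L : ℕ => (gs d s).real (cube d ((⌊(L:ℝ) / 2 - a - 1⌋₊ : ℕ) : ℝ))) atTop
      (𝓝 1) := by
    refine (gs_cube_tendsto d s).comp ?_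
    refine tendsto_nat_floor_atTop.comp ?_
    refine tendsto_atTop_add_const_right _ _ (tendsto_atTop_add_const_right _ _ ?_)
    exact tendsto_natCast_atTop_atTop.atTop_div_const (by norm_num)
  have h2 : Tendsto (fun L : ℕ => (gs d s).real (cube d ((L:ℝ) / 2 - a - 1))) atTop (𝓝 1) := by
    refine tendsto_of_tendsto_of_tendsto_of_le_of_le' h1 tendsto_const_nhds ?_ ?_
    · have hev : ∀ᶠ L : ℕ in atTop, 0 ≤ (L:ℝ) / 2 - a - 1 := by
        have : Tendsto (fun L : ℕ => (L:ℝ) / 2 - a - 1) atTop atTop := by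
          refine tendsto_atTop_add_const_right _ _ (tendsto_atTop_add_const_right _ _ ?_)
          exact tendsto_natCast_atTop_atTop.atTop_div_const (by norm_num)
        exact this.eventually_ge_atTop 0
      filter_upwards [hev] with L hL
      apply measureReal_mono _ (measure_ne_top _ _)
      intro x hx i
      exact (hx i).trans (Nat.floor_le hL)
    · exact Eventually.of_forall fun L => measureReal_le_one
  have h3 : ∀ L : ℕ, (gs d s).real (cube d ((L:ℝ) / 2 - a - 1))ᶜ
      = 1 - (gs d s).real (cube d ((L:ℝ) / 2 - a - 1)) := by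
    intro L
    rw [measureReal_compl (measurableSet_cube _ _)]; simp
  simp only [h3]
  simpa using h2.const_sub 1

/-- Averages on the torus. -/
lemma cv_pt (d : ℕ) (L : ℝ) (s : ℝ≥0) {Φ : Tor d → ℝ} (hΦ : BdM Φ) (g : Tor d) :
    cv (pt d L s) Φ g = ∫ y, Φ (g + prj d L y) ∂(gs d s) := by
  unfold cv pt
  rw [integral_map (measurable_prj d L).aemeasurable
    (hΦ.comp (measurable_const_add g)).meas.aestronglyMeasurable]

/-- Comparison of quadratic forms on the torus and on `ℝ^d`. -/
lemma form_tendsto (d : ℕ) (s : ℝ≥0) {a : ℝ} {e : (Fin d → ℝ) → ℝ} (he : BdM e)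
    (hsupp : ∀ x, x ∉ cube d a → e x = 0) :
    Tendsto (fun L : ℕ => (L:ℝ) ^ d * ∫ g, e (sec d L g) * cv (pt d L s) (fun g => e (sec d L g)) g)
      atTop (𝓝 (∫ x, e x * cv (gs d s) e x)) := by
  obtain ⟨C, hC⟩ := he.bdd
  have hC0 : 0 ≤ C := (abs_nonneg _).trans (hC 0)
  have heI : Integrable e := by
    have h1 : IntegrableOn e (cube d a) := by
      refine Measure.integrableOn_of_bounded (M := C) (volume_cube_lt_top d a).ne
        he.meas.aestronglyMeasurable (ae_of_all _ hC)
    rw [← integrableOn_univ]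
    refine h1.of_forall_sdiff_eq_zero MeasurableSet.univ fun x hx => hsupp x hx.2
  have hcvB : BdM (cv (gs d s) e) := he.cv
  -- difference bound
  have hkey : ∀ᶠ L : ℕ in atTop,
      |(L:ℝ) ^ d * (∫ g, e (sec d L g) * cv (pt d L s) (fun g => e (sec d L g)) g)
        - ∫ x, e x * cv (gs d s) e x|
      ≤ (∫ x, |e x|) * (2 * C * (gs d s).real (cube d ((L:ℝ) / 2 - a - 1))ᶜ) := by
    have hev : ∀ᶠ L : ℕ in atTop, 2 * a + 2 < (L:ℝ) :=
      tendsto_natCast_atTop_atTop.eventually_gt_atTop _
    filter_upwards [hev, eventually_gt_atTop 0] with L hL1 hL0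
    have hLR : (0:ℝ) < L := by exact_mod_cast hL0
    have hsub : cube d a ⊆ fd d L := cube_subset_fd (by linarith)
    have heG : BdM (fun g : Tor d => e (sec d L g)) := he.comp (measurable_sec d L)
    have hcvG : BdM (cv (pt d L s) (fun g : Tor d => e (sec d L g))) :=
      (pt_semi d L).bdm heG s
    have h1 : (L:ℝ) ^ d * (∫ g, e (sec d L g) * cv (pt d L s) (fun g => e (sec d L g)) g)
        = ∫ x, e x * cv (pt d L s) (fun g => e (sec d L g)) (prj d L x) := by
      rw [integral_tor hLR (heG.mul hcvG).meas]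
      have h2 : ∀ x ∈ fd d L, e (sec d L (prj d L x))
          * cv (pt d L s) (fun g => e (sec d L g)) (prj d L x)
          = e x * cv (pt d L s) (fun g => e (sec d L g)) (prj d L x) := by
        intro x hx; rw [sec_prj hLR hx]
      rw [setIntegral_congr_fun (measurableSet_fd d L) h2]
      apply setIntegral_eq_integral_of_forall_compl_eq_zero
      intro x hx
      rw [hsupp x (fun h => hx (hsub h)), zero_mul]
    have hcomp : BdM (fun x => cv (pt d L s) (fun g : Tor d => e (sec d L g)) (prj d L x)) :=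
      hcvG.comp (measurable_prj d L)
    obtain ⟨C1, hC1⟩ := hcomp.bdd
    obtain ⟨C2, hC2⟩ := hcvB.bdd
    rw [h1, ← integral_sub]
    · refine (abs_integral_le_integral_abs).trans ?_
      rw [← integral_mul_const]
      refine integral_mono_of_nonneg (ae_of_all _ fun _ => abs_nonneg _)
        (heI.abs.mul_const _) (ae_of_all _ fun x => ?_)
      simp only
      rw [← mul_sub, abs_mul]
      by_cases hx : x ∈ cube d a
      · refine mul_le_mul_of_nonneg_left ?_ (abs_nonneg _)
        rw [cv_pt d L s heG]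
        unfold cv
        rw [← integral_sub]
        · have h3 : ∀ y, |e (sec d L (prj d L x + prj d L y)) - e (x + y)|
              ≤ (cube d ((L:ℝ) / 2 - a - 1))ᶜ.indicator (fun _ => 2 * C) y := by
            intro y
            by_cases hy : y ∈ cube d ((L:ℝ) / 2 - a - 1)
            · have hxy : x + y ∈ fd d L :=
                cube_subset_fd (by linarith) (cube_add hx hy)
              rw [← map_add, sec_prj hLR hxy, sub_self, abs_zero]
              rw [indicator_of_notMem (by simpa using hy)]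
            · rw [indicator_of_mem (by simpa using hy)]
              have a1 := hC (sec d L (prj d L x + prj d L y))
              have a2 := hC (x + y)
              have := abs_sub (e (sec d L (prj d L x + prj d L y))) (e (x + y))
              linarith
          refine (abs_integral_le_integral_abs).trans ?_
          calc ∫ y, |e (sec d L (prj d L x + prj d L y)) - e (x + y)| ∂(gs d s)
              ≤ ∫ y, (cube d ((L:ℝ) / 2 - a - 1))ᶜ.indicator (fun _ => 2 * C) y ∂(gs d s) := by
                refine integral_mono_of_nonneg (ae_of_all _ fun _ => abs_nonneg _) ?_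
                  (ae_of_all _ h3)
                exact (integrable_const _).indicator (measurableSet_cube _ _).compl
            _ = 2 * C * (gs d s).real (cube d ((L:ℝ) / 2 - a - 1))ᶜ := by
                rw [integral_indicator (measurableSet_cube _ _).compl]
                simp [Measure.real, mul_comm]
        · exact (heG.comp ((measurable_const_add _).comp (measurable_prj d L))).integrable _
        · exact (he.comp (measurable_const_add _)).integrable _
      · rw [hsupp x hx]; simp
    · exact heI.mul_bdd hcomp.meas.aestronglyMeasurable (ae_of_all _ hC1)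
    · exact heI.mul_bdd hcvB.meas.aestronglyMeasurable (ae_of_all _ hC2)
  rw [tendsto_iff_norm_sub_tendsto_zero]
  have hlim : Tendsto (fun L : ℕ => (∫ x, |e x|)
      * (2 * C * (gs d s).real (cube d ((L:ℝ) / 2 - a - 1))ᶜ)) atTop (𝓝 0) := by
    have := ((gs_compl_tendsto d s a).const_mul (2 * C)).const_mul (∫ x, |e x|)
    simpa using this
  exact squeeze_zero' (Eventually.of_forall fun _ => norm_nonneg _)
    (by filter_upwards [hkey] with L hL using by simpa using hL) hlim

end Pool.Agent.Lib.MP_fd77c3_pr
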