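import Pool.Agent.Lib.MP_fd77c3_pr.Step
import Pool.Agent.Lib.MP_fd77c3_pr.TorusGeom

/-!
Auxiliary estimates used in the contraction estimate on the torus.
-/

open MeasureTheory Set Filter Topology ProbabilityTheory
open scoped ENNReal NNReal

set_option linter.unusedSectionVars false
set_option linter.unusedTactic false
set_option linter.unusedSimpArgs false

namespace Pool.Agent.Lib.MP_fd77c3_pr

section abstr

variable {G : Type*} [AddCommGroup G] [MeasurableSpace G] [MeasurableAdd₂ G] [MeasurableNeg G]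
  {m : Measure G} [IsProbabilityMeasure m] [m.IsAddRightInvariant]
  {p : ℝ≥0 → Measure G} {r : ℕ → ℝ}

lemma pot_Dm (hp : Semi p) {e : G → ℝ} (he : BdM e) {q : ℕ} {δ : ℝ≥0}
    (hq : (q : ℝ≥0) * δ = 1) (J : ℕ) :
    Dm m (p δ) (pot m p q δ e J)
      = ∫ x, pot m p q δ e J x * (e x - cv (p J) e x) ∂m := by
  have hpδ := hp.prob δ
  have hhB : BdM (pot m p q δ e J) := he.pot hp q δ J
  rw [Dm_eq hhB, ← integral_sub (hhB.sq.integrable _) ((hhB.mul hhB.cv).integrable _)]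
  refine integral_congr_ae (ae_of_all _ fun x => ?_)
  have t1 := pot_poisson hp he hq J x (m := m)
  change pot m p q δ e J x ^ 2 - pot m p q δ e J x * cv (p δ) (pot m p q δ e J) x
    = pot m p q δ e J x * (e x - cv (p J) e x)
  rw [← t1]; ring

lemma pot_local (hp : Semi p) (hr : Rate m p r) {S : ℝ}
    (hS : ∀ J : ℕ, ∑ j ∈ Finset.Ico 1 J, r j ≤ S) {B : Set G} (hB : MeasurableSet B)
    {e : G → ℝ} (he : BdM e) {q : ℕ} {δ : ℝ≥0}
    (hq : (q : ℝ≥0) * δ = 1) (J : ℕ) :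
    ∫ y, ind B y * pot m p q δ e J y ^ 2 ∂m
      ≤ (1 + m.real B * S) * (q * ∫ x, pot m p q δ e J x * (e x - cv (p J) e x) ∂m) := by
  have hhB : BdM (pot m p q δ e J) := he.pot hp q δ J
  have t1 := hp.local_ineq hr hS hB hhB 0 (m := m)
  rw [pot_mean hp he] at t1
  have t2 : Dm m (p 1) (pot m p q δ e J) ≤ q * Dm m (p δ) (pot m p q δ e J) := by
    conv_lhs => rw [← hq]
    exact hp.Dm_nsmul hhB δ q
  rw [pot_Dm hp he hq] at t2
  have hS0 : 0 ≤ S := by simpa using hS 0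
  have t3 : ∫ y, ind B y * pot m p q δ e J y ^ 2 ∂m
      = ∫ y, B.indicator (fun _ => (1:ℝ)) (0 + y) * (pot m p q δ e J y - 0) ^ 2 ∂m := by
    refine integral_congr_ae (ae_of_all _ fun y => ?_)
    change ind B y * pot m p q δ e J y ^ 2
      = B.indicator (fun _ => (1:ℝ)) (0 + y) * (pot m p q δ e J y - 0) ^ 2
    rw [zero_add, sub_zero]; rfl
  rw [t3]
  have h0 : 0 ≤ m.real B * S := mul_nonneg measureReal_nonneg hS0
  exact t1.trans (mul_le_mul_of_nonneg_left t2 (by linarith))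

lemma theta_low {h : G → ℝ} (hh : BdM h) {A : Set G} (hA : MeasurableSet A) {ζ : Measure G}
    [IsProbabilityMeasure ζ] {Z : Set G} (hZ : MeasurableSet Z) (h34 : 3 / 4 ≤ ζ.real Z)
    (hlow : ∀ x, -(1/4) ≤ h x) (hint : ∫ z, az m h A z ∂ζ ≤ m.real A / 4) :
    m.real A / 4 ≤ ∫ z in Z, (m.real A - az m h A z) ∂ζ := by
  have hA0 : 0 ≤ m.real A := measureReal_nonneg
  have hazB : BdM (az m h A) := hh.az hA
  have t1 : ∫ z in Z, (m.real A - az m h A z) ∂ζ
      = ζ.real Z * m.real A - ∫ z in Z, az m h A z ∂ζ := by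
    rw [integral_sub (integrable_const _) (hazB.integrable _)]
    simp
  have t2 : ∫ z in Z, az m h A z ∂ζ
      = ∫ z, az m h A z ∂ζ - ∫ z in Zᶜ, az m h A z ∂ζ := by
    have := integral_add_compl hZ (hazB.integrable ζ)
    linarith
  have t3 : -(m.real A / 4) * ζ.real Zᶜ ≤ ∫ z in Zᶜ, az m h A z ∂ζ := by
    have u1 : ∫ z in Zᶜ, (-(m.real A / 4)) ∂ζ
        ≤ ∫ z in Zᶜ, az m h A z ∂ζ := by
      refine integral_mono (integrable_const _) (hazB.integrable _) fun z => ?_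
      have := az_lower hh hA hlow z (m := m)
      change -(m.real A / 4) ≤ az m h A z
      linarith
    rw [setIntegral_const, smul_eq_mul] at u1
    linarith
  have t4 : ζ.real Zᶜ ≤ 1 / 4 := by
    rw [measureReal_compl hZ]; simp; linarith
  have t5 : (3 / 4) * m.real A ≤ ζ.real Z * m.real A :=
    mul_le_mul_of_nonneg_right h34 hA0
  have t6 : (m.real A / 4) * ζ.real Zᶜ ≤ (m.real A / 4) * (1 / 4) :=
    mul_le_mul_of_nonneg_left t4 (by positivity)
  rw [t1, t2]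
  linarith

end abstr

/-- The probability of a cube under the projected Gaussian law. -/
lemma pt_cube_ge {d : ℕ} {L R : ℝ} (hL : 0 < L) (hR : 2 * R < L) (s : ℝ≥0) {c : ℝ}
    (h : c ≤ (gs d s).real (cube d R)) : c ≤ (pt d L s).real (tset d L (cube d R)) := by
  refine h.trans ?_
  have hp : IsProbabilityMeasure (pt d L s) := (pt_semi d L).prob s
  unfold Measure.real
  apply ENNReal.toReal_mono (measure_ne_top _ _)
  unfold pt
  rw [Measure.map_apply (measurable_prj d L) (measurableSet_tset d L (measurableSet_cube _ _))]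
  apply measure_mono
  intro y hy
  change sec d L (prj d L y) ∈ cube d R
  rw [sec_prj hL (cube_subset_fd hR hy)]; exact hy

/-- Energy estimate for the scaled charge on the torus. -/
lemma kappa_bound {d : ℕ} {L q D J : ℕ} (hL : 0 < L) (hq : 0 < q) (hD : 1 ≤ D) (hDJ : D ≤ J)
    {δ : ℝ≥0} {e : (Fin d → ℝ) → ℝ} (he : BdM e) (he0 : ∀ x, 0 ≤ e x)
    (hint : (L:ℝ) ^ d * ∫ g : Tor d, e (sec d L g) = ∫ x, e x)
    {H : ℝ} (hH : ∑ j ∈ Finset.Ico D J, rt d L j ≤ (L:ℝ) ^ d * H)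
    {F : ℝ} (hF : ∑ i ∈ Finset.range D, ∑ l ∈ Finset.range q,
      ((L:ℝ) ^ d * ∫ g : Tor d, e (sec d L g) * cv (pt d L (l * δ + i)) (fun g => e (sec d L g)) g)
        ≤ q * F) :
    (q:ℝ) * (L:ℝ) ^ d * ∫ x, pot volume (pt d L) q δ (fun g => (q:ℝ)⁻¹ * e (sec d L g)) J x
      * ((q:ℝ)⁻¹ * e (sec d L x) - cv (pt d L J) (fun g => (q:ℝ)⁻¹ * e (sec d L g)) x)
      ≤ F + (∫ x, e x) ^ 2 * H := by
  have hLR : (0:ℝ) < L := by exact_mod_cast hL
  have hqR : (0:ℝ) < q := by exact_mod_cast hq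
  have heG : BdM (fun g : Tor d => e (sec d L g)) := he.comp (measurable_sec d L)
  have hed : BdM (fun g : Tor d => (q:ℝ)⁻¹ * e (sec d L g)) := heG.const_mul _
  have h1 := pot_energy (m := (volume : Measure (Tor d))) (pt_semi d L) (rt_rate d hL) hed
    (fun x => mul_nonneg (by positivity) (he0 _)) (q := q) (δ := δ) hD hDJ hH
  have h2 : ∀ s : ℝ≥0, ∫ x, (q:ℝ)⁻¹ * e (sec d L x)
      * cv (pt d L s) (fun g => (q:ℝ)⁻¹ * e (sec d L g)) x
      = (q:ℝ)⁻¹ ^ 2 * ∫ g, e (sec d L g) * cv (pt d L s) (fun g => e (sec d L g)) g := by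
    intro s
    rw [← integral_const_mul]
    refine integral_congr_ae (ae_of_all _ fun x => ?_)
    simp only
    rw [cv_const_mul]; ring
  simp only [h2] at h1
  rw [integral_const_mul] at h1
  set E := ∫ g : Tor d, e (sec d L g) with hE
  have h3 := mul_le_mul_of_nonneg_left h1 (by positivity : (0:ℝ) ≤ (q:ℝ) * (L:ℝ) ^ d)
  refine h3.trans ?_
  have h4 : ∑ i ∈ Finset.range D, ∑ l ∈ Finset.range q, (q:ℝ)⁻¹ ^ 2
      * ∫ g, e (sec d L g) * cv (pt d L (l * δ + i)) (fun g => e (sec d L g)) g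
      = (q:ℝ)⁻¹ ^ 2 * ∑ i ∈ Finset.range D, ∑ l ∈ Finset.range q,
        ∫ g, e (sec d L g) * cv (pt d L (l * δ + i)) (fun g => e (sec d L g)) g := by
    rw [Finset.mul_sum]
    exact Finset.sum_congr rfl fun i _ => by rw [Finset.mul_sum]
  have h5 : ∑ i ∈ Finset.range D, ∑ l ∈ Finset.range q,
      ((L:ℝ) ^ d * ∫ g : Tor d, e (sec d L g) * cv (pt d L (l * δ + i)) (fun g => e (sec d L g)) g)
      = (L:ℝ) ^ d * ∑ i ∈ Finset.range D, ∑ l ∈ Finset.range q,
        ∫ g, e (sec d L g) * cv (pt d L (l * δ + i)) (fun g => e (sec d L g)) g := by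
    rw [Finset.mul_sum]
    exact Finset.sum_congr rfl fun i _ => by rw [Finset.mul_sum]
  rw [h4]
  rw [h5] at hF
  set T := ∑ i ∈ Finset.range D, ∑ l ∈ Finset.range q,
        ∫ g, e (sec d L g) * cv (pt d L (l * δ + i)) (fun g => e (sec d L g)) g with hT
  have h6 : (q:ℝ) * (L:ℝ) ^ d * ((q:ℝ)⁻¹ ^ 2 * T + q * ((q:ℝ)⁻¹ * E) ^ 2 * ((L:ℝ) ^ d * H))
      = (q:ℝ)⁻¹ * ((L:ℝ) ^ d * T) + ((L:ℝ) ^ d * E) ^ 2 * H := by
    field_simp
  rw [h6, hint]
  have h7 : (q:ℝ)⁻¹ * ((L:ℝ) ^ d * T) ≤ F := by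
    rw [inv_mul_le_iff₀ hqR]; exact hF
  linarith

end Pool.Agent.Lib.MP_fd77c3_pr
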