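import Pool.Agent.Lib.MP_fd77c3_pr.Surv
import Pool.Agent.Lib.MP_fd77c3_pr.TorusGeom

/-!
Comparison of hitting probabilities on the torus and in space.
-/

open MeasureTheory Set Filter Topology ProbabilityTheory
open scoped ENNReal NNReal

set_option linter.unusedSectionVars false
set_option linter.unusedTactic false
set_option linter.unusedSimpArgs false

namespace Pool.Agent.Lib.MP_fd77c3_pr

section general

variable {H : Type*} [AddCommGroup H] [MeasurableSpace H] [MeasurableAdd₂ H] [MeasurableNeg H]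
variable {γ : Measure H} [IsProbabilityMeasure γ]

/-- Hitting probability, as an extended nonnegative number. -/
noncomputable def hitE (A : Set H) (γ : Measure H) (n : ℕ) (ξ : Fin n → H) (x : H) : ℝ≥0∞ :=
  ENNReal.ofReal (1 - surv A γ n ξ x)

lemma measurable_hitE {A : Set H} (hA : MeasurableSet A) (n : ℕ) :
    Measurable (fun p : (Fin n → H) × H => hitE A γ n p.1 p.2) :=
  ((measurable_surv hA n).const_sub 1).ennreal_ofReal

lemma measurable_hitE_right {A : Set H} (hA : MeasurableSet A) (n : ℕ) (ξ : Fin n → H) :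
    Measurable (hitE A γ n ξ) := (measurable_hitE hA n).comp (measurable_const.prodMk measurable_id)

lemma hitE_le_one {A : Set H} (hA : MeasurableSet A) (n : ℕ) (ξ : Fin n → H) (x : H) :
    hitE A γ n ξ x ≤ 1 := by
  unfold hitE
  rw [← ENNReal.ofReal_one]
  apply ENNReal.ofReal_le_ofReal
  linarith [surv_nonneg (γ := γ) hA n ξ x]

lemma hitE_of_mem {A : Set H} (n : ℕ) (ξ : Fin n → H) {x : H} (hx : x ∈ A) :
    hitE A γ n ξ x = 1 := by
  unfold hitE
  rcases n with _ | n
  · rw [surv_zero, ind_of_mem hx]; simp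
  · rw [surv_succ, ind_of_mem hx]; simp

lemma hitE_zero_of_not_mem {A : Set H} (ξ : Fin 0 → H) {x : H} (hx : x ∉ A) :
    hitE A γ 0 ξ x = 0 := by
  unfold hitE
  rw [surv_zero, ind_of_not_mem hx]; simp

lemma hitE_succ_of_not_mem {A : Set H} (hA : MeasurableSet A) (n : ℕ) (ξ : Fin (n + 1) → H)
    {x : H} (hx : x ∉ A) :
    hitE A γ (n + 1) ξ x = ∫⁻ y, hitE A γ n (Fin.tail ξ) (x + (y + -ξ 0)) ∂γ := by
  unfold hitE
  rw [surv_succ, ind_of_not_mem hx, sub_zero, one_mul]
  have hB : BdM (fun y => surv A γ n (Fin.tail ξ) (x + (y + -ξ 0))) :=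
    (bdM_surv hA n).comp (measurable_const.prodMk ((measurable_id.add_const _).const_add _))
  have h1 : (1:ℝ) - ∫ y, surv A γ n (Fin.tail ξ) (x + (y + -ξ 0)) ∂γ
      = ∫ y, (1 - surv A γ n (Fin.tail ξ) (x + (y + -ξ 0))) ∂γ := by
    rw [integral_sub (integrable_const _) (hB.integrable _)]; simp
  rw [h1, ofReal_integral_eq_lintegral_ofReal]
  · exact (integrable_const _).sub (hB.integrable _)
  · exact ae_of_all _ fun y => by
      simp only [Pi.zero_apply]
      linarith [surv_le_one (γ := γ) hA n (Fin.tail ξ) (x + (y + -ξ 0))]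

/-- Total hitting measure. -/
lemma lintegral_hitE_le {μ : Measure H} [SFinite μ] [μ.IsAddRightInvariant] {A : Set H}
    (hA : MeasurableSet A) (n : ℕ) (ξ : Fin n → H) :
    ∫⁻ x, hitE A γ n ξ x ∂μ ≤ (n + 1) * μ A := by
  induction n with
  | zero =>
    have h1 : ∀ x, hitE A γ 0 ξ x ≤ A.indicator (fun _ => (1:ℝ≥0∞)) x := by
      intro x
      by_cases hx : x ∈ A
      · rw [indicator_of_mem hx]; exact hitE_le_one hA _ _ _
      · rw [indicator_of_notMem hx, hitE_zero_of_not_mem ξ hx]
    refine (lintegral_mono h1).trans ?_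
    rw [lintegral_indicator_const hA]
    simp
  | succ n ih =>
    have h1 : ∀ x, hitE A γ (n + 1) ξ x ≤ A.indicator (fun _ => (1:ℝ≥0∞)) x
        + ∫⁻ y, hitE A γ n (Fin.tail ξ) (x + (y + -ξ 0)) ∂γ := by
      intro x
      by_cases hx : x ∈ A
      · rw [indicator_of_mem hx]; exact (hitE_le_one hA _ _ _).trans le_self_add
      · rw [indicator_of_notMem hx, hitE_succ_of_not_mem hA n ξ hx, zero_add]
    refine (lintegral_mono h1).trans ?_
    rw [lintegral_add_left (measurable_const.indicator hA), lintegral_indicator_const hA,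
      lintegral_lintegral_swap]
    · have h2 : ∀ y, ∫⁻ x, hitE A γ n (Fin.tail ξ) (x + (y + -ξ 0)) ∂μ
          = ∫⁻ x, hitE A γ n (Fin.tail ξ) x ∂μ := fun y =>
        lintegral_add_right_eq_self (μ := μ) (hitE A γ n (Fin.tail ξ)) (y + -ξ 0)
      simp only [h2]
      rw [lintegral_const, measure_univ, mul_one, one_mul]
      refine (add_le_add le_rfl (ih (Fin.tail ξ))).trans (le_of_eq ?_)
      push_cast
      ring
    · exact ((measurable_hitE_right hA n (Fin.tail ξ)).comp
        (measurable_fst.add (measurable_snd.add_const _))).aemeasurable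

end general

section torus

variable {d : ℕ} {L : ℝ}

/-- Lattice vectors. -/
def lat (L : ℝ) (z : Fin d → ℤ) : Fin d → ℝ := fun i => L * z i

lemma prj_add_lat (hL : 0 < L) (x : Fin d → ℝ) (z : Fin d → ℤ) :
    prj d L (x + lat L z) = prj d L x := by
  funext i
  change (((x i + L * z i) / L : ℝ) : UnitAddCircle) = ((x i / L : ℝ) : UnitAddCircle)
  rw [add_div, mul_div_cancel_left₀ _ hL.ne']
  rw [AddCircle.coe_add]
  have : ((z i : ℝ) : UnitAddCircle) = 0 := by
    have h := AddCircle.coe_eq_zero_iff (p := (1:ℝ)) (x := (z i : ℝ))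
    rw [h]
    exact ⟨z i, by simp⟩
  rw [this, add_zero]

lemma exists_lat (hL : 0 < L) {x y : Fin d → ℝ} (h : prj d L x = prj d L y) :
    ∃ z : Fin d → ℤ, x = y + lat L z := by
  have h1 : ∀ i, ∃ n : ℤ, x i = y i + L * n := by
    intro i
    have h2 : ((x i / L : ℝ) : UnitAddCircle) = ((y i / L : ℝ) : UnitAddCircle) := congrFun h i
    have h3 : ((x i / L - y i / L : ℝ) : UnitAddCircle) = 0 := by
      rw [AddCircle.coe_sub, h2, sub_self]
    rw [AddCircle.coe_eq_zero_iff] at h3
    obtain ⟨n, hn⟩ := h3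
    refine ⟨n, ?_⟩
    have h4 : (n:ℝ) = x i / L - y i / L := by rw [← hn]; simp
    rw [h4]; field_simp; ring
  choose z hz using h1
  exact ⟨z, funext hz⟩

lemma fd_disjoint (hL : 0 < L) {x : Fin d → ℝ} {z z' : Fin d → ℤ}
    (h : x + -lat L z ∈ fd d L) (h' : x + -lat L z' ∈ fd d L) : z = z' := by
  funext i
  rw [fd, mem_univ_pi] at h h'
  have h1 := h i
  have h2 := h' i
  change x i + -(L * z i) ∈ _ at h1
  change x i + -(L * z' i) ∈ _ at h2
  obtain ⟨a1, a2⟩ := h1
  obtain ⟨b1, b2⟩ := h2
  have c1 : L * ((z i : ℝ) - z' i) < L * 1 := by nlinarith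
  have c2 : L * ((z' i : ℝ) - z i) < L * 1 := by nlinarith
  have d1 : (z i : ℝ) - z' i < 1 := lt_of_mul_lt_mul_left c1 hL.le
  have d2 : (z' i : ℝ) - z i < 1 := lt_of_mul_lt_mul_left c2 hL.le
  have e1 : z i - z' i < 1 := by exact_mod_cast d1
  have e2 : z' i - z i < 1 := by exact_mod_cast d2
  omega

lemma hit_periodize (hL : 0 < L) {K : Set (Fin d → ℝ)} (hK : MeasurableSet K)
    (hKf : K ⊆ fd d L) (δ : ℝ≥0) (n : ℕ) (ξ : Fin n → Fin d → ℝ) (x : Fin d → ℝ) :
    hitE (tset d L K) (pt d L δ) n (fun i => prj d L (ξ i)) (prj d L x)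
      ≤ ∑' z : Fin d → ℤ, hitE K (gs d δ) n ξ (x + lat L z) := by
  have hp : IsProbabilityMeasure (pt d L δ) := (pt_semi d L).prob δ
  have hA : MeasurableSet (tset d L K) := measurableSet_tset d L hK
  have hmem : ∀ (n : ℕ) (ξ : Fin n → Fin d → ℝ) (x : Fin d → ℝ), prj d L x ∈ tset d L K →
      hitE (tset d L K) (pt d L δ) n (fun i => prj d L (ξ i)) (prj d L x)
      ≤ ∑' z : Fin d → ℤ, hitE K (gs d δ) n ξ (x + lat L z) := by
    intro n ξ x hx
    have h1 : sec d L (prj d L x) ∈ K := hx
    have h2 : prj d L (sec d L (prj d L x)) = prj d L x := prj_sec d hL _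
    obtain ⟨z, hz⟩ := exists_lat hL h2
    refine (hitE_le_one hA n _ _).trans ?_
    calc (1:ℝ≥0∞) = hitE K (gs d δ) n ξ (x + lat L z) := by
          rw [← hz, hitE_of_mem n ξ h1]
      _ ≤ _ := ENNReal.le_tsum z
  induction n generalizing x with
  | zero =>
    by_cases hx : prj d L x ∈ tset d L K
    · exact hmem 0 ξ x hx
    · rw [hitE_zero_of_not_mem _ hx]; exact zero_le
  | succ n ih =>
    by_cases hx : prj d L x ∈ tset d L K
    · exact hmem (n + 1) ξ x hx
    · rw [hitE_succ_of_not_mem hA n _ hx]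
      have hxz : ∀ z : Fin d → ℤ, x + lat L z ∉ K := by
        intro z hz
        apply hx
        change sec d L (prj d L x) ∈ K
        rw [← prj_add_lat hL x z, sec_prj hL (hKf hz)]
        exact hz
      have h1 : ∀ z : Fin d → ℤ, hitE K (gs d δ) (n + 1) ξ (x + lat L z)
          = ∫⁻ y, hitE K (gs d δ) n (Fin.tail ξ) (x + lat L z + (y + -ξ 0)) ∂(gs d δ) := fun z =>
        hitE_succ_of_not_mem hK n ξ (hxz z)
      simp only [h1]
      rw [← lintegral_tsum]
      · have h2 : ∫⁻ g, hitE (tset d L K) (pt d L δ) n (Fin.tail fun i => prj d L (ξ i))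
            (prj d L x + (g + -prj d L (ξ 0))) ∂(pt d L δ)
            = ∫⁻ y, hitE (tset d L K) (pt d L δ) n (fun i => prj d L (Fin.tail ξ i))
              (prj d L (x + (y + -ξ 0))) ∂(gs d δ) := by
          have h3 := lintegral_map (μ := gs d δ)
            (f := fun g => hitE (tset d L K) (pt d L δ) n (Fin.tail fun i => prj d L (ξ i))
              (prj d L x + (g + -prj d L (ξ 0))))
            ((measurable_hitE_right hA n _).comp ((measurable_id.add_const _).const_add _))
            (measurable_prj d L)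
          refine h3.trans ?_
          refine lintegral_congr fun y => ?_
          rw [map_add, map_add, map_neg]
          rfl
        rw [h2]
        refine lintegral_mono fun y => ?_
        refine (ih (Fin.tail ξ) _).trans (le_of_eq ?_)
        refine tsum_congr fun z => ?_
        congr 1
        abel
      · intro z
        exact ((measurable_hitE_right hK n (Fin.tail ξ)).comp
          ((measurable_id.add_const _).const_add _)).aemeasurable

lemma lintegral_tor (hL : 0 < L) {Φ : Tor d → ℝ≥0∞} (hΦ : Measurable Φ) :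
    ENNReal.ofReal (L ^ d) * ∫⁻ g, Φ g = ∫⁻ x in fd d L, Φ (prj d L x) := by
  have h1 := lintegral_map (μ := volume.restrict (fd d L)) hΦ (measurable_prj d L)
  rw [map_restrict d hL, lintegral_smul_measure, smul_eq_mul] at h1
  exact h1

lemma lintegral_periodize (hL : 0 < L) {f : (Fin d → ℝ) → ℝ≥0∞} (hf : Measurable f) :
    ∫⁻ x in fd d L, ∑' z : Fin d → ℤ, f (x + lat L z) ≤ ∫⁻ x, f x := by
  have hfd := measurableSet_fd d L
  have h0 : ∀ z : Fin d → ℤ, AEMeasurable (fun x => f (x + lat L z))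
      (volume.restrict (fd d L)) := fun z => (hf.comp (measurable_id.add_const _)).aemeasurable
  rw [lintegral_tsum h0]
  have h1 : ∀ z : Fin d → ℤ, ∫⁻ x in fd d L, f (x + lat L z)
      = ∫⁻ x, (fd d L).indicator (fun _ => (1:ℝ≥0∞)) (x + -lat L z) * f x := by
    intro z
    rw [← lintegral_indicator hfd]
    have h2 := lintegral_add_right_eq_self (μ := (volume : Measure (Fin d → ℝ)))
      (fun x => (fd d L).indicator (fun _ => (1:ℝ≥0∞)) (x + -lat L z) * f x) (lat L z)
    rw [← h2]
    refine lintegral_congr fun x => ?_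
    rw [add_neg_cancel_right]
    by_cases hx : x ∈ fd d L
    · rw [indicator_of_mem hx, indicator_of_mem hx, one_mul]
    · rw [indicator_of_notMem hx, indicator_of_notMem hx, zero_mul]
  simp only [h1]
  rw [← lintegral_tsum]
  · refine lintegral_mono fun x => ?_
    rw [ENNReal.tsum_mul_right]
    have h3 : ∑' z : Fin d → ℤ, (fd d L).indicator (fun _ => (1:ℝ≥0∞)) (x + -lat L z) ≤ 1 := by
      by_cases hx : ∃ z : Fin d → ℤ, x + -lat L z ∈ fd d L
      · obtain ⟨z, hz⟩ := hx
        rw [tsum_eq_single z]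
        · rw [indicator_of_mem hz]
        · intro z' hz'
          apply indicator_of_notMem
          intro h
          exact hz' (fd_disjoint hL h hz)
      · push Not at hx
        have : ∀ z : Fin d → ℤ,
            (fd d L).indicator (fun _ => (1:ℝ≥0∞)) (x + -lat L z) = 0 := fun z =>
          indicator_of_notMem (hx z) _
        simp [this]
    calc _ ≤ 1 * f x := mul_le_mul_left h3 _
      _ = f x := one_mul _
  · intro z
    refine (Measurable.mul ?_ hf).aemeasurable
    exact (measurable_const.indicator hfd).comp (measurable_id.add_const _)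

lemma lintegral_hit_torus (hL : 0 < L) {K : Set (Fin d → ℝ)} (hK : MeasurableSet K)
    (hKf : K ⊆ fd d L) (δ : ℝ≥0) (n : ℕ) (ξ : Fin n → Fin d → ℝ) :
    ENNReal.ofReal (L ^ d)
      * ∫⁻ g, hitE (tset d L K) (pt d L δ) n (fun i => prj d L (ξ i)) g
      ≤ ∫⁻ x, hitE K (gs d δ) n ξ x := by
  have hp : IsProbabilityMeasure (pt d L δ) := (pt_semi d L).prob δ
  have hA : MeasurableSet (tset d L K) := measurableSet_tset d L hK
  rw [lintegral_tor hL (measurable_hitE_right hA n _)]
  refine (lintegral_mono fun x => hit_periodize hL hK hKf δ n ξ x).trans ?_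
  exact lintegral_periodize hL (measurable_hitE_right hK n ξ)

end torus

end Pool.Agent.Lib.MP_fd77c3_pr
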